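import Mathlib

/-!
# The growth inequality

The numbers attached to primitive lattice vectors: heights `p, q` (with the additive rule of the
Farey tree) and squared sizes `P, Q, R` of the deformation (with the rule
`f (u + v) + f (u - v) = √2 * (f u + f v)`).
-/

namespace Pool.Agent.H241

/-- Heights `p > q` of two adjacent vectors `u, v`, and squared sizes of `u`, `v`, `u + v`. -/
structure St where
  /-- height of `u` -/
  p : ℝ
  /-- height of `v` -/
  q : ℝ
  /-- squared size of `u` -/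
  P : ℝ
  /-- squared size of `v` -/
  Q : ℝ
  /-- squared size of `u + v` -/
  R : ℝ

/-- pass from `(u, v)` to `(u + v, u)` -/
noncomputable def stS (t : St) : St := ⟨t.p + t.q, t.p, t.R, t.P, √2 * (t.R + t.P) - t.Q⟩

/-- pass from `(u, v)` to `(u + v, v)` -/
noncomputable def stC (t : St) : St := ⟨t.p + t.q, t.q, t.R, t.Q, √2 * (t.R + t.Q) - t.P⟩

/-- admissible states -/
structure SInv (t : St) : Prop where
  q0 : 0 < t.q
  qp : t.q ≤ t.p
  P0 : 0 < t.P
  Q0 : 0 < t.Q
  R0 : 0 < t.R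
  cone : t.P ^ 2 + t.Q ^ 2 + t.R ^ 2 = √2 * (t.P * t.Q + t.Q * t.R + t.R * t.P)

theorem r2_sq : √2 ^ 2 = (2 : ℝ) := Real.sq_sqrt (by norm_num)

theorem r2_lo : (1.41421 : ℝ) < √2 := by
  rw [Real.lt_sqrt (by norm_num)]; norm_num

theorem r2_hi : √2 < (1.41422 : ℝ) := by
  rw [Real.sqrt_lt' (by norm_num)]; norm_num

theorem pos_aux {P R : ℝ} (hP : 0 < P) (hR : 0 < R) : 0 < P ^ 2 + R ^ 2 - √2 * R * P := by
  have hhi := r2_hi
  nlinarith [sq_nonneg (P - R), mul_pos hP hR]

theorem SInv.stS {t : St} (h : SInv t) : SInv (stS t) := by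
  obtain ⟨q0, qp, P0, Q0, R0, cone⟩ := h
  refine ⟨by simp only [H241.stS]; linarith, by simp only [H241.stS]; linarith, R0, P0, ?_, ?_⟩
  · simp only [H241.stS]
    have h1 : t.Q * (√2 * (t.R + t.P) - t.Q) = t.P ^ 2 + t.R ^ 2 - √2 * t.R * t.P := by
      linear_combination (-1) * cone
    have h2 := pos_aux P0 R0
    rw [← h1] at h2
    exact (pos_iff_pos_of_mul_pos h2).1 Q0
  · simp only [H241.stS]
    linear_combination cone

theorem SInv.stC {t : St} (h : SInv t) : SInv (stC t) := by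
  obtain ⟨q0, qp, P0, Q0, R0, cone⟩ := h
  refine ⟨q0, by simp only [H241.stC]; linarith, R0, Q0, ?_, ?_⟩
  · simp only [H241.stC]
    have h1 : t.P * (√2 * (t.R + t.Q) - t.P) = t.Q ^ 2 + t.R ^ 2 - √2 * t.R * t.Q := by
      linear_combination (-1) * cone
    have h2 := pos_aux Q0 R0
    rw [← h1] at h2
    exact (pos_iff_pos_of_mul_pos h2).1 P0
  · simp only [H241.stC]
    linear_combination cone

/-- a block: the operation `stS` followed by `n` times `stC` -/
noncomputable def blk : ℕ → St → St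
  | 0, t => stS t
  | n + 1, t => stC (blk n t)

theorem SInv.blk {t : St} (h : SInv t) (n : ℕ) : SInv (blk n t) := by
  induction n with
  | zero => exact h.stS
  | succ n ih => exact ih.stC

/-- a sequence of blocks -/
noncomputable def run : List ℕ → St → St
  | [], t => t
  | n :: l, t => run l (blk n t)

theorem SInv.run {t : St} (h : SInv t) (l : List ℕ) : SInv (run l t) := by
  induction l generalizing t with
  | nil => exact h
  | cons n l ih => exact ih (h.blk n)

/-- the size functional -/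
def szM (t : St) : ℝ := t.P + t.Q

/-- the height functional (a quadratic form) -/
noncomputable def szN (p q : ℝ) : ℝ :=
  (Real.goldenRatio - 1 / 2) * p ^ 2 + 5 * Real.goldenRatio * p * q -
    (1 / 2 + 3 / 2 * Real.goldenRatio) * q ^ 2

/-- A linear functional is nonnegative on the cone as soon as it satisfies a quadratic
inequality. -/
theorem dual {P Q R A B C : ℝ} (hP : 0 < P) (hQ : 0 < Q)
    (cone : P ^ 2 + Q ^ 2 + R ^ 2 = √2 * (P * Q + Q * R + R * P))
    (h1 : 0 ≤ √2 * (A + B + C) ^ 2 + 4 * (A * B + B * C + C * A))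
    (h2 : 0 ≤ A + C + √2 / 2 * (A + B + C)) (h3 : 0 ≤ B + C + √2 / 2 * (A + B + C)) :
    0 ≤ A * P + B * Q + C * R := by
  have hr := r2_sq
  set r := √2 with hr_def
  set X := (R - P - Q) / 2 with hX
  set Y := (r - 1) * (P + Q + R) / 2 with hY
  set κ := r / 2 * (A + B + C) with hκ
  have hXY : X ^ 2 + Y ^ 2 = P * Q := by
    rw [hX, hY]
    linear_combination (1 - r / 2) * cone + (P ^ 2 + Q ^ 2 + R ^ 2 + 2 * P * Q + 2 * Q * R +
      2 * R * P) / 4 * hr - (P * Q + Q * R + R * P) / 2 * hr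
  have e : A * P + B * Q + C * R =
      (A + C + κ) * P + (B + C + κ) * Q + (2 * C + κ) * X + (-(κ * (1 + r))) * Y := by
    rw [hX, hY]
    linear_combination (κ * (P + Q + R) / 2) * hr
  rw [e]
  set A' := A + C + κ with hA'
  set B' := B + C + κ with hB'
  have key : (2 * C + κ) ^ 2 + (-(κ * (1 + r))) ^ 2 ≤ 4 * A' * B' := by
    have : 4 * A' * B' - ((2 * C + κ) ^ 2 + (-(κ * (1 + r))) ^ 2) =
        r * (A + B + C) ^ 2 + 4 * (A * B + B * C + C * A) := by
      rw [hA', hB', hκ]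
      linear_combination (-(r * (A + B + C) ^ 2 / 2) - (A + B + C) ^ 2 * r ^ 2 / 4) * hr
    linarith
  have c1 : ((2 * C + κ) * X + (-(κ * (1 + r))) * Y) ^ 2 ≤ (A' * P + B' * Q) ^ 2 := by
    have c2 : ((2 * C + κ) * X + (-(κ * (1 + r))) * Y) ^ 2 ≤
        ((2 * C + κ) ^ 2 + (-(κ * (1 + r))) ^ 2) * (X ^ 2 + Y ^ 2) := by
      have : ((2 * C + κ) ^ 2 + (-(κ * (1 + r))) ^ 2) * (X ^ 2 + Y ^ 2) -
          ((2 * C + κ) * X + (-(κ * (1 + r))) * Y) ^ 2 =
          ((2 * C + κ) * Y - (-(κ * (1 + r))) * X) ^ 2 := by ring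
      linarith [sq_nonneg ((2 * C + κ) * Y - (-(κ * (1 + r))) * X)]
    have c3 : ((2 * C + κ) ^ 2 + (-(κ * (1 + r))) ^ 2) * (X ^ 2 + Y ^ 2) ≤
        4 * A' * B' * (P * Q) := by
      rw [hXY]
      exact mul_le_mul_of_nonneg_right key (by positivity)
    have c4 : (A' * P + B' * Q) ^ 2 = 4 * A' * B' * (P * Q) + (A' * P - B' * Q) ^ 2 := by ring
    linarith [sq_nonneg (A' * P - B' * Q)]
  have c4 : 0 ≤ A' * P + B' * Q := by positivity
  have c5 := (abs_le_of_sq_le_sq' c1 c4).1
  linarith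

theorem gold_sq : Real.goldenRatio ^ 2 = Real.goldenRatio + 1 := Real.goldenRatio_sq

theorem gold_lo : (1.61803 : ℝ) < Real.goldenRatio := by
  have h5 : (2.23606 : ℝ) < √5 := by
    rw [Real.lt_sqrt (by norm_num)]; norm_num
  unfold Real.goldenRatio; linarith

theorem gold_hi : Real.goldenRatio < (1.61804 : ℝ) := by
  have h5 : √5 < (2.23608 : ℝ) := by
    rw [Real.sqrt_lt' (by norm_num)]; norm_num
  unfold Real.goldenRatio; linarith

theorem N_aux {A B C s q : ℝ} (hA : 0 < A) (hC : 0 ≤ C) (hs : 0 ≤ s) (hq : 0 ≤ q)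
    (h : 0 ≤ B ∨ B ^ 2 ≤ 4 * A * C) : 0 ≤ A * s ^ 2 + B * s * q + C * q ^ 2 := by
  rcases h with h | h
  · positivity
  · have e : 4 * A * (A * s ^ 2 + B * s * q + C * q ^ 2) =
        (2 * A * s + B * q) ^ 2 + (4 * A * C - B ^ 2) * q ^ 2 := by ring
    have : 0 ≤ 4 * A * (A * s ^ 2 + B * s * q + C * q ^ 2) := by
      rw [e]
      have := mul_nonneg (sub_nonneg.2 h) (sq_nonneg q)
      have := sq_nonneg (2 * A * s + B * q)
      linarith
    exact nonneg_of_mul_nonneg_right this (by linarith)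

theorem N_4 {p q : ℝ} (hq : 0 < q) (hp : q ≤ p) :
    52 / 5 * szN p q ≤ szN (4 * p + q) (p) := by
  have h2 := gold_sq
  have hlo := gold_lo
  have hhi := gold_hi
  set φ := Real.goldenRatio with hφ
  have e : szN (4 * p + q) (p) - 52 / 5 * szN p q =
      ((-33 / 10) + (241 / 10) * φ) * (p - q) ^ 2 + ((-53 / 5) + (46 / 5) * φ) * (p - q) * q +
      ((-13 / 5) + (17 / 10) * φ) * q ^ 2 := by
    unfold szN; rw [← hφ]; ring
  have := N_aux (A := ((-33 / 10) + (241 / 10) * φ)) (B := ((-53 / 5) + (46 / 5) * φ))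
    (C := ((-13 / 5) + (17 / 10) * φ)) (s := p - q) (q := q) (by linarith) (by linarith)
    (by linarith) hq.le (Or.inl (by linarith))
  linarith

theorem N_31 {p q : ℝ} (hq : 0 < q) (hp : q ≤ p) :
    22 * szN p q ≤ szN (4 * p + q) (3 * p + q) := by
  have h2 := gold_sq
  have hlo := gold_lo
  have hhi := gold_hi
  set φ := Real.goldenRatio with hφ
  have e : szN (4 * p + q) (3 * p + q) - 22 * szN p q =
      ((-3 / 2) + (81 / 2) * φ) * (p - q) ^ 2 + ((-10) + 5 * φ) * (p - q) * q +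
      ((3 / 2) + 2 * φ) * q ^ 2 := by
    unfold szN; rw [← hφ]; ring
  have := N_aux (A := ((-3 / 2) + (81 / 2) * φ)) (B := ((-10) + 5 * φ))
    (C := ((3 / 2) + 2 * φ)) (s := p - q) (q := q) (by linarith) (by linarith)
    (by linarith) hq.le (Or.inr (by nlinarith))
  linarith

theorem N_32 {p q : ℝ} (hq : 0 < q) (hp : q ≤ p) :
    50 * szN p q ≤ szN (7 * p + 2 * q) (3 * p + q) := by
  have h2 := gold_sq
  have hlo := gold_lo
  have hhi := gold_hi
  set φ := Real.goldenRatio with hφ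
  have e : szN (7 * p + 2 * q) (3 * p + q) - 50 * szN p q =
      ((-4) + (181 / 2) * φ) * (p - q) ^ 2 + ((-25) + 15 * φ) * (p - q) * q +
      ((3 / 2) + 12 * φ) * q ^ 2 := by
    unfold szN; rw [← hφ]; ring
  have := N_aux (A := ((-4) + (181 / 2) * φ)) (B := ((-25) + 15 * φ))
    (C := ((3 / 2) + 12 * φ)) (s := p - q) (q := q) (by linarith) (by linarith)
    (by linarith) hq.le (Or.inr (by nlinarith))
  linarith

theorem N_33 {p q : ℝ} (hq : 0 < q) (hp : q ≤ p) :
    80 * szN p q ≤ szN (10 * p + 3 * q) (3 * p + q) := by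
  have h2 := gold_sq
  have hlo := gold_lo
  have hhi := gold_hi
  set φ := Real.goldenRatio with hφ
  have e : szN (10 * p + 3 * q) (3 * p + q) - 80 * szN p q =
      ((-29 / 2) + (313 / 2) * φ) * (p - q) ^ 2 + ((-62) + 59 * φ) * (p - q) * q +
      ((-25 / 2) + 45 * φ) * q ^ 2 := by
    unfold szN; rw [← hφ]; ring
  have := N_aux (A := ((-29 / 2) + (313 / 2) * φ)) (B := ((-62) + 59 * φ))
    (C := ((-25 / 2) + 45 * φ)) (s := p - q) (q := q) (by linarith) (by linarith)
    (by linarith) hq.le (Or.inl (by linarith))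
  linarith

theorem N_34 {p q : ℝ} (hq : 0 < q) (hp : q ≤ p) :
    100 * szN p q ≤ szN (13 * p + 4 * q) (3 * p + q) := by
  have h2 := gold_sq
  have hlo := gold_lo
  have hhi := gold_hi
  set φ := Real.goldenRatio with hφ
  have e : szN (13 * p + 4 * q) (3 * p + q) - 100 * szN p q =
      ((-39) + (501 / 2) * φ) * (p - q) ^ 2 + ((-133) + 221 * φ) * (p - q) * q +
      ((-105 / 2) + 155 * φ) * q ^ 2 := by
    unfold szN; rw [← hφ]; ring
  have := N_aux (A := ((-39) + (501 / 2) * φ)) (B := ((-133) + 221 * φ))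
    (C := ((-105 / 2) + 155 * φ)) (s := p - q) (q := q) (by linarith) (by linarith)
    (by linarith) hq.le (Or.inl (by linarith))
  linarith

theorem N_24 {p q : ℝ} (hq : 0 < q) (hp : q ≤ p) :
    60 * szN p q ≤ szN (9 * p + 4 * q) (2 * p + q) := by
  have h2 := gold_sq
  have hlo := gold_lo
  have hhi := gold_hi
  set φ := Real.goldenRatio with hφ
  have e : szN (9 * p + 4 * q) (2 * p + q) - 60 * szN p q =
      ((-25 / 2) + 105 * φ) * (p - q) ^ 2 + ((-63) + 61 * φ) * (p - q) * q +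
      ((-29) + (161 / 2) * φ) * q ^ 2 := by
    unfold szN; rw [← hφ]; ring
  have := N_aux (A := ((-25 / 2) + 105 * φ)) (B := ((-63) + 61 * φ))
    (C := ((-29) + (161 / 2) * φ)) (s := p - q) (q := q) (by linarith) (by linarith)
    (by linarith) hq.le (Or.inl (by linarith))
  linarith

theorem N_23 {p q : ℝ} (hq : 0 < q) (hp : q ≤ p) :
    50 * szN p q ≤ szN (7 * p + 3 * q) (2 * p + q) := by
  have h2 := gold_sq
  have hlo := gold_lo
  have hhi := gold_hi
  set φ := Real.goldenRatio with hφ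
  have e : szN (7 * p + 3 * q) (2 * p + q) - 50 * szN p q =
      ((-3 / 2) + 63 * φ) * (p - q) ^ 2 + ((-26) + (-23) * φ) * (p - q) * q +
      ((-9 / 2) + (23 / 2) * φ) * q ^ 2 := by
    unfold szN; rw [← hφ]; ring
  have := N_aux (A := ((-3 / 2) + 63 * φ)) (B := ((-26) + (-23) * φ))
    (C := ((-9 / 2) + (23 / 2) * φ)) (s := p - q) (q := q) (by linarith) (by linarith)
    (by linarith) hq.le (Or.inr (by nlinarith))
  linarith

theorem N_211 {p q : ℝ} (hq : 0 < q) (hp : q ≤ p) :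
    73 / 2 * szN p q ≤ szN (5 * p + 2 * q) (3 * p + q) := by
  have h2 := gold_sq
  have hlo := gold_lo
  have hhi := gold_hi
  set φ := Real.goldenRatio with hφ
  have e : szN (5 * p + 2 * q) (3 * p + q) - 73 / 2 * szN p q =
      ((5 / 4) + 50 * φ) * (p - q) ^ 2 + ((-21 / 2) + (-33 / 2) * φ) * (p - q) * q +
      (4 + (3 / 4) * φ) * q ^ 2 := by
    unfold szN; rw [← hφ]; ring
  have := N_aux (A := ((5 / 4) + 50 * φ)) (B := ((-21 / 2) + (-33 / 2) * φ))
    (C := (4 + (3 / 4) * φ)) (s := p - q) (q := q) (by linarith) (by linarith)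
    (by linarith) hq.le (Or.inr (by nlinarith))
  linarith

theorem N_212 {p q : ℝ} (hq : 0 < q) (hp : q ≤ p) :
    693 / 10 * szN p q ≤ szN (8 * p + 3 * q) (3 * p + q) := by
  have h2 := gold_sq
  have hlo := gold_lo
  have hhi := gold_hi
  set φ := Real.goldenRatio with hφ
  have e : szN (8 * p + 3 * q) (3 * p + q) - 693 / 10 * szN p q =
      ((-37 / 20) + (506 / 5) * φ) * (p - q) ^ 2 + ((-307 / 10) + (-201 / 10) * φ) * (p - q) * q +
      ((4 / 5) + (103 / 20) * φ) * q ^ 2 := by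
    unfold szN; rw [← hφ]; ring
  have := N_aux (A := ((-37 / 20) + (506 / 5) * φ)) (B := ((-307 / 10) + (-201 / 10) * φ))
    (C := ((4 / 5) + (103 / 20) * φ)) (s := p - q) (q := q) (by linarith) (by linarith)
    (by linarith) hq.le (Or.inr (by nlinarith))
  linarith

theorem N_213 {p q : ℝ} (hq : 0 < q) (hp : q ≤ p) :
    95 * szN p q ≤ szN (11 * p + 4 * q) (3 * p + q) := by
  have h2 := gold_sq
  have hlo := gold_lo
  have hhi := gold_hi
  set φ := Real.goldenRatio with hφ
  have e : szN (11 * p + 4 * q) (3 * p + q) - 95 * szN p q =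
      ((-35 / 2) + (355 / 2) * φ) * (p - q) ^ 2 + ((-82) + 74 * φ) * (p - q) * q +
      ((-51 / 2) + (147 / 2) * φ) * q ^ 2 := by
    unfold szN; rw [← hφ]; ring
  have := N_aux (A := ((-35 / 2) + (355 / 2) * φ)) (B := ((-82) + 74 * φ))
    (C := ((-51 / 2) + (147 / 2) * φ)) (s := p - q) (q := q) (by linarith) (by linarith)
    (by linarith) hq.le (Or.inl (by linarith))
  linarith

theorem N_214 {p q : ℝ} (hq : 0 < q) (hp : q ≤ p) :
    148 * szN p q ≤ szN (14 * p + 5 * q) (3 * p + q) := by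
  have h2 := gold_sq
  have hlo := gold_lo
  have hhi := gold_hi
  set φ := Real.goldenRatio with hφ
  have e : szN (14 * p + 5 * q) (3 * p + q) - 148 * szN p q =
      ((-57 / 2) + (489 / 2) * φ) * (p - q) ^ 2 + ((-130) + 25 * φ) * (p - q) * q +
      ((-81 / 2) + 51 * φ) * q ^ 2 := by
    unfold szN; rw [← hφ]; ring
  have := N_aux (A := ((-57 / 2) + (489 / 2) * φ)) (B := ((-130) + 25 * φ))
    (C := ((-81 / 2) + 51 * φ)) (s := p - q) (q := q) (by linarith) (by linarith)
    (by linarith) hq.le (Or.inr (by nlinarith))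
  linarith

theorem N_221 {p q : ℝ} (hq : 0 < q) (hp : q ≤ p) :
    411 / 5 * szN p q ≤ szN (7 * p + 3 * q) (5 * p + 2 * q) := by
  have h2 := gold_sq
  have hlo := gold_lo
  have hhi := gold_hi
  set φ := Real.goldenRatio with hφ
  have e : szN (7 * p + 3 * q) (5 * p + 2 * q) - 411 / 5 * szN p q =
      ((41 / 10) + (1043 / 10) * φ) * (p - q) ^ 2 + ((-114 / 5) + (-227 / 5) * φ) * (p - q) * q +
      ((77 / 10) + (33 / 5) * φ) * q ^ 2 := by
    unfold szN; rw [← hφ]; ring
  have := N_aux (A := ((41 / 10) + (1043 / 10) * φ)) (B := ((-114 / 5) + (-227 / 5) * φ))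
    (C := ((77 / 10) + (33 / 5) * φ)) (s := p - q) (q := q) (by linarith) (by linarith)
    (by linarith) hq.le (Or.inr (by nlinarith))
  linarith

theorem N_222 {p q : ℝ} (hq : 0 < q) (hp : q ≤ p) :
    175 * szN p q ≤ szN (12 * p + 5 * q) (5 * p + 2 * q) := by
  have h2 := gold_sq
  have hlo := gold_lo
  have hhi := gold_hi
  set φ := Real.goldenRatio with hφ
  have e : szN (12 * p + 5 * q) (5 * p + 2 * q) - 175 * szN p q =
      (3 + (463 / 2) * φ) * (p - q) ^ 2 + ((-64) + (-77) * φ) * (p - q) * q +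
      (6 + 23 * φ) * q ^ 2 := by
    unfold szN; rw [← hφ]; ring
  have := N_aux (A := (3 + (463 / 2) * φ)) (B := ((-64) + (-77) * φ))
    (C := (6 + 23 * φ)) (s := p - q) (q := q) (by linarith) (by linarith)
    (by linarith) hq.le (Or.inr (by nlinarith))
  linarith

theorem N_223 {p q : ℝ} (hq : 0 < q) (hp : q ≤ p) :
    280 * szN p q ≤ szN (17 * p + 7 * q) (5 * p + 2 * q) := by
  have h2 := gold_sq
  have hlo := gold_lo
  have hhi := gold_hi
  set φ := Real.goldenRatio with hφ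
  have e : szN (17 * p + 7 * q) (5 * p + 2 * q) - 280 * szN p q =
      ((-17) + (793 / 2) * φ) * (p - q) ^ 2 + ((-163) + (-54) * φ) * (p - q) * q +
      ((-65 / 2) + (165 / 2) * φ) * q ^ 2 := by
    unfold szN; rw [← hφ]; ring
  have := N_aux (A := ((-17) + (793 / 2) * φ)) (B := ((-163) + (-54) * φ))
    (C := ((-65 / 2) + (165 / 2) * φ)) (s := p - q) (q := q) (by linarith) (by linarith)
    (by linarith) hq.le (Or.inr (by nlinarith))
  linarith

theorem N_224 {p q : ℝ} (hq : 0 < q) (hp : q ≤ p) :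
    350 * szN p q ≤ szN (22 * p + 9 * q) (5 * p + 2 * q) := by
  have h2 := gold_sq
  have hlo := gold_lo
  have hhi := gold_hi
  set φ := Real.goldenRatio with hφ
  have e : szN (22 * p + 9 * q) (5 * p + 2 * q) - 350 * szN p q =
      ((-159 / 2) + (1293 / 2) * φ) * (p - q) ^ 2 + ((-367) + 354 * φ) * (p - q) * q +
      ((-155) + (795 / 2) * φ) * q ^ 2 := by
    unfold szN; rw [← hφ]; ring
  have := N_aux (A := ((-159 / 2) + (1293 / 2) * φ)) (B := ((-367) + 354 * φ))
    (C := ((-155) + (795 / 2) * φ)) (s := p - q) (q := q) (by linarith) (by linarith)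
    (by linarith) hq.le (Or.inl (by linarith))
  linarith

theorem M_2 {t : St} (h : SInv t) : szM (blk 1 t) ≤ (7727 / 2500) * szM t := by
  have hr := r2_sq
  have hlo := r2_lo
  have hhi := r2_hi
  have hr3 : √2 ^ 3 = 2 * √2 := by rw [pow_succ, hr]
  have e : (7727 / 2500) * szM t - szM (blk 1 t) =
      ((7727 / 2500) - (1) - (1) * √2) * t.P + ((7727 / 2500) - (-1) - (0) * √2) * t.Q +
      ((0) - (0) - (1) * √2) * t.R := by
    simp only [szM, blk, stC, stS]
    linear_combination (-(0)) * hr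
  have := dual (A := ((7727 / 2500) - (1) - (1) * √2)) (B := ((7727 / 2500) - (-1) - (0) * √2))
    (C := ((0) - (0) - (1) * √2)) h.P0 h.Q0 h.cone (by nlinarith) (by nlinarith) (by nlinarith)
  linarith

theorem M_3 {t : St} (h : SInv t) : szM (blk 2 t) ≤ (41751 / 10000) * szM t := by
  have hr := r2_sq
  have hlo := r2_lo
  have hhi := r2_hi
  have hr3 : √2 ^ 3 = 2 * √2 := by rw [pow_succ, hr]
  have e : (41751 / 10000) * szM t - szM (blk 2 t) =
      ((41751 / 10000) - (3) - (1) * √2) * t.P + ((41751 / 10000) - (0) - (-1) * √2) * t.Q +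
      ((0) - (1) - (0) * √2) * t.R := by
    simp only [szM, blk, stC, stS]
    linear_combination (-((1) * t.P + (1) * t.R)) * hr
  have := dual (A := ((41751 / 10000) - (3) - (1) * √2)) (B := ((41751 / 10000) - (0) - (-1) * √2))
    (C := ((0) - (1) - (0) * √2)) h.P0 h.Q0 h.cone (by nlinarith) (by nlinarith) (by nlinarith)
  linarith

theorem M_31 {t : St} (h : SInv t) : szM (blk 0 (blk 2 t)) ≤ (36 / 5) * szM t := by
  have hr := r2_sq
  have hlo := r2_lo
  have hhi := r2_hi
  have hr3 : √2 ^ 3 = 2 * √2 := by rw [pow_succ, hr]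
  have e : (36 / 5) * szM t - szM (blk 0 (blk 2 t)) =
      ((36 / 5) - (4) - (3) * √2) * t.P + ((36 / 5) - (-1) - (-1) * √2) * t.Q +
      ((0) - (1) - (0) * √2) * t.R := by
    simp only [szM, blk, stC, stS]
    linear_combination (-((2) * t.P + (-1) * t.Q + (1) * t.R + (1) * √2 * t.P + (1) * √2 * t.R)) * hr
  have := dual (A := ((36 / 5) - (4) - (3) * √2)) (B := ((36 / 5) - (-1) - (-1) * √2))
    (C := ((0) - (1) - (0) * √2)) h.P0 h.Q0 h.cone (by nlinarith) (by nlinarith) (by nlinarith)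
  linarith

theorem M_21 {t : St} (h : SInv t) : szM (blk 0 (blk 1 t)) ≤ (1413 / 250) * szM t := by
  have hr := r2_sq
  have hlo := r2_lo
  have hhi := r2_hi
  have hr3 : √2 ^ 3 = 2 * √2 := by rw [pow_succ, hr]
  have e : (1413 / 250) * szM t - szM (blk 0 (blk 1 t)) =
      ((1413 / 250) - (2) - (2) * √2) * t.P + ((1413 / 250) - (-1) - (-1) * √2) * t.Q +
      ((0) - (1) - (1) * √2) * t.R := by
    simp only [szM, blk, stC, stS]
    linear_combination (-((1) * t.P + (1) * t.R)) * hr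
  have := dual (A := ((1413 / 250) - (2) - (2) * √2)) (B := ((1413 / 250) - (-1) - (-1) * √2))
    (C := ((0) - (1) - (1) * √2)) h.P0 h.Q0 h.cone (by nlinarith) (by nlinarith) (by nlinarith)
  linarith

theorem M_211 {t : St} (h : SInv t) : szM (blk 0 (blk 0 (blk 1 t))) ≤ (10563 / 1000) * szM t := by
  have hr := r2_sq
  have hlo := r2_lo
  have hhi := r2_hi
  have hr3 : √2 ^ 3 = 2 * √2 := by rw [pow_succ, hr]
  have e : (10563 / 1000) * szM t - szM (blk 0 (blk 0 (blk 1 t))) =
      ((10563 / 1000) - (5) - (3) * √2) * t.P + ((10563 / 1000) - (-2) - (-2) * √2) * t.Q +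
      ((0) - (3) - (1) * √2) * t.R := by
    simp only [szM, blk, stC, stS]
    linear_combination (-((3) * t.P + (-1) * t.Q + (2) * t.R + (1) * √2 * t.P + (1) * √2 * t.R)) * hr
  have := dual (A := ((10563 / 1000) - (5) - (3) * √2)) (B := ((10563 / 1000) - (-2) - (-2) * √2))
    (C := ((0) - (3) - (1) * √2)) h.P0 h.Q0 h.cone (by nlinarith) (by nlinarith) (by nlinarith)
  linarith

theorem M_212 {t : St} (h : SInv t) : szM (blk 1 (blk 0 (blk 1 t))) ≤ (161 / 10) * szM t := by
  have hr := r2_sq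
  have hlo := r2_lo
  have hhi := r2_hi
  have hr3 : √2 ^ 3 = 2 * √2 := by rw [pow_succ, hr]
  have e : (161 / 10) * szM t - szM (blk 1 (blk 0 (blk 1 t))) =
      ((161 / 10) - (8) - (5) * √2) * t.P + ((161 / 10) - (-3) - (-3) * √2) * t.Q +
      ((0) - (3) - (2) * √2) * t.R := by
    simp only [szM, blk, stC, stS]
    linear_combination (-((4) * t.P + (-2) * t.Q + (2) * t.R + (3) * √2 * t.P + (-1) * √2 * t.Q + (2) * √2 * t.R + (1) * √2 ^ 2 * t.P + (1) * √2 ^ 2 * t.R)) * hr
  have := dual (A := ((161 / 10) - (8) - (5) * √2)) (B := ((161 / 10) - (-3) - (-3) * √2))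
    (C := ((0) - (3) - (2) * √2)) h.P0 h.Q0 h.cone (by nlinarith) (by nlinarith) (by nlinarith)
  linarith

theorem M_213 {t : St} (h : SInv t) : szM (blk 2 (blk 0 (blk 1 t))) ≤ (19) * szM t := by
  have hr := r2_sq
  have hlo := r2_lo
  have hhi := r2_hi
  have hr3 : √2 ^ 3 = 2 * √2 := by rw [pow_succ, hr]
  have e : (19) * szM t - szM (blk 2 (blk 0 (blk 1 t))) =
      ((19) - (9) - (7) * √2) * t.P + ((19) - (-4) - (-3) * √2) * t.Q +
      ((0) - (3) - (2) * √2) * t.R := by
    simp only [szM, blk, stC, stS]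
    linear_combination (-((4) * t.P + (-2) * t.Q + (2) * t.R + (3) * √2 * t.P + (-2) * √2 * t.Q + (1) * √2 * t.R + (3) * √2 ^ 2 * t.P + (-1) * √2 ^ 2 * t.Q + (2) * √2 ^ 2 * t.R + (1) * √2 ^ 3 * t.P + (1) * √2 ^ 3 * t.R)) * hr
  have := dual (A := ((19) - (9) - (7) * √2)) (B := ((19) - (-4) - (-3) * √2))
    (C := ((0) - (3) - (2) * √2)) h.P0 h.Q0 h.cone (by nlinarith) (by nlinarith) (by nlinarith)
  linarith


/-- the growth factor of the deformation along the golden path (squared size) -/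
noncomputable def mm : ℝ := (1 + √2 + √(2 * √2 - 1)) / 2

theorem mm_sq : mm ^ 2 = (1 + √2) * mm - 1 := by
  have hr := r2_sq
  have hlo := r2_lo
  have h : √(2 * √2 - 1) ^ 2 = 2 * √2 - 1 := Real.sq_sqrt (by linarith)
  unfold mm
  linear_combination h / 4 - hr / 4

theorem mm_lo : (1.8832 : ℝ) < mm := by
  have hlo := r2_lo
  have h : (1.35219 : ℝ) < √(2 * √2 - 1) := by
    rw [Real.lt_sqrt (by norm_num)]; norm_num; linarith
  unfold mm; linarith

theorem mm_hi : mm < (1.88321 : ℝ) := by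
  have hhi := r2_hi
  have h : √(2 * √2 - 1) < (1.3522 : ℝ) := by
    rw [Real.sqrt_lt' (by norm_num)]; norm_num; linarith
  unfold mm; linarith

theorem M_1 {t : St} (h : SInv t) : szM (blk 0 t) ≤ mm * szM t := by
  have hr := r2_sq
  have hlo := r2_lo
  have hhi := r2_hi
  have hm := mm_sq
  have hml := mm_lo
  have e : mm * szM t - szM (blk 0 t) = (mm - 1) * t.P + mm * t.Q + (-1) * t.R := by
    simp only [szM, blk, stS]; ring
  have h1 : √2 * ((mm - 1) + mm + (-1)) ^ 2 +
      4 * ((mm - 1) * mm + mm * (-1) + (-1) * (mm - 1)) = 0 := by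
    linear_combination (4 * √2 + 4) * hm + 4 * mm * hr
  have := dual (A := mm - 1) (B := mm) (C := -1) h.P0 h.Q0 h.cone h1.ge (by nlinarith)
    (by nlinarith)
  linarith

theorem ratio {P Q R : ℝ} (hP : 0 < P) (hQ : 0 < Q)
    (cone : P ^ 2 + Q ^ 2 + R ^ 2 = √2 * (P * Q + Q * R + R * P)) : P ≤ 4.6117 * Q := by
  have hr := r2_sq
  have hlo := r2_lo
  have hhi := r2_hi
  have := dual (A := -1) (B := 4.6117) (C := 0) hP hQ cone (by nlinarith) (by nlinarith)
    (by nlinarith)
  linarith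

theorem blk_p (n : ℕ) (t : St) : (blk n t).p = (n + 1) * t.p + t.q := by
  have hq : ∀ n, (blk n t).q = t.p := by
    intro n
    induction n with
    | zero => rfl
    | succ n ih => simpa [blk, stC] using ih
  induction n with
  | zero => simp [blk, stS]
  | succ n ih =>
    simp only [blk, stC, hq, ih]; push_cast; ring

theorem blk_q (n : ℕ) (t : St) : (blk n t).q = t.p := by
  induction n with
  | zero => rfl
  | succ n ih => simpa [blk, stC] using ih

theorem blk_Q (n : ℕ) (t : St) : (blk n t).Q = t.P := by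
  induction n with
  | zero => rfl
  | succ n ih => simpa [blk, stC] using ih

theorem M_ge {t : St} (h : SInv t) (n : ℕ) : szM (blk n t) ≤ 4.6117 * szM t := by
  have h1 := h.blk n
  have r1 := ratio h1.P0 h1.Q0 h1.cone
  have r2 := ratio h.P0 h.Q0 h.cone
  rw [blk_Q] at r1
  simp only [szM, blk_Q]
  linarith

theorem N_mono {x y z : ℝ} (hx : 0 ≤ x) (hxy : x ≤ y) (hz : 0 ≤ z) : szN x z ≤ szN y z := by
  have hlo := gold_lo
  unfold szN
  have h1 : x ^ 2 ≤ y ^ 2 := by nlinarith
  have h2 : x * z ≤ y * z := mul_le_mul_of_nonneg_right hxy hz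
  nlinarith

theorem N_pos {p q : ℝ} (hq : 0 < q) (hp : q ≤ p) : 0 < szN p q := by
  have hlo := gold_lo
  have := N_mono hq.le hp hq.le
  have h2 : szN q q = (9 / 2 * Real.goldenRatio - 1) * q ^ 2 := by
    unfold szN; ring
  have : 0 < (9 / 2 * Real.goldenRatio - 1) * q ^ 2 := by
    apply mul_pos (by linarith) (by positivity)
  linarith

theorem N_1 {p q : ℝ} : Real.goldenRatio ^ 2 * szN p q ≤ szN (p + q) p := by
  have h2 := gold_sq
  have hlo := gold_lo
  set φ := Real.goldenRatio with hφ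
  have e : szN (p + q) p - φ ^ 2 * szN p q = 3 / 2 * (2 * φ - 1) * (p - φ * q) ^ 2 := by
    unfold szN; rw [← hφ]
    have h3 : φ ^ 3 = 2 * φ + 1 := by rw [pow_succ, h2]; linarith [h2]
    nlinarith [h2, h3]
  have : 0 ≤ 3 / 2 * (2 * φ - 1) * (p - φ * q) ^ 2 := by
    apply mul_nonneg (by linarith) (sq_nonneg _)
  linarith

/-- the exponent comparing the growth of the deformation with the growth of the heights -/
noncomputable def KK : ℝ := Real.log mm / Real.log (Real.goldenRatio ^ 2)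

theorem gold2_gt : (1 : ℝ) < Real.goldenRatio ^ 2 := by
  rw [gold_sq]; linarith [gold_lo]

theorem KK_spec : (Real.goldenRatio ^ 2) ^ KK = mm := by
  have h1 := gold2_gt
  have h2 : 0 < Real.log (Real.goldenRatio ^ 2) := Real.log_pos h1
  rw [Real.rpow_def_of_pos (by linarith), KK, mul_div_cancel₀ _ h2.ne',
    Real.exp_log (by linarith [mm_lo])]

theorem KK_lo : (48 / 73 : ℝ) ≤ KK := by
  have h1 := gold2_gt
  have h2 : 0 < Real.log (Real.goldenRatio ^ 2) := Real.log_pos h1
  rw [KK, le_div_iff₀ h2, div_mul_eq_mul_div, div_le_iff₀ (by norm_num)]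
  have h3 : (48 : ℝ) * Real.log (Real.goldenRatio ^ 2) =
      Real.log ((Real.goldenRatio ^ 2) ^ 48) := by
    have := Real.log_pow (Real.goldenRatio ^ 2) 48
    push_cast at this
    linarith
  have h4 : Real.log mm * 73 = Real.log (mm ^ 73) := by
    have := Real.log_pow mm 73
    push_cast at this
    linarith
  rw [h3, h4]
  refine Real.log_le_log (by positivity) ?_
  calc (Real.goldenRatio ^ 2) ^ 48 = Real.goldenRatio ^ 96 := by rw [← pow_mul]
    _ ≤ (1.61804 : ℝ) ^ 96 := by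
        gcongr
        exact gold_hi.le
    _ ≤ (1.8832 : ℝ) ^ 73 := by norm_num
    _ ≤ mm ^ 73 := by
        gcongr
        exact mm_lo.le

theorem KK_pos : 0 < KK := lt_of_lt_of_le (by norm_num) KK_lo

/-- the normalised size -/
noncomputable def FF (t : St) : ℝ := szM t / (szN t.p t.q) ^ KK

theorem szM_pos {t : St} (h : SInv t) : 0 < szM t := add_pos h.P0 h.Q0

theorem F_gen {t t' : St} (h : SInv t) {b ν θ : ℝ} (hb : 0 ≤ b) (hν : 0 < ν)
    (hM : szM t' ≤ b * szM t) (hN : ν * szN t.p t.q ≤ szN t'.p t'.q) (hθ : b ≤ θ * ν ^ KK) :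
    FF t' ≤ θ * FF t := by
  have hN0 := N_pos h.q0 h.qp
  have hM0 := szM_pos h
  have hK := KK_pos
  have e1 : (ν * szN t.p t.q) ^ KK = ν ^ KK * (szN t.p t.q) ^ KK :=
    Real.mul_rpow hν.le hN0.le
  have e2 : (ν * szN t.p t.q) ^ KK ≤ (szN t'.p t'.q) ^ KK :=
    Real.rpow_le_rpow (by positivity) hN hK.le
  have p1 : 0 < ν ^ KK := Real.rpow_pos_of_pos hν _
  have p2 : 0 < (szN t.p t.q) ^ KK := Real.rpow_pos_of_pos hN0 _
  have p3 : 0 < (ν * szN t.p t.q) ^ KK := by rw [e1]; positivity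
  unfold FF
  calc szM t' / (szN t'.p t'.q) ^ KK ≤ (b * szM t) / (szN t'.p t'.q) ^ KK := by
        gcongr
        exact (lt_of_lt_of_le p3 e2).le
    _ ≤ (b * szM t) / (ν * szN t.p t.q) ^ KK := by
        gcongr
    _ = (b / ν ^ KK) * (szM t / (szN t.p t.q) ^ KK) := by
        rw [e1]; field_simp
    _ ≤ θ * (szM t / (szN t.p t.q) ^ KK) := by
        gcongr
        rw [div_le_iff₀ p1]; exact hθ

theorem F_step {t t' : St} (h : SInv t) {b ν : ℝ} (hb : 0 ≤ b) (hν : 1 ≤ ν)
    (hM : szM t' ≤ b * szM t) (hN : ν * szN t.p t.q ≤ szN t'.p t'.q)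
    (hnum : b ^ 73 ≤ (0.995 : ℝ) ^ 73 * ν ^ 48) : FF t' ≤ 0.995 * FF t := by
  refine F_gen h hb (by linarith) hM hN ?_
  have h0 : 0 < ν := by linarith
  have h1 : ν ^ (48 / 73 : ℝ) ≤ ν ^ KK := Real.rpow_le_rpow_of_exponent_le hν KK_lo
  have h2 : b ≤ 0.995 * ν ^ (48 / 73 : ℝ) := by
    have e : (0.995 * ν ^ (48 / 73 : ℝ)) ^ 73 = (0.995 : ℝ) ^ 73 * ν ^ 48 := by
      have h5 : (ν ^ (48 / 73 : ℝ)) ^ 73 = ν ^ 48 := by
        rw [← Real.rpow_natCast (ν ^ (48 / 73 : ℝ)) 73, ← Real.rpow_mul h0.le]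
        have : (48 / 73 : ℝ) * ((73 : ℕ) : ℝ) = ((48 : ℕ) : ℝ) := by norm_num
        rw [this, Real.rpow_natCast]
      rw [mul_pow, h5]
    rw [← e] at hnum
    exact le_of_pow_le_pow_left₀ (by norm_num) (by positivity) hnum
  linarith

theorem F_crude {t t' : St} (h : SInv t) {b : ℝ} (hb : 0 ≤ b)
    (hM : szM t' ≤ b * szM t) (hN : szN t.p t.q ≤ szN t'.p t'.q) : FF t' ≤ b * FF t := by
  refine F_gen h hb one_pos hM (by rwa [one_mul]) ?_
  rw [Real.one_rpow, mul_one]

theorem F_gold {t : St} (h : SInv t) : FF (blk 0 t) ≤ FF t := by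
  have := F_gen (t := t) (t' := blk 0 t) (b := mm) (ν := Real.goldenRatio ^ 2) (θ := 1) h
    (by linarith [mm_lo]) (by positivity) (M_1 h) N_1 (by rw [KK_spec, one_mul])
  rwa [one_mul] at this

theorem M_1' {t : St} (h : SInv t) : szM (blk 0 t) ≤ 1.88321 * szM t := by
  have h1 := M_1 h
  have h2 := szM_pos h
  have h3 := mm_hi
  nlinarith

theorem W_4 {t : St} (h : SInv t) (n : ℕ) :
    FF (blk (n + 3) t) ≤ 0.995 * FF t := by
  have hn : (0 : ℝ) ≤ n := Nat.cast_nonneg n
  have hp := h.q0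
  have hqp := h.qp
  have e1 : 4 * t.p + t.q ≤ (blk (n + 3) t).p := by
    simp only [blk_p]; push_cast; nlinarith
  have e2 : (blk (n + 3) t).q = t.p := blk_q _ _
  have hN : (52 / 5) * szN t.p t.q ≤ szN (blk (n + 3) t).p (blk (n + 3) t).q := by
    rw [e2]
    exact (N_4 h.q0 h.qp).trans (N_mono (by linarith) e1 (by linarith))
  have hM : szM (blk (n + 3) t) ≤ (46117 / 10000) * szM t := (by have := M_ge h (n + 3); norm_num at this ⊢; linarith)
  exact F_step h (by norm_num) (by norm_num) hM hN (by norm_num)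

theorem W_31 {t : St} (h : SInv t) :
    FF (blk 0 (blk 2 t)) ≤ 0.995 * FF t := by
  have e1 : (blk 0 (blk 2 t)).p = 4 * t.p + t.q := by
    simp only [blk_p, blk_q]; push_cast; ring
  have e2 : (blk 0 (blk 2 t)).q = 3 * t.p + t.q := by
    simp only [blk_p, blk_q]; push_cast; ring
  have hN : 22 * szN t.p t.q ≤ szN (blk 0 (blk 2 t)).p (blk 0 (blk 2 t)).q := by
    rw [e1, e2]; exact N_31 h.q0 h.qp
  have hM : szM (blk 0 (blk 2 t)) ≤ (36 / 5) * szM t := (by have := M_31 h; norm_num at this ⊢; linarith)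
  exact F_step h (by norm_num) (by norm_num) hM hN (by norm_num)

theorem W_32 {t : St} (h : SInv t) :
    FF (blk 1 (blk 2 t)) ≤ 0.995 * FF t := by
  have e1 : (blk 1 (blk 2 t)).p = 7 * t.p + 2 * t.q := by
    simp only [blk_p, blk_q]; push_cast; ring
  have e2 : (blk 1 (blk 2 t)).q = 3 * t.p + t.q := by
    simp only [blk_p, blk_q]; push_cast; ring
  have hN : 50 * szN t.p t.q ≤ szN (blk 1 (blk 2 t)).p (blk 1 (blk 2 t)).q := by
    rw [e1, e2]; exact N_32 h.q0 h.qp
  have hM : szM (blk 1 (blk 2 t)) ≤ (322609977 / 25000000) * szM t := (by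
      have a1 := M_3 h
      have a2 := M_2 (h.blk 2)
      norm_num at *; linarith)
  exact F_step h (by norm_num) (by norm_num) hM hN (by norm_num)

theorem W_33 {t : St} (h : SInv t) :
    FF (blk 2 (blk 2 t)) ≤ 0.995 * FF t := by
  have e1 : (blk 2 (blk 2 t)).p = 10 * t.p + 3 * t.q := by
    simp only [blk_p, blk_q]; push_cast; ring
  have e2 : (blk 2 (blk 2 t)).q = 3 * t.p + t.q := by
    simp only [blk_p, blk_q]; push_cast; ring
  have hN : 80 * szN t.p t.q ≤ szN (blk 2 (blk 2 t)).p (blk 2 (blk 2 t)).q := by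
    rw [e1, e2]; exact N_33 h.q0 h.qp
  have hM : szM (blk 2 (blk 2 t)) ≤ (1743146001 / 100000000) * szM t := (by
      have a1 := M_3 h
      have a2 := M_3 (h.blk 2)
      norm_num at *; linarith)
  exact F_step h (by norm_num) (by norm_num) hM hN (by norm_num)

theorem W_34 {t : St} (h : SInv t) (n : ℕ) :
    FF (blk (n + 3) (blk 2 t)) ≤ 0.995 * FF t := by
  have hn : (0 : ℝ) ≤ n := Nat.cast_nonneg n
  have hp := h.q0
  have hqp := h.qp
  have e1 : 13 * t.p + 4 * t.q ≤ (blk (n + 3) (blk 2 t)).p := by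
    simp only [blk_p, blk_q]; push_cast; nlinarith
  have e2 : (blk (n + 3) (blk 2 t)).q = 3 * t.p + t.q := by
    simp only [blk_p, blk_q]; push_cast; ring
  have hN : 100 * szN t.p t.q ≤ szN (blk (n + 3) (blk 2 t)).p (blk (n + 3) (blk 2 t)).q := by
    rw [e2]
    exact (N_34 h.q0 h.qp).trans (N_mono (by linarith) e1 (by linarith))
  have hM : szM (blk (n + 3) (blk 2 t)) ≤ (1925430867 / 100000000) * szM t := (by
      have a1 := M_3 h
      have a2 := M_ge (h.blk 2) (n + 3)
      norm_num at *; linarith)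
  exact F_step h (by norm_num) (by norm_num) hM hN (by norm_num)

theorem W_23 {t : St} (h : SInv t) :
    FF (blk 2 (blk 1 t)) ≤ 0.995 * FF t := by
  have e1 : (blk 2 (blk 1 t)).p = 7 * t.p + 3 * t.q := by
    simp only [blk_p, blk_q]; push_cast; ring
  have e2 : (blk 2 (blk 1 t)).q = 2 * t.p + t.q := by
    simp only [blk_p, blk_q]; push_cast; ring
  have hN : 50 * szN t.p t.q ≤ szN (blk 2 (blk 1 t)).p (blk 2 (blk 1 t)).q := by
    rw [e1, e2]; exact N_23 h.q0 h.qp
  have hM : szM (blk 2 (blk 1 t)) ≤ (322609977 / 25000000) * szM t := (by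
      have a1 := M_2 h
      have a2 := M_3 (h.blk 1)
      norm_num at *; linarith)
  exact F_step h (by norm_num) (by norm_num) hM hN (by norm_num)

theorem W_24 {t : St} (h : SInv t) (n : ℕ) :
    FF (blk (n + 3) (blk 1 t)) ≤ 0.995 * FF t := by
  have hn : (0 : ℝ) ≤ n := Nat.cast_nonneg n
  have hp := h.q0
  have hqp := h.qp
  have e1 : 9 * t.p + 4 * t.q ≤ (blk (n + 3) (blk 1 t)).p := by
    simp only [blk_p, blk_q]; push_cast; nlinarith
  have e2 : (blk (n + 3) (blk 1 t)).q = 2 * t.p + t.q := by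
    simp only [blk_p, blk_q]; push_cast; ring
  have hN : 60 * szN t.p t.q ≤ szN (blk (n + 3) (blk 1 t)).p (blk (n + 3) (blk 1 t)).q := by
    rw [e2]
    exact (N_24 h.q0 h.qp).trans (N_mono (by linarith) e1 (by linarith))
  have hM : szM (blk (n + 3) (blk 1 t)) ≤ (356346059 / 25000000) * szM t := (by
      have a1 := M_2 h
      have a2 := M_ge (h.blk 1) (n + 3)
      norm_num at *; linarith)
  exact F_step h (by norm_num) (by norm_num) hM hN (by norm_num)

theorem W_211 {t : St} (h : SInv t) :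
    FF (blk 0 (blk 0 (blk 1 t))) ≤ 0.995 * FF t := by
  have e1 : (blk 0 (blk 0 (blk 1 t))).p = 5 * t.p + 2 * t.q := by
    simp only [blk_p, blk_q]; push_cast; ring
  have e2 : (blk 0 (blk 0 (blk 1 t))).q = 3 * t.p + t.q := by
    simp only [blk_p, blk_q]; push_cast; ring
  have hN : (73 / 2) * szN t.p t.q ≤ szN (blk 0 (blk 0 (blk 1 t))).p (blk 0 (blk 0 (blk 1 t))).q := by
    rw [e1, e2]; exact N_211 h.q0 h.qp
  have hM : szM (blk 0 (blk 0 (blk 1 t))) ≤ (10563 / 1000) * szM t := (by have := M_211 h; norm_num at this ⊢; linarith)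
  exact F_step h (by norm_num) (by norm_num) hM hN (by norm_num)

theorem W_212 {t : St} (h : SInv t) :
    FF (blk 1 (blk 0 (blk 1 t))) ≤ 0.995 * FF t := by
  have e1 : (blk 1 (blk 0 (blk 1 t))).p = 8 * t.p + 3 * t.q := by
    simp only [blk_p, blk_q]; push_cast; ring
  have e2 : (blk 1 (blk 0 (blk 1 t))).q = 3 * t.p + t.q := by
    simp only [blk_p, blk_q]; push_cast; ring
  have hN : (693 / 10) * szN t.p t.q ≤ szN (blk 1 (blk 0 (blk 1 t))).p (blk 1 (blk 0 (blk 1 t))).q := by
    rw [e1, e2]; exact N_212 h.q0 h.qp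
  have hM : szM (blk 1 (blk 0 (blk 1 t))) ≤ (161 / 10) * szM t := (by have := M_212 h; norm_num at this ⊢; linarith)
  exact F_step h (by norm_num) (by norm_num) hM hN (by norm_num)

theorem W_213 {t : St} (h : SInv t) :
    FF (blk 2 (blk 0 (blk 1 t))) ≤ 0.995 * FF t := by
  have e1 : (blk 2 (blk 0 (blk 1 t))).p = 11 * t.p + 4 * t.q := by
    simp only [blk_p, blk_q]; push_cast; ring
  have e2 : (blk 2 (blk 0 (blk 1 t))).q = 3 * t.p + t.q := by
    simp only [blk_p, blk_q]; push_cast; ring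
  have hN : 95 * szN t.p t.q ≤ szN (blk 2 (blk 0 (blk 1 t))).p (blk 2 (blk 0 (blk 1 t))).q := by
    rw [e1, e2]; exact N_213 h.q0 h.qp
  have hM : szM (blk 2 (blk 0 (blk 1 t))) ≤ 19 * szM t := (by have := M_213 h; norm_num at this ⊢; linarith)
  exact F_step h (by norm_num) (by norm_num) hM hN (by norm_num)

theorem W_214 {t : St} (h : SInv t) (n : ℕ) :
    FF (blk (n + 3) (blk 0 (blk 1 t))) ≤ 0.995 * FF t := by
  have hn : (0 : ℝ) ≤ n := Nat.cast_nonneg n
  have hp := h.q0
  have hqp := h.qp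
  have e1 : 14 * t.p + 5 * t.q ≤ (blk (n + 3) (blk 0 (blk 1 t))).p := by
    simp only [blk_p, blk_q]; push_cast; nlinarith
  have e2 : (blk (n + 3) (blk 0 (blk 1 t))).q = 3 * t.p + t.q := by
    simp only [blk_p, blk_q]; push_cast; ring
  have hN : 148 * szN t.p t.q ≤ szN (blk (n + 3) (blk 0 (blk 1 t))).p (blk (n + 3) (blk 0 (blk 1 t))).q := by
    rw [e2]
    exact (N_214 h.q0 h.qp).trans (N_mono (by linarith) e1 (by linarith))
  have hM : szM (blk (n + 3) (blk 0 (blk 1 t))) ≤ (65163321 / 2500000) * szM t := (by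
      have a1 := M_21 h
      have a2 := M_ge ((h.blk 1).blk 0) (n + 3)
      norm_num at *; linarith)
  exact F_step h (by norm_num) (by norm_num) hM hN (by norm_num)

theorem W_221 {t : St} (h : SInv t) :
    FF (blk 0 (blk 1 (blk 1 t))) ≤ 0.995 * FF t := by
  have e1 : (blk 0 (blk 1 (blk 1 t))).p = 7 * t.p + 3 * t.q := by
    simp only [blk_p, blk_q]; push_cast; ring
  have e2 : (blk 0 (blk 1 (blk 1 t))).q = 5 * t.p + 2 * t.q := by
    simp only [blk_p, blk_q]; push_cast; ring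
  have hN : (411 / 5) * szN t.p t.q ≤ szN (blk 0 (blk 1 (blk 1 t))).p (blk 0 (blk 1 (blk 1 t))).q := by
    rw [e1, e2]; exact N_221 h.q0 h.qp
  have hM : szM (blk 0 (blk 1 (blk 1 t))) ≤ (11243993247809 / 625000000000) * szM t := (by
      have a1 := M_2 h
      have a2 := M_2 (h.blk 1)
      have a3 := M_1' ((h.blk 1).blk 1)
      norm_num at *; linarith)
  exact F_step h (by norm_num) (by norm_num) hM hN (by norm_num)

theorem W_222 {t : St} (h : SInv t) :
    FF (blk 1 (blk 1 (blk 1 t))) ≤ 0.995 * FF t := by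
  have e1 : (blk 1 (blk 1 (blk 1 t))).p = 12 * t.p + 5 * t.q := by
    simp only [blk_p, blk_q]; push_cast; ring
  have e2 : (blk 1 (blk 1 (blk 1 t))).q = 5 * t.p + 2 * t.q := by
    simp only [blk_p, blk_q]; push_cast; ring
  have hN : 175 * szN t.p t.q ≤ szN (blk 1 (blk 1 (blk 1 t))).p (blk 1 (blk 1 (blk 1 t))).q := by
    rw [e1, e2]; exact N_222 h.q0 h.qp
  have hM : szM (blk 1 (blk 1 (blk 1 t))) ≤ (461352349583 / 15625000000) * szM t := (by
      have a1 := M_2 h
      have a2 := M_2 (h.blk 1)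
      have a3 := M_2 ((h.blk 1).blk 1)
      norm_num at *; linarith)
  exact F_step h (by norm_num) (by norm_num) hM hN (by norm_num)

theorem W_223 {t : St} (h : SInv t) :
    FF (blk 2 (blk 1 (blk 1 t))) ≤ 0.995 * FF t := by
  have e1 : (blk 2 (blk 1 (blk 1 t))).p = 17 * t.p + 7 * t.q := by
    simp only [blk_p, blk_q]; push_cast; ring
  have e2 : (blk 2 (blk 1 (blk 1 t))).q = 5 * t.p + 2 * t.q := by
    simp only [blk_p, blk_q]; push_cast; ring
  have hN : 280 * szN t.p t.q ≤ szN (blk 2 (blk 1 (blk 1 t))).p (blk 2 (blk 1 (blk 1 t))).q := by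
    rw [e1, e2]; exact N_223 h.q0 h.qp
  have hM : szM (blk 2 (blk 1 (blk 1 t))) ≤ (2492807292279 / 62500000000) * szM t := (by
      have a1 := M_2 h
      have a2 := M_2 (h.blk 1)
      have a3 := M_3 ((h.blk 1).blk 1)
      norm_num at *; linarith)
  exact F_step h (by norm_num) (by norm_num) hM hN (by norm_num)

theorem W_224 {t : St} (h : SInv t) (n : ℕ) :
    FF (blk (n + 3) (blk 1 (blk 1 t))) ≤ 0.995 * FF t := by
  have hn : (0 : ℝ) ≤ n := Nat.cast_nonneg n
  have hp := h.q0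
  have hqp := h.qp
  have e1 : 22 * t.p + 9 * t.q ≤ (blk (n + 3) (blk 1 (blk 1 t))).p := by
    simp only [blk_p, blk_q]; push_cast; nlinarith
  have e2 : (blk (n + 3) (blk 1 (blk 1 t))).q = 5 * t.p + 2 * t.q := by
    simp only [blk_p, blk_q]; push_cast; ring
  have hN : 350 * szN t.p t.q ≤ szN (blk (n + 3) (blk 1 (blk 1 t))).p (blk (n + 3) (blk 1 (blk 1 t))).q := by
    rw [e2]
    exact (N_224 h.q0 h.qp).trans (N_mono (by linarith) e1 (by linarith))
  have hM : szM (blk (n + 3) (blk 1 (blk 1 t))) ≤ (2753485997893 / 62500000000) * szM t := (by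
      have a1 := M_2 h
      have a2 := M_2 (h.blk 1)
      have a3 := M_ge ((h.blk 1).blk 1) (n + 3)
      norm_num at *; linarith)
  exact F_step h (by norm_num) (by norm_num) hM hN (by norm_num)

theorem FF_pos {t : St} (h : SInv t) : 0 < FF t :=
  div_pos (szM_pos h) (Real.rpow_pos_of_pos (N_pos h.q0 h.qp) _)

theorem N_blk {t : St} (h : SInv t) (n : ℕ) : szN t.p t.q ≤ szN (blk n t).p (blk n t).q := by
  have hn : (0 : ℝ) ≤ n := Nat.cast_nonneg n
  have h0 := h.q0
  have h1 := h.qp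
  have h2 := gold_sq
  have hlo := gold_lo
  have e1 : t.p + t.q ≤ (blk n t).p := by
    rw [blk_p]; nlinarith
  have e2 : (blk n t).q = t.p := blk_q _ _
  have a1 := N_1 (p := t.p) (q := t.q)
  have a2 := N_pos h0 h1
  rw [e2]
  have a3 := N_mono (x := t.p + t.q) (y := (blk n t).p) (z := t.p) (by linarith) e1 (by linarith)
  nlinarith

/-- the crude bound for one block -/
theorem F_blk {t : St} (h : SInv t) (n : ℕ) : FF (blk n t) ≤ 4.6117 * FF t :=
  F_crude h (by norm_num) (M_ge h n) (N_blk h n)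

/-- the conclusion on a sequence of blocks -/
def Good (l : List ℕ) (t : St) : Prop :=
  FF (run l t) ≤ 25 * FF t ∧ (3 * (run l t).q ≤ 2 * (run l t).p →
    (run l t).p < 2 * (run l t).q → FF (run l t) ≤ FF t ∧
      ((∃ n ∈ l, n ≠ 0) → FF (run l t) ≤ 0.995 * FF t))

theorem Good.zero {l : List ℕ} {t : St} (h : SInv t) (g : Good l (blk 0 t)) :
    Good (0 :: l) t := by
  have a := F_gold h
  have b := FF_pos h
  refine ⟨?_, fun c1 c2 => ?_⟩
  · have := g.1
    change FF (run l (blk 0 t)) ≤ _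
    linarith
  · obtain ⟨g1, g2⟩ := g.2 c1 c2
    refine ⟨?_, ?_⟩
    · change FF (run l (blk 0 t)) ≤ _
      linarith
    · rintro ⟨n, hn, hn0⟩
      have : ∃ n ∈ l, n ≠ 0 := by
        rcases List.mem_cons.1 hn with rfl | hn
        · exact absurd rfl hn0
        · exact ⟨n, hn, hn0⟩
      have := g2 this
      change FF (run l (blk 0 t)) ≤ _
      linarith

theorem Good.step {l l' : List ℕ} {t t' : St} (h : SInv t) (g : Good l t')
    (e : run l' t = run l t') (a : FF t' ≤ 0.995 * FF t) : Good l' t := by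
  have b := FF_pos h
  refine ⟨?_, fun c1 c2 => ?_⟩
  · have := g.1
    rw [e]; linarith
  · rw [e] at c1 c2
    obtain ⟨g1, g2⟩ := g.2 c1 c2
    rw [e]
    exact ⟨by linarith, fun _ => by linarith⟩

theorem run_good (l : List ℕ) : ∀ t, SInv t → Good l t := by
  induction hl : l.length using Nat.strong_induction_on generalizing l with
  | _ N ih =>
    intro t h
    have b := FF_pos h
    have hq := h.q0
    have hqp := h.qp
    -- the induction hypothesis for the rest of the list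
    have ih' : ∀ l' : List ℕ, l'.length < l.length → ∀ t, SInv t → Good l' t := by
      intro l' h1
      exact ih _ (hl ▸ h1) l' rfl
    match l, ih' with
    | [], _ =>
      refine ⟨by change FF t ≤ _; linarith, fun _ _ => ⟨le_refl _, ?_⟩⟩
      rintro ⟨n, hn, -⟩
      simp at hn
    | 0 :: l, ih' => exact Good.zero h (ih' l (by simp) _ (h.blk 0))
    | 1 :: [], _ =>
      have a := F_blk h 1
      refine ⟨?_, fun c1 c2 => ?_⟩
      · change FF (blk 1 t) ≤ _
        linarith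
      · exfalso
        change (blk 1 t).p < 2 * (blk 1 t).q at c2
        rw [blk_p, blk_q] at c2
        push_cast at c2
        linarith
    | 1 :: 0 :: [], _ =>
      have a := F_blk h 1
      have a' := F_gold (h.blk 1)
      refine ⟨?_, fun c1 c2 => ?_⟩
      · change FF (blk 0 (blk 1 t)) ≤ _
        linarith
      · exfalso
        change 3 * (blk 0 (blk 1 t)).q ≤ 2 * (blk 0 (blk 1 t)).p at c1
        simp only [blk_p, blk_q] at c1
        push_cast at c1
        linarith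
    | 1 :: 0 :: 0 :: l, ih' =>
      exact Good.step h (ih' l (by simp <;> omega) _ (((h.blk 1).blk 0).blk 0)) rfl (W_211 h)
    | 1 :: 0 :: 1 :: l, ih' =>
      exact Good.step h (ih' l (by simp <;> omega) _ (((h.blk 1).blk 0).blk 1)) rfl (W_212 h)
    | 1 :: 0 :: 2 :: l, ih' =>
      exact Good.step h (ih' l (by simp <;> omega) _ (((h.blk 1).blk 0).blk 2)) rfl (W_213 h)
    | 1 :: 0 :: (n + 3) :: l, ih' =>
      exact Good.step h (ih' l (by simp <;> omega) _ (((h.blk 1).blk 0).blk (n + 3))) rfl (W_214 h n)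
    | 1 :: 1 :: [], _ =>
      have a := F_blk h 1
      have a' := F_blk (h.blk 1) 1
      refine ⟨?_, fun c1 c2 => ?_⟩
      · change FF (blk 1 (blk 1 t)) ≤ _
        nlinarith
      · exfalso
        change (blk 1 (blk 1 t)).p < 2 * (blk 1 (blk 1 t)).q at c2
        simp only [blk_p, blk_q] at c2
        push_cast at c2
        linarith
    | 1 :: 1 :: 0 :: l, ih' =>
      exact Good.step h (ih' l (by simp <;> omega) _ (((h.blk 1).blk 1).blk 0)) rfl (W_221 h)
    | 1 :: 1 :: 1 :: l, ih' =>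
      exact Good.step h (ih' l (by simp <;> omega) _ (((h.blk 1).blk 1).blk 1)) rfl (W_222 h)
    | 1 :: 1 :: 2 :: l, ih' =>
      exact Good.step h (ih' l (by simp <;> omega) _ (((h.blk 1).blk 1).blk 2)) rfl (W_223 h)
    | 1 :: 1 :: (n + 3) :: l, ih' =>
      exact Good.step h (ih' l (by simp <;> omega) _ (((h.blk 1).blk 1).blk (n + 3))) rfl (W_224 h n)
    | 1 :: 2 :: l, ih' =>
      exact Good.step h (ih' l (by simp <;> omega) _ ((h.blk 1).blk 2)) rfl (W_23 h)
    | 1 :: (n + 3) :: l, ih' =>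
      exact Good.step h (ih' l (by simp <;> omega) _ ((h.blk 1).blk (n + 3))) rfl (W_24 h n)
    | 2 :: [], _ =>
      have a := F_blk h 2
      refine ⟨?_, fun c1 c2 => ?_⟩
      · change FF (blk 2 t) ≤ _
        linarith
      · exfalso
        change (blk 2 t).p < 2 * (blk 2 t).q at c2
        rw [blk_p, blk_q] at c2
        push_cast at c2
        linarith
    | 2 :: 0 :: l, ih' =>
      exact Good.step h (ih' l (by simp <;> omega) _ ((h.blk 2).blk 0)) rfl (W_31 h)
    | 2 :: 1 :: l, ih' =>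
      exact Good.step h (ih' l (by simp <;> omega) _ ((h.blk 2).blk 1)) rfl (W_32 h)
    | 2 :: 2 :: l, ih' =>
      exact Good.step h (ih' l (by simp <;> omega) _ ((h.blk 2).blk 2)) rfl (W_33 h)
    | 2 :: (n + 3) :: l, ih' =>
      exact Good.step h (ih' l (by simp <;> omega) _ ((h.blk 2).blk (n + 3))) rfl (W_34 h n)
    | (n + 3) :: l, ih' =>
      exact Good.step h (ih' l (by simp) _ (h.blk (n + 3))) rfl (W_4 h n)

end Pool.Agent.H241
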