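import Pool.Agent.H683.BW.Stm

/-!
# An integer version of the theorem of Caratheodory (project BW, helper683)
-/

set_option autoImplicit false

namespace Pool.Agent.H241.BW_CAR

open Pool.Agent.H683.BW

/-- The main step: if the large entries are dependent, then the sum of squares is not maximal. -/
theorem step (hG : S_GRAM) (k N : ℕ) (D : Finset (Fin k → ℕ))
    (hD : ∀ g ∈ D, g ≠ 0 ∧ ∀ c, g c ≤ N) (m' : (Fin k → ℕ) → ℕ)
    (hdep : ¬ LinearIndependent ℚ
      (fun (g : {g // g ∈ D ∧ LL k N < m' g}) (c : Fin k) => ((g.1 c : ℕ) : ℚ))) :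
    ∃ m1 : (Fin k → ℕ) → ℕ, (∑ g ∈ D, m1 g • g = ∑ g ∈ D, m' g • g) ∧
      ∑ g ∈ D, (m' g) ^ 2 < ∑ g ∈ D, (m1 g) ^ 2 := by
  classical
  set V := {g // g ∈ D ∧ LL k N < m' g} with hV
  set v : V → Fin k → ℚ := fun g c => ((g.1 c : ℕ) : ℚ) with hv
  have : Finite V := Finite.of_injective (fun g : V => (⟨g.1, g.2.1⟩ : {g // g ∈ D}))
    (fun a b h => Subtype.ext (by simpa using congrArg Subtype.val h))
  obtain ⟨κ, a, ha, hspan, hli⟩ := exists_linearIndependent' ℚ v
  have : Finite κ := Finite.of_injective a ha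
  have := Fintype.ofFinite κ
  -- there is a vector outside the range of `a`
  have hns : ∃ h : V, h ∉ Set.range a := by
    by_contra hcon
    push Not at hcon
    apply hdep
    have hsurj : Function.Surjective a := fun x => by
      obtain ⟨y, hy⟩ := hcon x
      exact ⟨y, hy⟩
    let e : κ ≃ V := Equiv.ofBijective a ⟨ha, hsurj⟩
    have : LinearIndependent ℚ (v ∘ e) := hli
    exact (linearIndependent_equiv e).1 this
  obtain ⟨h, hh⟩ := hns
  have hh' : ∀ i, (a i).1 ≠ h.1 := fun i hi => hh ⟨i, Subtype.ext hi⟩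
  have hmem : v h ∈ Submodule.span ℚ (Set.range (v ∘ a)) := by
    rw [hspan]
    exact Submodule.subset_span ⟨h, rfl⟩
  obtain ⟨y, hy⟩ := (Submodule.mem_span_range_iff_exists_fun ℚ).1 hmem
  obtain ⟨A, d, hd0, hdR, hAR, hA⟩ := hG k N κ (fun i c => (((a i).1 c : ℕ) : ℤ))
    (fun i c => ⟨Int.natCast_nonneg _, by exact_mod_cast (hD _ (a i).2.1).2 c⟩) (by
      have : (fun (i : κ) (c : Fin k) => (((((a i).1 c : ℕ) : ℤ)) : ℚ)) = v ∘ a := by
        funext i c
        simp [hv]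
      rw [this]
      exact hli)
  -- the coefficients
  set mu : κ → ℤ := fun i => ∑ c, A i c * ((h.1 c : ℕ) : ℤ) with hmu
  have hyc : ∀ c, ((h.1 c : ℕ) : ℚ) = ∑ j, y j * (((a j).1 c : ℕ) : ℚ) := by
    intro c
    have := congrFun hy c
    rw [Finset.sum_apply] at this
    simp only [Pi.smul_apply, smul_eq_mul, Function.comp, hv] at this
    exact this.symm
  have hmuy : ∀ i, (mu i : ℚ) = d * y i := by
    intro i
    have h1 : (mu i : ℚ) = ∑ c, (A i c : ℚ) * ((h.1 c : ℕ) : ℚ) := by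
      simp [hmu]
    rw [h1]
    have h2 : ∑ c, (A i c : ℚ) * ((h.1 c : ℕ) : ℚ) =
        ∑ j, y j * ∑ c, (A i c : ℚ) * (((a j).1 c : ℕ) : ℚ) := by
      calc ∑ c, (A i c : ℚ) * ((h.1 c : ℕ) : ℚ)
          = ∑ c, ∑ j, y j * ((A i c : ℚ) * (((a j).1 c : ℕ) : ℚ)) := by
            refine Finset.sum_congr rfl fun c _ => ?_
            rw [hyc c, Finset.mul_sum]
            refine Finset.sum_congr rfl fun j _ => ?_
            ring
        _ = ∑ j, ∑ c, y j * ((A i c : ℚ) * (((a j).1 c : ℕ) : ℚ)) := Finset.sum_comm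
        _ = _ := by
            refine Finset.sum_congr rfl fun j _ => ?_
            rw [Finset.mul_sum]
    rw [h2]
    have h3 : ∀ j, ∑ c, (A i c : ℚ) * (((a j).1 c : ℕ) : ℚ) = if i = j then (d : ℚ) else 0 := by
      intro j
      have := congrArg (fun z : ℤ => (z : ℚ)) (hA i j)
      push_cast at this
      exact this
    simp only [h3]
    rw [Finset.sum_eq_single i]
    · rw [if_pos rfl]
      ring
    · intro j _ hj
      rw [if_neg (Ne.symm hj), mul_zero]
    · intro hi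
      exact absurd (Finset.mem_univ i) hi
  have hrel : ∀ c, ∑ i, mu i * (((a i).1 c : ℕ) : ℤ) = d * ((h.1 c : ℕ) : ℤ) := by
    intro c
    have : ((∑ i, mu i * (((a i).1 c : ℕ) : ℤ) : ℤ) : ℚ) = ((d * ((h.1 c : ℕ) : ℤ) : ℤ) : ℚ) := by
      push_cast
      rw [hyc c, Finset.mul_sum]
      refine Finset.sum_congr rfl fun i _ => ?_
      rw [hmuy i]
      ring
    exact_mod_cast this
  -- the relation as a function on all vectors
  set f : (Fin k → ℕ) → ℤ := fun g =>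
    (∑ i, if (a i).1 = g then mu i else 0) - (if g = h.1 then d else 0) with hf
  have hRL : (RR k N : ℤ) ≤ LL k N := by
    unfold LL
    push_cast
    have h0 : (0 : ℤ) ≤ RR k N := Int.natCast_nonneg _
    nlinarith [mul_nonneg (mul_nonneg (Int.natCast_nonneg k) (Int.natCast_nonneg N)) h0]
  have hmub : ∀ i, |mu i| ≤ LL k N := by
    intro i
    have h1 : |mu i| ≤ ∑ c : Fin k, (RR k N : ℤ) * N := by
      refine (Finset.abs_sum_le_sum_abs _ _).trans (Finset.sum_le_sum fun c _ => ?_)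
      rw [abs_mul, Int.abs_natCast]
      exact mul_le_mul (hAR i c) (by exact_mod_cast (hD _ h.2.1).2 c) (Int.natCast_nonneg _)
        (Int.natCast_nonneg _)
    rw [Finset.sum_const, Finset.card_univ, Fintype.card_fin, nsmul_eq_mul] at h1
    refine h1.trans ?_
    unfold LL
    push_cast
    have h0 : (0 : ℤ) ≤ RR k N := Int.natCast_nonneg _
    nlinarith
  have hf1 : f h.1 = -d := by
    rw [hf]
    show (∑ i, if (a i).1 = h.1 then mu i else 0) - (if h.1 = h.1 then d else 0) = -d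
    rw [if_pos rfl, Finset.sum_eq_zero, zero_sub]
    intro i _
    rw [if_neg (hh' i)]
  have hf2 : ∀ i, f (a i).1 = mu i := by
    intro i
    show (∑ j, if (a j).1 = (a i).1 then mu j else 0) - (if (a i).1 = h.1 then d else 0) = mu i
    rw [if_neg (hh' i), sub_zero, Finset.sum_eq_single i]
    · rw [if_pos rfl]
    · intro j _ hj
      rw [if_neg]
      intro hc
      exact hj (ha (Subtype.ext hc))
    · intro hi
      exact absurd (Finset.mem_univ i) hi
  have hf3 : ∀ g, g ≠ h.1 → (∀ i, (a i).1 ≠ g) → f g = 0 := by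
    intro g h1 h2
    show (∑ i, if (a i).1 = g then mu i else 0) - (if g = h.1 then d else 0) = 0
    rw [if_neg h1, sub_zero]
    refine Finset.sum_eq_zero fun i _ => ?_
    rw [if_neg (h2 i)]
  have hfb : ∀ g, f g ≠ 0 → |f g| ≤ m' g := by
    intro g hg
    by_cases h1 : g = h.1
    · subst h1
      rw [hf1, abs_neg, abs_of_pos hd0]
      have h2 : ((LL k N : ℕ) : ℤ) < m' h.1 := by exact_mod_cast h.2.2
      linarith
    · by_cases h2 : ∃ i, (a i).1 = g
      · obtain ⟨i, rfl⟩ := h2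
        rw [hf2]
        have h3 : ((LL k N : ℕ) : ℤ) < m' (a i).1 := by exact_mod_cast (a i).2.2
        have h4 := hmub i
        linarith
      · push Not at h2
        exact absurd (hf3 g h1 h2) hg
  have hp : ∀ g, 0 ≤ (m' g : ℤ) + f g ∧ 0 ≤ (m' g : ℤ) - f g := by
    intro g
    by_cases h1 : f g = 0
    · rw [h1]
      constructor <;> simp
    · have h2 := hfb g h1
      have h3 := abs_le.1 h2
      constructor <;> linarith [h3.1, h3.2]
  have hsum : ∀ c, ∑ g ∈ D, f g * ((g c : ℕ) : ℤ) = 0 := by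
    intro c
    have h1 : ∀ g, f g * ((g c : ℕ) : ℤ) =
        (∑ i, if (a i).1 = g then mu i * ((g c : ℕ) : ℤ) else 0) -
          (if g = h.1 then d * ((g c : ℕ) : ℤ) else 0) := by
      intro g
      show ((∑ i, if (a i).1 = g then mu i else 0) - (if g = h.1 then d else 0)) * _ = _
      rw [sub_mul, Finset.sum_mul]
      congr 1
      · refine Finset.sum_congr rfl fun i _ => ?_
        split_ifs
        · rfl
        · rw [zero_mul]
      · split_ifs
        · rfl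
        · rw [zero_mul]
    simp only [h1]
    rw [Finset.sum_sub_distrib, Finset.sum_comm, Finset.sum_ite_eq' D h.1, if_pos h.2.1]
    have h2 : ∀ i, ∑ g ∈ D, (if (a i).1 = g then mu i * ((g c : ℕ) : ℤ) else 0) =
        mu i * (((a i).1 c : ℕ) : ℤ) := by
      intro i
      rw [Finset.sum_ite_eq D (a i).1, if_pos (a i).2.1]
    simp only [h2]
    rw [hrel c, sub_self]
  set m1 : (Fin k → ℕ) → ℕ := fun g => ((m' g : ℤ) + f g).toNat with hm1
  set m2 : (Fin k → ℕ) → ℕ := fun g => ((m' g : ℤ) - f g).toNat with hm2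
  have e1 : ∀ g, ((m1 g : ℕ) : ℤ) = m' g + f g := fun g => Int.toNat_of_nonneg (hp g).1
  have e2 : ∀ g, ((m2 g : ℕ) : ℤ) = m' g - f g := fun g => Int.toNat_of_nonneg (hp g).2
  have s1 : ∑ g ∈ D, m1 g • g = ∑ g ∈ D, m' g • g := by
    funext c
    rw [Finset.sum_apply, Finset.sum_apply]
    simp only [Pi.smul_apply, smul_eq_mul]
    have : ((∑ g ∈ D, m1 g * g c : ℕ) : ℤ) = ((∑ g ∈ D, m' g * g c : ℕ) : ℤ) := by
      push_cast
      simp only [e1, add_mul]
      rw [Finset.sum_add_distrib, hsum c, add_zero]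
    exact_mod_cast this
  have s2 : ∑ g ∈ D, m2 g • g = ∑ g ∈ D, m' g • g := by
    funext c
    rw [Finset.sum_apply, Finset.sum_apply]
    simp only [Pi.smul_apply, smul_eq_mul]
    have : ((∑ g ∈ D, m2 g * g c : ℕ) : ℤ) = ((∑ g ∈ D, m' g * g c : ℕ) : ℤ) := by
      push_cast
      simp only [e2, sub_mul]
      rw [Finset.sum_sub_distrib, hsum c, sub_zero]
    exact_mod_cast this
  by_contra hcon
  push Not at hcon
  have c1 := hcon m1 s1
  have c2 := hcon m2 s2
  have c3 : ((∑ g ∈ D, (m1 g) ^ 2 : ℕ) : ℤ) + ((∑ g ∈ D, (m2 g) ^ 2 : ℕ) : ℤ) =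
      2 * ((∑ g ∈ D, (m' g) ^ 2 : ℕ) : ℤ) + 2 * ∑ g ∈ D, (f g) ^ 2 := by
    push_cast
    rw [← Finset.sum_add_distrib, Finset.mul_sum, Finset.mul_sum, ← Finset.sum_add_distrib]
    refine Finset.sum_congr rfl fun g _ => ?_
    rw [e1, e2]
    ring
  have c4 : 0 < ∑ g ∈ D, (f g) ^ 2 := by
    refine Finset.sum_pos' (fun g _ => sq_nonneg _) ⟨h.1, h.2.1, ?_⟩
    rw [hf1, neg_sq]
    exact pow_pos hd0 2
  have c5 : ((∑ g ∈ D, (m1 g) ^ 2 : ℕ) : ℤ) ≤ ((∑ g ∈ D, (m' g) ^ 2 : ℕ) : ℤ) := by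
    exact_mod_cast c1
  have c6 : ((∑ g ∈ D, (m2 g) ^ 2 : ℕ) : ℤ) ≤ ((∑ g ∈ D, (m' g) ^ 2 : ℕ) : ℤ) := by
    exact_mod_cast c2
  linarith

/-- The sums of squares are bounded. -/
theorem bdd (k N : ℕ) (D : Finset (Fin k → ℕ)) (hD : ∀ g ∈ D, g ≠ 0 ∧ ∀ c, g c ≤ N)
    (s : Fin k → ℕ) (m' : (Fin k → ℕ) → ℕ) (hs : ∑ g ∈ D, m' g • g = s) :
    ∑ g ∈ D, (m' g) ^ 2 ≤ D.card * (∑ c, s c) ^ 2 := by
  have h1 : ∀ g ∈ D, m' g ≤ ∑ c, s c := by
    intro g hg
    have hne : ∃ c, g c ≠ 0 := by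
      by_contra hcon
      push Not at hcon
      exact (hD g hg).1 (funext hcon)
    obtain ⟨c, hc⟩ := hne
    have h2 : s c = ∑ g ∈ D, m' g * g c := by
      rw [← hs, Finset.sum_apply]
      rfl
    calc m' g ≤ m' g * g c := Nat.le_mul_of_pos_right _ (Nat.pos_of_ne_zero hc)
      _ ≤ ∑ g ∈ D, m' g * g c :=
        Finset.single_le_sum (f := fun g => m' g * g c) (fun _ _ => Nat.zero_le _) hg
      _ = s c := h2.symm
      _ ≤ ∑ c, s c := Finset.single_le_sum (f := s) (fun _ _ => Nat.zero_le _) (Finset.mem_univ c)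
  calc ∑ g ∈ D, (m' g) ^ 2 ≤ ∑ _g ∈ D, (∑ c, s c) ^ 2 :=
        Finset.sum_le_sum fun g hg => Nat.pow_le_pow_left (h1 g hg) 2
    _ = D.card * (∑ c, s c) ^ 2 := by rw [Finset.sum_const, smul_eq_mul]

theorem CAR : S_GRAM → S_CAR := by
  intro hG k N D hD m
  set s := ∑ g ∈ D, m g • g with hs
  let P : Set ℕ := {t | ∃ m' : (Fin k → ℕ) → ℕ, ∑ g ∈ D, m' g • g = s ∧ t = ∑ g ∈ D, (m' g) ^ 2}
  have hne : P.Nonempty := ⟨_, m, rfl, rfl⟩
  have hb : BddAbove P := by
    refine ⟨D.card * (∑ c, s c) ^ 2, ?_⟩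
    rintro t ⟨m', h1, rfl⟩
    exact bdd k N D hD s m' h1
  obtain ⟨m', h1, h2⟩ := Nat.sSup_mem hne hb
  refine ⟨m', h1, ?_⟩
  by_contra hdep
  obtain ⟨m1, h3, h4⟩ := step hG k N D hD m' hdep
  have h5 : ∑ g ∈ D, (m1 g) ^ 2 ≤ sSup P := le_csSup hb ⟨m1, h3.trans h1, rfl⟩
  omega

end Pool.Agent.H241.BW_CAR
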