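import Pool.Agent.H241.Link

/-!
# Reduced bases of the sheared lattices
-/

namespace Pool.Agent.H241

/-- the position of a lattice vector at time `s`, as a complex number -/
noncomputable def Fc (s : ℝ) (v : ℤ × ℤ) : ℂ := ⟨v.1 + s * ha v, ha v⟩

/-- squared Euclidean length of a lattice vector at time `s` -/
noncomputable def en (s : ℝ) (v : ℤ × ℤ) : ℝ := (v.1 + s * ha v) ^ 2 + (ha v) ^ 2

theorem en_smul (s : ℝ) {e : ℤ} (he : e = 1 ∨ e = -1) (v : ℤ × ℤ) : en s (e • v) = en s v := by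
  rcases he with rfl | rfl
  · rw [one_smul]
  · simp only [en, ha_smul, Prod.smul_fst, smul_eq_mul]; push_cast; ring

theorem ha_ne {v : ℤ × ℤ} (hv : v ≠ 0) : ha v ≠ 0 := fun h => hv (ha_inj (by rw [h]; simp [ha]))

theorem sign_fix {v : ℤ × ℤ} (hv : v ≠ 0) : ∃ e : ℤ, (e = 1 ∨ e = -1) ∧ 0 < ha (e • v) := by
  rcases lt_or_gt_of_ne (ha_ne hv) with h | h
  · exact ⟨-1, Or.inr rfl, by rw [ha_smul]; push_cast; linarith⟩
  · exact ⟨1, Or.inl rfl, by rw [one_smul]; exact h⟩

theorem dz_smul2 (a b : ℤ) (v w : ℤ × ℤ) : dz (a • v) (b • w) = a * b * dz v w := by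
  simp only [dz, Prod.smul_fst, Prod.smul_snd, smul_eq_mul]; ring

theorem dz_swap (v w : ℤ × ℤ) : dz w v = - dz v w := by
  simp only [dz]; ring

/-- a reduced basis -/
theorem reduced0 (s : ℝ) : ∃ w1 w2 : ℤ × ℤ, dz w1 w2 = 1 ∧ en s w1 ≤ en s w2 ∧
    en s w1 * en s w2 ≤ 4 / 3 := by
  have hφ := gold_lo
  have E1 : Fc s (1, 0) ≠ 0 := by
    intro h
    have := congrArg Complex.im h
    simp only [Fc, ha, Complex.zero_im] at this
    push_cast at this
    linarith
  have hz : 0 < (Fc s (0, 1) / Fc s (1, 0)).im := by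
    rw [Complex.div_im]
    have hN : 0 < Complex.normSq (Fc s (1, 0)) := Complex.normSq_pos.2 E1
    rw [← sub_div]
    apply div_pos _ hN
    simp only [Fc, ha]
    push_cast
    ring_nf
    norm_num
  obtain ⟨g, hg⟩ := ModularGroup.exists_smul_mem_fd (UpperHalfPlane.mk _ hz)
  set τ : UpperHalfPlane := g • (UpperHalfPlane.mk _ hz) with hτ
  have hc := UpperHalfPlane.coe_specialLinearGroup_apply g (UpperHalfPlane.mk _ hz)
  rw [← hτ] at hc
  obtain ⟨h1, h2⟩ := hg
  have hdet := g.det_coe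
  rw [Matrix.det_fin_two] at hdet
  set a := g 0 0
  set b := g 0 1
  set c := g 1 0
  set d := g 1 1
  have lin : ∀ x y : ℤ, Fc s (x, y) = x * Fc s (1, 0) + y * Fc s (0, 1) := by
    intro x y
    apply Complex.ext
    · simp only [Fc, ha, Complex.add_re, Complex.mul_re, Complex.intCast_re, Complex.intCast_im]
      push_cast; ring
    · simp only [Fc, ha, Complex.add_im, Complex.mul_im, Complex.intCast_re, Complex.intCast_im]
      push_cast; ring
  refine ⟨(d, c), (b, a), ?_, ?_⟩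
  · simp only [dz]; linarith
  have hne : Fc s (d, c) ≠ 0 := by
    intro h
    have h0 : ((d, c) : ℤ × ℤ) ≠ 0 := by
      intro h0
      have e1 : d = 0 := congrArg Prod.fst h0
      have e2 : c = 0 := congrArg Prod.snd h0
      rw [e1, e2] at hdet
      simp at hdet
    exact ha_ne h0 (congrArg Complex.im h)
  have hF : (τ : ℂ) * Fc s (d, c) = Fc s (b, a) := by
    rw [hc, lin d c, lin b a]
    rw [lin d c] at hne
    simp only [algebraMap_int_eq, eq_intCast, Complex.ofReal_intCast]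
    obtain ⟨z, hzd⟩ : ∃ z, z = Fc s (0, 1) / Fc s (1, 0) := ⟨_, rfl⟩
    rw [← hzd]
    have hz1 : z * Fc s (1, 0) = Fc s (0, 1) := by rw [hzd]; field_simp
    have hne' : (c : ℂ) * z + d ≠ 0 := by
      intro h
      apply hne
      rw [← hz1]
      linear_combination (Fc s (1, 0)) * h
    rw [div_mul_eq_mul_div, div_eq_iff hne', ← hz1]
    ring
  have n1 : en s (d, c) = Complex.normSq (Fc s (d, c)) := by
    simp only [en, Fc, Complex.normSq_mk]; ring
  have n2 : en s (b, a) = Complex.normSq (Fc s (b, a)) := by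
    simp only [en, Fc, Complex.normSq_mk]; ring
  have hN := Complex.normSq_pos.2 hne
  rw [← n1] at hN
  have le1 : en s (d, c) ≤ en s (b, a) := by
    rw [n2, ← hF, map_mul, ← n1]
    nlinarith
  refine ⟨le1, ?_⟩
  -- the inner product
  have hD : (Fc s (b, a)).re * (Fc s (d, c)).re + (Fc s (b, a)).im * (Fc s (d, c)).im =
      τ.re * en s (d, c) := by
    rw [← hF, n1]
    simp only [Complex.mul_re, Complex.mul_im, Complex.normSq_apply, UpperHalfPlane.coe_re,
      UpperHalfPlane.coe_im]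
    ring
  have hI : (Fc s (d, c)).re * (Fc s (b, a)).im - (Fc s (d, c)).im * (Fc s (b, a)).re = 1 := by
    simp only [Fc, ha]
    have : ((d : ℝ) * a - c * b) = 1 := by
      have : ((d * a - c * b : ℤ) : ℝ) = 1 := by
        rw [show d * a - c * b = 1 by linarith]; norm_num
      push_cast at this
      exact this
    linear_combination this
  have id : en s (d, c) * en s (b, a) =
      ((Fc s (b, a)).re * (Fc s (d, c)).re + (Fc s (b, a)).im * (Fc s (d, c)).im) ^ 2 +
      ((Fc s (d, c)).re * (Fc s (b, a)).im - (Fc s (d, c)).im * (Fc s (b, a)).re) ^ 2 := by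
    rw [n1, n2, Complex.normSq_apply, Complex.normSq_apply]; ring
  rw [hD, hI] at id
  have h3 : (τ.re) ^ 2 ≤ (1 / 2) ^ 2 := by
    rw [← sq_abs]; exact pow_le_pow_left₀ (abs_nonneg _) h2 2
  have h4 : (τ.re * en s (d, c)) ^ 2 ≤ 1 / 4 * (en s (d, c) * en s (b, a)) := by
    rw [mul_pow]
    have : (en s (d, c)) ^ 2 ≤ en s (d, c) * en s (b, a) := by nlinarith
    nlinarith [sq_nonneg (en s (d, c))]
  linarith

/-- an adapted positive basis: either both vectors are moderately long, or both heights are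
small and one vector is short -/
theorem reduced (s : ℝ) : ∃ v1 v2 : ℤ × ℤ, dz v1 v2 = 1 ∧ 0 < ha v1 ∧ 0 < ha v2 ∧
    ((ha v1 ≤ 7 ∧ ha v2 ≤ 7 ∧ (en s v1 < 0.17 ^ 2 ∨ en s v2 < 0.17 ^ 2)) ∨
      (en s v1 ≤ 47 ∧ en s v2 ≤ 47)) := by
  obtain ⟨w1, w2, hd, hle, hprod⟩ := reduced0 s
  have hw1 : w1 ≠ 0 := by rintro rfl; simp [dz] at hd
  have hw2 : w2 ≠ 0 := by rintro rfl; simp [dz] at hd
  obtain ⟨e1, he1, hp1⟩ := sign_fix hw1
  obtain ⟨e2, he2, hp2⟩ := sign_fix hw2
  have hen1 := en_smul s he1 w1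
  have hen2 := en_smul s he2 w2
  have hee : e1 * e2 = 1 ∨ e1 * e2 = -1 := by
    rcases he1 with rfl | rfl <;> rcases he2 with rfl | rfl <;> simp
  have hdet : dz (e1 • w1) (e2 • w2) = e1 * e2 := by rw [dz_smul2, hd, mul_one]
  by_cases hs : en s w1 < 0.17 ^ 2
  · -- short vector
    generalize e1 • w1 = f at *
    generalize e2 • w2 = g at *
    have hf7 : ha f ≤ 7 := by
      have : (ha f) ^ 2 ≤ en s f := by unfold en; nlinarith [sq_nonneg ((f.1 : ℝ) + s * ha f)]
      rw [hen1] at this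
      nlinarith
    obtain ⟨k, hk1, hk2⟩ : ∃ k : ℤ, 0 < ha (g + k • f) ∧ ha (g + k • f) ≤ ha f := by
      refine ⟨-(⌈ha g / ha f⌉ - 1), ?_, ?_⟩
      · rw [ha_add, ha_smul]
        have := Int.ceil_lt_add_one (ha g / ha f)
        have h2 : (⌈ha g / ha f⌉ : ℝ) * ha f < (ha g / ha f + 1) * ha f :=
          mul_lt_mul_of_pos_right this hp1
        have h3 : (ha g / ha f + 1) * ha f = ha g + ha f := by field_simp
        push_cast
        linarith
      · rw [ha_add, ha_smul]
        have := Int.le_ceil (ha g / ha f)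
        have h2 : (ha g / ha f) * ha f ≤ (⌈ha g / ha f⌉ : ℝ) * ha f :=
          mul_le_mul_of_nonneg_right this hp1.le
        have h3 : (ha g / ha f) * ha f = ha g := by field_simp
        push_cast
        linarith
    have hdet' : dz f (g + k • f) = e1 * e2 := by
      rw [← hdet]
      simp only [dz, Prod.fst_add, Prod.snd_add, Prod.smul_fst, Prod.smul_snd, smul_eq_mul]; ring
    rcases hee with h | h
    · exact ⟨f, g + k • f, by rw [hdet', h], hp1, hk1, Or.inl ⟨hf7, by linarith,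
        Or.inl (by rw [hen1]; exact hs)⟩⟩
    · refine ⟨g + k • f, f, ?_, hk1, hp1, Or.inl ⟨by linarith, hf7,
        Or.inr (by rw [hen1]; exact hs)⟩⟩
      rw [dz_swap, hdet', h]; norm_num
  · have h1 : (0.17 : ℝ) ^ 2 ≤ en s w1 := not_lt.1 hs
    have h2 : en s w2 ≤ 47 := by
      by_contra h
      have h3 : 47 < en s w2 := not_le.1 h
      nlinarith
    have h3 : en s w1 ≤ 47 := hle.trans h2
    rcases hee with h | h
    · exact ⟨_, _, by rw [hdet, h], hp1, hp2, Or.inr ⟨by rw [hen1]; exact h3,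
        by rw [hen2]; exact h2⟩⟩
    · refine ⟨_, _, ?_, hp2, hp1, Or.inr ⟨by rw [hen2]; exact h2, by rw [hen1]; exact h3⟩⟩
      rw [dz_swap, hdet, h]; norm_num

end Pool.Agent.H241
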