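import Pool.Agent.H241.Sees

/-!
# Straight segments in surfaces of bounded geometry
-/

namespace Pool.Agent.H241

variable {A : Type*} [AddCommGroup A]

theorem mono_right {x y z q : ℝ × ℝ} (Y : 0 < det q y)
    (o : 0 < det (x - y) (z - x)) :
    (det z q + det q y) * det x y < (det x q + det q y) * det z y := by
  have P : det z q * det x y = det x q * det z y + det q y * det z x := by
    simp only [det]; ring
  have o' : 0 < det z y - det x y - det z x := by
    have : det (x - y) (z - x) = det z y - det x y - det z x := by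
      simp only [det, Prod.fst_sub, Prod.snd_sub]; ring
    linarith
  nlinarith [mul_pos Y o']

theorem mono_left {x y z q : ℝ × ℝ} (X : 0 < det x q)
    (o : 0 < det (x - y) (z - x)) :
    (det x q + det q z) * det x y < (det x q + det q y) * det x z := by
  have P : det q z * det x y = det q y * det x z - det x q * det z y := by
    simp only [det]; ring
  have o' : 0 < det z y - det x y + det x z := by
    have : det (x - y) (z - x) = det z y - det x y + det x z := by
      simp only [det, Prod.fst_sub, Prod.snd_sub]; ring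
    linarith
  nlinarith [mul_pos X o']

theorem det_sub_sub (x y q : ℝ × ℝ) :
    det (y - x) (q - x) = det x y - (det x q + det q y) := by
  simp only [det, Prod.fst_sub, Prod.snd_sub]; ring

theorem beyond_right {x y z q : ℝ × ℝ} (X : 0 < det x q) (Y : 0 < det q y) (Z : 0 < det z q)
    (o : 0 < det (x - y) (z - x)) (ih : det (y - z) (q - z) < 0) :
    det (y - x) (q - x) < 0 := by
  rw [det_sub_sub] at ih ⊢
  have := mono_right Y o
  have h1 : (det z q + det q y) * det x y < (det z q + det q y) * (det x q + det q y) := by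
    nlinarith
  have := lt_of_mul_lt_mul_left h1 (by linarith)
  linarith

theorem beyond_left {x y z q : ℝ × ℝ} (X : 0 < det x q) (Y : 0 < det q y) (Z : 0 < det q z)
    (o : 0 < det (x - y) (z - x)) (ih : det (z - x) (q - x) < 0) :
    det (y - x) (q - x) < 0 := by
  rw [det_sub_sub] at ih ⊢
  have := mono_left X o
  have h1 : (det x q + det q z) * det x y < (det x q + det q z) * (det x q + det q y) := by
    nlinarith
  have := lt_of_mul_lt_mul_left h1 (by linarith)
  linarith

section
variable {T : Comb} {c : T.H → A} {π : A →+ ℝ × ℝ} {q : A}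

/-- orientation of the triangle beyond a front -/
theorem orient (hc : IsCoc T c) (p : Pos T (fun h => π (c h))) (h : T.H) (x : A) :
    0 < det (π x - π (x + c h)) (π (x + c (T.nxt (T.opp h))) - π x) := by
  have := p (T.opp h)
  have e1 : π x - π (x + c h) = π (c (T.opp h)) := by
    rw [hc.opp, ← map_sub]; congr 1; abel
  have e2 : π (x + c (T.nxt (T.opp h))) - π x = π (c (T.nxt (T.opp h))) := by
    rw [← map_sub]; congr 1; abel
  rw [e1, e2]; exact this

theorem next_left_end (hc : IsCoc T c) (h : T.H) (x : A) :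
    x + c (T.nxt (T.opp h)) + c (T.nxt (T.nxt (T.opp h))) = x + c h := by
  have t := hc.tri (T.opp h)
  rw [hc.opp] at t
  have : c h = c (T.nxt (T.opp h)) + c (T.nxt (T.nxt (T.opp h))) := by
    rw [← sub_eq_zero, ← neg_eq_zero, ← t]; abel
  rw [this]; abel

/-- The endpoint lies strictly beyond every front. -/
theorem Sees.beyond (hc : IsCoc T c) (p : Pos T (fun h => π (c h))) {h : T.H} {x : A}
    (s : Sees T c π q h x) : det (π (c h)) (π q - π x) < 0 := by
  have conv : ∀ (h : T.H) (x : A), det (π (x + c h) - π x) (π q - π x) =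
      det (π (c h)) (π q - π x) := by
    intro h x
    congr 1
    rw [← map_sub]; congr 1; abel
  induction s with
  | hit h x h1 h2 h3 =>
    rw [← h3]
    have := p (T.opp h)
    simp only [hc.opp] at this
    have e : π (x + c (T.nxt (T.opp h))) - π x = π (c (T.nxt (T.opp h))) := by
      rw [← map_sub]; congr 1; abel
    rw [e]
    rw [map_neg] at this
    have e2 : det (-π (c h)) (π (c (T.nxt (T.opp h)))) =
        - det (π (c h)) (π (c (T.nxt (T.opp h)))) := by
      simp only [det, Prod.fst_neg, Prod.snd_neg]; ring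
    linarith
  | right h x h1 h2 h3 h4 ih =>
    rw [← conv] at ih ⊢
    rw [next_left_end hc] at ih
    exact beyond_right h1 h2 h3 (orient hc p h x) ih
  | left h x h1 h2 h3 h4 ih =>
    rw [← conv] at ih ⊢
    exact beyond_left h1 h2 h3 (orient hc p h x) ih

theorem abs_det_le (u v : ℝ × ℝ) : |det u v| ≤ 2 * ‖u‖ * ‖v‖ := by
  have a1 : |u.1| ≤ ‖u‖ := by simpa using norm_fst_le u
  have a2 : |u.2| ≤ ‖u‖ := by simpa using norm_snd_le u
  have b1 : |v.1| ≤ ‖v‖ := by simpa using norm_fst_le v
  have b2 : |v.2| ≤ ‖v‖ := by simpa using norm_snd_le v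
  unfold det
  calc |u.1 * v.2 - u.2 * v.1| ≤ |u.1 * v.2| + |u.2 * v.1| := abs_sub _ _
    _ = |u.1| * |v.2| + |u.2| * |v.1| := by rw [abs_mul, abs_mul]
    _ ≤ ‖u‖ * ‖v‖ + ‖u‖ * ‖v‖ := by gcongr
    _ = _ := by ring

/-- A segment towards a point very close to a vertex `p` never crosses a front ending at `p`. -/
theorem not_sees_near (hc : IsCoc T c) (p : Pos T (fun h => π (c h))) {v : A} {c1 L δ : ℝ}
    (hL : ∀ h, ‖π (c h)‖ ≤ L) (hc1 : ∀ h, c1 ≤ det (π (c h)) (π (c (T.nxt h))))
    (hδ : ‖π q - π v‖ ≤ δ) (hsmall : 2 * L * δ < c1) {h : T.H} {x : A}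
    (s : Sees T c π q h x) : ¬ (x = v ∨ x + c h = v) := by
  have hb : ∀ u : ℝ × ℝ, ‖u‖ ≤ L → |det u (π q - π v)| < c1 := by
    intro u hu
    refine lt_of_le_of_lt (abs_det_le _ _) (lt_of_le_of_lt ?_ hsmall)
    have h0 : 0 ≤ ‖u‖ := norm_nonneg _
    have h1 : 0 ≤ ‖π q - π v‖ := norm_nonneg _
    have h2 : 0 ≤ L := le_trans h0 hu
    have h3 : 0 ≤ δ := le_trans h1 hδ
    gcongr
  induction s with
  | hit h x h1 h2 h3 =>
    rintro (rfl | hv)
    · have e : π q - π x = π (c (T.nxt (T.opp h))) := by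
        rw [← h3, ← map_sub]; congr 1; abel
      have b1 := hb _ (hL (T.opp h))
      rw [e] at b1
      have := hc1 (T.opp h)
      linarith [le_abs_self (det (π (c (T.opp h))) (π (c (T.nxt (T.opp h)))))]
    · have e : π q - π v = - π (c (T.nxt (T.nxt (T.opp h)))) := by
        rw [← h3, ← hv, ← next_left_end hc h x, ← map_sub, ← map_neg]; congr 1; abel
      have b1 := hb _ (hL (T.nxt (T.opp h)))
      rw [e] at b1
      have := hc1 (T.nxt (T.opp h))
      have e2 : det (π (c (T.nxt (T.opp h)))) (-π (c (T.nxt (T.nxt (T.opp h))))) =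
        - det (π (c (T.nxt (T.opp h)))) (π (c (T.nxt (T.nxt (T.opp h))))) := by
        simp only [det, Prod.fst_neg, Prod.snd_neg]; ring
      rw [e2, abs_neg] at b1
      linarith [le_abs_self (det (π (c (T.nxt (T.opp h)))) (π (c (T.nxt (T.nxt (T.opp h))))))]
  | right h x h1 h2 h3 h4 ih =>
    rintro (rfl | hv)
    · have b := h4.beyond hc p
      have e : π q - π (x + c (T.nxt (T.opp h))) = (π q - π x) - π (c (T.nxt (T.opp h))) := by
        rw [map_add]; abel
      rw [e] at b
      have b1 := hb _ (hL (T.nxt (T.nxt (T.opp h))))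
      have := hc1 (T.nxt (T.opp h))
      have e2 : det (π (c (T.nxt (T.nxt (T.opp h)))))
          (π q - π x - π (c (T.nxt (T.opp h)))) =
          det (π (c (T.nxt (T.nxt (T.opp h))))) (π q - π x) +
          det (π (c (T.nxt (T.opp h)))) (π (c (T.nxt (T.nxt (T.opp h))))) := by
        simp only [det, Prod.fst_sub, Prod.snd_sub]; ring
      rw [e2] at b
      linarith [neg_abs_le (det (π (c (T.nxt (T.nxt (T.opp h))))) (π q - π x))]
    · refine ih (Or.inr ?_)
      rw [next_left_end hc]; exact hv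
  | left h x h1 h2 h3 h4 ih =>
    rintro (rfl | hv)
    · exact ih (Or.inl rfl)
    · have b := h4.beyond hc p
      have e : π q - π x = (π q - π v) - π (c (T.opp h)) := by
        rw [← hv, map_add, hc.opp, map_neg]; abel
      rw [e] at b
      have b1 := hb _ (hL (T.nxt (T.opp h)))
      have := hc1 (T.opp h)
      have e2 : det (π (c (T.nxt (T.opp h)))) (π q - π v - π (c (T.opp h))) =
          det (π (c (T.nxt (T.opp h)))) (π q - π v) +
          det (π (c (T.opp h))) (π (c (T.nxt (T.opp h)))) := by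
        simp only [det, Prod.fst_sub, Prod.snd_sub]; ring
      rw [e2] at b
      linarith [neg_abs_le (det (π (c (T.nxt (T.opp h)))) (π q - π v))]

/-- Straight segments between vertices are not short. -/
theorem SC_long (hc : IsCoc T c) (p : Pos T (fun h => π (c h))) {c1 L : ℝ}
    (hL : ∀ h, ‖π (c h)‖ ≤ L) (hc1 : ∀ h, c1 ≤ det (π (c h)) (π (c (T.nxt h))))
    (hq : q ∈ SC T c π) : c1 ≤ 2 * L * ‖π q‖ := by
  rcases hq with ⟨h, hq⟩ | ⟨h, s⟩
  · have a1 := hc1 h
    have a2 := abs_det_le (π (c h)) (π (c (T.nxt h)))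
    have a3 := le_abs_self (det (π (c h)) (π (c (T.nxt h))))
    have a4 := hL (T.nxt h)
    rw [← hq]
    have : 0 ≤ ‖π (c h)‖ := norm_nonneg _
    nlinarith
  · have b := s.beyond hc p
    have a1 := hc1 h
    have e2 : det (π (c (T.nxt h))) (π q - π (c h)) =
        det (π (c (T.nxt h))) (π q) + det (π (c h)) (π (c (T.nxt h))) := by
      simp only [det, Prod.fst_sub, Prod.snd_sub]; ring
    rw [e2] at b
    have a2 := abs_det_le (π (c (T.nxt h))) (π q)
    have a3 := neg_abs_le (det (π (c (T.nxt h))) (π q))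
    have a4 := hL (T.nxt h)
    have : 0 ≤ ‖π q‖ := norm_nonneg _
    nlinarith

/-- If a homomorphism `R` is controlled by `C` on every triangle, then the values of `R` on
straight segments are controlled by their lengths. -/
theorem Sees.crude (hc : IsCoc T c) (p : Pos T (fun h => π (c h))) (R : A →+ ℂ) {C : ℝ}
    (hC : ∀ h (α β : ℝ), ‖(α : ℂ) * R (c h) + (β : ℂ) * R (c (T.nxt h))‖ ≤
      C * ‖α • π (c h) + β • π (c (T.nxt h))‖) {h : T.H} {x : A}
    (s : Sees T c π q h x) :
    ‖((det (π x) (π q) + det (π q) (π (x + c h)) : ℝ) : ℂ) * R q -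
      (((det (π q) (π (x + c h)) : ℝ) : ℂ) * R x + ((det (π x) (π q) : ℝ) : ℂ) * R (x + c h))‖ ≤
    C * ((det (π x) (π q) + det (π q) (π (x + c h)) - det (π x) (π (x + c h))) * ‖π q‖) := by
  induction s with
  | hit h x h1 h2 h3 =>
    have bey := (Sees.hit h x h1 h2 h3 : Sees T c π q h x).beyond hc p
    set X := det (π x) (π q) with hX
    set Y := det (π q) (π (x + c h)) with hY
    set a := det (π x) (π (x + c h)) with ha
    have key := hC (T.opp h) X (X + Y)
    have e1 : ((X + Y : ℝ) : ℂ) * R q - ((Y : ℂ) * R x + (X : ℂ) * R (x + c h)) =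
        (X : ℂ) * R (c (T.opp h)) + ((X + Y : ℝ) : ℂ) * R (c (T.nxt (T.opp h))) := by
      rw [← h3, hc.opp]
      simp only [map_add, map_neg, Complex.ofReal_add]
      ring
    have e2 : X • π (c (T.opp h)) + (X + Y) • π (c (T.nxt (T.opp h))) =
        (X + Y - a) • π q := by
      have e3 : π (c (T.nxt (T.opp h))) = π q - π x := by
        rw [← h3, map_add]; abel
      rw [e3, hc.opp, map_neg, hX, hY, ha, map_add]
      ext <;> simp only [det, Prod.fst_add, Prod.snd_add, Prod.fst_sub, Prod.snd_sub,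
        Prod.fst_neg, Prod.snd_neg, Prod.smul_fst, Prod.smul_snd, smul_eq_mul] <;> ring
    have pos : 0 < X + Y - a := by
      have e3 : det (π (c h)) (π q - π x) = a - (X + Y) := by
        rw [ha, hX, hY, ← det_sub_sub, map_add]
        congr 1; abel
      linarith
    rw [e1]
    refine key.trans (le_of_eq ?_)
    rw [e2, norm_smul, Real.norm_eq_abs, abs_of_pos pos]
  | right h x h1 h2 h3 h4 ih =>
    rw [next_left_end hc] at ih
    set z := x + c (T.nxt (T.opp h)) with hz
    set y := x + c h with hy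
    set X := det (π x) (π q) with hX
    set Y := det (π q) (π y) with hY
    set Z := det (π z) (π q) with hZ
    set a := det (π x) (π y) with ha
    set b := det (π z) (π y) with hb
    have mono : (Z + Y) * a < (X + Y) * b := mono_right h2 (orient hc p h x)
    have key := hC (T.opp h) (Y * (X - Z)) (Y * (X + Y))
    have e1 : ((Z + Y : ℝ) : ℂ) * (((X + Y : ℝ) : ℂ) * R q - ((Y : ℂ) * R x + (X : ℂ) * R y)) =
        ((X + Y : ℝ) : ℂ) * (((Z + Y : ℝ) : ℂ) * R q - ((Y : ℂ) * R z + (Z : ℂ) * R y)) +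
        (((Y * (X - Z) : ℝ) : ℂ) * R (c (T.opp h)) +
          ((Y * (X + Y) : ℝ) : ℂ) * R (c (T.nxt (T.opp h)))) := by
      rw [hz, hy, hc.opp]
      simp only [map_add, map_neg, Complex.ofReal_add, Complex.ofReal_mul, Complex.ofReal_sub]
      ring
    have e2 : (Y * (X - Z)) • π (c (T.opp h)) + (Y * (X + Y)) • π (c (T.nxt (T.opp h))) =
        ((X + Y) * b - (Z + Y) * a) • π q := by
      have e3 : π (c (T.nxt (T.opp h))) = π z - π x := by
        rw [hz, map_add]; abel
      have e4 : π (c (T.opp h)) = π x - π y := by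
        rw [hy, map_add, hc.opp, map_neg]; abel
      rw [e3, e4, hX, hY, hZ, ha, hb]
      ext <;> simp only [det, Prod.fst_add, Prod.snd_add, Prod.fst_sub, Prod.snd_sub,
        Prod.fst_neg, Prod.snd_neg, Prod.smul_fst, Prod.smul_snd, smul_eq_mul] <;> ring
    rw [e2, norm_smul, Real.norm_eq_abs, abs_of_pos (by linarith)] at key
    have hZY : 0 < Z + Y := by linarith
    have hXY : 0 < X + Y := by linarith
    have n1 : ‖((Z + Y : ℝ) : ℂ)‖ = Z + Y := by
      rw [Complex.norm_real, Real.norm_eq_abs, abs_of_pos hZY]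
    have n2 : ‖((X + Y : ℝ) : ℂ)‖ = X + Y := by
      rw [Complex.norm_real, Real.norm_eq_abs, abs_of_pos hXY]
    have main : (Z + Y) * ‖((X + Y : ℝ) : ℂ) * R q - ((Y : ℂ) * R x + (X : ℂ) * R y)‖ ≤
        (Z + Y) * (C * ((X + Y - a) * ‖π q‖)) := by
      have := norm_add_le (((X + Y : ℝ) : ℂ) * (((Z + Y : ℝ) : ℂ) * R q -
        ((Y : ℂ) * R z + (Z : ℂ) * R y))) (((Y * (X - Z) : ℝ) : ℂ) * R (c (T.opp h)) +
          ((Y * (X + Y) : ℝ) : ℂ) * R (c (T.nxt (T.opp h))))
      rw [← e1, norm_mul, norm_mul, n1, n2] at this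
      have i2 := mul_le_mul_of_nonneg_left ih hXY.le
      nlinarith
    exact le_of_mul_le_mul_left main hZY
  | left h x h1 h2 h3 h4 ih =>
    set z := x + c (T.nxt (T.opp h)) with hz
    set y := x + c h with hy
    set X := det (π x) (π q) with hX
    set Y := det (π q) (π y) with hY
    set Z := det (π q) (π z) with hZ
    set a := det (π x) (π y) with ha
    set b := det (π x) (π z) with hb
    have mono : (X + Z) * a < (X + Y) * b := mono_left h1 (orient hc p h x)
    have key := hC (T.opp h) (X * (X + Z)) (X * (X + Y))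
    have e1 : ((X + Z : ℝ) : ℂ) * (((X + Y : ℝ) : ℂ) * R q - ((Y : ℂ) * R x + (X : ℂ) * R y)) =
        ((X + Y : ℝ) : ℂ) * (((X + Z : ℝ) : ℂ) * R q - ((Z : ℂ) * R x + (X : ℂ) * R z)) +
        (((X * (X + Z) : ℝ) : ℂ) * R (c (T.opp h)) +
          ((X * (X + Y) : ℝ) : ℂ) * R (c (T.nxt (T.opp h)))) := by
      rw [hz, hy, hc.opp]
      simp only [map_add, map_neg, Complex.ofReal_add, Complex.ofReal_mul]
      ring
    have e2 : (X * (X + Z)) • π (c (T.opp h)) + (X * (X + Y)) • π (c (T.nxt (T.opp h))) =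
        ((X + Y) * b - (X + Z) * a) • π q := by
      have e3 : π (c (T.nxt (T.opp h))) = π z - π x := by
        rw [hz, map_add]; abel
      have e4 : π (c (T.opp h)) = π x - π y := by
        rw [hy, map_add, hc.opp, map_neg]; abel
      rw [e3, e4, hX, hY, hZ, ha, hb]
      ext <;> simp only [det, Prod.fst_add, Prod.snd_add, Prod.fst_sub, Prod.snd_sub,
        Prod.fst_neg, Prod.snd_neg, Prod.smul_fst, Prod.smul_snd, smul_eq_mul] <;> ring
    rw [e2, norm_smul, Real.norm_eq_abs, abs_of_pos (by linarith)] at key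
    have hZY : 0 < X + Z := by linarith
    have hXY : 0 < X + Y := by linarith
    have n1 : ‖((X + Z : ℝ) : ℂ)‖ = X + Z := by
      rw [Complex.norm_real, Real.norm_eq_abs, abs_of_pos hZY]
    have n2 : ‖((X + Y : ℝ) : ℂ)‖ = X + Y := by
      rw [Complex.norm_real, Real.norm_eq_abs, abs_of_pos hXY]
    have main : (X + Z) * ‖((X + Y : ℝ) : ℂ) * R q - ((Y : ℂ) * R x + (X : ℂ) * R y)‖ ≤
        (X + Z) * (C * ((X + Y - a) * ‖π q‖)) := by
      have := norm_add_le (((X + Y : ℝ) : ℂ) * (((X + Z : ℝ) : ℂ) * R q -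
        ((Z : ℂ) * R x + (X : ℂ) * R z))) (((X * (X + Z) : ℝ) : ℂ) * R (c (T.opp h)) +
          ((X * (X + Y) : ℝ) : ℂ) * R (c (T.nxt (T.opp h))))
      rw [← e1, norm_mul, norm_mul, n1, n2] at this
      have i2 := mul_le_mul_of_nonneg_left ih hXY.le
      nlinarith
    exact le_of_mul_le_mul_left main hZY

theorem SC_crude (hc : IsCoc T c) (p : Pos T (fun h => π (c h))) (R : A →+ ℂ) {C : ℝ}
    (hC : ∀ h (α β : ℝ), ‖(α : ℂ) * R (c h) + (β : ℂ) * R (c (T.nxt h))‖ ≤
      C * ‖α • π (c h) + β • π (c (T.nxt h))‖) (hq : q ∈ SC T c π) :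
    ‖R q‖ ≤ C * ‖π q‖ := by
  rcases hq with ⟨h, rfl⟩ | ⟨h, s⟩
  · simpa using hC h 1 0
  · have main := s.crude hc p R hC
    have h1 := s.front_right
    have h2 := s.front_left
    set y := c h + c (T.nxt h) with hy
    set X := det (π (c h)) (π q) with hX
    set Y := det (π q) (π y) with hY
    set a := det (π (c h)) (π y) with ha
    have ha0 : 0 < a := by
      have := p h
      have e : a = det (π (c h)) (π (c (T.nxt h))) := by
        rw [ha, hy, map_add]; simp only [det, Prod.fst_add, Prod.snd_add]; ring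
      rw [e]; exact this
    have key := hC h (X + Y) X
    have e1 : ((X + Y : ℝ) : ℂ) * R (c h) + (X : ℂ) * R (c (T.nxt h)) =
        (Y : ℂ) * R (c h) + (X : ℂ) * R y := by
      rw [hy]; simp only [map_add, Complex.ofReal_add]; ring
    have e2 : (X + Y) • π (c h) + X • π (c (T.nxt h)) = a • π q := by
      have e3 : π (c (T.nxt h)) = π y - π (c h) := by rw [hy, map_add]; abel
      rw [e3, hX, hY, ha]
      ext <;> simp only [det, Prod.fst_add, Prod.snd_add, Prod.fst_sub, Prod.snd_sub,
        Prod.smul_fst, Prod.smul_snd, smul_eq_mul] <;> ring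
    rw [e1, e2, norm_smul, Real.norm_eq_abs, abs_of_pos ha0] at key
    have hXY : 0 < X + Y := by linarith
    have n2 : ‖((X + Y : ℝ) : ℂ)‖ = X + Y := by
      rw [Complex.norm_real, Real.norm_eq_abs, abs_of_pos hXY]
    have tri := norm_add_le (((X + Y : ℝ) : ℂ) * R q - ((Y : ℂ) * R (c h) + (X : ℂ) * R y))
      ((Y : ℂ) * R (c h) + (X : ℂ) * R y)
    rw [sub_add_cancel, norm_mul, n2] at tri
    have : (X + Y) * ‖R q‖ ≤ (X + Y) * (C * ‖π q‖) := by nlinarith
    exact le_of_mul_le_mul_left this hXY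

end

end Pool.Agent.H241
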