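import Pool.Agent.H241.Link
import Pool.Agent.H241.Near

/-!
# Geometry of the model surfaces and equivalences along the moves
-/

namespace Pool.Agent.H241

/-- the developing homomorphism at time `s` -/
noncomputable def piS (ε s : ℝ) : (ℤ × ℤ) × ℂ →+ ℝ × ℝ where
  toFun v := (v.1.1 + s * ha v.1 + ε * v.2.re, ha v.1)
  map_zero' := by simp [ha]
  map_add' v w := by
    refine Prod.ext ?_ ?_
    · simp only [Prod.fst_add, ha_add, Prod.snd_add, Complex.add_re]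
      push_cast; ring
    · simp only [Prod.fst_add, ha_add, Prod.snd_add]

theorem piS_apply (ε s : ℝ) (v : (ℤ × ℤ) × ℂ) :
    piS ε s v = (v.1.1 + s * ha v.1 + ε * v.2.re, ha v.1) := rfl

theorem det_piS (ε s : ℝ) (v w : (ℤ × ℤ) × ℂ) : det (piS ε s v) (piS ε s w) =
    (dz v.1 w.1 : ℤ) + ε * (v.2.re * ha w.1 - w.2.re * ha v.1) := by
  simp only [piS_apply, det, dz, ha]; push_cast; ring

theorem norm_s8 : ‖s8‖ = 1 := by
  have h : Complex.normSq s8 = 1 := by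
    have := sqrt2_sq
    simp only [s8, Complex.normSq_mk]; nlinarith
  rw [Complex.normSq_eq_norm_sq] at h
  have := norm_nonneg s8
  nlinarith

theorem norm_t8 : ‖t8‖ = 1 := by
  rw [t8_eq, norm_inv, norm_s8, inv_one]

theorem norm_xp (j : ZMod 8) : ‖xp j‖ = 1 := by
  rw [xp, norm_pow, norm_neg, norm_t8, one_pow]

theorem dz_smul (k : ℤ) (v w : ℤ × ℤ) : dz (k • v) (k • w) = k * k * dz v w := by
  simp only [dz, Prod.smul_fst, Prod.smul_snd, smul_eq_mul]; ring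

theorem sgj_sq (j : ZMod 8) : sgj j * sgj j = 1 := by
  revert j; decide

theorem sgj_cases (j : ZMod 8) : sgj j = 1 ∨ sgj j = -1 := by
  revert j; decide

theorem mc_dz (v1 v2 : ℤ × ℤ) (y1 y2 : ℂ) (h : MH) :
    dz (mc v1 v2 y1 y2 h).1 (mc v1 v2 y1 y2 (mnxt h)).1 = dz v1 v2 := by
  revert h
  apply mh_cases <;> intro j <;> simp only [mc, mnxt, dz_smul, neg_mul_neg, sgj_sq] <;>
    simp only [dz, Prod.fst_neg, Prod.snd_neg, Prod.fst_add, Prod.snd_add] <;> ring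

theorem mc_norm (v1 v2 : ℤ × ℤ) (y1 y2 : ℂ) (h : MH) :
    ‖(mc v1 v2 y1 y2 h).2‖ ≤ 2 * (‖y1‖ + ‖y2‖) := by
  have n1 := norm_nonneg y1
  have n2 := norm_nonneg y2
  have a1 : ‖s8 * y1‖ = ‖y1‖ := by rw [norm_mul, norm_s8, one_mul]
  have a2 : ‖s8 * y2‖ = ‖y2‖ := by rw [norm_mul, norm_s8, one_mul]
  have b1 : ‖y2 + s8 * y1‖ ≤ 2 * (‖y1‖ + ‖y2‖) :=
    (norm_add_le _ _).trans (by linarith)
  have b0 : ‖y1 + y2‖ ≤ ‖y1‖ + ‖y2‖ := norm_add_le _ _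
  have b2 : ‖-(y1 + y2) + s8 * y2‖ ≤ 2 * (‖y1‖ + ‖y2‖) :=
    (norm_add_le _ _).trans (by rw [norm_neg]; linarith)
  have b3 : ‖y1 - s8 * (y1 + y2)‖ ≤ 2 * (‖y1‖ + ‖y2‖) :=
    (norm_sub_le _ _).trans (by rw [norm_mul, norm_s8, one_mul]; linarith)
  have b4 : ‖s8 * (y1 + y2)‖ ≤ 2 * (‖y1‖ + ‖y2‖) := by
    rw [norm_mul, norm_s8, one_mul]; linarith
  revert h
  apply mh_cases <;> intro j <;> simp only [mc, norm_mul, norm_xp, one_mul, norm_neg, norm_s8] <;>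
    linarith

theorem mc_ha {v1 v2 : ℤ × ℤ} (h1 : 0 < ha v1) (h2 : 0 < ha v2) (y1 y2 : ℂ) (h : MH) :
    |ha (mc v1 v2 y1 y2 h).1| ≤ ha v1 + ha v2 := by
  have hs : ∀ (j : ZMod 8) (x : ℝ), |(sgj j : ℝ) * x| = |x| := by
    intro j x
    rcases sgj_cases j with h | h <;> rw [h] <;> simp
  have hs' : ∀ (j : ZMod 8) (x : ℝ), |((-sgj j : ℤ) : ℝ) * x| = |x| := by
    intro j x
    rcases sgj_cases j with h | h <;> rw [h] <;> simp
  have a1 := abs_of_pos h1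
  have a2 := abs_of_pos h2
  have a3 := abs_of_pos (add_pos h1 h2)
  revert h
  apply mh_cases <;> intro j <;>
    simp only [mc, ha_smul, hs, hs', ha_neg, abs_neg, ha_add, a1, a2, a3] <;> linarith

/-- the smallness condition on the deformation -/
def Small (u : ℂ) (ε : ℝ) : Prop := 0 < ε ∧ ε * (112 * (2 + YM u)) ≤ 1

theorem reach_norm {u : ℂ} (hu : u ≠ 0) {n : ℕ} {l : List ℕ} {b : Bool} {σ : MS}
    (h : Reach (GS u n) l b σ) (h1 : ha σ.v1 ≤ 7) (h2 : ha σ.v2 ≤ 7) :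
    ‖σ.y1‖ + ‖σ.y2‖ ≤ 2 + YM u := by
  have := reach_bound hu h h1 h2
  rw [Complex.normSq_eq_norm_sq, Complex.normSq_eq_norm_sq] at this
  nlinarith [sq_nonneg (‖σ.y1‖ - 1), sq_nonneg (‖σ.y2‖ - 1)]

/-- the model surfaces with moderate heights are uniformly nondegenerate -/
theorem reach_det {u : ℂ} (hu : u ≠ 0) {ε : ℝ} (hε : Small u ε) (s : ℝ) {n : ℕ} {l : List ℕ}
    {b : Bool} {σ : MS} (h : Reach (GS u n) l b σ) (h1 : ha σ.v1 ≤ 7) (h2 : ha σ.v2 ≤ 7)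
    (k : MH) : 1 / 2 ≤ det (piS ε s (mc σ.v1 σ.v2 σ.y1 σ.y2 k))
      (piS ε s (mc σ.v1 σ.v2 σ.y1 σ.y2 (mnxt k))) := by
  obtain ⟨-, -, a3, a4, a5, -, -⟩ := reach_facts hu h
  have b1 := reach_norm hu h h1 h2
  rw [det_piS, mc_dz, a3]
  have c1 := mc_norm σ.v1 σ.v2 σ.y1 σ.y2 k
  have c2 := mc_norm σ.v1 σ.v2 σ.y1 σ.y2 (mnxt k)
  have c3 := mc_ha a4 a5 σ.y1 σ.y2 k
  have c4 := mc_ha a4 a5 σ.y1 σ.y2 (mnxt k)
  have c5 := Complex.abs_re_le_norm (mc σ.v1 σ.v2 σ.y1 σ.y2 k).2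
  have c6 := Complex.abs_re_le_norm (mc σ.v1 σ.v2 σ.y1 σ.y2 (mnxt k)).2
  set r := (mc σ.v1 σ.v2 σ.y1 σ.y2 k).2.re
  set r' := (mc σ.v1 σ.v2 σ.y1 σ.y2 (mnxt k)).2.re
  set a := ha (mc σ.v1 σ.v2 σ.y1 σ.y2 k).1
  set a' := ha (mc σ.v1 σ.v2 σ.y1 σ.y2 (mnxt k)).1
  set Y := 2 + YM u
  have d1 : |r * a'| ≤ (2 * Y) * 14 := by
    rw [abs_mul]
    exact mul_le_mul (by linarith) (by linarith) (abs_nonneg _)
      (by have := abs_nonneg r; linarith)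
  have d2 : |r' * a| ≤ (2 * Y) * 14 := by
    rw [abs_mul]
    exact mul_le_mul (by linarith) (by linarith) (abs_nonneg _)
      (by have := abs_nonneg r; linarith)
  have d3 : |r * a' - r' * a| ≤ 56 * Y := (abs_sub _ _).trans (by linarith)
  have d4 : - (56 * Y) ≤ r * a' - r' * a := (abs_le.1 d3).1
  have e0 := hε.1
  have e1 : ε * (56 * Y) ≤ 1 / 2 := by have := hε.2; linarith
  have e2 : ε * (-(56 * Y)) ≤ ε * (r * a' - r' * a) := mul_le_mul_of_nonneg_left d4 e0.le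
  push_cast
  linarith

theorem reach_pos {u : ℂ} (hu : u ≠ 0) {ε : ℝ} (hε : Small u ε) (s : ℝ) {n : ℕ} {l : List ℕ}
    {b : Bool} {σ : MS} (h : Reach (GS u n) l b σ) (h1 : ha σ.v1 ≤ 7) (h2 : ha σ.v2 ≤ 7) :
    Pos MT (fun k => piS ε s (mc σ.v1 σ.v2 σ.y1 σ.y2 k)) := fun k =>
  lt_of_lt_of_le (by norm_num) (reach_det hu hε s h h1 h2 k)

theorem chain {u : ℂ} (hu : u ≠ 0) {ε : ℝ} (hε : Small u ε) (s : ℝ) {n : ℕ} {l : List ℕ}
    {b : Bool} {σ : MS} (h : Reach (GS u n) l b σ) (h1 : ha σ.v1 ≤ 7) (h2 : ha σ.v2 ≤ 7) :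
    ∃ p0 p, Relation.EqvGen (DStep (piS ε s))
      (MD (GS u n).v1 (GS u n).v2 (GS u n).y1 (GS u n).y2 p0)
      (MD σ.v1 σ.v2 σ.y1 σ.y2 p) := by
  induction h with
  | start =>
    have p := reach_pos hu hε s (Reach.start (σ0 := GS u n)) h1 h2
    exact ⟨p, p, Relation.EqvGen.refl _⟩
  | AA l k σ h ih =>
    obtain ⟨-, -, -, a4, a5, -, -⟩ := reach_facts hu h
    have q := reach_pos hu hε s (Reach.AA l k σ h) h1 h2
    simp only [opA, ha_add] at h1 h2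
    obtain ⟨p0, p, r⟩ := ih (by linarith) h2
    exact ⟨p0, q, r.trans _ _ _ (moveA _ _ _ _ p q)⟩
  | AB l σ h ih =>
    obtain ⟨-, -, -, a4, a5, -, -⟩ := reach_facts hu h
    have q := reach_pos hu hε s (Reach.AB l σ h) h1 h2
    simp only [opB, ha_add] at h1 h2
    obtain ⟨p0, p, r⟩ := ih h1 (by linarith)
    exact ⟨p0, q, r.trans _ _ _ (moveB _ _ _ _ p q)⟩
  | BB l k σ h ih =>
    obtain ⟨-, -, -, a4, a5, -, -⟩ := reach_facts hu h
    have q := reach_pos hu hε s (Reach.BB l k σ h) h1 h2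
    simp only [opB, ha_add] at h1 h2
    obtain ⟨p0, p, r⟩ := ih h1 (by linarith)
    exact ⟨p0, q, r.trans _ _ _ (moveB _ _ _ _ p q)⟩
  | BA l σ h ih =>
    obtain ⟨-, -, -, a4, a5, -, -⟩ := reach_facts hu h
    have q := reach_pos hu hε s (Reach.BA l σ h) h1 h2
    simp only [opA, ha_add] at h1 h2
    obtain ⟨p0, p, r⟩ := ih (by linarith) h2
    exact ⟨p0, q, r.trans _ _ _ (moveA _ _ _ _ p q)⟩

theorem reach_prefix (u : ℂ) (n : ℕ) {l : List ℕ} {b : Bool} {σ : MS}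
    (h : Reach (GS u n) l b σ) : Reach (GS u (n + 1)) (0 :: 0 :: l) b σ := by
  induction h with
  | start => exact reach_BA u n
  | AA l k σ h ih => exact Reach.AA (0 :: 0 :: l) k σ ih
  | AB l σ h ih => exact Reach.AB (0 :: 0 :: l) σ ih
  | BB l k σ h ih => exact Reach.BB (0 :: 0 :: l) k σ ih
  | BA l σ h ih => exact Reach.BA (0 :: 0 :: l) σ ih

theorem reach_zero (u : ℂ) (n : ℕ) : ∃ l, Reach (GS u n) l true (GS u 0) := by
  induction n with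
  | zero => exact ⟨[], Reach.start⟩
  | succ n ih =>
    obtain ⟨l, h⟩ := ih
    exact ⟨_, reach_prefix u n h⟩

theorem ha_10 : ha ((1 : ℤ), (0 : ℤ)) = Real.goldenRatio := by simp [ha]

theorem ha_01 : ha ((0 : ℤ), (1 : ℤ)) = 1 := by simp [ha]

/-- the base surface is equivalent to a model surface for every positive integer basis with
moderate heights -/
theorem chain0 {u : ℂ} (hu : u ≠ 0) {ε : ℝ} (hε : Small u ε) (s : ℝ) {v1 v2 : ℤ × ℤ}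
    (h1 : 0 < ha v1) (h2 : 0 < ha v2) (hd : dz v1 v2 = 1) (h3 : ha v1 ≤ 7) (h4 : ha v2 ≤ 7) :
    ∃ n l b y1 y2, Reach (GS u n) l b ⟨v1, v2, y1, y2⟩ ∧ ∃ p0 p,
      Relation.EqvGen (DStep (piS ε s))
        (MD (1, 0) (0, 1) (GS u 0).y1 (GS u 0).y2 p0) (MD v1 v2 y1 y2 p) := by
  obtain ⟨n, l, b, y1, y2, h⟩ := reach_all u h1 h2 hd
  refine ⟨n, l, b, y1, y2, h, ?_⟩
  obtain ⟨p0, p, r⟩ := chain hu hε s h h3 h4
  obtain ⟨l', h'⟩ := reach_zero u n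
  have hhi := gold_hi
  obtain ⟨p0', p', r'⟩ := chain hu hε s h'
    (by simp only [GS, ha_10]; linarith) (by simp only [GS, ha_01]; norm_num)
  exact ⟨p', p, r'.symm.trans _ _ _ r⟩

end Pool.Agent.H241
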