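import Pool.Agent.H241.Chain

/-!
# Combinatorics of the model and sums over the half-edges with a given lattice vector
-/

namespace Pool.Agent.H241

/-- coordinates of the lattice vector of a half-edge -/
def z0 : MH → ℤ × ℤ
  | (0, 0, j) => (-sgj j, -sgj j)
  | (0, 1, j) => (sgj j, 0)
  | (0, 2, j) => (0, sgj j)
  | (1, 0, j) => (sgj j, sgj j)
  | (1, 1, j) => (-sgj j, 0)
  | (1, 2, j) => (0, -sgj j)
  | (2, 0, j) => (sgj j, sgj j)
  | (2, 1, j) => (-sgj j, 0)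
  | (2, 2, j) => (0, -sgj j)
  | (3, 0, j) => (sgj j, sgj j)
  | (3, 1, j) => (-sgj j, 0)
  | (3, 2, j) => (0, -sgj j)

theorem mc_fst (v1 v2 : ℤ × ℤ) (y1 y2 : ℂ) (h : MH) :
    (mc v1 v2 y1 y2 h).1 = (z0 h).1 • v1 + (z0 h).2 • v2 := by
  revert h
  apply mh_cases <;> intro j <;> simp only [mc, z0] <;> module

theorem z0_cases (h : MH) : (z0 h = (1, 0) ∧ z0 (mnxt h) = (0, 1)) ∨
    (z0 h = (0, 1) ∧ z0 (mnxt h) = (-1, -1)) ∨ (z0 h = (-1, -1) ∧ z0 (mnxt h) = (1, 0)) ∨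
    (z0 h = (-1, 0) ∧ z0 (mnxt h) = (0, -1)) ∨ (z0 h = (0, -1) ∧ z0 (mnxt h) = (1, 1)) ∨
    (z0 h = (1, 1) ∧ z0 (mnxt h) = (-1, 0)) := by
  revert h
  apply mh_cases <;> intro j <;> rcases sgj_cases j with hj | hj <;> simp [z0, mnxt, hj]

theorem z0_front (h k : MH) (h1 : 0 ≤ dz (z0 k) (z0 h))
    (h2 : 0 ≤ dz (z0 h) (z0 k + z0 (mnxt k))) :
    z0 h = z0 k ∨ z0 h = z0 k + z0 (mnxt k) := by
  rcases z0_cases h with ⟨a, -⟩ | ⟨a, -⟩ | ⟨a, -⟩ | ⟨a, -⟩ | ⟨a, -⟩ | ⟨a, -⟩ <;>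
  rcases z0_cases k with ⟨b, c⟩ | ⟨b, c⟩ | ⟨b, c⟩ | ⟨b, c⟩ | ⟨b, c⟩ | ⟨b, c⟩ <;>
  (rw [a, b] at h1; rw [a, b, c] at h2 ⊢; revert h1 h2; decide)

/-- half-edges with lattice vector `(1, 0)` -/
def S1 : Finset MH := {(0, 1, 0), (0, 1, 2), (0, 1, 4), (0, 1, 6),
  (1, 1, 1), (1, 1, 3), (1, 1, 5), (1, 1, 7), (2, 1, 1), (2, 1, 3), (2, 1, 5), (2, 1, 7),
  (3, 1, 1), (3, 1, 3), (3, 1, 5), (3, 1, 7)}

/-- half-edges with lattice vector `(0, 1)` -/
def S2 : Finset MH := {(0, 2, 0), (0, 2, 2), (0, 2, 4), (0, 2, 6),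
  (1, 2, 1), (1, 2, 3), (1, 2, 5), (1, 2, 7), (2, 2, 1), (2, 2, 3), (2, 2, 5), (2, 2, 7),
  (3, 2, 1), (3, 2, 3), (3, 2, 5), (3, 2, 7)}

theorem mem_S1 (h : MH) : h ∈ S1 ↔ z0 h = (1, 0) := by
  revert h; decide

theorem mem_S2 (h : MH) : h ∈ S2 ↔ z0 h = (0, 1) := by
  revert h; decide

theorem card_S1 : S1.card = 16 := by decide

theorem card_S2 : S2.card = 16 := by decide

theorem sum_S1 (f : MH → ℝ) : ∑ h ∈ S1, f h =
    (f (0, 1, 0) + f (0, 1, 2) + f (0, 1, 4) + f (0, 1, 6)) +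
    (f (1, 1, 1) + f (1, 1, 3) + f (1, 1, 5) + f (1, 1, 7)) +
    (f (2, 1, 1) + f (2, 1, 3) + f (2, 1, 5) + f (2, 1, 7)) +
    (f (3, 1, 1) + f (3, 1, 3) + f (3, 1, 5) + f (3, 1, 7)) := by
  rw [S1]
  iterate 15 rw [Finset.sum_insert (by decide)]
  rw [Finset.sum_singleton]
  ring

theorem sum_S2 (f : MH → ℝ) : ∑ h ∈ S2, f h =
    (f (0, 2, 0) + f (0, 2, 2) + f (0, 2, 4) + f (0, 2, 6)) +
    (f (1, 2, 1) + f (1, 2, 3) + f (1, 2, 5) + f (1, 2, 7)) +
    (f (2, 2, 1) + f (2, 2, 3) + f (2, 2, 5) + f (2, 2, 7)) +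
    (f (3, 2, 1) + f (3, 2, 3) + f (3, 2, 5) + f (3, 2, 7)) := by
  rw [S2]
  iterate 15 rw [Finset.sum_insert (by decide)]
  rw [Finset.sum_singleton]
  ring

theorem t8_sq : t8 * t8 = - Complex.I := by
  have := sqrt2_sq
  apply Complex.ext <;> simp [t8] <;> nlinarith

theorem xp_vals : xp 0 = 1 ∧ xp 1 = - t8 ∧ xp 2 = - Complex.I ∧ xp 3 = Complex.I * t8 ∧
    xp 4 = -1 ∧ xp 5 = t8 ∧ xp 6 = Complex.I ∧ xp 7 = - Complex.I * t8 := by
  have h0 : xp 0 = 1 := by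
    change (- t8) ^ 0 = 1; simp
  have h1 : xp 1 = - t8 := by
    have := xp_succ 0; rw [h0, zero_add] at this; rw [this]; ring
  have h2 : xp 2 = - Complex.I := by
    have := xp_succ 1
    rw [h1, show (1 : ZMod 8) + 1 = 2 from rfl] at this
    rw [this, ← t8_sq]; ring
  have h3 : xp 3 = Complex.I * t8 := by
    have := xp_succ 2
    rw [h2, show (2 : ZMod 8) + 1 = 3 from rfl] at this
    rw [this]; ring
  have h4 : xp 4 = -1 := by
    have := xp_succ 3
    rw [h3, show (3 : ZMod 8) + 1 = 4 from rfl] at this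
    rw [this]
    linear_combination (-Complex.I) * t8_sq + Complex.I_mul_I
  have h5 : xp 5 = t8 := by
    have := xp_succ 4
    rw [h4, show (4 : ZMod 8) + 1 = 5 from rfl] at this
    rw [this]; ring
  have h6 : xp 6 = Complex.I := by
    have := xp_succ 5
    rw [h5, show (5 : ZMod 8) + 1 = 6 from rfl] at this
    rw [this]
    linear_combination (-1 : ℂ) * t8_sq
  have h7 : xp 7 = - Complex.I * t8 := by
    have := xp_succ 6
    rw [h6, show (6 : ZMod 8) + 1 = 7 from rfl] at this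
    rw [this]; ring
  exact ⟨h0, h1, h2, h3, h4, h5, h6, h7⟩

/-- four opposite directions -/
theorem four (z : ℂ) : z.re ^ 2 + (-Complex.I * z).re ^ 2 + (-z).re ^ 2 +
    (Complex.I * z).re ^ 2 = 2 * Complex.normSq z ∧
    z.re + (-Complex.I * z).re + (-z).re + (Complex.I * z).re = 0 := by
  simp only [Complex.normSq_apply, Complex.neg_re, Complex.mul_re, Complex.neg_im,
    Complex.I_re, Complex.I_im]
  constructor <;> ring

theorem xsq {y1 y2 : ℂ} (h : Iso y1 y2) :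
    Complex.normSq (-(y1 + y2) + s8 * y2) = (√2 - 1) * Complex.normSq y1 ∧
    Complex.normSq (y1 - s8 * (y1 + y2)) = (√2 - 1) * Complex.normSq y2 := by
  obtain ⟨a, b⟩ := y1
  obtain ⟨c, d⟩ := y2
  simp only [Iso, s8, Complex.add_re, Complex.add_im, Complex.normSq_apply,
    Complex.mul_re, Complex.mul_im, Complex.sub_re, Complex.sub_im, Complex.neg_re,
    Complex.neg_im] at h ⊢
  have hr := r2_sq
  set r := √2
  constructor
  · linear_combination (2 - r) * h + ((c ^ 2 + d ^ 2) / 2 - (b * c - a * d)) * hr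
  · linear_combination (2 - r) * h + (((a + c) ^ 2 + (b + d) ^ 2) / 2 - (b * c - a * d)) * hr

theorem normSq_t8 : Complex.normSq t8 = 1 := by
  rw [Complex.normSq_eq_norm_sq, norm_t8, one_pow]

theorem normSq_s8 : Complex.normSq s8 = 1 := by
  rw [Complex.normSq_eq_norm_sq, norm_s8, one_pow]

/-- sums over the half-edges with lattice vector `(1, 0)` -/
theorem sums1 (v1 v2 : ℤ × ℤ) {y1 y2 : ℂ} (h : Iso y1 y2) :
    ∑ k ∈ S1, ((mc v1 v2 y1 y2 k).2.re) ^ 2 = 4 * √2 * Complex.normSq y1 ∧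
    ∑ k ∈ S1, (mc v1 v2 y1 y2 k).2.re = 0 := by
  obtain ⟨e0, e1, e2, e3, e4, e5, e6, e7⟩ := xp_vals
  have hx := (xsq h).1
  set x := -(y1 + y2) + s8 * y2 with hxd
  obtain ⟨a1, a2⟩ := four x
  obtain ⟨b1, b2⟩ := four (t8 * x)
  obtain ⟨c1, c2⟩ := four y1
  obtain ⟨d1, d2⟩ := four (t8 * y1)
  rw [map_mul, normSq_t8, one_mul] at b1 d1
  have hst := s8_mul_t8
  rw [sum_S1, sum_S1]
  simp only [mc, e0, e1, e2, e3, e4, e5, e6, e7, ← hxd]
  have f1 : -t8 * (s8 * y1) = - y1 := by linear_combination (-y1) * hst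
  have f3 : Complex.I * t8 * (s8 * y1) = Complex.I * y1 := by
    linear_combination (Complex.I * y1) * hst
  have f5 : t8 * (s8 * y1) = y1 := by linear_combination y1 * hst
  have f7 : -Complex.I * t8 * (s8 * y1) = -Complex.I * y1 := by
    linear_combination (-Complex.I * y1) * hst
  rw [f1, f3, f5, f7]
  have g1 : -t8 * -x = t8 * x := by ring
  have g3 : Complex.I * t8 * -x = -Complex.I * (t8 * x) := by ring
  have g5 : t8 * -x = -(t8 * x) := by ring
  have g7 : -Complex.I * t8 * -x = Complex.I * (t8 * x) := by ring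
  have k1 : -t8 * y1 = -(t8 * y1) := by ring
  have k3 : Complex.I * t8 * y1 = Complex.I * (t8 * y1) := by ring
  have k7 : -Complex.I * t8 * y1 = -Complex.I * (t8 * y1) := by ring
  rw [g1, g3, g5, g7, k1, k3, k7, one_mul, neg_one_mul]
  constructor
  · linear_combination a1 + b1 + c1 + d1 + 4 * hx
  · linear_combination a2 + b2 + c2 + d2

/-- sums over the half-edges with lattice vector `(0, 1)` -/
theorem sums2 (v1 v2 : ℤ × ℤ) {y1 y2 : ℂ} (h : Iso y1 y2) :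
    ∑ k ∈ S2, ((mc v1 v2 y1 y2 k).2.re) ^ 2 = 4 * √2 * Complex.normSq y2 ∧
    ∑ k ∈ S2, (mc v1 v2 y1 y2 k).2.re = 0 := by
  obtain ⟨e0, e1, e2, e3, e4, e5, e6, e7⟩ := xp_vals
  have hx := (xsq h).2
  set x := y1 - s8 * (y1 + y2) with hxd
  obtain ⟨a1, a2⟩ := four x
  obtain ⟨b1, b2⟩ := four (t8 * x)
  obtain ⟨c1, c2⟩ := four y2
  obtain ⟨d1, d2⟩ := four (t8 * y2)
  rw [map_mul, normSq_t8, one_mul] at b1 d1
  have hst := s8_mul_t8
  rw [sum_S2, sum_S2]
  simp only [mc, e0, e1, e2, e3, e4, e5, e6, e7, ← hxd]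
  have f1 : -t8 * (s8 * y2) = - y2 := by linear_combination (-y2) * hst
  have f3 : Complex.I * t8 * (s8 * y2) = Complex.I * y2 := by
    linear_combination (Complex.I * y2) * hst
  have f5 : t8 * (s8 * y2) = y2 := by linear_combination y2 * hst
  have f7 : -Complex.I * t8 * (s8 * y2) = -Complex.I * y2 := by
    linear_combination (-Complex.I * y2) * hst
  rw [f1, f3, f5, f7]
  have g1 : -t8 * -x = t8 * x := by ring
  have g3 : Complex.I * t8 * -x = -Complex.I * (t8 * x) := by ring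
  have g5 : t8 * -x = -(t8 * x) := by ring
  have g7 : -Complex.I * t8 * -x = Complex.I * (t8 * x) := by ring
  have k1 : -t8 * y2 = -(t8 * y2) := by ring
  have k3 : Complex.I * t8 * y2 = Complex.I * (t8 * y2) := by ring
  have k7 : -Complex.I * t8 * y2 = -Complex.I * (t8 * y2) := by ring
  rw [g1, g3, g5, g7, k1, k3, k7, one_mul, neg_one_mul]
  constructor
  · linear_combination a1 + b1 + c1 + d1 + 4 * hx
  · linear_combination a2 + b2 + c2 + d2

theorem xp_add3 (j : ZMod 8) : xp (j + 3) = xp j * s8 := by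
  have h1 := xp_succ j
  have h2 := xp_succ (j + 1)
  have h3 := xp_succ (j + 1 + 1)
  rw [show j + 1 + 1 + 1 = j + 3 by ring] at h3
  rw [h3, h2, h1]
  have := xp_vals.2.2.2.1
  have e : -t8 * (-t8 * -t8) = s8 := by
    have h4 := s8_mul_t8
    have h5 := s8_sq
    have h6 := t8_sq
    have h7 := Complex.I_mul_I
    linear_combination (s8 * Complex.I - t8) * h6 - Complex.I * t8 * h4 - s8 * h7
  linear_combination (xp j) * e

theorem xp_add4 (j : ZMod 8) : xp (j + 4) = - xp j := by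
  have h1 := xp_add3 j
  have h2 := xp_succ (j + 3)
  rw [show j + 3 + 1 = j + 4 by ring] at h2
  rw [h2, h1]
  linear_combination (-xp j) * s8_mul_t8

theorem xp_inj {a b : ZMod 8} (h : xp a = xp b) : a = b := by
  have h4 : (-t8) ^ 4 = -1 := by rw [neg_pow, t8_pow4]; norm_num
  have ho : orderOf (-t8) = 2 ^ (2 + 1) := by
    apply orderOf_eq_prime_pow
    · norm_num [h4]
    · norm_num
      have : t8 ^ 8 = (t8 ^ 4) ^ 2 := by ring
      rw [this, t8_pow4]; norm_num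
  have ha : a.val < orderOf (-t8) := by rw [ho]; exact ZMod.val_lt a
  have hb : b.val < orderOf (-t8) := by rw [ho]; exact ZMod.val_lt b
  have := pow_injOn_Iio_orderOf (x := -t8) ha hb h
  exact ZMod.val_injective 8 this

/-- position of the parameter of a half-edge of type 1 -/
def cod1 (h : MH) : Bool × ZMod 8 :=
  match h with
  | (0, _, j) => (true, j)
  | (1, _, j) => (false, j + 3)
  | (2, _, j) => (true, j + 4)
  | (3, _, j) => (false, j)

/-- position of the parameter of a half-edge of type 2 -/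
def cod2 (h : MH) : Bool × ZMod 8 :=
  match h with
  | (0, _, j) => (true, j)
  | (1, _, j) => (false, j)
  | (2, _, j) => (false, j + 3)
  | (3, _, j) => (true, j + 4)

set_option maxRecDepth 100000 in
theorem cod1_inj : ∀ h ∈ S1, ∀ k ∈ S1, cod1 h = cod1 k → h = k := by decide

set_option maxRecDepth 100000 in
theorem cod2_inj : ∀ h ∈ S2, ∀ k ∈ S2, cod2 h = cod2 k → h = k := by decide

theorem type_S1 : ∀ h ∈ S1, h.2.1 = 1 := by decide

theorem type_S2 : ∀ h ∈ S2, h.2.1 = 2 := by decide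

theorem val_inj {x y : ℂ} (hx : x ≠ 0) (hy : y ≠ 0) (hxy : Complex.normSq x ≠ Complex.normSq y)
    {c c' : Bool × ZMod 8} (h : xp c.2 * (if c.1 then x else y) =
      xp c'.2 * (if c'.1 then x else y)) : c = c' := by
  have hn : ∀ j, Complex.normSq (xp j) = 1 := fun j => by
    rw [Complex.normSq_eq_norm_sq, norm_xp, one_pow]
  obtain ⟨b, m⟩ := c
  obtain ⟨b', m'⟩ := c'
  have h2 := congrArg Complex.normSq h
  rw [map_mul, map_mul, hn, hn, one_mul, one_mul] at h2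
  cases b <;> cases b' <;> simp only [if_true, if_false, Bool.false_eq_true] at h h2
  · have := xp_inj (mul_right_cancel₀ hy h)
    rw [this]
  · exact absurd h2.symm hxy
  · exact absurd h2 hxy
  · have := xp_inj (mul_right_cancel₀ hx h)
    rw [this]

theorem r_S1 (v1 v2 : ℤ × ℤ) (y1 y2 : ℂ) (h : MH) (hh : h.2.1 = 1) :
    (mc v1 v2 y1 y2 h).2 = xp (cod1 h).2 * (if (cod1 h).1 then -(y1 + y2) + s8 * y2 else y1) := by
  revert h
  apply mh_cases <;> intro j hh <;> first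
    | exact absurd hh (by decide : ¬ (0 : Fin 3) = 1)
    | exact absurd hh (by decide : ¬ (2 : Fin 3) = 1)
    | simp only [mc, cod1, if_true, if_false, Bool.false_eq_true, xp_add3, xp_add4] <;> ring

theorem r_S2 (v1 v2 : ℤ × ℤ) (y1 y2 : ℂ) (h : MH) (hh : h.2.1 = 2) :
    (mc v1 v2 y1 y2 h).2 = xp (cod2 h).2 * (if (cod2 h).1 then y1 - s8 * (y1 + y2) else y2) := by
  revert h
  apply mh_cases <;> intro j hh <;> first
    | exact absurd hh (by decide : ¬ (0 : Fin 3) = 2)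
    | exact absurd hh (by decide : ¬ (1 : Fin 3) = 2)
    | simp only [mc, cod2, if_true, if_false, Bool.false_eq_true, xp_add3, xp_add4] <;> ring

theorem inj_S1 (v1 v2 : ℤ × ℤ) {y1 y2 : ℂ} (hi : Iso y1 y2) (h1 : y1 ≠ 0) :
    ∀ h ∈ S1, ∀ k ∈ S1, (mc v1 v2 y1 y2 h).2 = (mc v1 v2 y1 y2 k).2 → h = k := by
  intro h hh k hk e
  rw [r_S1 _ _ _ _ h (type_S1 h hh), r_S1 _ _ _ _ k (type_S1 k hk)] at e
  have hx := (xsq hi).1
  have hP := Complex.normSq_pos.2 h1
  have hlo := r2_lo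
  have hhi := r2_hi
  refine cod1_inj h hh k hk (val_inj ?_ h1 ?_ e)
  · apply Complex.normSq_pos.1
    rw [hx]
    exact mul_pos (by linarith) hP
  · rw [hx]
    intro h3
    nlinarith

theorem inj_S2 (v1 v2 : ℤ × ℤ) {y1 y2 : ℂ} (hi : Iso y1 y2) (h2 : y2 ≠ 0) :
    ∀ h ∈ S2, ∀ k ∈ S2, (mc v1 v2 y1 y2 h).2 = (mc v1 v2 y1 y2 k).2 → h = k := by
  intro h hh k hk e
  rw [r_S2 _ _ _ _ h (type_S2 h hh), r_S2 _ _ _ _ k (type_S2 k hk)] at e
  have hx := (xsq hi).2
  have hP := Complex.normSq_pos.2 h2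
  have hlo := r2_lo
  have hhi := r2_hi
  refine cod2_inj h hh k hk (val_inj ?_ h2 ?_ e)
  · apply Complex.normSq_pos.1
    rw [hx]
    exact mul_pos (by linarith) hP
  · rw [hx]
    intro h3
    nlinarith

theorem mc_mul (v1 v2 : ℤ × ℤ) (u y1 y2 : ℂ) (h : MH) :
    (mc v1 v2 (u * y1) (u * y2) h).2 = u * (mc v1 v2 y1 y2 h).2 := by
  revert h
  apply mh_cases <;> intro j <;> simp only [mc] <;> ring

/-- generic parameters -/
def Generic (u : ℂ) : Prop := u ≠ 0 ∧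
  (∀ h ∈ S1, ∀ k ∈ S1, h ≠ k → (mc (1, 0) (0, 1) (GS u 0).y1 (GS u 0).y2 h).2.re ≠
    (mc (1, 0) (0, 1) (GS u 0).y1 (GS u 0).y2 k).2.re) ∧
  (∀ h ∈ S2, ∀ k ∈ S2, h ≠ k → (mc (1, 0) (0, 1) (GS u 0).y1 (GS u 0).y2 h).2.re ≠
    (mc (1, 0) (0, 1) (GS u 0).y1 (GS u 0).y2 k).2.re)

theorem exists_generic : ∃ u : ℂ, Generic u := by
  -- the values for `u = 1`
  set ρ : MH → ℂ := fun h => (mc (1, 0) (0, 1) 1 ((mm : ℂ) - 1 - s8) h).2 with hρ
  have hval : ∀ u h, (mc (1, 0) (0, 1) (GS u 0).y1 (GS u 0).y2 h).2 = u * ρ h := by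
    intro u h
    rw [hρ]
    simp only
    rw [← mc_mul]
    simp only [GS]
    rw [mul_one, mul_comm u]
  have hi : Iso 1 ((mm : ℂ) - 1 - s8) := by
    have := iso_gold 1
    rwa [mul_one] at this
  have hne : ((mm : ℂ) - 1 - s8) ≠ 0 := fun h => mm_s8_re (by rw [h]; rfl)
  have bad : ∀ h k : MH, ρ h ≠ ρ k →
      {t : ℝ | (((1 : ℂ) + t * Complex.I) * ρ h).re = (((1 : ℂ) + t * Complex.I) * ρ k).re}.Finite := by
    intro h k hd
    apply Set.Subsingleton.finite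
    intro t ht t' ht'
    simp only [Set.mem_ofPred_eq, Complex.mul_re, Complex.add_re, Complex.one_re, Complex.add_im,
      Complex.one_im, Complex.mul_im, Complex.ofReal_re, Complex.ofReal_im, Complex.I_re,
      Complex.I_im] at ht ht'
    by_contra hne'
    apply hd
    have e1 : (t - t') * ((ρ h).im - (ρ k).im) = 0 := by linear_combination ht' - ht
    have e2 : (ρ h).im = (ρ k).im := by
      rcases mul_eq_zero.1 e1 with h' | h'
      · exact absurd (sub_eq_zero.1 h') hne'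
      · linarith
    apply Complex.ext
    · rw [e2] at ht; linarith
    · exact e2
  have fin : (⋃ h : MH, ⋃ k : MH, ⋃ _ : ρ h ≠ ρ k,
      {t : ℝ | (((1 : ℂ) + t * Complex.I) * ρ h).re =
        (((1 : ℂ) + t * Complex.I) * ρ k).re}).Finite := by
    refine Set.finite_iUnion fun h => Set.finite_iUnion fun k => Set.finite_iUnion fun hd => ?_
    exact bad h k hd
  obtain ⟨t, ht⟩ := fin.infinite_compl.nonempty
  simp only [Set.mem_compl_iff, Set.mem_iUnion, Set.mem_ofPred_eq, not_exists] at ht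
  refine ⟨1 + t * Complex.I, ?_, ?_, ?_⟩
  · intro h
    have := congrArg Complex.re h
    simp at this
  · intro h hh k hk hne'
    rw [hval, hval]
    exact ht h k fun e => hne' (inj_S1 _ _ hi one_ne_zero h hh k hk e)
  · intro h hh k hk hne'
    rw [hval, hval]
    exact ht h k fun e => hne' (inj_S2 _ _ hi hne h hh k hk e)

end Pool.Agent.H241
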