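import Pool.Agent.H241.Defs

/-!
# Cone angles and orders of the zeros
-/

namespace Pool.Agent.H241

/-- the half-edge following `h` counterclockwise around the source of `h` -/
def rot (T : Comb) (h : T.H) : T.H := T.opp (T.nxt (T.nxt h))

/-- The vertices of a triangulated surface: classes of half-edges with the same source. -/
def Vert (T : Comb) : Type := Quot (fun h k : T.H => k = rot T h)

/-- The vertex where a half-edge starts. -/
def src (T : Comb) (h : T.H) : Vert T := Quot.mk _ h

instance vert_finite (T : Comb) : Finite (Vert T) := by
  have := T.fin
  unfold Vert
  infer_instance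

/-- The cone angle at a vertex divided by `2 π`: the number of corners at that vertex, between a
half-edge `h` (included) and the next half-edge `rot h` (excluded), which contain the direction
of the positive horizontal axis. -/
noncomputable def coneIndex (X : TriSurf) (v : Vert X.1) : ℕ :=
  Nat.card {h : X.1.H // src X.1 h = v ∧ (X.2.1 h).2 ≤ 0 ∧ 0 < (X.2.1 (rot X.1 h)).2}

open Classical in
/-- The orders of the zeros: a cone angle `2 π (k + 1)` means a zero of order `k`. -/
noncomputable def orders (X : TriSurf) : Multiset ℕ :=
  haveI := Fintype.ofFinite (Vert X.1)
  (Finset.univ : Finset (Vert X.1)).val.map (fun v => coneIndex X v - 1)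

end Pool.Agent.H241
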