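import Pool.Agent.H241.Lift

/-!
# The quotient map onto the moduli space is open
-/

namespace Pool.Agent.H241

open Filter Topology

theorem det_continuous : Continuous (fun p : (ℝ × ℝ) × (ℝ × ℝ) => det p.1 p.2) := by
  unfold det
  fun_prop

theorem pos_open (T : Comb) : IsOpen {w : T.H → ℝ × ℝ | Pos T w} := by
  have := T.fin
  have : {w : T.H → ℝ × ℝ | Pos T w} = ⋂ h, {w | 0 < det (w h) (w (T.nxt h))} := by
    ext w; simp [Pos]
  rw [this]
  refine isOpen_iInter_of_finite (fun h => ?_)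
  refine isOpen_lt continuous_const ?_
  unfold det
  fun_prop

/-- `X` and `Y` are equivalent, and so are all surfaces near `X` to surfaces near `Y`. -/
def LocEq (X Y : TriSurf) : Prop :=
  ∃ Φ : (X.1.H → ℝ × ℝ) → (Y.1.H → ℝ × ℝ), Continuous Φ ∧ Φ X.2.1 = Y.2.1 ∧
    ∀ᶠ w in 𝓝 X.2.1, ∀ hw : IsCoc X.1 w ∧ Pos X.1 w,
      ∃ hw' : IsCoc Y.1 (Φ w) ∧ Pos Y.1 (Φ w),
        Relation.EqvGen Step (⟨X.1, ⟨w, hw⟩⟩ : TriSurf) ⟨Y.1, ⟨Φ w, hw'⟩⟩

theorem LocEq.refl (X : TriSurf) : LocEq X X :=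
  ⟨id, continuous_id, rfl, Eventually.of_forall fun _ hw => ⟨hw, Relation.EqvGen.refl _⟩⟩

theorem LocEq.trans {X Y Z : TriSurf} (h1 : LocEq X Y) (h2 : LocEq Y Z) : LocEq X Z := by
  obtain ⟨Φ, c1, e1, f1⟩ := h1
  obtain ⟨Ψ, c2, e2, f2⟩ := h2
  refine ⟨Ψ ∘ Φ, c2.comp c1, by simp [e1, e2], ?_⟩
  have t : Tendsto Φ (𝓝 X.2.1) (𝓝 Y.2.1) := by
    rw [← e1]; exact c1.tendsto _
  filter_upwards [f1, t.eventually f2] with w g1 g2 hw
  obtain ⟨hw1, s1⟩ := g1 hw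
  obtain ⟨hw2, s2⟩ := g2 hw1
  exact ⟨hw2, s1.trans _ _ _ s2⟩

theorem flipC_continuous (T : Comb) (F : Set T.H) :
    Continuous (fun w : T.H → ℝ × ℝ => flipC T F w) := by
  refine continuous_pi (fun h => ?_)
  by_cases h0 : h ∈ F
  · simp only [flipC_mem h0]
    fun_prop
  · simp only [flipC_not h0]
    fun_prop

theorem unflipC_continuous (T : Comb) (F : Set T.H) :
    Continuous (fun w : T.H → ℝ × ℝ => unflipC T F w) := by
  refine continuous_pi (fun h => ?_)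
  by_cases h0 : h ∈ F
  · simp only [unflipC_mem h0]
    fun_prop
  · simp only [unflipC_not h0]
    fun_prop

theorem LocEq.of_step {X Y : TriSurf} (s : Step X Y) : LocEq X Y ∧ LocEq Y X := by
  cases s with
  | relabel _ e h1 h2 h3 =>
    have n1 : ∀ h, e.symm (Y.1.nxt h) = X.1.nxt (e.symm h) := fun h => by
      rw [Equiv.symm_apply_eq, h1, Equiv.apply_symm_apply]
    have n2 : ∀ h, e.symm (Y.1.opp h) = X.1.opp (e.symm h) := fun h => by
      rw [Equiv.symm_apply_eq, h2, Equiv.apply_symm_apply]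
    constructor
    · refine ⟨fun w h => w (e.symm h), continuous_pi fun h => continuous_apply _, ?_, ?_⟩
      · funext h
        change X.2.1 (e.symm h) = Y.2.1 h
        rw [← h3, Equiv.apply_symm_apply]
      · refine Eventually.of_forall fun w hw => ⟨⟨⟨fun h => ?_, fun h => ?_⟩, fun h => ?_⟩, ?_⟩
        · simp only [n2]; exact hw.1.opp _
        · simp only [n1]; exact hw.1.tri _
        · simp only [n1]; exact hw.2 _
        · exact Relation.EqvGen.rel _ _ (Step.relabel _ _ e h1 h2 (fun h => by simp))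
    · refine ⟨fun w h => w (e h), continuous_pi fun h => continuous_apply _, ?_, ?_⟩
      · funext h; exact h3 h
      · refine Eventually.of_forall fun w hw => ⟨⟨⟨fun h => ?_, fun h => ?_⟩, fun h => ?_⟩, ?_⟩
        · simp only [h2]; exact hw.1.opp _
        · simp only [h1]; exact hw.1.tri _
        · simp only [h1]; exact hw.2 _
        · exact (Relation.EqvGen.rel _ _ (Step.relabel
            (⟨X.1, ⟨fun h => w (e h), _⟩⟩ : TriSurf) ⟨Y.1, ⟨w, hw⟩⟩ e h1 h2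
            (fun h => rfl))).symm
  | flip F hF hpos =>
    constructor
    · refine ⟨fun w => flipC X.1 F w, flipC_continuous _ _, rfl, ?_⟩
      have := ((pos_open (flip X.1 F hF)).preimage (flipC_continuous X.1 F)).mem_nhds hpos
      filter_upwards [this] with w hw1 hw
      exact ⟨⟨flipC_isCoc hF hw.1, hw1⟩,
        Relation.EqvGen.rel _ _ (Step.flip (⟨X.1, ⟨w, hw⟩⟩ : TriSurf) F hF hw1)⟩
    · have e0 : unflipC X.1 F (flipC X.1 F X.2.1) = X.2.1 := unflipC_flipC hF X.2.2.1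
      refine ⟨fun w => unflipC X.1 F w, unflipC_continuous X.1 F, e0, ?_⟩
      have h1 : unflipC X.1 F (flipC X.1 F X.2.1) ∈ {w : X.1.H → ℝ × ℝ | Pos X.1 w} := by
        rw [e0]; exact X.2.2.2
      have := ((pos_open X.1).preimage (unflipC_continuous X.1 F)).mem_nhds h1
      filter_upwards [this] with w hw1 hw
      have hc := unflipC_isCoc hF hw.1
      have e1 : flipC X.1 F (unflipC X.1 F w) = w := flipC_unflipC hF hw.1
      refine ⟨⟨hc, hw1⟩, ?_⟩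
      have h2 : Pos (H241.flip X.1 F hF) (flipC X.1 F (unflipC X.1 F w)) := by
        rw [e1]; exact hw.2
      have := Step.flip (⟨X.1, ⟨unflipC X.1 F w, ⟨hc, hw1⟩⟩⟩ : TriSurf) F hF h2
      have e2 : (⟨H241.flip X.1 F hF, ⟨flipC X.1 F (unflipC X.1 F w), _⟩⟩ : TriSurf) =
        ⟨H241.flip X.1 F hF, ⟨w, hw⟩⟩ :=
        triSurf_ext (T := H241.flip X.1 F hF) e1 ⟨flipC_isCoc hF hc, h2⟩ _
      rw [e2] at this
      exact (Relation.EqvGen.rel _ _ this).symm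

theorem LocEq.of_eqv {X Y : TriSurf} (s : Relation.EqvGen Step X Y) :
    LocEq X Y ∧ LocEq Y X := by
  induction s with
  | rel _ _ s => exact LocEq.of_step s
  | refl X => exact ⟨LocEq.refl X, LocEq.refl X⟩
  | symm _ _ _ ih => exact ⟨ih.2, ih.1⟩
  | trans _ _ _ _ _ ih1 ih2 => exact ⟨ih1.1.trans ih2.1, ih2.2.trans ih1.2⟩

/-- The class of a triangulated surface. -/
def toModuli (X : TriSurf) : Moduli := Quot.mk Step X

theorem toModuli_eq_iff {X Y : TriSurf} :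
    toModuli X = toModuli Y ↔ Relation.EqvGen Step X Y := Quot.eq

theorem toModuli_continuous : Continuous toModuli := continuous_quot_mk

theorem toModuli_open : IsOpenMap toModuli := by
  intro O hO
  change IsOpen (toModuli ⁻¹' (toModuli '' O))
  rw [isOpen_sigma_iff]
  intro T
  rw [isOpen_iff_mem_nhds]
  rintro ⟨w, hw⟩ ⟨Y, hY, hXY⟩
  have s : Relation.EqvGen Step (⟨T, ⟨w, hw⟩⟩ : TriSurf) Y :=
    (toModuli_eq_iff.1 hXY).symm
  obtain ⟨⟨Φ, c1, e1, f1⟩, -⟩ := LocEq.of_eqv s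
  -- the open set in the cone of `Y`
  have hO' : IsOpen (Sigma.mk Y.1 ⁻¹' O) := isOpen_sigma_iff.1 hO Y.1
  obtain ⟨U, hU, hUO⟩ := isOpen_induced_iff.1 hO'
  have hYU : Y.2.1 ∈ U := by
    have : Y.2 ∈ Subtype.val ⁻¹' U := by rw [hUO]; exact hY
    exact this
  have t : Tendsto Φ (𝓝 w) (𝓝 Y.2.1) := by
    have := c1.tendsto w
    rwa [show Φ w = Y.2.1 from e1] at this
  have g1 : ∀ᶠ w' in 𝓝 w, Φ w' ∈ U := t.eventually (hU.mem_nhds hYU)
  have g2 : ∀ᶠ w' in 𝓝 w, ∀ hw : IsCoc T w' ∧ Pos T w',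
      ∃ hw' : IsCoc Y.1 (Φ w') ∧ Pos Y.1 (Φ w'),
        Relation.EqvGen Step (⟨T, ⟨w', hw⟩⟩ : TriSurf) ⟨Y.1, ⟨Φ w', hw'⟩⟩ := f1
  have g3 := (continuous_subtype_val.tendsto (⟨w, hw⟩ : {w : T.H → ℝ × ℝ // IsCoc T w ∧ Pos T w})
    ).eventually (g1.and g2)
  filter_upwards [g3] with w' hw'
  obtain ⟨b1, b2⟩ := hw'
  obtain ⟨b3, b4⟩ := b2 w'.2
  refine ⟨⟨Y.1, ⟨Φ w'.1, b3⟩⟩, ?_, (toModuli_eq_iff.2 b4).symm⟩
  have : (⟨Φ w'.1, b3⟩ : {w : Y.1.H → ℝ × ℝ // IsCoc Y.1 w ∧ Pos Y.1 w}) ∈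
      Subtype.val ⁻¹' U := b1
  rw [hUO] at this
  exact this

/-- The neighbourhoods of the class of `(T, w)` given by the sup distance of period
coordinates. -/
theorem ball_mem_nhds (X : TriSurf) {r : ℝ} (hr : 0 < r) :
    toModuli '' {Y | ∃ (w : X.1.H → ℝ × ℝ) (hw : IsCoc X.1 w ∧ Pos X.1 w),
      (∀ h, ‖w h - X.2.1 h‖ < r) ∧ Y = ⟨X.1, ⟨w, hw⟩⟩} ∈ 𝓝 (toModuli X) := by
  have := X.1.fin
  have := Fintype.ofFinite X.1.H
  have hopen : IsOpen {Y : TriSurf | ∃ (w : X.1.H → ℝ × ℝ) (hw : IsCoc X.1 w ∧ Pos X.1 w),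
      (∀ h, ‖w h - X.2.1 h‖ < r) ∧ Y = ⟨X.1, ⟨w, hw⟩⟩} := by
    have : {Y : TriSurf | ∃ (w : X.1.H → ℝ × ℝ) (hw : IsCoc X.1 w ∧ Pos X.1 w),
      (∀ h, ‖w h - X.2.1 h‖ < r) ∧ Y = ⟨X.1, ⟨w, hw⟩⟩} =
      Sigma.mk X.1 '' {w : {w : X.1.H → ℝ × ℝ // IsCoc X.1 w ∧ Pos X.1 w} |
        ∀ h, ‖w.1 h - X.2.1 h‖ < r} := by
      ext Y
      constructor
      · rintro ⟨w, hw, h1, rfl⟩
        exact ⟨⟨w, hw⟩, h1, rfl⟩
      · rintro ⟨w, h1, rfl⟩
        exact ⟨w.1, w.2, h1, rfl⟩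
    rw [this]
    refine isOpenMap_sigmaMk _ ?_
    have : {w : {w : X.1.H → ℝ × ℝ // IsCoc X.1 w ∧ Pos X.1 w} |
        ∀ h, ‖w.1 h - X.2.1 h‖ < r} = ⋂ h, {w | ‖w.1 h - X.2.1 h‖ < r} := by
      ext w; simp
    rw [this]
    refine isOpen_iInter_of_finite fun h => isOpen_lt ?_ continuous_const
    exact (((continuous_apply h).comp continuous_subtype_val).sub continuous_const).norm
  refine (toModuli_open _ hopen).mem_nhds ⟨X, ⟨X.2.1, X.2.2, fun h => by simpa using hr, rfl⟩, rfl⟩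

end Pool.Agent.H241
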