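import Pool.Agent.H241.Basis
import Pool.Agent.H241.Comb
import Pool.Agent.H241.Topo

/-!
# The main argument
-/

namespace Pool.Agent.H241

/-- linear part of the developing homomorphism -/
noncomputable def Lin (s : ℝ) (v : ℤ × ℤ) : ℝ × ℝ := (v.1 + s * ha v, ha v)

theorem piS_eq (ε s : ℝ) (c : (ℤ × ℤ) × ℂ) : piS ε s c = Lin s c.1 + (ε * c.2.re, 0) := by
  rw [piS_apply, Lin, Prod.mk_add_mk, add_zero]

theorem det_Lin (s : ℝ) (v w : ℤ × ℤ) : det (Lin s v) (Lin s w) = (dz v w : ℤ) := by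
  simp only [Lin, det, dz, ha]; push_cast; ring

theorem Lin_comb (s : ℝ) (a b : ℤ) (v w : ℤ × ℤ) :
    Lin s (a • v + b • w) = (a : ℝ) • Lin s v + (b : ℝ) • Lin s w := by
  simp only [Lin, ha_add, ha_smul]
  refine Prod.ext ?_ ?_
  · simp only [Prod.fst_add, Prod.smul_fst, smul_eq_mul]; push_cast; ring
  · simp only [Prod.snd_add, Prod.smul_snd, smul_eq_mul]

theorem norm_x (a : ℝ) : ‖((a, 0) : ℝ × ℝ)‖ = |a| := by
  rw [Prod.norm_def, Real.norm_eq_abs]; simp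

theorem Lin_norm {s : ℝ} {v : ℤ × ℤ} {x : ℝ} (hx : 0 ≤ x) (h : en s v ≤ x ^ 2) :
    ‖Lin s v‖ ≤ x := by
  unfold en at h
  rw [Prod.norm_def, max_le_iff]
  constructor
  · exact abs_le_of_sq_le_sq (by
      change ((v.1 : ℝ) + s * ha v) ^ 2 ≤ x ^ 2
      nlinarith [sq_nonneg (ha v)]) hx
  · exact abs_le_of_sq_le_sq (by
      change (ha v) ^ 2 ≤ x ^ 2
      nlinarith [sq_nonneg ((v.1 : ℝ) + s * ha v)]) hx

/-- the smallness condition used in the main argument -/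
def Tiny (u : ℂ) (ε : ℝ) : Prop := 0 < ε ∧ ε * (100000 * (2 + YM u)) ≤ 1

theorem YM_nonneg {u : ℂ} (hu : u ≠ 0) : 0 ≤ YM u := by
  have := FF_pos (GS_SInv hu 0)
  unfold YM; positivity

theorem Tiny.small {u : ℂ} (hu : u ≠ 0) {ε : ℝ} (h : Tiny u ε) : Small u ε := by
  have := YM_nonneg hu
  refine ⟨h.1, le_trans ?_ h.2⟩
  have := h.1
  gcongr
  linarith

/-- the data of the base surface -/
noncomputable def c0 (u : ℂ) (h : MH) : (ℤ × ℤ) × ℂ := mc (1, 0) (0, 1) (GS u 0).y1 (GS u 0).y2 h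

theorem c0_fst (u : ℂ) (h : MH) : (c0 u h).1 = z0 h := by
  rw [c0, mc_fst]
  refine Prod.ext ?_ ?_ <;> simp

theorem c0_norm {u : ℂ} (hu : u ≠ 0) (h : MH) : ‖(c0 u h).2‖ ≤ 2 * (2 + YM u) := by
  have h1 := reach_norm hu (Reach.start (σ0 := GS u 0))
    (by simp only [GS, ha_10]; linarith [gold_hi]) (by simp only [GS, ha_01]; norm_num)
  exact (mc_norm _ _ _ _ h).trans (by linarith)

/-- the base surface -/
noncomputable def w0 (u : ℂ) (ε : ℝ) (h : MH) : ℝ × ℝ := piS ε 0 (c0 u h)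

theorem z0_bound (h : MH) : |((z0 h).1 : ℝ)| ≤ 1 ∧ |((z0 h).2 : ℝ)| ≤ 1 ∧
    |ha (z0 h)| ≤ Real.goldenRatio + 1 := by
  have := gold_lo
  rcases z0_cases h with ⟨a, -⟩ | ⟨a, -⟩ | ⟨a, -⟩ | ⟨a, -⟩ | ⟨a, -⟩ | ⟨a, -⟩ <;> rw [a] <;>
    simp only [ha] <;> push_cast <;> refine ⟨?_, ?_, ?_⟩ <;> rw [abs_le] <;>
    constructor <;> linarith

theorem w0_facts {u : ℂ} (hu : u ≠ 0) {ε : ℝ} (hε : Tiny u ε) (h : MH) :
    ‖w0 u ε h - Lin 0 (z0 h)‖ ≤ 1 / 10000 ∧ ‖w0 u ε h‖ ≤ 2.6182 ∧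
    |det (w0 u ε h) (w0 u ε (mnxt h)) - 1| ≤ 1 / 1000 := by
  have hY := YM_nonneg hu
  obtain ⟨e0, e1⟩ := hε
  have n1 := c0_norm hu h
  have n2 := c0_norm hu (mnxt h)
  have r1 := (Complex.abs_re_le_norm (c0 u h).2).trans n1
  have r2 := (Complex.abs_re_le_norm (c0 u (mnxt h)).2).trans n2
  obtain ⟨z1, z2, z3⟩ := z0_bound h
  obtain ⟨z1', z2', z3'⟩ := z0_bound (mnxt h)
  have hhi := gold_hi
  have hlo := gold_lo
  set Y := 2 + YM u with hYd
  have d1 : |ε * (c0 u h).2.re| ≤ 1 / 10000 := by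
    rw [abs_mul, abs_of_pos e0]
    have : ε * |(c0 u h).2.re| ≤ ε * (2 * Y) := mul_le_mul_of_nonneg_left r1 e0.le
    linarith
  have a1 : ‖w0 u ε h - Lin 0 (z0 h)‖ ≤ 1 / 10000 := by
    rw [w0, piS_eq, c0_fst, add_sub_cancel_left, norm_x]; exact d1
  refine ⟨a1, ?_, ?_⟩
  · have a2 : ‖Lin 0 (z0 h)‖ ≤ 2.61804 := by
      rw [Prod.norm_def, max_le_iff]
      simp only [Lin, zero_mul, add_zero, Real.norm_eq_abs]
      constructor <;> linarith
    calc ‖w0 u ε h‖ = ‖(w0 u ε h - Lin 0 (z0 h)) + Lin 0 (z0 h)‖ := by rw [sub_add_cancel]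
      _ ≤ ‖w0 u ε h - Lin 0 (z0 h)‖ + ‖Lin 0 (z0 h)‖ := norm_add_le _ _
      _ ≤ 2.6182 := by linarith
  · rw [w0, w0, det_piS]
    have hd : dz (c0 u h).1 (c0 u (mnxt h)).1 = 1 := by
      rw [c0, c0, mc_dz]; rfl
    rw [hd, c0_fst, c0_fst]
    push_cast
    rw [add_sub_cancel_left, abs_mul, abs_of_pos e0]
    have b1 : |(c0 u h).2.re * ha (z0 (mnxt h))| ≤ (2 * Y) * 2.7 := by
      rw [abs_mul]
      exact mul_le_mul r1 (by linarith) (abs_nonneg _) (by linarith)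
    have b2 : |(c0 u (mnxt h)).2.re * ha (z0 h)| ≤ (2 * Y) * 2.7 := by
      rw [abs_mul]
      exact mul_le_mul r2 (by linarith) (abs_nonneg _) (by linarith)
    have b3 := (abs_sub ((c0 u h).2.re * ha (z0 (mnxt h)))
      ((c0 u (mnxt h)).2.re * ha (z0 h))).trans (add_le_add b1 b2)
    have b4 := mul_le_mul_of_nonneg_left b3 e0.le
    linarith

theorem det_close {a b a' b' : ℝ × ℝ} {L η : ℝ} (ha : ‖a‖ ≤ L) (hb : ‖b‖ ≤ L)
    (h1 : ‖a' - a‖ ≤ η) (h2 : ‖b' - b‖ ≤ η) :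
    |det a' b' - det a b| ≤ 4 * L * η + 2 * η * η := by
  have e : det a' b' - det a b = det a (b' - b) + det (a' - a) b + det (a' - a) (b' - b) := by
    simp only [det, Prod.fst_sub, Prod.snd_sub]; ring
  have hη : 0 ≤ η := (norm_nonneg _).trans h1
  have hL : 0 ≤ L := (norm_nonneg _).trans ha
  have k1 := abs_det_le a (b' - b)
  have k2 := abs_det_le (a' - a) b
  have k3 := abs_det_le (a' - a) (b' - b)
  have m1 : 2 * ‖a‖ * ‖b' - b‖ ≤ 2 * L * η := by gcongr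
  have m2 : 2 * ‖a' - a‖ * ‖b‖ ≤ 2 * η * L := by gcongr
  have m3 : 2 * ‖a' - a‖ * ‖b' - b‖ ≤ 2 * η * η := by gcongr
  rw [e]
  have := abs_add_le (det a (b' - b) + det (a' - a) b) (det (a' - a) (b' - b))
  have := abs_add_le (det a (b' - b)) (det (a' - a) b)
  linarith

/-- geometry of a surface close to the base surface -/
theorem geomY {u : ℂ} (hu : u ≠ 0) {ε : ℝ} (hε : Tiny u ε) {w : MH → ℝ × ℝ}
    (hw : ∀ h, ‖w h - w0 u ε h‖ ≤ 1 / 1000) (h : MH) :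
    ‖w h‖ ≤ 2.62 ∧ |det (w h) (w (mnxt h)) - 1| ≤ 0.02 := by
  obtain ⟨-, a2, a3⟩ := w0_facts hu hε h
  obtain ⟨-, b2, -⟩ := w0_facts hu hε (mnxt h)
  constructor
  · calc ‖w h‖ = ‖(w h - w0 u ε h) + w0 u ε h‖ := by rw [sub_add_cancel]
      _ ≤ ‖w h - w0 u ε h‖ + ‖w0 u ε h‖ := norm_add_le _ _
      _ ≤ 2.62 := by linarith [hw h]
  · have := det_close a2 b2 (hw h) (hw (mnxt h))
    have k := abs_add_le (det (w h) (w (mnxt h)) - det (w0 u ε h) (w0 u ε (mnxt h)))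
      (det (w0 u ε h) (w0 u ε (mnxt h)) - 1)
    rw [sub_add_sub_cancel] at k
    norm_num at this a3 ⊢
    linarith

/-- short edges give short straight segments in the base surface -/
theorem edge_mem {π : (ℤ × ℤ) × ℂ →+ ℝ × ℝ} {v1 v2 : ℤ × ℤ} {y1 y2 : ℂ} (h : MH) :
    mc v1 v2 y1 y2 h ∈ SC MT (mc v1 v2 y1 y2) π := Or.inl ⟨h, rfl⟩

theorem crude {u : ℂ} (hu : u ≠ 0) {ε : ℝ} (hε : Tiny u ε) {s : ℝ} {c : MH → (ℤ × ℤ) × ℂ}
    (hc : IsCoc MT c) (hp : Pos MT (fun h => piS ε s (c h)))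
    (hw : ∀ h, ‖piS ε s (c h) - w0 u ε h‖ ≤ 1 / 1000)
    (p0 : Pos MT (fun h => piS ε s (mc (1, 0) (0, 1) (GS u 0).y1 (GS u 0).y2 h)))
    (he : Relation.EqvGen (DStep (piS ε s)) (MD (1, 0) (0, 1) (GS u 0).y1 (GS u 0).y2 p0)
      ⟨MT, c, hc, hp⟩) (h : MH) : ‖(c h).2‖ ≤ 600 * (2 + YM u) := by
  have hY := YM_nonneg hu
  have hS := hε.small hu
  obtain ⟨e0, e1⟩ := hε
  obtain ⟨v1, v2, hd, h1, h2, hcase⟩ := reduced s
  have heights : ha v1 ≤ 7 ∧ ha v2 ≤ 7 := by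
    rcases hcase with ⟨a, b, -⟩ | ⟨a, b⟩
    · exact ⟨a, b⟩
    · constructor
      · unfold en at a; nlinarith [sq_nonneg ((v1.1 : ℝ) + s * ha v1)]
      · unfold en at b; nlinarith [sq_nonneg ((v2.1 : ℝ) + s * ha v2)]
  obtain ⟨n, l, b, y1, y2, hr, p0', p, heq⟩ := chain0 hu hS s h1 h2 hd heights.1 heights.2
  have hSC : SC MT (mc v1 v2 y1 y2) (piS ε s) = SC MT c (piS ε s) :=
    (SC_eqv heq).symm.trans (SC_eqv he)
  have hny : ‖y1‖ + ‖y2‖ ≤ 2 + YM u := reach_norm hu hr heights.1 heights.2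
  have hR : ∀ k, ‖(mc v1 v2 y1 y2 k).2‖ ≤ 2 * (2 + YM u) := fun k =>
    (mc_norm v1 v2 y1 y2 k).trans (by linarith)
  have hx : ∀ k, |ε * (mc v1 v2 y1 y2 k).2.re| ≤ 1 / 10000 := by
    intro k
    rw [abs_mul, abs_of_pos e0]
    have r1 := (Complex.abs_re_le_norm (mc v1 v2 y1 y2 k).2).trans (hR k)
    have : ε * |(mc v1 v2 y1 y2 k).2.re| ≤ ε * (2 * (2 + YM u)) :=
      mul_le_mul_of_nonneg_left r1 e0.le
    linarith
  rcases hcase with ⟨-, -, hshort⟩ | ⟨l1, l2⟩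
  · -- short vectors are impossible
    exfalso
    obtain ⟨k, hk⟩ : ∃ k, ‖piS ε s (mc v1 v2 y1 y2 k)‖ ≤ 0.18 := by
      have step : ∀ k, en s (mc v1 v2 y1 y2 k).1 < 0.17 ^ 2 →
          ‖piS ε s (mc v1 v2 y1 y2 k)‖ ≤ 0.18 := by
        intro k hk
        rw [piS_eq]
        have a1 := Lin_norm (by norm_num) hk.le
        have a2 := hx k
        have := norm_add_le (Lin s (mc v1 v2 y1 y2 k).1)
          ((ε * (mc v1 v2 y1 y2 k).2.re, 0) : ℝ × ℝ)
        rw [norm_x] at this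
        linarith
      rcases hshort with hs | hs
      · refine ⟨(0, 1, 0), step _ ?_⟩
        have : (mc v1 v2 y1 y2 (0, 1, 0)).1 = v1 := by
          simp [mc, sgj]
        rw [this]; exact hs
      · refine ⟨(0, 2, 0), step _ ?_⟩
        have : (mc v1 v2 y1 y2 (0, 2, 0)).1 = v2 := by
          simp [mc, sgj]
        rw [this]; exact hs
    have hmem : mc v1 v2 y1 y2 k ∈ SC MT c (piS ε s) := by
      rw [← hSC]; exact edge_mem k
    have := SC_long (T := MT) (c1 := 0.98) (L := 2.62) hc hp (fun h => (geomY hu ⟨e0, e1⟩ hw h).1)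
      (fun h => by
        have := (abs_le.1 (geomY hu ⟨e0, e1⟩ hw h).2).1
        change (0.98 : ℝ) ≤ det (piS ε s (c h)) (piS ε s (c (mnxt h)))
        norm_num at this ⊢
        linarith) hmem
    norm_num at this hk
    linarith
  · -- the bounded case
    have hmem : c h ∈ SC MT (mc v1 v2 y1 y2) (piS ε s) := by
      rw [hSC]; exact Or.inl ⟨h, rfl⟩
    have m1 : ‖Lin s v1‖ ≤ 6.9 := Lin_norm (by norm_num) (by norm_num; linarith)
    have m2 : ‖Lin s v2‖ ≤ 6.9 := Lin_norm (by norm_num) (by norm_num; linarith)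
    have m3 : ∀ k, ‖piS ε s (mc v1 v2 y1 y2 k)‖ ≤ 14 := by
      intro k
      rw [piS_eq, mc_fst, Lin_comb]
      obtain ⟨z1, z2, -⟩ := z0_bound k
      have t1 := norm_add_le (((z0 k).1 : ℝ) • Lin s v1 + ((z0 k).2 : ℝ) • Lin s v2)
        ((ε * (mc v1 v2 y1 y2 k).2.re, 0) : ℝ × ℝ)
      have t2 := norm_add_le (((z0 k).1 : ℝ) • Lin s v1) (((z0 k).2 : ℝ) • Lin s v2)
      rw [norm_smul, norm_smul, Real.norm_eq_abs, Real.norm_eq_abs] at t2
      rw [norm_x] at t1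
      have t3 := hx k
      have t4 : |((z0 k).1 : ℝ)| * ‖Lin s v1‖ ≤ 1 * 6.9 := by gcongr
      have t5 : |((z0 k).2 : ℝ)| * ‖Lin s v2‖ ≤ 1 * 6.9 := by gcongr
      linarith
    have m4 : ∀ k, 1 / 2 ≤ det (piS ε s (mc v1 v2 y1 y2 k))
        (piS ε s (mc v1 v2 y1 y2 (mnxt k))) := fun k =>
      reach_det hu hS s hr heights.1 heights.2 k
    have key := SC_crude (T := MT) (C := 224 * (2 + YM u)) (mc_coc v1 v2 y1 y2) p
      (AddMonoidHom.snd (ℤ × ℤ) ℂ) (by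
        intro k α β
        simp only [AddMonoidHom.coe_snd]
        change ‖(α : ℂ) * (mc v1 v2 y1 y2 k).2 + (β : ℂ) * (mc v1 v2 y1 y2 (mnxt k)).2‖ ≤
          224 * (2 + YM u) * ‖α • piS ε s (mc v1 v2 y1 y2 k) +
            β • piS ε s (mc v1 v2 y1 y2 (mnxt k))‖
        set a := piS ε s (mc v1 v2 y1 y2 k) with ha'
        set b := piS ε s (mc v1 v2 y1 y2 (mnxt k)) with hb'
        have n1 : ‖a‖ ≤ 14 := m3 k
        have n2 : ‖b‖ ≤ 14 := m3 (mnxt k)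
        have n3 : 1 / 2 ≤ det a b := m4 k
        set W := ‖α • a + β • b‖ with hW
        have q1 : |α| ≤ 56 * W := by
          have f1 : α * det a b = det (α • a + β • b) b := by
            simp only [det, Prod.fst_add, Prod.snd_add, Prod.smul_fst, Prod.smul_snd,
              smul_eq_mul]; ring
          have f2 := abs_det_le (α • a + β • b) b
          rw [← f1, abs_mul, abs_of_pos (by linarith : 0 < det a b)] at f2
          have f3 : 2 * ‖α • a + β • b‖ * ‖b‖ ≤ 2 * W * 14 := by gcongr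
          have f4 : |α| * (1 / 2) ≤ |α| * det a b := by gcongr
          linarith
        have q2 : |β| ≤ 56 * W := by
          have f1 : β * det a b = det a (α • a + β • b) := by
            simp only [det, Prod.fst_add, Prod.snd_add, Prod.smul_fst, Prod.smul_snd,
              smul_eq_mul]; ring
          have f2 := abs_det_le a (α • a + β • b)
          rw [← f1, abs_mul, abs_of_pos (by linarith : 0 < det a b)] at f2
          have f3 : 2 * ‖a‖ * ‖α • a + β • b‖ ≤ 2 * 14 * W := by gcongr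
          have f4 : |β| * (1 / 2) ≤ |β| * det a b := by gcongr
          linarith
        have W0 : 0 ≤ W := norm_nonneg _
        calc ‖(α : ℂ) * (mc v1 v2 y1 y2 k).2 + (β : ℂ) * (mc v1 v2 y1 y2 (mnxt k)).2‖
            ≤ ‖(α : ℂ) * (mc v1 v2 y1 y2 k).2‖ + ‖(β : ℂ) * (mc v1 v2 y1 y2 (mnxt k)).2‖ :=
              norm_add_le _ _
          _ = |α| * ‖(mc v1 v2 y1 y2 k).2‖ + |β| * ‖(mc v1 v2 y1 y2 (mnxt k)).2‖ := by
              rw [norm_mul, norm_mul, Complex.norm_real, Complex.norm_real, Real.norm_eq_abs,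
                Real.norm_eq_abs]
          _ ≤ (56 * W) * (2 * (2 + YM u)) + (56 * W) * (2 * (2 + YM u)) := by
              have := hR k
              have := hR (mnxt k)
              gcongr
          _ = _ := by ring) hmem
    simp only [AddMonoidHom.coe_snd] at key
    have g1 := (geomY hu ⟨e0, e1⟩ hw h).1
    have : 224 * (2 + YM u) * ‖piS ε s (c h)‖ ≤ 224 * (2 + YM u) * 2.62 := by gcongr
    norm_num at this key ⊢
    nlinarith

end Pool.Agent.H241
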