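import Mathlib

/-!
# Triangulated translation surfaces and their moduli space

A translation surface whose set of singularities is the set of vertices of a geodesic triangulation
is recorded by the half-edges of the triangulation, the gluing pattern and the plane vectors of the
half-edges.  Two such records describe the same translation surface exactly when they are
connected by relabellings and flips of diagonals of strictly convex quadrilaterals.  The moduli
space is the quotient of the disjoint union of the cones of admissible vector assignments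
(period coordinates) by this relation, with the quotient topology.
-/

namespace Pool.Agent.H241

/-- The determinant of two plane vectors. -/
def det (u v : ℝ × ℝ) : ℝ := u.1 * v.2 - u.2 * v.1

/-- A closed connected oriented surface glued from finitely many triangles, recorded by its
half-edges.  `nxt h` is the half-edge following `h` counterclockwise in the triangle of `h`, and
`opp h` is the half-edge glued to `h` (the same edge, with the opposite direction, seen from the
adjacent triangle). -/
structure Comb : Type 1 where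
  /-- the half-edges -/
  H : Type
  fin : Finite H
  ne : Nonempty H
  /-- next half-edge in the triangle -/
  nxt : H → H
  /-- the opposite half-edge -/
  opp : H → H
  nxt3 : ∀ h, nxt (nxt (nxt h)) = h
  opp2 : ∀ h, opp (opp h) = h
  conn : ∀ S : Set H, S.Nonempty → (∀ h ∈ S, nxt h ∈ S) → (∀ h ∈ S, opp h ∈ S) → ∀ h, h ∈ S

attribute [simp] Comb.nxt3 Comb.opp2

variable {A : Type*} [AddCommGroup A]

/-- `c` is an additive cocycle: opposite half-edges carry opposite values and the values around
each triangle sum to zero. -/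
structure IsCoc (T : Comb) (c : T.H → A) : Prop where
  opp : ∀ h, c (T.opp h) = - c h
  tri : ∀ h, c h + c (T.nxt h) + c (T.nxt (T.nxt h)) = 0

/-- All triangles are nondegenerate and positively oriented. -/
def Pos (T : Comb) (w : T.H → ℝ × ℝ) : Prop := ∀ h, 0 < det (w h) (w (T.nxt h))

/-- A set of half-edges along which one can flip: closed under `opp`, and every triangle has at
most one side in it. -/
structure Adm (T : Comb) (F : Set T.H) : Prop where
  opp_mem : ∀ h, h ∈ F → T.opp h ∈ F
  nxt_not : ∀ h, h ∈ F → T.nxt h ∉ F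
  nxt2_not : ∀ h, h ∈ F → T.nxt (T.nxt h) ∉ F

open Classical in
/-- The map `nxt` after replacing every edge of `F` by the other diagonal of the quadrilateral
around it.  If `e : P → Q` is in `F`, with triangles `(e, a, b)` and `(opp e, c, d)`, where
`a : Q → R`, `b : R → P`, `c : P → S`, `d : S → Q`, the half-edge named `e` becomes the diagonal
`S → R`, and the new triangles are `(e, b, c)` and `(opp e, d, a)`. -/
noncomputable def flipNxt (T : Comb) (F : Set T.H) (h : T.H) : T.H :=
  if h ∈ F then T.nxt (T.nxt h)
  else if T.nxt h ∈ F then T.nxt (T.opp (T.nxt h))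
  else if T.nxt (T.nxt h) ∈ F then T.opp (T.nxt (T.nxt h))
  else T.nxt h

open Classical in
/-- The values of a cocycle after the flips along `F`. -/
noncomputable def flipC (T : Comb) (F : Set T.H) (c : T.H → A) (h : T.H) : A :=
  if h ∈ F then c (T.nxt (T.nxt (T.opp h))) + c (T.nxt h) else c h

section flipNxt

variable {T : Comb} {F : Set T.H}

theorem flipNxt_mem {h : T.H} (h0 : h ∈ F) : flipNxt T F h = T.nxt (T.nxt h) := by
  simp [flipNxt, h0]

theorem flipNxt_pre (hF : Adm T F) {h : T.H} (h0 : T.nxt h ∈ F) :
    flipNxt T F h = T.nxt (T.opp (T.nxt h)) := by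
  have h1 : h ∉ F := fun h1 => hF.nxt_not h h1 h0
  simp [flipNxt, h0, h1]

theorem flipNxt_pre2 (hF : Adm T F) {h : T.H} (h0 : T.nxt (T.nxt h) ∈ F) :
    flipNxt T F h = T.opp (T.nxt (T.nxt h)) := by
  have h1 : h ∉ F := fun h1 => hF.nxt2_not h h1 h0
  have h2 : T.nxt h ∉ F := fun h2 => hF.nxt_not _ h2 h0
  simp [flipNxt, h0, h1, h2]

theorem flipNxt_none {h : T.H} (h0 : h ∉ F) (h1 : T.nxt h ∉ F) (h2 : T.nxt (T.nxt h) ∉ F) :
    flipNxt T F h = T.nxt h := by
  simp [flipNxt, h0, h1, h2]

theorem flipC_mem {c : T.H → A} {h : T.H} (h0 : h ∈ F) :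
    flipC T F c h = c (T.nxt (T.nxt (T.opp h))) + c (T.nxt h) := by
  simp [flipC, h0]

theorem flipC_not {c : T.H → A} {h : T.H} (h0 : h ∉ F) : flipC T F c h = c h := by
  simp [flipC, h0]

/-- every half-edge is of one of four kinds -/
theorem four_cases (P : T.H → Prop) (h1 : ∀ h, h ∈ F → P h) (h2 : ∀ h, T.nxt h ∈ F → P h)
    (h3 : ∀ h, T.nxt (T.nxt h) ∈ F → P h)
    (h4 : ∀ h, h ∉ F → T.nxt h ∉ F → T.nxt (T.nxt h) ∉ F → P h) (h : T.H) : P h := by
  by_cases a : h ∈ F
  · exact h1 h a
  by_cases b : T.nxt h ∈ F
  · exact h2 h b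
  by_cases d : T.nxt (T.nxt h) ∈ F
  · exact h3 h d
  exact h4 h a b d

theorem flipNxt3 (hF : Adm T F) (h : T.H) :
    flipNxt T F (flipNxt T F (flipNxt T F h)) = h := by
  -- the triangle `(e, b, c)`
  have key : ∀ e, e ∈ F → flipNxt T F e = T.nxt (T.nxt e) ∧
      flipNxt T F (T.nxt (T.nxt e)) = T.nxt (T.opp e) ∧
      flipNxt T F (T.nxt (T.opp e)) = e := by
    intro e he
    have he' := hF.opp_mem e he
    refine ⟨flipNxt_mem he, ?_, ?_⟩
    · have : T.nxt (T.nxt (T.nxt e)) ∈ F := by simpa using he
      rw [flipNxt_pre hF this]; simp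
    · have : T.nxt (T.nxt (T.nxt (T.opp e))) ∈ F := by simpa using he'
      rw [flipNxt_pre2 hF this]; simp
  refine four_cases (F := F) (fun h => flipNxt T F (flipNxt T F (flipNxt T F h)) = h)
    ?_ ?_ ?_ ?_ h
  · intro h h0
    obtain ⟨k1, k2, k3⟩ := key h h0
    rw [k1, k2, k3]
  · intro h h0
    obtain ⟨k1, k2, k3⟩ := key _ h0
    simp only [Comb.nxt3] at k1 k2 k3
    rw [k2, k3, k1]
  · intro h h0
    obtain ⟨k1, k2, k3⟩ := key _ (hF.opp_mem _ h0)
    simp only [Comb.nxt3, Comb.opp2] at k1 k2 k3
    rw [k3, k1, k2]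
  · intro h a b d
    rw [flipNxt_none a b d, flipNxt_none b d (by simpa using a),
      flipNxt_none d (by simpa using a) (by simpa using b)]
    simp

end flipNxt

/-- The surface obtained by the flips along `F` (same set of names of half-edges). -/
@[reducible] noncomputable def flip (T : Comb) (F : Set T.H) (hF : Adm T F) : Comb where
  H := T.H
  fin := T.fin
  ne := T.ne
  nxt := flipNxt T F
  opp := T.opp
  nxt3 := flipNxt3 hF
  opp2 := T.opp2
  conn := by
    intro S hS h1 h2
    refine T.conn S hS ?_ h2
    -- for `e ∈ F` the six half-edges of the quadrilateral are in `S` as soon as `e` is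
    have key : ∀ e, e ∈ F → e ∈ S → T.nxt e ∈ S ∧ T.nxt (T.nxt e) ∈ S := by
      intro e he hs
      have he' := hF.opp_mem e he
      have hs' := h2 e hs
      constructor
      · have a1 := h1 _ hs'
        rw [flipNxt_mem he'] at a1
        have a2 := h1 _ a1
        rw [flipNxt_pre hF (by simpa using he')] at a2
        simpa using a2
      · have a1 := h1 _ hs
        rwa [flipNxt_mem he] at a1
    refine four_cases (F := F) (fun h => h ∈ S → T.nxt h ∈ S) ?_ ?_ ?_ ?_
    · intro h h0 hs
      exact (key h h0 hs).1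
    · intro h h0 hs
      have a1 := h1 _ hs
      rw [flipNxt_pre hF h0] at a1
      have a2 := h1 _ a1
      rw [flipNxt_pre2 hF (by simpa using hF.opp_mem _ h0)] at a2
      simpa using a2
    · intro h h0 hs
      have a1 := h1 _ hs
      rw [flipNxt_pre2 hF h0] at a1
      have a2 := h2 _ a1
      simp only [Comb.opp2] at a2
      have := (key _ h0 a2).2
      simpa using this
    · intro h a b d hs
      have a1 := h1 _ hs
      rwa [flipNxt_none a b d] at a1

theorem flipC_isCoc {T : Comb} {F : Set T.H} (hF : Adm T F) {c : T.H → A} (hc : IsCoc T c) :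
    IsCoc (flip T F hF) (flipC T F c) := by
  refine ⟨(?_ : ∀ h : T.H, flipC T F c (T.opp h) = - flipC T F c h),
    (?_ : ∀ h : T.H, flipC T F c h + flipC T F c (flipNxt T F h) +
      flipC T F c (flipNxt T F (flipNxt T F h)) = 0)⟩
  · intro h
    by_cases h0 : h ∈ F
    · have h0' := hF.opp_mem h h0
      rw [flipC_mem h0, flipC_mem h0']
      have t1 := hc.tri h
      have t2 := hc.tri (T.opp h)
      rw [hc.opp h] at t2
      simp only [Comb.opp2]
      have e1 : c (T.nxt (T.nxt h)) = - c h - c (T.nxt h) := by
        rw [eq_sub_iff_add_eq, ← sub_eq_zero]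
        rw [← t1]; abel
      have e2 : c (T.nxt (T.opp h)) = c h - c (T.nxt (T.nxt (T.opp h))) := by
        rw [eq_sub_iff_add_eq, ← sub_eq_zero, ← t2]; abel
      rw [e1, e2]; abel
    · have h0' : T.opp h ∉ F := fun h1 => h0 (by simpa using hF.opp_mem _ h1)
      rw [flipC_not h0, flipC_not h0', hc.opp]
  · intro h
    -- the sum over the new triangle of `e`
    have key : ∀ e, e ∈ F → flipNxt T F e = T.nxt (T.nxt e) ∧
        flipNxt T F (T.nxt (T.nxt e)) = T.nxt (T.opp e) ∧
        flipNxt T F (T.nxt (T.opp e)) = e ∧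
        flipC T F c e + flipC T F c (T.nxt (T.nxt e)) + flipC T F c (T.nxt (T.opp e)) = 0 := by
      intro e he
      have he' := hF.opp_mem e he
      refine ⟨flipNxt_mem he, ?_, ?_, ?_⟩
      · have : T.nxt (T.nxt (T.nxt e)) ∈ F := by simpa using he
        rw [flipNxt_pre hF this]; simp
      · have : T.nxt (T.nxt (T.nxt (T.opp e))) ∈ F := by simpa using he'
        rw [flipNxt_pre2 hF this]; simp
      · rw [flipC_mem he, flipC_not (hF.nxt2_not e he), flipC_not (hF.nxt_not _ he')]
        have t1 := hc.tri e
        have t2 := hc.tri (T.opp e)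
        rw [hc.opp e] at t2
        have e1 : c (T.nxt (T.nxt e)) = - c e - c (T.nxt e) := by
          rw [eq_sub_iff_add_eq, ← sub_eq_zero]
          rw [← t1]; abel
        have e2 : c (T.nxt (T.opp e)) = c e - c (T.nxt (T.nxt (T.opp e))) := by
          rw [eq_sub_iff_add_eq, ← sub_eq_zero, ← t2]; abel
        rw [e1, e2]; abel
    refine four_cases (F := F) (fun h => flipC T F c h + flipC T F c (flipNxt T F h) +
      flipC T F c (flipNxt T F (flipNxt T F h)) = 0) ?_ ?_ ?_ ?_ h
    · intro h h0
      obtain ⟨k1, k2, k3, k4⟩ := key h h0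
      rw [k1, k2, k4]
    · intro h h0
      obtain ⟨k1, k2, k3, k4⟩ := key _ h0
      simp only [Comb.nxt3] at k1 k2 k3 k4
      rw [k2, k3, ← k4]; abel
    · intro h h0
      obtain ⟨k1, k2, k3, k4⟩ := key _ (hF.opp_mem _ h0)
      simp only [Comb.nxt3, Comb.opp2] at k1 k2 k3 k4
      rw [k3, k1, ← k4]; abel
    · intro h a b d
      rw [flipNxt_none a b d, flipNxt_none b d (by simpa using a), flipC_not a, flipC_not b,
        flipC_not d]
      exact hc.tri h

/-- A triangulated translation surface. -/
abbrev TriSurf : Type 1 := Σ T : Comb, {w : T.H → ℝ × ℝ // IsCoc T w ∧ Pos T w}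

/-- Elementary steps between triangulations of the same translation surface. -/
inductive Step : TriSurf → TriSurf → Prop
  | relabel (X Y : TriSurf) (e : X.1.H ≃ Y.1.H) (h1 : ∀ h, e (X.1.nxt h) = Y.1.nxt (e h))
      (h2 : ∀ h, e (X.1.opp h) = Y.1.opp (e h)) (h3 : ∀ h, Y.2.1 (e h) = X.2.1 h) : Step X Y
  | flip (X : TriSurf) (F : Set X.1.H) (hF : Adm X.1 F)
      (hpos : Pos (flip X.1 F hF) (flipC X.1 F X.2.1)) :
      Step X ⟨flip X.1 F hF, ⟨flipC X.1 F X.2.1, flipC_isCoc hF X.2.2.1, hpos⟩⟩

/-- The moduli space of translation surfaces (all genera and all zero orders), with the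
quotient topology. -/
def Moduli : Type 1 := Quot Step

noncomputable instance : TopologicalSpace Moduli :=
  inferInstanceAs (TopologicalSpace (Quot Step))

end Pool.Agent.H241
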