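import Pool.Agent.H241.Core

/-!
# Surfaces near the base surface on its horocycle
-/

namespace Pool.Agent.H241

theorem abs_sub_mul_le (a b c d : ℝ) : |a * b - c * d| ≤ |a| * |b| + |c| * |d| := by
  have := abs_sub (a * b) (c * d)
  rwa [abs_mul, abs_mul] at this

/-- counting lemma -/
theorem count {ι : Type*} [DecidableEq ι] (S : Finset ι) (κ : ι → ι) (hκ : ∀ h ∈ S, κ h ∈ S)
    (r f : ι → ℝ) {K e B : ℝ} (hclose : ∀ h ∈ S, |f (κ h) - r h - K| ≤ e)
    (hgap : ∀ h ∈ S, ∀ k ∈ S, h ≠ k → 2 * e < |r h - r k|)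
    (hsum : ∑ h ∈ S, r h = 0) (hB : ∀ h ∈ S, |r h| ≤ B) :
    ∑ h ∈ S, (r h) ^ 2 - S.card * (2 * e * B) ≤ ∑ h ∈ S, (f h) ^ 2 := by
  have hinj : Set.InjOn κ S := by
    intro h hh k hk e1
    by_contra hne
    have a1 := hclose h hh
    have a2 := hclose k hk
    have a3 := hgap h hh k hk hne
    rw [e1] at a1
    have : |r h - r k| ≤ 2 * e := by
      have e2 : r h - r k = (f (κ k) - r k - K) - (f (κ k) - r h - K) := by ring
      rw [e2]
      exact (abs_sub _ _).trans (by linarith)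
    linarith
  have himg : S.image κ = S := by
    apply Finset.eq_of_subset_of_card_le
    · intro x hx
      obtain ⟨h, hh, rfl⟩ := Finset.mem_image.1 hx
      exact hκ h hh
    · rw [Finset.card_image_of_injOn hinj]
  have e1 : ∑ h ∈ S, (f h) ^ 2 = ∑ h ∈ S, (f (κ h)) ^ 2 := by
    conv_lhs => rw [← himg]
    exact Finset.sum_image hinj
  rw [e1]
  have e2 : ∀ h ∈ S, (r h) ^ 2 + 2 * K * r h - 2 * e * B ≤ (f (κ h)) ^ 2 := by
    intro h hh
    have a1 := hclose h hh
    have a2 := hB h hh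
    set x := f (κ h) - r h - K with hx
    have e3 : f (κ h) = r h + K + x := by rw [hx]; ring
    have e4 : |x * r h| ≤ e * B := by
      rw [abs_mul]
      exact mul_le_mul a1 a2 (abs_nonneg _) ((abs_nonneg _).trans a1)
    have e5 := (abs_le.1 e4).1
    rw [e3]
    nlinarith [sq_nonneg (K + x)]
  have e3 := Finset.sum_le_sum e2
  rw [Finset.sum_sub_distrib, Finset.sum_add_distrib, ← Finset.mul_sum, hsum, Finset.sum_const,
    nsmul_eq_mul] at e3
  linarith

/-- the parameters of the construction -/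
structure Params (u : ℂ) (ε η : ℝ) : Prop where
  gen : Generic u
  tiny : Tiny u ε
  eta0 : 0 < η
  eta1 : η ≤ 1 / 1000
  gap1 : ∀ h ∈ S1, ∀ k ∈ S1, h ≠ k → 2 * η < ε * |(c0 u h).2.re - (c0 u k).2.re|
  gap2 : ∀ h ∈ S2, ∀ k ∈ S2, h ≠ k → 2 * η < ε * |(c0 u h).2.re - (c0 u k).2.re|
  fin : 32 * η * (2 + YM u) <
    ε * (0.002 * (Complex.normSq (GS u 0).y1 + Complex.normSq (GS u 0).y2))

/-- the main result: if the horocycle returns near the base surface at time `s`, then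
`|s| ≤ 1` -/
theorem core {u : ℂ} {ε η : ℝ} (P : Params u ε η) {s : ℝ} {c : MH → (ℤ × ℤ) × ℂ}
    (hc : IsCoc MT c) (hp : Pos MT (fun h => piS ε s (c h)))
    (hw : ∀ h, ‖piS ε s (c h) - w0 u ε h‖ ≤ η)
    (p0 : Pos MT (fun h => piS ε s (mc (1, 0) (0, 1) (GS u 0).y1 (GS u 0).y2 h)))
    (he : Relation.EqvGen (DStep (piS ε s)) (MD (1, 0) (0, 1) (GS u 0).y1 (GS u 0).y2 p0)
      ⟨MT, c, hc, hp⟩) : |s| ≤ 1 := by
  have hu := P.gen.1
  have hY := YM_nonneg hu
  have hS := P.tiny.small hu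
  have e0 := P.tiny.1
  have e1 := P.tiny.2
  have hη0 := P.eta0
  have hη1 := P.eta1
  have hw' : ∀ h, ‖piS ε s (c h) - w0 u ε h‖ ≤ 1 / 1000 := fun h => (hw h).trans hη1
  have hR := crude hu P.tiny hc hp hw' p0 he
  set Y := 2 + YM u with hYd
  have hx : ∀ k, |ε * (c k).2.re| ≤ 0.006 := by
    intro k
    rw [abs_mul, abs_of_pos e0]
    have r1 := (Complex.abs_re_le_norm (c k).2).trans (hR k)
    have : ε * |(c k).2.re| ≤ ε * (600 * Y) := mul_le_mul_of_nonneg_left r1 e0.le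
    linarith
  -- the linear parts
  have hlin : ∀ h, ‖Lin s (c h).1 - Lin 0 (z0 h)‖ ≤ 0.0072 := by
    intro h
    obtain ⟨a1, -, -⟩ := w0_facts hu P.tiny h
    have e2 : Lin s (c h).1 - Lin 0 (z0 h) = (piS ε s (c h) - w0 u ε h) +
        (w0 u ε h - Lin 0 (z0 h)) - (ε * (c h).2.re, 0) := by
      rw [piS_eq ε s]; abel
    rw [e2]
    have t1 := norm_sub_le ((piS ε s (c h) - w0 u ε h) + (w0 u ε h - Lin 0 (z0 h)))
      ((ε * (c h).2.re, 0) : ℝ × ℝ)
    have t2 := norm_add_le (piS ε s (c h) - w0 u ε h) (w0 u ε h - Lin 0 (z0 h))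
    have t3 := hw' h
    have t4 := hx h
    rw [norm_x] at t1
    linarith
  have hL0 : ∀ h, ‖Lin 0 (z0 h)‖ ≤ 2.61804 := by
    intro h
    have hhi := gold_hi
    obtain ⟨z1, z2, z3⟩ := z0_bound h
    rw [Prod.norm_def, max_le_iff]
    simp only [Lin, zero_mul, add_zero, Real.norm_eq_abs]
    constructor <;> linarith
  have hL : ∀ h, ‖Lin s (c h).1‖ ≤ 2.63 := by
    intro h
    have t1 := norm_add_le (Lin s (c h).1 - Lin 0 (z0 h)) (Lin 0 (z0 h))
    rw [sub_add_cancel] at t1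
    have := hlin h
    have := hL0 h
    linarith
  -- integrality of the determinants
  have hdz : ∀ h k, (dz (c h).1 (c k).1 : ℤ) = dz (z0 h) (z0 k) := by
    intro h k
    have t := det_close (hL0 h) (hL0 k) (hlin h) (hlin k)
    rw [det_Lin, det_Lin] at t
    have t2 : |((dz (c h).1 (c k).1 - dz (z0 h) (z0 k) : ℤ) : ℝ)| < 1 := by
      push_cast
      norm_num at t ⊢
      linarith
    have t3 : |dz (c h).1 (c k).1 - dz (z0 h) (z0 k)| < 1 := by exact_mod_cast t2
    have := Int.abs_lt_one_iff.1 t3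
    linarith
  obtain ⟨v1, hv1⟩ : ∃ v1, v1 = (c (0, 1, 0)).1 := ⟨_, rfl⟩
  obtain ⟨v2, hv2⟩ : ∃ v2, v2 = (c (0, 2, 0)).1 := ⟨_, rfl⟩
  have z1 : z0 (0, 1, 0) = (1, 0) := by decide
  have z2 : z0 (0, 2, 0) = (0, 1) := by decide
  have hd : dz v1 v2 = 1 := by
    rw [hv1, hv2, hdz, z1, z2]; rfl
  have hT : ∀ h, (c h).1 = (z0 h).1 • v1 + (z0 h).2 • v2 := by
    intro h
    have a1 : dz (c h).1 v2 = (z0 h).1 := by
      rw [hv2, hdz, z2]; simp [dz]
    have a2 : dz v1 (c h).1 = (z0 h).2 := by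
      rw [hv1, hdz, z1]; simp [dz]
    rw [← a1, ← a2]
    have := hd
    unfold dz at this ⊢
    refine Prod.ext ?_ ?_
    · simp only [Prod.fst_add, Prod.smul_fst, smul_eq_mul]
      linear_combination (-(c h).1.1) * this
    · simp only [Prod.snd_add, Prod.smul_snd, smul_eq_mul]
      linear_combination (-(c h).1.2) * this
  -- heights
  have hh : ∀ h, |ha (c h).1 - ha (z0 h)| ≤ 1 / 1000 := by
    intro h
    have a1 := hw' h
    have a2 : (piS ε s (c h) - w0 u ε h).2 = ha (c h).1 - ha (z0 h) := by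
      rw [w0, piS_apply, piS_apply, c0_fst, Prod.snd_sub]
    rw [← a2]
    exact (norm_snd_le _).trans a1
  have hh1 : |ha v1 - Real.goldenRatio| ≤ 1 / 1000 := by
    have := hh (0, 1, 0)
    rwa [← hv1, z1, ha_10] at this
  have hh2 : |ha v2 - 1| ≤ 1 / 1000 := by
    have := hh (0, 2, 0)
    rwa [← hv2, z2, ha_01] at this
  have hhi := gold_hi
  have hlo := gold_lo
  have hh1' := abs_le.1 hh1
  have hh2' := abs_le.1 hh2
  obtain ⟨n, l, b, y1, y2, hr, p0', p, heq⟩ := chain0 hu hS s (v1 := v1) (v2 := v2)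
    (by linarith) (by linarith) hd (by linarith) (by linarith)
  have hSC : SC MT (mc v1 v2 y1 y2) (piS ε s) = SC MT c (piS ε s) :=
    (SC_eqv heq).symm.trans (SC_eqv he)
  have hny : ‖y1‖ + ‖y2‖ ≤ Y := reach_norm hu hr (by simp only; linarith) (by simp only; linarith)
  have hRσ : ∀ k, ‖(mc v1 v2 y1 y2 k).2‖ ≤ 2 * Y := fun k =>
    (mc_norm v1 v2 y1 y2 k).trans (by linarith)
  have hxσ : ∀ k, |ε * (mc v1 v2 y1 y2 k).2.re| ≤ 1 / 10000 := by
    intro k
    rw [abs_mul, abs_of_pos e0]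
    have r1 := (Complex.abs_re_le_norm (mc v1 v2 y1 y2 k).2).trans (hRσ k)
    have : ε * |(mc v1 v2 y1 y2 k).2.re| ≤ ε * (2 * Y) :=
      mul_le_mul_of_nonneg_left r1 e0.le
    linarith
  have hmcfst : ∀ k, (mc v1 v2 y1 y2 k).1 = (c k).1 := fun k => by rw [mc_fst, hT]
  have hLσ : ∀ k, ‖piS ε s (mc v1 v2 y1 y2 k)‖ ≤ 2.65 := by
    intro k
    rw [piS_eq, hmcfst]
    have t1 := norm_add_le (Lin s (c k).1) ((ε * (mc v1 v2 y1 y2 k).2.re, 0) : ℝ × ℝ)
    rw [norm_x] at t1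
    have := hL k
    have := hxσ k
    linarith
  have hdσ : ∀ k, 1 / 2 ≤ det (piS ε s (mc v1 v2 y1 y2 k))
      (piS ε s (mc v1 v2 y1 y2 (mnxt k))) := fun k =>
    reach_det hu hS s hr (by simp only; linarith) (by simp only; linarith) k
  -- every edge of the near surface is an edge of the model surface
  have hedge : ∀ h, ∃ k, mc v1 v2 y1 y2 k = c h := by
    intro h
    have hmem : c h ∈ SC MT (mc v1 v2 y1 y2) (piS ε s) := by
      rw [hSC]; exact Or.inl ⟨h, rfl⟩
    rcases hmem with ⟨k, hk⟩ | ⟨k, hk⟩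
    · exact ⟨k, hk⟩
    · exfalso
      have hhab : ∀ k, |ha (c k).1| ≤ 2.63 := fun k => (norm_snd_le (Lin s (c k).1)).trans (hL k)
      have r1 := hk.front_right
      have r2 := hk.front_left
      rw [det_piS, hmcfst, hdz] at r1
      rw [det_piS] at r2
      have f1 : (mc v1 v2 y1 y2 k + mc v1 v2 y1 y2 (MT.nxt k)).1 =
          (c k).1 + (c (mnxt k)).1 := by
        rw [Prod.fst_add, hmcfst]
        change (c k).1 + (mc v1 v2 y1 y2 (mnxt k)).1 = _
        rw [hmcfst]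
      have f2 : (mc v1 v2 y1 y2 k + mc v1 v2 y1 y2 (MT.nxt k)).2.re =
          (mc v1 v2 y1 y2 k).2.re + (mc v1 v2 y1 y2 (mnxt k)).2.re := by
        rw [Prod.snd_add, Complex.add_re]
      have f3 : dz (c h).1 ((c k).1 + (c (mnxt k)).1) = dz (z0 h) (z0 k + z0 (mnxt k)) := by
        have g1 := hdz h k
        have g2 := hdz h (mnxt k)
        simp only [dz, Prod.fst_add, Prod.snd_add] at g1 g2 ⊢
        linarith
      rw [f1, f2, f3, ha_add] at r2
      have b1 : |ε * ((mc v1 v2 y1 y2 k).2.re * ha (c h).1 - (c h).2.re * ha (c k).1)| ≤ 0.1 := by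
        have e3 : ε * ((mc v1 v2 y1 y2 k).2.re * ha (c h).1 - (c h).2.re * ha (c k).1) =
          (ε * (mc v1 v2 y1 y2 k).2.re) * ha (c h).1 - (ε * (c h).2.re) * ha (c k).1 := by ring
        rw [e3]
        have t1 := abs_sub_mul_le (ε * (mc v1 v2 y1 y2 k).2.re) (ha (c h).1)
          (ε * (c h).2.re) (ha (c k).1)
        have t2 : |ε * (mc v1 v2 y1 y2 k).2.re| * |ha (c h).1| ≤ 1 / 10000 * 2.63 :=
          mul_le_mul (hxσ k) (hhab h) (abs_nonneg _) (by norm_num)
        have t3 : |ε * (c h).2.re| * |ha (c k).1| ≤ 0.006 * 2.63 :=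
          mul_le_mul (hx h) (hhab k) (abs_nonneg _) (by norm_num)
        linarith
      have b2 : |ε * ((c h).2.re * (ha (c k).1 + ha (c (mnxt k)).1) -
          ((mc v1 v2 y1 y2 k).2.re + (mc v1 v2 y1 y2 (mnxt k)).2.re) * ha (c h).1)| ≤ 0.1 := by
        have e3 : ε * ((c h).2.re * (ha (c k).1 + ha (c (mnxt k)).1) -
          ((mc v1 v2 y1 y2 k).2.re + (mc v1 v2 y1 y2 (mnxt k)).2.re) * ha (c h).1) =
          (ε * (c h).2.re) * (ha (c k).1 + ha (c (mnxt k)).1) -
          (ε * (mc v1 v2 y1 y2 k).2.re + ε * (mc v1 v2 y1 y2 (mnxt k)).2.re) * ha (c h).1 := by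
          ring
        rw [e3]
        have t1 := abs_sub_mul_le (ε * (c h).2.re) (ha (c k).1 + ha (c (mnxt k)).1)
          (ε * (mc v1 v2 y1 y2 k).2.re + ε * (mc v1 v2 y1 y2 (mnxt k)).2.re) (ha (c h).1)
        have t4 : |ha (c k).1 + ha (c (mnxt k)).1| ≤ 5.26 := by
          have := abs_add_le (ha (c k).1) (ha (c (mnxt k)).1)
          have := hhab k
          have := hhab (mnxt k)
          linarith
        have t5 : |ε * (mc v1 v2 y1 y2 k).2.re + ε * (mc v1 v2 y1 y2 (mnxt k)).2.re| ≤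
            2 / 10000 := by
          have := abs_add_le (ε * (mc v1 v2 y1 y2 k).2.re) (ε * (mc v1 v2 y1 y2 (mnxt k)).2.re)
          have := hxσ k
          have := hxσ (mnxt k)
          linarith
        have t2 : |ε * (c h).2.re| * |ha (c k).1 + ha (c (mnxt k)).1| ≤ 0.006 * 5.26 :=
          mul_le_mul (hx h) t4 (abs_nonneg _) (by norm_num)
        have t3 : |ε * (mc v1 v2 y1 y2 k).2.re + ε * (mc v1 v2 y1 y2 (mnxt k)).2.re| *
            |ha (c h).1| ≤ 2 / 10000 * 2.63 :=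
          mul_le_mul t5 (hhab h) (abs_nonneg _) (by norm_num)
        linarith
      have q1 : 0 ≤ dz (z0 k) (z0 h) := by
        have : (-1 : ℝ) < (dz (z0 k) (z0 h) : ℤ) := by
          have := (abs_le.1 b1).2
          linarith
        have : (-1 : ℤ) < dz (z0 k) (z0 h) := by exact_mod_cast this
        omega
      have q2 : 0 ≤ dz (z0 h) (z0 k + z0 (mnxt k)) := by
        have : (-1 : ℝ) < (dz (z0 h) (z0 k + z0 (mnxt k)) : ℤ) := by
          have := (abs_le.1 b2).2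
          linarith
        have : (-1 : ℤ) < dz (z0 h) (z0 k + z0 (mnxt k)) := by exact_mod_cast this
        omega
      have near : ∀ v : (ℤ × ℤ) × ℂ, v.1 = (c h).1 → |ε * v.2.re| ≤ 2 / 10000 →
          ¬ (mc v1 v2 y1 y2 k = v ∨ mc v1 v2 y1 y2 k + mc v1 v2 y1 y2 (MT.nxt k) = v) := by
        intro v hv hv'
        refine not_sees_near (T := MT) (c1 := 1 / 2) (L := 2.65) (δ := 0.01)
          (mc_coc v1 v2 y1 y2) p hLσ hdσ ?_ (by norm_num) hk
        have e3 : piS ε s (c h) - piS ε s v = (ε * (c h).2.re - ε * v.2.re, 0) := by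
          rw [piS_eq, piS_eq, hv]
          refine Prod.ext ?_ ?_ <;> simp
        rw [e3, norm_x]
        have t1 := abs_sub (ε * (c h).2.re) (ε * v.2.re)
        have := hx h
        linarith
      rcases z0_front h k q1 q2 with hz | hz
      · refine near (mc v1 v2 y1 y2 k) ?_ ?_ (Or.inl rfl)
        · rw [hmcfst, hT, hT, hz]
        · have := hxσ k
          linarith
      · refine near (mc v1 v2 y1 y2 k + mc v1 v2 y1 y2 (MT.nxt k)) ?_ ?_ (Or.inr rfl)
        · rw [f1, hT, hT, hT h, hz]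
          simp only [Prod.fst_add, Prod.snd_add]
          module
        · rw [f2, mul_add]
          have := abs_add_le (ε * (mc v1 v2 y1 y2 k).2.re) (ε * (mc v1 v2 y1 y2 (mnxt k)).2.re)
          have := hxσ k
          have := hxσ (mnxt k)
          linarith
  choose κ hκ using hedge
  have hzκ : ∀ h, z0 (κ h) = z0 h := by
    intro h
    have a1 : (c (κ h)).1 = (c h).1 := by rw [← hmcfst, hκ]
    have a2 : ∀ k, dz (c k).1 v2 = (z0 k).1 := by
      intro k; rw [hv2, hdz, z2]; simp [dz]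
    have a3 : ∀ k, dz v1 (c k).1 = (z0 k).2 := by
      intro k; rw [hv1, hdz, z1]; simp [dz]
    refine Prod.ext ?_ ?_
    · rw [← a2, ← a2, a1]
    · rw [← a3, ← a3, a1]
  obtain ⟨-, hiso, -, -, -, -, -⟩ := reach_facts hu hr
  simp only at hiso
  -- first coordinates
  have hfst : ∀ h, |((c h).1.1 + s * ha (c h).1 + ε * (c h).2.re) -
      ((z0 h).1 + ε * (c0 u h).2.re)| ≤ η := by
    intro h
    have a1 := (norm_fst_le (piS ε s (c h) - w0 u ε h)).trans (hw h)
    rw [w0, piS_apply, piS_apply, c0_fst, Prod.fst_sub, Real.norm_eq_abs] at a1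
    simp only [zero_mul, add_zero] at a1
    exact a1
  have hB : ∀ h, |(c0 u h).2.re| ≤ 2 * Y := fun h =>
    (Complex.abs_re_le_norm _).trans (c0_norm hu h)
  -- the two counts
  have hcount : ∀ (S : Finset MH) (z v : ℤ × ℤ), (∀ h, h ∈ S ↔ z0 h = z) →
      (∀ h ∈ S, (c h).1 = v) →
      (∀ h ∈ S, ∀ k ∈ S, h ≠ k → 2 * η < ε * |(c0 u h).2.re - (c0 u k).2.re|) →
      (∑ h ∈ S, (c0 u h).2.re = 0) → S.card = 16 →
      ∑ h ∈ S, ((c0 u h).2.re) ^ 2 - 64 * (η / ε) * Y ≤
        ∑ h ∈ S, ((mc v1 v2 y1 y2 h).2.re) ^ 2 := by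
    intro S z v hS1 hv hgap hsum hcard
    have := count S κ (fun h hh => by
        rw [hS1] at hh ⊢; rw [hzκ, hh]) (fun h => (c0 u h).2.re)
      (fun h => (mc v1 v2 y1 y2 h).2.re) (K := ((z.1 : ℝ) - v.1 - s * ha v) / ε)
      (e := η / ε) (B := 2 * Y) (by
        intro h hh
        have a1 := hfst h
        rw [hv h hh, (hS1 h).1 hh] at a1
        rw [hκ]
        have e3 : (c h).2.re - (c0 u h).2.re - ((z.1 : ℝ) - v.1 - s * ha v) / ε =
            (((v.1 : ℝ) + s * ha v + ε * (c h).2.re) - (z.1 + ε * (c0 u h).2.re)) / ε := by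
          field_simp; ring
        rw [e3, abs_div, abs_of_pos e0]
        exact div_le_div_of_nonneg_right a1 e0.le) (by
        intro h hh k hk hne
        have := hgap h hh k hk hne
        rw [← mul_div_assoc, div_lt_iff₀ e0]
        linarith) hsum (fun h _ => hB h)
    rw [hcard] at this
    push_cast at this
    linarith
  have k1 := hcount S1 (1, 0) v1 mem_S1 (fun h hh => by rw [hT, (mem_S1 h).1 hh]; simp)
    P.gap1 (sums1 (1, 0) (0, 1) (GS_iso u 0)).2 card_S1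
  have k2 := hcount S2 (0, 1) v2 mem_S2 (fun h hh => by rw [hT, (mem_S2 h).1 hh]; simp)
    P.gap2 (sums2 (1, 0) (0, 1) (GS_iso u 0)).2 card_S2
  have k3 : ∑ h ∈ S1, ((c0 u h).2.re) ^ 2 = 4 * √2 * Complex.normSq (GS u 0).y1 :=
    (sums1 (1, 0) (0, 1) (GS_iso u 0)).1
  have k4 : ∑ h ∈ S2, ((c0 u h).2.re) ^ 2 = 4 * √2 * Complex.normSq (GS u 0).y2 :=
    (sums2 (1, 0) (0, 1) (GS_iso u 0)).1
  rw [k3, (sums1 v1 v2 hiso).1] at k1
  rw [k4, (sums2 v1 v2 hiso).1] at k2
  rcases final_ineq hu hr hh1 hh2 with ⟨g1, -⟩ | g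
  · -- the golden case
    simp only at g1
    have a1 := hfst (0, 1, 0)
    rw [← hv1, g1, z1, ha_10] at a1
    have a2 := hx (0, 1, 0)
    have a3 : |ε * (c0 u (0, 1, 0)).2.re| ≤ 1 / 10000 := by
      rw [abs_mul, abs_of_pos e0]
      have : ε * |(c0 u (0, 1, 0)).2.re| ≤ ε * (2 * Y) :=
        mul_le_mul_of_nonneg_left (hB _) e0.le
      linarith
    have a1' := abs_le.1 a1
    have a2' := abs_le.1 a2
    have a3' := abs_le.1 a3
    push_cast at a1'
    rw [abs_le]
    constructor <;> nlinarith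
  · exfalso
    simp only at g
    have hf := P.fin
    set P0 := Complex.normSq (GS u 0).y1 + Complex.normSq (GS u 0).y2 with hP0
    have hf2 : 32 * (η / ε) * Y < 0.002 * P0 := by
      have : 32 * (η / ε) * Y = (32 * η * Y) / ε := by ring
      rw [this, div_lt_iff₀ e0]
      linarith
    have r2lo := r2_lo
    have hq : 4 * √2 * (Complex.normSq y1 + Complex.normSq y2) ≤ 4 * √2 * (0.998 * P0) := by
      gcongr
    have hη' : 0 ≤ η / ε := by positivity
    have hP : 0 < 0.002 * P0 := lt_of_le_of_lt (by positivity) hf2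
    nlinarith

end Pool.Agent.H241
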