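import Pool.Agent.H241.Invar

/-!
# Strata
-/

namespace Pool.Agent.H241

/-- The multiset of the orders of the zeros of a translation surface. -/
noncomputable def zeroOrders : Moduli → Multiset ℕ := Quot.lift orders orders_step

/-- The stratum of translation surfaces whose zeros have the orders `κ`. -/
def stratum (κ : Multiset ℕ) : Set Moduli := {x | zeroOrders x = κ}

end Pool.Agent.H241
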