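import Pool.Agent.H241.Lift
import Pool.Agent.H241.Strata

/-!
# The action of `SL(2, ℝ)` on the moduli space
-/

namespace Pool.Agent.H241

/-- the linear action of `SL(2, ℝ)` on the plane -/
def lin (g : Matrix.SpecialLinearGroup (Fin 2) ℝ) (v : ℝ × ℝ) : ℝ × ℝ :=
  (g 0 0 * v.1 + g 0 1 * v.2, g 1 0 * v.1 + g 1 1 * v.2)

theorem det_lin (g : Matrix.SpecialLinearGroup (Fin 2) ℝ) (u v : ℝ × ℝ) :
    det (lin g u) (lin g v) = det u v := by
  have h := g.det_coe
  rw [Matrix.det_fin_two] at h
  simp only [det, lin]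
  linear_combination (u.1 * v.2 - u.2 * v.1) * h

theorem lin_add (g : Matrix.SpecialLinearGroup (Fin 2) ℝ) (u v : ℝ × ℝ) :
    lin g (u + v) = lin g u + lin g v := by
  refine Prod.ext ?_ ?_ <;> simp only [lin, Prod.fst_add, Prod.snd_add] <;> ring

/-- the linear action as a homomorphism -/
def linHom (g : Matrix.SpecialLinearGroup (Fin 2) ℝ) : ℝ × ℝ →+ ℝ × ℝ where
  toFun := lin g
  map_zero' := by refine Prod.ext ?_ ?_ <;> simp [lin]
  map_add' := lin_add g

theorem act_ok (g : Matrix.SpecialLinearGroup (Fin 2) ℝ) {T : Comb} {w : T.H → ℝ × ℝ}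
    (h : IsCoc T w ∧ Pos T w) :
    IsCoc T (fun k => lin g (w k)) ∧ Pos T (fun k => lin g (w k)) :=
  ⟨IsCoc.comp (π := linHom g) h.1, fun k => by rw [det_lin]; exact h.2 k⟩

/-- the action of `SL(2, ℝ)` on triangulated translation surfaces -/
def actTri (g : Matrix.SpecialLinearGroup (Fin 2) ℝ) (X : TriSurf) : TriSurf :=
  ⟨X.1, ⟨fun h => lin g (X.2.1 h), act_ok g X.2.2⟩⟩

theorem act_step (g : Matrix.SpecialLinearGroup (Fin 2) ℝ) (X Y : TriSurf) (s : Step X Y) :
    Step (actTri g X) (actTri g Y) := by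
  cases s with
  | relabel _ e h1 h2 h3 =>
    exact Step.relabel _ _ e h1 h2 (fun h => congrArg (lin g) (h3 h))
  | flip F hF hpos =>
    have e : (fun h => lin g (flipC X.1 F X.2.1 h)) = flipC X.1 F (fun h => lin g (X.2.1 h)) :=
      comp_flipC (T := X.1) (F := F) (π := linHom g) (c := X.2.1)
    have h0 : Pos (H241.flip X.1 F hF) (flipC X.1 F (fun h => lin g (X.2.1 h))) := by
      rw [← e]; exact (act_ok g ⟨flipC_isCoc hF X.2.2.1, hpos⟩).2
    have := Step.flip (actTri g X) F hF h0
    have e2 : (⟨H241.flip X.1 F hF, ⟨fun h => lin g (flipC X.1 F X.2.1 h),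
        act_ok g ⟨flipC_isCoc hF X.2.2.1, hpos⟩⟩⟩ : TriSurf) =
        ⟨H241.flip X.1 F hF, ⟨flipC X.1 F (fun h => lin g (X.2.1 h)),
          flipC_isCoc hF (act_ok g X.2.2).1, h0⟩⟩ :=
      triSurf_ext (T := H241.flip X.1 F hF) e _ _
    change Step (actTri g X) (⟨H241.flip X.1 F hF, ⟨fun h => lin g (flipC X.1 F X.2.1 h),
        act_ok g ⟨flipC_isCoc hF X.2.2.1, hpos⟩⟩⟩ : TriSurf)
    rw [e2]
    exact this

/-- the action of `SL(2, ℝ)` on the moduli space -/
def act (g : Matrix.SpecialLinearGroup (Fin 2) ℝ) : Moduli → Moduli :=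
  Quot.map (actTri g) (act_step g)

/-- the upper triangular unipotent matrix -/
def uni (s : ℝ) : Matrix.SpecialLinearGroup (Fin 2) ℝ :=
  ⟨!![1, s; 0, 1], by rw [Matrix.det_fin_two]; simp⟩

/-- the horocycle flow -/
def horo (s : ℝ) : Moduli → Moduli := act (uni s)

theorem lin_uni (s : ℝ) (v : ℝ × ℝ) : lin (uni s) v = (v.1 + s * v.2, v.2) := by
  simp [lin, uni]

/-- The horocycle flow preserves the strata. -/
theorem zeroOrders_horo (s : ℝ) (x : Moduli) : zeroOrders (horo s x) = zeroOrders x := by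
  induction x using Quot.ind with
  | mk X =>
    change orders (actTri (uni s) X) = orders X
    refine orders_congr (X := actTri (uni s) X) (Y := X) (Equiv.refl _) fun v => ?_
    unfold coneIndex
    have h : ∀ k, ((actTri (uni s) X).2.1 k).2 = (X.2.1 k).2 := by
      intro k
      change (lin (uni s) (X.2.1 k)).2 = _
      rw [lin_uni]
    simp only [h]
    rfl

/-- One-parameter group property of the horocycle flow. -/
theorem horo_add (s t : ℝ) (x : Moduli) : horo (s + t) x = horo s (horo t x) := by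
  induction x using Quot.ind with
  | mk X =>
    change Quot.mk Step (actTri (uni (s + t)) X) = Quot.mk Step (actTri (uni s) (actTri (uni t) X))
    congr 1
    refine triSurf_ext ?_ _ _
    funext h
    change lin (uni (s + t)) (X.2.1 h) = lin (uni s) (lin (uni t) (X.2.1 h))
    simp only [lin_uni]
    refine Prod.ext ?_ rfl
    simp only
    ring

theorem horo_zero (x : Moduli) : horo 0 x = x := by
  induction x using Quot.ind with
  | mk X =>
    change Quot.mk Step (actTri (uni 0) X) = Quot.mk Step X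
    congr 1
    refine triSurf_ext ?_ _ _
    funext h
    change lin (uni 0) (X.2.1 h) = X.2.1 h
    simp [lin_uni]

end Pool.Agent.H241
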