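import Pool.Agent.H241.Defs

/-!
# Straight segments between vertices, and their invariance under flips
-/

namespace Pool.Agent.H241

variable {A : Type*} [AddCommGroup A]

/-- `Sees T c π q h x`: the straight segment from the vertex at the origin towards the vertex at
`q` leaves a triangle through the half-edge `h`, whose source is developed at `x` (to the right)
and whose target is developed at `x + c h` (to the left), and reaches the vertex `q` after crossing
finitely many further edges. -/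
inductive Sees (T : Comb) (c : T.H → A) (π : A →+ ℝ × ℝ) (q : A) : T.H → A → Prop
  | hit (h : T.H) (x : A) (h1 : 0 < det (π x) (π q)) (h2 : 0 < det (π q) (π (x + c h)))
      (h3 : x + c (T.nxt (T.opp h)) = q) : Sees T c π q h x
  | right (h : T.H) (x : A) (h1 : 0 < det (π x) (π q)) (h2 : 0 < det (π q) (π (x + c h)))
      (h3 : 0 < det (π (x + c (T.nxt (T.opp h)))) (π q))
      (h4 : Sees T c π q (T.nxt (T.nxt (T.opp h))) (x + c (T.nxt (T.opp h)))) :
      Sees T c π q h x
  | left (h : T.H) (x : A) (h1 : 0 < det (π x) (π q)) (h2 : 0 < det (π q) (π (x + c h)))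
      (h3 : 0 < det (π q) (π (x + c (T.nxt (T.opp h)))))
      (h4 : Sees T c π q (T.nxt (T.opp h)) x) : Sees T c π q h x

/-- The vectors (with all data) of the straight segments joining two vertices. -/
def SC (T : Comb) (c : T.H → A) (π : A →+ ℝ × ℝ) : Set A :=
  {q | (∃ h, c h = q) ∨ ∃ h, Sees T c π q (T.nxt h) (c h)}

section
variable {T : Comb} {c : T.H → A} {π : A →+ ℝ × ℝ} {q : A}

theorem Sees.front_right {h : T.H} {x : A} (s : Sees T c π q h x) : 0 < det (π x) (π q) := by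
  cases s <;> assumption

theorem Sees.front_left {h : T.H} {x : A} (s : Sees T c π q h x) :
    0 < det (π q) (π (x + c h)) := by
  cases s <;> assumption

end

theorem quad_id (P e b c q : ℝ × ℝ) :
    det e (-e - b) * det (P + c) q =
      det (e - c) (-e - b) * det P q + det b c * det (P + e) q - det c (e - c) * det (P - b) q := by
  simp only [det, Prod.fst_add, Prod.snd_add, Prod.fst_sub, Prod.snd_sub, Prod.fst_neg,
    Prod.snd_neg]
  ring

/-- the values around an edge `e ∈ F`, in terms of `e`, `b = nxt (nxt e)`, `c = nxt (opp e)` -/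
theorem coc_quad {T : Comb} {c : T.H → A} (hc : IsCoc T c) (e : T.H) :
    c (T.nxt e) = - c e - c (T.nxt (T.nxt e)) ∧
    c (T.nxt (T.nxt (T.opp e))) = c e - c (T.nxt (T.opp e)) ∧ c (T.opp e) = - c e := by
  have t1 := hc.tri e
  have t2 := hc.tri (T.opp e)
  rw [hc.opp e] at t2
  refine ⟨?_, ?_, hc.opp e⟩
  · rw [eq_sub_iff_add_eq, ← sub_eq_zero]
    rw [← t1]; abel
  · rw [eq_sub_iff_add_eq, ← sub_eq_zero, ← t2]; abel

/-- the four positivity conditions around a flippable edge -/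
theorem quad_pos {T : Comb} {F : Set T.H} (hF : Adm T F) {c : T.H → A} (hc : IsCoc T c)
    {π : A →+ ℝ × ℝ} (p1 : Pos T (fun h => π (c h)))
    (p2 : Pos (flip T F hF) (fun h => π (flipC T F c h))) {e : T.H} (he : e ∈ F) :
    0 < det (π (c e)) (- π (c e) - π (c (T.nxt (T.nxt e)))) ∧
    0 < det (π (c e) - π (c (T.nxt (T.opp e)))) (- π (c e) - π (c (T.nxt (T.nxt e)))) ∧
    0 < det (π (c (T.nxt (T.nxt e)))) (π (c (T.nxt (T.opp e)))) ∧
    0 < det (π (c (T.nxt (T.opp e)))) (π (c e) - π (c (T.nxt (T.opp e)))) := by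
  obtain ⟨q1, q2, q3⟩ := coc_quad hc e
  have he' := hF.opp_mem e he
  refine ⟨?_, ?_, ?_, ?_⟩
  · have := p1 e
    simpa [q1] using this
  · have := p2 (T.nxt (T.nxt (T.opp e)))
    change 0 < det (π (flipC T F c (T.nxt (T.nxt (T.opp e)))))
      (π (flipC T F c (flipNxt T F (T.nxt (T.nxt (T.opp e)))))) at this
    rw [flipNxt_pre hF (by simpa using he'), flipC_not (hF.nxt2_not _ he')] at this
    simp only [Comb.nxt3, Comb.opp2] at this
    rw [flipC_not (hF.nxt_not _ he), q1, q2] at this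
    simpa using this
  · have := p2 (T.nxt (T.nxt e))
    change 0 < det (π (flipC T F c (T.nxt (T.nxt e))))
      (π (flipC T F c (flipNxt T F (T.nxt (T.nxt e))))) at this
    rw [flipNxt_pre hF (by simpa using he), flipC_not (hF.nxt2_not _ he)] at this
    simp only [Comb.nxt3] at this
    rwa [flipC_not (hF.nxt_not _ he')] at this
  · have := p1 (T.nxt (T.opp e))
    simpa [q2] using this

section main

variable {T : Comb} {F : Set T.H} {c : T.H → A} {π : A →+ ℝ × ℝ} {q : A}

/-- What the segment does after crossing a front `e ∈ F`. -/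
def FrontF (T : Comb) (F : Set T.H) (hF : Adm T F) (c : T.H → A) (π : A →+ ℝ × ℝ) (q : A)
    (h : T.H) (x : A) : Prop :=
  0 < det (π x) (π q) ∧ 0 < det (π q) (π (x + c h)) ∧
    (x + c (T.nxt (T.opp h)) = q ∨
      (0 < det (π (x + c (T.nxt (T.opp h)))) (π q) ∧
        Sees (flip T F hF) (flipC T F c) π q (T.nxt (T.nxt (T.opp h)))
          (x + c (T.nxt (T.opp h)))) ∨
      (0 < det (π q) (π (x + c (T.nxt (T.opp h)))) ∧
        Sees (flip T F hF) (flipC T F c) π q (T.nxt (T.opp h)) x))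

theorem det_neg_iff (u v : ℝ × ℝ) : det u v = - det v u := by
  simp only [det]; ring

theorem sgn1 {P e b c q : ℝ × ℝ} (D1 : 0 < det e (-e - b)) (D4 : 0 < det (e - c) (-e - b))
    (D3 : 0 < det b c) (D2 : 0 < det c (e - c)) (h1 : 0 < det P q) (h2 : 0 < det q (P - b))
    (h3 : 0 ≤ det (P + e) q) : 0 < det (P + c) q := by
  have id := quad_id P e b c q
  rw [det_neg_iff (P - b) q] at id
  have : 0 < det e (-e - b) * det (P + c) q := by
    rw [id]
    have a1 := mul_pos D4 h1
    have a2 := mul_nonneg D3.le h3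
    have a3 := mul_pos D2 h2
    linarith
  exact (pos_iff_pos_of_mul_pos this).1 D1

theorem sgn2 {P e b c q : ℝ × ℝ} (D1 : 0 < det e (-e - b)) (D4 : 0 < det (e - c) (-e - b))
    (D3 : 0 < det b c) (D2 : 0 < det c (e - c)) (h1 : 0 < det (P - b) q)
    (h2 : 0 < det q (P + e)) (h3 : 0 ≤ det q P) : 0 < det q (P + c) := by
  have id := quad_id P e b c q
  rw [det_neg_iff (P + c) q, det_neg_iff P q, det_neg_iff (P + e) q] at id
  have : 0 < det e (-e - b) * det q (P + c) := by
    have a1 := mul_nonneg D4.le h3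
    have a2 := mul_pos D3 h2
    have a3 := mul_pos D2 h1
    linarith
  exact (pos_iff_pos_of_mul_pos this).1 D1

section mk
variable {T : Comb} {c : T.H → A} {π : A →+ ℝ × ℝ} {q : A}

theorem Sees.mkHit {h : T.H} {x y z : A} {k : T.H} (hy : x + c h = y) (hn : T.nxt (T.opp h) = k)
    (hz : x + c k = z) (h1 : 0 < det (π x) (π q)) (h2 : 0 < det (π q) (π y)) (h3 : z = q) :
    Sees T c π q h x := by
  subst hy hz hn
  exact Sees.hit h x h1 h2 h3

theorem Sees.mkRight {h : T.H} {x y z : A} {k k' : T.H} (hy : x + c h = y)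
    (hn : T.nxt (T.opp h) = k) (hz : x + c k = z) (hn' : T.nxt k = k')
    (h1 : 0 < det (π x) (π q)) (h2 : 0 < det (π q) (π y)) (h3 : 0 < det (π z) (π q))
    (h4 : Sees T c π q k' z) : Sees T c π q h x := by
  subst hy hz hn hn'
  exact Sees.right h x h1 h2 h3 h4

theorem Sees.mkLeft {h : T.H} {x y z : A} {k : T.H} (hy : x + c h = y)
    (hn : T.nxt (T.opp h) = k) (hz : x + c k = z)
    (h1 : 0 < det (π x) (π q)) (h2 : 0 < det (π q) (π y)) (h3 : 0 < det (π q) (π z))
    (h4 : Sees T c π q k x) : Sees T c π q h x := by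
  subst hy hz hn
  exact Sees.left h x h1 h2 h3 h4

end mk

/-- The combinatorial facts about the two new triangles. -/
theorem flip_facts (hF : Adm T F) {e : T.H} (he : e ∈ F) :
    flipNxt T F e = T.nxt (T.nxt e) ∧
    flipNxt T F (T.nxt (T.nxt e)) = T.nxt (T.opp e) ∧
    flipNxt T F (T.nxt (T.opp e)) = e := by
  have he' := hF.opp_mem e he
  refine ⟨flipNxt_mem he, ?_, ?_⟩
  · have : T.nxt (T.nxt (T.nxt e)) ∈ F := by simpa using he
    rw [flipNxt_pre hF this]; simp
  · have : T.nxt (T.nxt (T.nxt (T.opp e))) ∈ F := by simpa using he'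
    rw [flipNxt_pre2 hF this]; simp

/-- Case `nxt (opp h) = e ∈ F`. -/
theorem sees_flip_b (hF : Adm T F) (hc : IsCoc T c) (p1 : Pos T (fun h => π (c h)))
    (p2 : Pos (flip T F hF) (fun h => π (flipC T F c h))) {h e : T.H} {x : A} (hh : h ∉ F)
    (n1 : e ∈ F) (kb : T.opp h = T.nxt (T.nxt e))
    (h1 : 0 < det (π x) (π q)) (h2 : 0 < det (π q) (π (x + c h)))
    (h3 : x + c e = q ∨
      (0 < det (π (x + c e)) (π q) ∧
        Sees (flip T F hF) (flipC T F c) π q (T.nxt e) (x + c e)) ∨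
      (0 < det (π q) (π (x + c e)) ∧ FrontF T F hF c π q e x)) :
    Sees (flip T F hF) (flipC T F c) π q h x := by
  obtain ⟨f1, f2, f3⟩ := flip_facts hF n1
  obtain ⟨g1, g2, g3⟩ := flip_facts hF (hF.opp_mem _ n1)
  obtain ⟨c1, c2, c3⟩ := coc_quad hc e
  obtain ⟨D1, D4, D3, D2⟩ := quad_pos hF hc p1 p2 n1
  have ch : c h = - c (T.nxt (T.nxt e)) := by
    rw [← kb, hc.opp, neg_neg]
  rw [ch] at h2
  have m1 : flipC T F c (T.nxt (T.opp e)) = c (T.nxt (T.opp e)) :=
    flipC_not (hF.nxt_not _ (hF.opp_mem _ n1))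
  have m2 : flipC T F c (T.nxt (T.nxt (T.opp e))) = c (T.nxt (T.nxt (T.opp e))) :=
    flipC_not (hF.nxt2_not _ (hF.opp_mem _ n1))
  have m3 : flipC T F c h = c h := flipC_not hh
  have m4 : flipC T F c e = c (T.nxt (T.nxt (T.opp e))) + c (T.nxt e) := flipC_mem n1
  have sg : 0 ≤ det (π (x + c e)) (π q) → 0 < det (π (x + c (T.nxt (T.opp e)))) (π q) := by
    intro h3
    rw [map_add]
    refine sgn1 D1 D4 D3 D2 h1 ?_ ?_
    · rw [← sub_eq_add_neg, map_sub] at h2; exact h2
    · rw [← map_add]; exact h3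
  simp only [Comb.opp2] at g1 g2 g3
  have k1 : (flip T F hF).nxt ((flip T F hF).opp h) = T.nxt (T.opp e) := by
    change flipNxt T F (T.opp h) = _
    rw [kb, f2]
  have y1 : x + flipC T F c h = x + - c (T.nxt (T.nxt e)) := by rw [m3, ch]
  have y2 : x + c (T.nxt (T.opp e)) + flipC T F c e = x + - c (T.nxt (T.nxt e)) := by
    rw [m4, c1, c2]; abel
  have z2 : x + c (T.nxt (T.opp e)) + flipC T F c (T.nxt (T.nxt (T.opp e))) = x + c e := by
    rw [m2, c2]; abel
  rcases h3 with h3 | ⟨h3, s⟩ | ⟨h3, -, -, s⟩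
  · have hS := sg (by rw [h3]; simp only [det]; apply le_of_eq; ring)
    refine Sees.mkRight y1 k1 (by rw [m1]) f3 h1 h2 hS ?_
    exact Sees.mkHit y2 g1 z2 hS h2 h3
  · have hS := sg h3.le
    refine Sees.mkRight y1 k1 (by rw [m1]) f3 h1 h2 hS ?_
    exact Sees.mkRight y2 g1 z2 g2 hS h2 h3 s
  · rcases s with s | ⟨s1, s2⟩ | ⟨s1, s2⟩
    · exact Sees.mkHit y1 k1 (by rw [m1]) h1 h2 s
    · refine Sees.mkRight y1 k1 (by rw [m1]) f3 h1 h2 s1 ?_
      exact Sees.mkLeft y2 g1 z2 s1 h2 h3 s2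
    · exact Sees.mkLeft y1 k1 (by rw [m1]) h1 h2 s1 s2

/-- Case `nxt (nxt (opp h)) = e ∈ F`. -/
theorem sees_flip_a (hF : Adm T F) (hc : IsCoc T c) (p1 : Pos T (fun h => π (c h)))
    (p2 : Pos (flip T F hF) (fun h => π (flipC T F c h))) {h e : T.H} {x : A} (hh : h ∉ F)
    (n1 : e ∈ F) (kb : T.opp h = T.nxt e)
    (h1 : 0 < det (π x) (π q)) (h2 : 0 < det (π q) (π (x + c h)))
    (h3 : x + c (T.nxt (T.nxt e)) = q ∨
      (0 < det (π (x + c (T.nxt (T.nxt e)))) (π q) ∧
        FrontF T F hF c π q e (x + c (T.nxt (T.nxt e)))) ∨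
      (0 < det (π q) (π (x + c (T.nxt (T.nxt e)))) ∧
        Sees (flip T F hF) (flipC T F c) π q (T.nxt (T.nxt e)) x)) :
    Sees (flip T F hF) (flipC T F c) π q h x := by
  obtain ⟨f1, f2, f3⟩ := flip_facts hF n1
  obtain ⟨g1, g2, g3⟩ := flip_facts hF (hF.opp_mem _ n1)
  obtain ⟨c1, c2, c3⟩ := coc_quad hc e
  obtain ⟨D1, D4, D3, D2⟩ := quad_pos hF hc p1 p2 n1
  have ch : c h = c e + c (T.nxt (T.nxt e)) := by
    have : c h = - c (T.nxt e) := by rw [← kb, hc.opp, neg_neg]
    rw [this, c1]; abel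
  rw [ch] at h2
  have m1 : flipC T F c (T.opp e) = c (T.nxt (T.nxt e)) + c (T.nxt (T.opp e)) := by
    rw [flipC_mem (hF.opp_mem _ n1), T.opp2]
  have m2 : flipC T F c (T.nxt (T.nxt e)) = c (T.nxt (T.nxt e)) :=
    flipC_not (hF.nxt2_not _ n1)
  have m3 : flipC T F c h = c h := flipC_not hh
  have sg : 0 ≤ det (π q) (π (x + c (T.nxt (T.nxt e)))) →
      0 < det (π q) (π (x + (c (T.nxt (T.nxt e)) + c (T.nxt (T.opp e))))) := by
    intro h3
    have := sgn2 (P := π (x + c (T.nxt (T.nxt e)))) (q := π q) D1 D4 D3 D2 ?_ ?_ h3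
    · rw [← map_add] at this
      rw [← add_assoc]; exact this
    · rw [← map_sub]; simpa using h1
    · rw [← map_add]
      have : x + c (T.nxt (T.nxt e)) + c e = x + (c e + c (T.nxt (T.nxt e))) := by abel
      rw [this]; exact h2
  simp only [Comb.opp2] at g1 g2 g3
  have k1 : (flip T F hF).nxt ((flip T F hF).opp h) = T.opp e := by
    change flipNxt T F (T.opp h) = _
    rw [kb, g3]
  have k2 : (flip T F hF).nxt ((flip T F hF).opp (T.opp e)) = T.nxt (T.nxt e) := by
    change flipNxt T F (T.opp (T.opp e)) = _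
    rw [T.opp2, f1]
  have y1 : x + flipC T F c h = x + (c e + c (T.nxt (T.nxt e))) := by rw [m3, ch]
  have z1 : x + flipC T F c (T.opp e) = x + (c (T.nxt (T.nxt e)) + c (T.nxt (T.opp e))) := by
    rw [m1]
  have z2 : x + flipC T F c (T.nxt (T.nxt e)) = x + c (T.nxt (T.nxt e)) := by
    rw [m2]
  rcases h3 with h3 | ⟨h3, -, -, s⟩ | ⟨h3, s⟩
  · have hS := sg (by rw [h3]; simp only [det]; apply le_of_eq; ring)
    refine Sees.mkLeft y1 k1 z1 h1 h2 hS ?_
    exact Sees.mkHit z1 k2 z2 h1 hS h3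
  · rcases s with s | ⟨s1, s2⟩ | ⟨s1, s2⟩
    · exact Sees.mkHit y1 k1 z1 h1 h2 (by rw [← s]; abel)
    · rw [add_assoc] at s1 s2
      exact Sees.mkRight y1 k1 z1 g1 h1 h2 s1 s2
    · rw [add_assoc] at s1
      refine Sees.mkLeft y1 k1 z1 h1 h2 s1 ?_
      exact Sees.mkRight z1 k2 z2 f2 h1 s1 h3 s2
  · have hS := sg h3.le
    refine Sees.mkLeft y1 k1 z1 h1 h2 hS ?_
    exact Sees.mkLeft z1 k2 z2 h1 hS h3 s

theorem sees_flip (hF : Adm T F) (hc : IsCoc T c) (p1 : Pos T (fun h => π (c h)))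
    (p2 : Pos (flip T F hF) (fun h => π (flipC T F c h))) {h : T.H} {x : A}
    (s : Sees T c π q h x) :
    (h ∉ F → Sees (flip T F hF) (flipC T F c) π q h x) ∧ (h ∈ F → FrontF T F hF c π q h x) := by
  have B : ∀ h, T.nxt (T.opp h) ∈ F → T.opp h = T.nxt (T.nxt (T.nxt (T.opp h))) := by
    intro h _; simp
  have A' : ∀ h, T.nxt (T.nxt (T.opp h)) ∈ F → T.opp h = T.nxt (T.nxt (T.nxt (T.opp h))) := by
    intro h _; simp
  induction s with
  | hit h x h1 h2 h3 =>
    refine ⟨fun hh => ?_, fun _ => ⟨h1, h2, Or.inl h3⟩⟩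
    have hk : T.opp h ∉ F := fun h0 => hh (by simpa using hF.opp_mem _ h0)
    by_cases n1 : T.nxt (T.opp h) ∈ F
    · exact sees_flip_b hF hc p1 p2 hh n1 (B h n1) h1 h2 (Or.inl h3)
    by_cases n2 : T.nxt (T.nxt (T.opp h)) ∈ F
    · refine sees_flip_a hF hc p1 p2 hh n2 (A' h n2) h1 h2 (Or.inl ?_)
      simpa using h3
    · refine Sees.mkHit (T := flip T F hF) (k := T.nxt (T.opp h)) rfl ?_ rfl h1 ?_ ?_
      · exact flipNxt_none hk n1 n2
      · rwa [flipC_not hh]
      · rwa [flipC_not n1]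
  | right h x h1 h2 h3 h4 ih =>
    constructor
    · intro hh
      have hk : T.opp h ∉ F := fun h0 => hh (by simpa using hF.opp_mem _ h0)
      by_cases n1 : T.nxt (T.opp h) ∈ F
      · refine sees_flip_b hF hc p1 p2 hh n1 (B h n1) h1 h2 (Or.inr (Or.inl ⟨h3, ?_⟩))
        exact ih.1 (hF.nxt_not _ n1)
      by_cases n2 : T.nxt (T.nxt (T.opp h)) ∈ F
      · refine sees_flip_a hF hc p1 p2 hh n2 (A' h n2) h1 h2 (Or.inr (Or.inl ⟨?_, ?_⟩))
        · simpa using h3
        · simpa using ih.2 n2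
      · refine Sees.mkRight (T := flip T F hF) (k := T.nxt (T.opp h))
          (k' := T.nxt (T.nxt (T.opp h))) rfl ?_ rfl ?_ h1 ?_ ?_ ?_
        · exact flipNxt_none hk n1 n2
        · exact flipNxt_none n1 n2 (by simpa using hk)
        · rwa [flipC_not hh]
        · rwa [flipC_not n1]
        · rw [flipC_not n1]; exact ih.1 n2
    · intro hh
      have hk := hF.opp_mem _ hh
      exact ⟨h1, h2, Or.inr (Or.inl ⟨h3, ih.1 (hF.nxt2_not _ hk)⟩)⟩
  | left h x h1 h2 h3 h4 ih =>
    constructor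
    · intro hh
      have hk : T.opp h ∉ F := fun h0 => hh (by simpa using hF.opp_mem _ h0)
      by_cases n1 : T.nxt (T.opp h) ∈ F
      · exact sees_flip_b hF hc p1 p2 hh n1 (B h n1) h1 h2 (Or.inr (Or.inr ⟨h3, ih.2 n1⟩))
      by_cases n2 : T.nxt (T.nxt (T.opp h)) ∈ F
      · refine sees_flip_a hF hc p1 p2 hh n2 (A' h n2) h1 h2 (Or.inr (Or.inr ⟨?_, ?_⟩))
        · simpa using h3
        · simpa using ih.1 n1
      · refine Sees.mkLeft (T := flip T F hF) (k := T.nxt (T.opp h)) rfl ?_ rfl h1 ?_ ?_ ?_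
        · exact flipNxt_none hk n1 n2
        · rwa [flipC_not hh]
        · rwa [flipC_not n1]
        · exact ih.1 n1
    · intro hh
      have hk := hF.opp_mem _ hh
      exact ⟨h1, h2, Or.inr (Or.inr ⟨h3, ih.1 (hF.nxt_not _ hk)⟩)⟩

/-- Flips do not lose any straight segment. -/
theorem SC_flip (hF : Adm T F) (hc : IsCoc T c) (p1 : Pos T (fun h => π (c h)))
    (p2 : Pos (flip T F hF) (fun h => π (flipC T F c h))) :
    SC T c π ⊆ SC (flip T F hF) (flipC T F c) π := by
  rintro q (⟨h, hq⟩ | ⟨h, s⟩)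
  · by_cases hh : h ∈ F
    · obtain ⟨f1, f2, f3⟩ := flip_facts hF hh
      obtain ⟨g1, g2, g3⟩ := flip_facts hF (hF.opp_mem _ hh)
      obtain ⟨c1, c2, c3⟩ := coc_quad hc h
      obtain ⟨D1, D4, D3, D2⟩ := quad_pos hF hc p1 p2 hh
      have m1 : flipC T F c (T.nxt (T.opp h)) = c (T.nxt (T.opp h)) :=
        flipC_not (hF.nxt_not _ (hF.opp_mem _ hh))
      have m2 : flipC T F c (T.nxt (T.nxt (T.opp h))) = c (T.nxt (T.nxt (T.opp h))) :=
        flipC_not (hF.nxt2_not _ (hF.opp_mem _ hh))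
      have m4 : flipC T F c h = c (T.nxt (T.nxt (T.opp h))) + c (T.nxt h) := flipC_mem hh
      refine Or.inr ⟨T.nxt (T.opp h), ?_⟩
      have k1 : (flip T F hF).nxt (T.nxt (T.opp h)) = h := f3
      rw [k1, m1]
      refine Sees.mkHit (y := - c (T.nxt (T.nxt h))) (k := T.nxt (T.nxt (T.opp h))) (z := c h)
        ?_ g1 ?_ ?_ ?_ hq
      · rw [m4, c2, c1]; abel
      · rw [m2, c2]; abel
      · rw [← hq]
        have : det (π (c (T.nxt (T.opp h)))) (π (c h)) = det (π (c (T.nxt (T.opp h))))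
            (π (c h) - π (c (T.nxt (T.opp h)))) := by
          simp only [det, Prod.fst_sub, Prod.snd_sub]; ring
        rw [this]; exact D2
      · rw [← hq, map_neg]
        have : det (π (c h)) (- π (c (T.nxt (T.nxt h)))) =
            det (π (c h)) (- π (c h) - π (c (T.nxt (T.nxt h)))) := by
          simp only [det, Prod.fst_sub, Prod.snd_sub, Prod.fst_neg, Prod.snd_neg]; ring
        rw [this]; exact D1
    · exact Or.inl ⟨h, by rw [flipC_not hh, hq]⟩
  · by_cases h0 : T.nxt h ∈ F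
    · -- the corner at `R`
      obtain ⟨e, he⟩ : ∃ e, e = T.nxt h := ⟨_, rfl⟩
      have hb : h = T.nxt (T.nxt e) := by rw [he]; simp
      rw [← he] at h0 s
      subst hb
      obtain ⟨f1, f2, f3⟩ := flip_facts hF h0
      obtain ⟨g1, g2, g3⟩ := flip_facts hF (hF.opp_mem _ h0)
      have m0 : flipC T F c (T.nxt (T.nxt e)) = c (T.nxt (T.nxt e)) :=
        flipC_not (hF.nxt2_not _ h0)
      have m1 : flipC T F c (T.opp e) = c (T.nxt (T.nxt e)) + c (T.nxt (T.opp e)) := by
        rw [flipC_mem (hF.opp_mem _ h0), T.opp2]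
      obtain ⟨-, -, s1⟩ := (sees_flip hF hc p1 p2 s).2 h0
      rcases s1 with s1 | ⟨s1, s2⟩ | ⟨s1, s2⟩
      · exact Or.inl ⟨T.opp e, by rw [m1, s1]⟩
      · refine Or.inr ⟨T.opp e, ?_⟩
        have k1 : (flip T F hF).nxt (T.opp e) = T.nxt (T.nxt (T.opp e)) := g1
        rw [k1, m1]; exact s2
      · refine Or.inr ⟨T.nxt (T.nxt e), ?_⟩
        have k1 : (flip T F hF).nxt (T.nxt (T.nxt e)) = T.nxt (T.opp e) := f2
        rw [k1, m0]; exact s2
    · have s' := (sees_flip hF hc p1 p2 s).1 h0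
      by_cases h1 : h ∈ F
      · -- the corner at `P`, `h = e`
        obtain ⟨f1, f2, f3⟩ := flip_facts hF h1
        obtain ⟨g1, g2, g3⟩ := flip_facts hF (hF.opp_mem _ h1)
        obtain ⟨c1, c2, c3⟩ := coc_quad hc h
        obtain ⟨D1, D4, D3, D2⟩ := quad_pos hF hc p1 p2 h1
        have m1 : flipC T F c (T.nxt (T.opp h)) = c (T.nxt (T.opp h)) :=
          flipC_not (hF.nxt_not _ (hF.opp_mem _ h1))
        have m2 : flipC T F c (T.nxt (T.nxt (T.opp h))) = c (T.nxt (T.nxt (T.opp h))) :=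
          flipC_not (hF.nxt2_not _ (hF.opp_mem _ h1))
        have m4 : flipC T F c h = c (T.nxt (T.nxt (T.opp h))) + c (T.nxt h) := flipC_mem h1
        have a1 := s'.front_right
        have a2 := s'.front_left
        have m5 : flipC T F c (T.nxt h) = c (T.nxt h) := flipC_not (hF.nxt_not _ h1)
        have yy : c h + flipC T F c (T.nxt h) = - c (T.nxt (T.nxt h)) := by
          rw [m5, c1]; abel
        rw [yy] at a2
        have hS : 0 < det (π (c (T.nxt (T.opp h)))) (π q) := by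
          have id := quad_id 0 (π (c h)) (π (c (T.nxt (T.nxt h)))) (π (c (T.nxt (T.opp h)))) (π q)
          simp only [zero_add, zero_sub] at id
          rw [map_neg] at a2
          rw [det_neg_iff (- π (c (T.nxt (T.nxt h)))) (π q)] at id
          have z0 : det (0 : ℝ × ℝ) (π q) = 0 := by simp [det]
          rw [z0] at id
          have b1 := mul_pos D3 a1
          have b2 := mul_pos D2 a2
          have : 0 < det (π (c h)) (-π (c h) - π (c (T.nxt (T.nxt h)))) *
            det (π (c (T.nxt (T.opp h)))) (π q) := by rw [id]; linarith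
          exact (pos_iff_pos_of_mul_pos this).1 D1
        refine Or.inr ⟨T.nxt (T.opp h), ?_⟩
        have k1 : (flip T F hF).nxt (T.nxt (T.opp h)) = h := f3
        rw [k1, m1]
        simp only [Comb.opp2] at g2
        refine Sees.mkRight (y := - c (T.nxt (T.nxt h))) (k := T.nxt (T.nxt (T.opp h)))
          (z := c h) (k' := T.nxt h) ?_ g1 ?_ g2 hS a2 a1 s'
        · rw [m4, c2, c1]; abel
        · rw [m2, c2]; abel
      by_cases h2 : T.nxt (T.nxt h) ∈ F
      · -- the corner at `Q`, `h = nxt e`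
        obtain ⟨e, he⟩ : ∃ e, e = T.nxt (T.nxt h) := ⟨_, rfl⟩
        have hb : h = T.nxt e := by rw [he]; simp
        rw [← he] at h2
        subst hb
        obtain ⟨f1, f2, f3⟩ := flip_facts hF h2
        obtain ⟨g1, g2, g3⟩ := flip_facts hF (hF.opp_mem _ h2)
        obtain ⟨c1, c2, c3⟩ := coc_quad hc e
        obtain ⟨D1, D4, D3, D2⟩ := quad_pos hF hc p1 p2 h2
        have m1 : flipC T F c (T.nxt e) = c (T.nxt e) := flipC_not (hF.nxt_not _ h2)
        have m2 : flipC T F c (T.opp e) = c (T.nxt (T.nxt e)) + c (T.nxt (T.opp e)) := by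
          rw [flipC_mem (hF.opp_mem _ h2), T.opp2]
        have m3 : flipC T F c (T.nxt (T.nxt e)) = c (T.nxt (T.nxt e)) :=
          flipC_not (hF.nxt2_not _ h2)
        have a1 := s'.front_right
        have a2 := s'.front_left
        -- `P` at `- c e`, on the left
        have yy : c (T.nxt e) + flipC T F c (T.nxt (T.nxt e)) = - c e := by
          rw [m3, c1]; abel
        rw [yy] at a2
        have hS : 0 < det (π q) (π (c (T.nxt e) + (c (T.nxt (T.nxt e)) +
            c (T.nxt (T.opp e))))) := by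
          have id := quad_id (- π (c e)) (π (c e)) (π (c (T.nxt (T.nxt e))))
            (π (c (T.nxt (T.opp e)))) (π q)
          have e1 : c (T.nxt e) + (c (T.nxt (T.nxt e)) + c (T.nxt (T.opp e))) =
            - c e + c (T.nxt (T.opp e)) := by rw [c1]; abel
          rw [e1, map_add, map_neg]
          rw [c1, map_sub, map_neg] at a1
          rw [map_neg] at a2
          rw [det_neg_iff (- π (c e) + π (c (T.nxt (T.opp e)))) (π q),
            det_neg_iff (- π (c e)) (π q)] at id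
          have z0 : det (-π (c e) + π (c e)) (π q) = 0 := by simp [det]
          rw [z0] at id
          have b1 := mul_pos D2 a1
          have b2 := mul_pos D4 a2
          have : 0 < det (π (c e)) (-π (c e) - π (c (T.nxt (T.nxt e)))) *
            det (π q) (- π (c e) + π (c (T.nxt (T.opp e)))) := by linarith
          exact (pos_iff_pos_of_mul_pos this).1 D1
        refine Or.inr ⟨T.nxt e, ?_⟩
        simp only [Comb.opp2] at g3
        have k1 : (flip T F hF).nxt (T.nxt e) = T.opp e := g3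
        rw [k1, m1]
        have k2 : (flip T F hF).nxt ((flip T F hF).opp (T.opp e)) = T.nxt (T.nxt e) := by
          change flipNxt T F (T.opp (T.opp e)) = _
          rw [T.opp2, f1]
        rw [m1] at *
        refine Sees.mkLeft (y := c (T.nxt e) + (c (T.nxt (T.nxt e)) + c (T.nxt (T.opp e))))
          (z := - c e) ?_ k2 ?_ a1 hS a2 s'
        · rw [m2]
        · rw [m3, c1]; abel
      · refine Or.inr ⟨h, ?_⟩
        have k1 : (flip T F hF).nxt h = T.nxt h := flipNxt_none h1 h0 h2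
        rw [k1, flipC_not h1]; exact s'

end main

end Pool.Agent.H241
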