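import Pool.Agent.H241.Cone
import Pool.Agent.H241.Sees

/-!
# The orders of the zeros do not depend on the triangulation
-/

namespace Pool.Agent.H241

section rotations

variable {H : Type} {rot rot' : H → H} {F : Set H}

open Classical in
/-- next half-edge outside `F` -/
noncomputable def nx (rot : H → H) (F : Set H) (h : H) : H :=
  if rot h ∈ F then rot (rot h) else rot h

/-- classes of half-edges -/
def QR (rot : H → H) : Type := Quot (fun h k : H => k = rot h)

theorem mk_rot (rot : H → H) (h : H) :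
    (Quot.mk _ (rot h) : QR rot) = Quot.mk _ h :=
  (Quot.sound (r := fun h k : H => k = rot h) rfl).symm

theorem mk_nx (rot : H → H) (F : Set H) (h : H) :
    (Quot.mk _ (nx rot F h) : QR rot) = Quot.mk _ h := by
  unfold nx
  split_ifs
  · rw [mk_rot, mk_rot]
  · rw [mk_rot]

open Classical in
/-- transport of classes between two rotation systems which agree outside `F` -/
noncomputable def tr (hF : ∀ h ∈ F, rot h ∉ F) (hnx : ∀ h, h ∉ F → nx rot F h = nx rot' F h) :
    QR rot → QR rot' :=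
  Quot.lift (fun h => if h ∈ F then Quot.mk _ (rot h) else Quot.mk _ h) (by
    rintro h _ rfl
    by_cases h0 : h ∈ F
    · have h1 := hF h h0
      simp only [h0, h1]
      rfl
    · have e : (Quot.mk _ (nx rot F h) : QR rot') = Quot.mk _ h := by
        rw [hnx h h0, mk_nx]
      by_cases h1 : rot h ∈ F
      · have e1 : nx rot F h = rot (rot h) := by simp [nx, h1]
        rw [e1] at e
        simp only [h0, h1]
        exact e.symm
      · have e1 : nx rot F h = rot h := by simp [nx, h1]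
        rw [e1] at e
        simp only [h0, h1]
        exact e.symm)

theorem tr_mk (hF : ∀ h ∈ F, rot h ∉ F) (hnx : ∀ h, h ∉ F → nx rot F h = nx rot' F h) {h : H}
    (h0 : h ∉ F) : tr hF hnx (Quot.mk _ h) = Quot.mk _ h := by
  unfold tr
  simp only [h0]
  rfl

theorem tr_tr (hF : ∀ h ∈ F, rot h ∉ F) (hF' : ∀ h ∈ F, rot' h ∉ F)
    (hnx : ∀ h, h ∉ F → nx rot F h = nx rot' F h) (v : QR rot) :
    tr hF' (fun h h0 => (hnx h h0).symm) (tr hF hnx v) = v := by
  induction v using Quot.ind with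
  | mk h =>
    by_cases h0 : h ∈ F
    · have h1 := hF h h0
      rw [← mk_rot rot h, tr_mk hF hnx h1, tr_mk _ _ h1]
    · rw [tr_mk hF hnx h0, tr_mk _ _ h0]

/-- the bijection between the classes -/
noncomputable def trEquiv (hF : ∀ h ∈ F, rot h ∉ F) (hF' : ∀ h ∈ F, rot' h ∉ F)
    (hnx : ∀ h, h ∉ F → nx rot F h = nx rot' F h) : QR rot ≃ QR rot' where
  toFun := tr hF hnx
  invFun := tr hF' (fun h h0 => (hnx h h0).symm)
  left_inv := tr_tr hF hF' hnx
  right_inv := tr_tr hF' hF (fun h h0 => (hnx h h0).symm)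

theorem pl1 {x y z : ℝ × ℝ} (h1 : 0 < det x y) (h2 : 0 < det y z) (h3 : 0 < det x z)
    (h4 : x.2 ≤ 0) (h5 : 0 < y.2) : 0 < z.2 := by
  have e : y.2 * det x z = x.2 * det y z + z.2 * det x y := by
    simp only [det]; ring
  by_contra h
  have h6 : z.2 ≤ 0 := not_lt.1 h
  nlinarith [mul_pos h5 h3]

theorem pl2 {x y z : ℝ × ℝ} (h1 : 0 < det x y) (h2 : 0 < det y z) (h3 : 0 < det x z)
    (h4 : y.2 ≤ 0) (h5 : 0 < z.2) : x.2 ≤ 0 := by
  have e : y.2 * det x z = x.2 * det y z + z.2 * det x y := by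
    simp only [det]; ring
  by_contra h
  have h6 : 0 < x.2 := not_le.1 h
  nlinarith [mul_pos h6 h2, mul_pos h5 h1]

open Classical in
/-- removing the half-edges of `F` does not change the number of crossings -/
theorem cross_card {pre : H → H} (hp1 : ∀ h, pre (rot h) = h) (hp2 : ∀ h, rot (pre h) = h)
    (hFp : ∀ h ∈ F, pre h ∉ F) {w : H → ℝ × ℝ}
    (p : ∀ h, 0 < det (w h) (w (rot h)))
    (q : ∀ h, rot h ∈ F → 0 < det (w h) (w (rot (rot h)))) {V : Type} (s : H → V)
    (hs : ∀ h, s (rot h) = s h) (v : V) :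
    Nat.card {h : H // s h = v ∧ (w h).2 ≤ 0 ∧ 0 < (w (rot h)).2} =
    Nat.card {h : H // h ∉ F ∧ s h = v ∧ (w h).2 ≤ 0 ∧ 0 < (w (nx rot F h)).2} := by
  have hs' : ∀ h, s (pre h) = s h := fun h => by rw [← hs (pre h), hp2]
  -- the map
  have key : ∀ h, s h = v ∧ (w h).2 ≤ 0 ∧ 0 < (w (rot h)).2 →
      ((if h ∈ F then pre h else h) ∉ F ∧ s (if h ∈ F then pre h else h) = v ∧
        (w (if h ∈ F then pre h else h)).2 ≤ 0 ∧
        0 < (w (nx rot F (if h ∈ F then pre h else h))).2) := by
    rintro h ⟨h1, h2, h3⟩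
    by_cases h0 : h ∈ F
    · simp only [h0, if_true]
      have e : rot (pre h) = h := hp2 h
      have e1 : nx rot F (pre h) = rot h := by simp [nx, e, h0]
      refine ⟨hFp h h0, by rw [hs', h1], ?_, by rw [e1]; exact h3⟩
      have a1 := p (pre h)
      have a2 := p h
      have a3 := q (pre h) (by rw [e]; exact h0)
      rw [e] at a1 a3
      exact pl2 a1 a2 a3 h2 h3
    · simp only [h0, if_false, not_false_iff, true_and]
      refine ⟨h1, h2, ?_⟩
      by_cases h4 : rot h ∈ F
      · have e1 : nx rot F h = rot (rot h) := by simp [nx, h4]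
        rw [e1]
        exact pl1 (p h) (p (rot h)) (q h h4) h2 h3
      · have e1 : nx rot F h = rot h := by simp [nx, h4]
        rw [e1]; exact h3
  refine Nat.card_eq_of_bijective (fun h => ⟨_, key h.1 h.2⟩) ⟨?_, ?_⟩
  · rintro ⟨h, h1, h2, h3⟩ ⟨k, k1, k2, k3⟩ e
    have e' : (if h ∈ F then pre h else h) = (if k ∈ F then pre k else k) :=
      congrArg Subtype.val e
    apply Subtype.ext
    change h = k
    by_cases h0 : h ∈ F <;> by_cases k0 : k ∈ F <;> simp only [h0, k0, if_true, if_false] at e'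
    · rw [← hp2 h, e', hp2]
    · exfalso
      rw [← e', hp2] at k3
      linarith
    · exfalso
      rw [e', hp2] at h3
      linarith
    · exact e'
  · rintro ⟨h, h0, h1, h2, h3⟩
    by_cases h4 : rot h ∈ F
    · have e1 : nx rot F h = rot (rot h) := by simp [nx, h4]
      rw [e1] at h3
      by_cases h5 : 0 < (w (rot h)).2
      · refine ⟨⟨h, h1, h2, h5⟩, ?_⟩
        apply Subtype.ext
        simp [h0]
      · refine ⟨⟨rot h, by rw [hs, h1], not_lt.1 h5, h3⟩, ?_⟩
        apply Subtype.ext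
        simp [h4, hp1]
    · have e1 : nx rot F h = rot h := by simp [nx, h4]
      rw [e1] at h3
      refine ⟨⟨h, h1, h2, h3⟩, ?_⟩
      apply Subtype.ext
      simp [h0]

end rotations

/-- the preceding half-edge around the source -/
def pre (T : Comb) (h : T.H) : T.H := T.nxt (T.opp h)

theorem pre_rot (T : Comb) (h : T.H) : pre T (rot T h) = h := by simp [pre, rot]

theorem rot_pre (T : Comb) (h : T.H) : rot T (pre T h) = h := by simp [pre, rot]

theorem src_rot' (T : Comb) (h : T.H) : src T (rot T h) = src T h := mk_rot (rot T) h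

theorem det_rot {T : Comb} {w : T.H → ℝ × ℝ} (hw : IsCoc T w ∧ Pos T w) (h : T.H) :
    0 < det (w h) (w (rot T h)) := by
  have := hw.2 (T.nxt (T.nxt h))
  rw [T.nxt3] at this
  rw [rot, hw.1.opp]
  simp only [det, Prod.fst_neg, Prod.snd_neg] at this ⊢
  linarith

theorem orders_congr {X Y : TriSurf} (φ : Vert X.1 ≃ Vert Y.1)
    (h : ∀ v, coneIndex Y (φ v) = coneIndex X v) : orders X = orders Y := by
  classical
  unfold orders
  set i1 := Fintype.ofFinite (Vert X.1)
  set i2 := Fintype.ofFinite (Vert Y.1)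
  rw [← Finset.map_univ_equiv φ, Finset.map_val, Multiset.map_map]
  refine Multiset.map_congr rfl fun v _ => ?_
  simp only [Function.comp, Equiv.coe_toEmbedding, h]

section flips

variable {T : Comb} {F : Set T.H}

theorem rot_flip (hF : Adm T F) (h : T.H) :
    rot (flip T F hF) h = T.opp (flipNxt T F (flipNxt T F h)) := rfl

theorem rot_flip1 (hF : Adm T F) {e : T.H} (he : e ∈ F) :
    rot (flip T F hF) e = T.opp (T.nxt (T.opp e)) := by
  rw [rot_flip, (flip_facts hF he).1, (flip_facts hF he).2.1]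

theorem rot_flip2 (hF : Adm T F) {e : T.H} (he : e ∈ F) :
    rot (flip T F hF) (T.nxt (T.nxt e)) = T.opp e := by
  rw [rot_flip, (flip_facts hF he).2.1, (flip_facts hF he).2.2]

theorem rot_flip3 (hF : Adm T F) {e : T.H} (he : e ∈ F) :
    rot (flip T F hF) (T.nxt (T.opp e)) = T.opp (T.nxt (T.nxt e)) := by
  rw [rot_flip, (flip_facts hF he).2.2, (flip_facts hF he).1]

theorem opp_not (hF : Adm T F) {h : T.H} (h0 : h ∉ F) : T.opp h ∉ F := fun h1 =>
  h0 (by simpa using hF.opp_mem _ h1)

theorem nx_flip (hF : Adm T F) (h : T.H) (h0 : h ∉ F) :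
    nx (rot T) F h = nx (rot (flip T F hF)) F h := by
  revert h0
  refine four_cases (F := F) (fun h => h ∉ F →
    nx (rot T) F h = nx (rot (flip T F hF)) F h) ?_ ?_ ?_ ?_ h
  · intro h h0 h1; exact absurd h0 h1
  · intro h h0 _
    obtain ⟨e, he⟩ : ∃ e, e = T.nxt h := ⟨_, rfl⟩
    rw [← he] at h0
    have hh : h = T.nxt (T.nxt e) := by rw [he, T.nxt3]
    subst hh
    have a1 : rot T (T.nxt (T.nxt e)) = T.opp (T.nxt e) := by simp [rot]
    have a2 : rot T (T.nxt (T.nxt e)) ∉ F := by rw [a1]; exact opp_not hF (hF.nxt_not _ h0)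
    have a3 := rot_flip2 hF h0
    have a4 : rot (flip T F hF) (T.nxt (T.nxt e)) ∈ F := by rw [a3]; exact hF.opp_mem _ h0
    have a5 := rot_flip1 hF (hF.opp_mem _ h0)
    rw [nx, nx, if_neg a2, if_pos a4, a1, a3, a5, T.opp2]
  · intro h h0 _
    obtain ⟨e, he⟩ : ∃ e, e = T.opp (T.nxt (T.nxt h)) := ⟨_, rfl⟩
    have h1 : e ∈ F := by rw [he]; exact hF.opp_mem _ h0
    have hh : h = T.nxt (T.opp e) := by rw [he, T.opp2, T.nxt3]
    subst hh
    have a1 : rot T (T.nxt (T.opp e)) = e := by simp [rot]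
    have a2 : rot T (T.nxt (T.opp e)) ∈ F := by rw [a1]; exact h1
    have a3 := rot_flip3 hF h1
    have a4 : rot (flip T F hF) (T.nxt (T.opp e)) ∉ F := by
      rw [a3]; exact opp_not hF (hF.nxt2_not _ h1)
    rw [nx, nx, if_pos a2, if_neg a4, a1, a3]
    rfl
  · intro h a b d _
    have a1 : rot (flip T F hF) h = rot T h := by
      rw [rot_flip, flipNxt_none a b d, flipNxt_none b d (by simpa using a)]; rfl
    have a2 : rot T h ∉ F := opp_not hF d
    rw [nx, nx, a1, if_neg a2, if_neg a2]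

theorem rot_mem (hF : Adm T F) : ∀ h ∈ F, rot T h ∉ F := fun h h0 =>
  opp_not hF (hF.nxt2_not h h0)

theorem rot_flip_mem (hF : Adm T F) : ∀ h ∈ F, rot (flip T F hF) h ∉ F := fun h h0 => by
  rw [rot_flip1 hF h0]; exact opp_not hF (hF.nxt_not _ (hF.opp_mem _ h0))

theorem nx_not (hF : Adm T F) (h : T.H) : nx (rot T) F h ∉ F := by
  unfold nx
  split_ifs with h0
  · exact rot_mem hF _ h0
  · exact h0

end flips

theorem orders_flip (X : TriSurf) (F : Set X.1.H) (hF : Adm X.1 F)
    (hpos : Pos (flip X.1 F hF) (flipC X.1 F X.2.1)) :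
    orders X = orders ⟨flip X.1 F hF, ⟨flipC X.1 F X.2.1, flipC_isCoc hF X.2.2.1, hpos⟩⟩ := by
  obtain ⟨T, w, hw⟩ := X
  simp only at F hF hpos ⊢
  set T' := flip T F hF with hT'
  set w' := flipC T F w with hw'
  have hw2 : IsCoc T' w' ∧ Pos T' w' := ⟨flipC_isCoc hF hw.1, hpos⟩
  have hcoc : ∀ h, w (T.opp h) = - w h := hw.1.opp
  -- the bijection between the vertices
  set φ : Vert T ≃ Vert T' :=
    trEquiv (rot_mem hF) (rot_flip_mem hF) (nx_flip hF) with hφ
  have hφ1 : ∀ h : T.H, h ∉ F → φ (src T h) = src T' h := fun h h0 =>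
    tr_mk (rot_mem hF) (nx_flip hF) h0
  refine orders_congr (X := ⟨T, w, hw⟩) (Y := ⟨T', w', hw2⟩) φ fun v => ?_
  unfold coneIndex
  simp only
  -- count for `T`
  have c1 := cross_card (H := T.H) (rot := rot T) (F := F) (pre := pre T) (w := w)
    (pre_rot T) (rot_pre T) (fun h h0 => hF.nxt_not _ (hF.opp_mem _ h0)) (det_rot hw) (by
      intro h h0
      obtain ⟨e, he⟩ : ∃ e, e = rot T h := ⟨_, rfl⟩
      rw [← he] at h0 ⊢
      have hh : h = T.nxt (T.opp e) := by rw [he]; exact (pre_rot T h).symm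
      subst hh
      have := (quad_pos (π := AddMonoidHom.id (ℝ × ℝ)) hF hw.1 hw.2 hpos h0).2.2.1
      simp only [AddMonoidHom.id_apply] at this
      rw [rot, hcoc]
      simp only [det, Prod.fst_neg, Prod.snd_neg] at this ⊢
      linarith) (src T) (src_rot' T) v
  have c2 := cross_card (H := T.H) (rot := rot T') (F := F) (pre := pre T') (w := w')
    (pre_rot T') (rot_pre T') (fun h h0 => by
      change flipNxt T F (T.opp h) ∉ F
      rw [(flip_facts hF (hF.opp_mem _ h0)).1]
      exact hF.nxt2_not _ (hF.opp_mem _ h0)) (det_rot hw2) (by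
      intro h h0
      obtain ⟨e, he⟩ : ∃ e, e = rot T' h := ⟨_, rfl⟩
      rw [← he] at h0 ⊢
      have h0' := hF.opp_mem _ h0
      have hh : h = T.nxt (T.nxt (T.opp e)) := by
        have := pre_rot T' h
        rw [← he] at this
        rw [← this]
        change flipNxt T F (T.opp e) = _
        rw [(flip_facts hF h0').1]
      subst hh
      rw [show rot T' e = T.opp (T.nxt (T.opp e)) from rot_flip1 hF h0]
      have m1 : w' (T.nxt (T.nxt (T.opp e))) = w (T.nxt (T.nxt (T.opp e))) :=
        flipC_not (hF.nxt2_not _ h0')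
      have m2 : w' (T.opp (T.nxt (T.opp e))) = w (T.opp (T.nxt (T.opp e))) :=
        flipC_not (opp_not hF (hF.nxt_not _ h0'))
      rw [m1, m2, hcoc]
      have := hw.2 (T.nxt (T.opp e))
      simp only [det, Prod.fst_neg, Prod.snd_neg] at this ⊢
      linarith) (src T') (src_rot' T') (φ v)
  refine c2.trans (Eq.trans ?_ c1.symm)
  refine Nat.card_congr (Equiv.subtypeEquivRight fun h => ?_)
  constructor
  · rintro ⟨a0, a1, a2, a3⟩
    rw [← hφ1 h a0] at a1
    have e1 : w' h = w h := flipC_not a0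
    have e2 : nx (rot T') F h = nx (rot T) F h := (nx_flip hF h a0).symm
    have e3 : w' (nx (rot T) F h) = w (nx (rot T) F h) := flipC_not (nx_not hF h)
    rw [e1] at a2
    rw [e2, e3] at a3
    exact ⟨a0, φ.injective a1, a2, a3⟩
  · rintro ⟨a0, a1, a2, a3⟩
    have e1 : w' h = w h := flipC_not a0
    have e2 : nx (rot T') F h = nx (rot T) F h := (nx_flip hF h a0).symm
    have e3 : w' (nx (rot T) F h) = w (nx (rot T) F h) := flipC_not (nx_not hF h)
    refine ⟨a0, ?_, ?_, ?_⟩
    · rw [← hφ1 h a0, a1]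
    · rw [e1]; exact a2
    · rw [e2, e3]; exact a3

theorem orders_relabel (X Y : TriSurf) (e : X.1.H ≃ Y.1.H)
    (h1 : ∀ h, e (X.1.nxt h) = Y.1.nxt (e h)) (h2 : ∀ h, e (X.1.opp h) = Y.1.opp (e h))
    (h3 : ∀ h, Y.2.1 (e h) = X.2.1 h) : orders X = orders Y := by
  have hr : ∀ h, e (rot X.1 h) = rot Y.1 (e h) := fun h => by
    rw [rot, rot, h2, h1, h1]
  have hr' : ∀ h, e.symm (rot Y.1 h) = rot X.1 (e.symm h) := fun h => by
    rw [Equiv.symm_apply_eq, hr, Equiv.apply_symm_apply]
  let φ : Vert X.1 ≃ Vert Y.1 :=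
    { toFun := Quot.map e (fun a b hab => by rw [hab, hr])
      invFun := Quot.map e.symm (fun a b hab => by rw [hab, hr'])
      left_inv := fun v => by
        induction v using Quot.ind with
        | mk h => exact congrArg _ (e.symm_apply_apply h)
      right_inv := fun v => by
        induction v using Quot.ind with
        | mk h => exact congrArg _ (e.apply_symm_apply h) }
  refine orders_congr φ fun v => ?_
  unfold coneIndex
  refine (Nat.card_congr (e.subtypeEquiv fun h => ?_)).symm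
  have hv : src Y.1 (e h) = φ (src X.1 h) := rfl
  rw [hv, ← hr, h3, h3, φ.injective.eq_iff]

/-- The orders of the zeros do not depend on the triangulation. -/
theorem orders_step (X Y : TriSurf) (s : Step X Y) : orders X = orders Y := by
  cases s with
  | relabel _ e h1 h2 h3 => exact orders_relabel X Y e h1 h2 h3
  | flip F hF hpos => exact orders_flip X F hF hpos

end Pool.Agent.H241
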