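import Pool.Agent.H241.Sees

/-!
# Surfaces with data, lifting of steps, openness of the quotient map
-/

namespace Pool.Agent.H241

variable {A : Type*} [AddCommGroup A]

/-- A triangulated surface with an `A`-valued cocycle whose image under `π` is positive. -/
structure DSurf (π : A →+ ℝ × ℝ) where
  /-- combinatorial type -/
  T : Comb
  /-- the data -/
  c : T.H → A
  coc : IsCoc T c
  pos : Pos T (fun h => π (c h))

/-- Steps between surfaces with data. -/
inductive DStep (π : A →+ ℝ × ℝ) : DSurf π → DSurf π → Prop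
  | relabel (X Y : DSurf π) (e : X.T.H ≃ Y.T.H) (h1 : ∀ h, e (X.T.nxt h) = Y.T.nxt (e h))
      (h2 : ∀ h, e (X.T.opp h) = Y.T.opp (e h)) (h3 : ∀ h, Y.c (e h) = X.c h) : DStep π X Y
  | flip (X : DSurf π) (F : Set X.T.H) (hF : Adm X.T F)
      (hpos : Pos (flip X.T F hF) (fun h => π (flipC X.T F X.c h))) :
      DStep π X ⟨flip X.T F hF, flipC X.T F X.c, flipC_isCoc hF X.coc, hpos⟩

theorem sees_relabel {T T' : Comb} {c : T.H → A} {c' : T'.H → A} {π : A →+ ℝ × ℝ}
    (e : T.H ≃ T'.H) (h1 : ∀ h, e (T.nxt h) = T'.nxt (e h))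
    (h2 : ∀ h, e (T.opp h) = T'.opp (e h)) (h3 : ∀ h, c' (e h) = c h) {q : A} {h : T.H} {x : A}
    (s : Sees T c π q h x) : Sees T' c' π q (e h) x := by
  induction s with
  | hit h x a1 a2 a3 =>
    refine Sees.mkHit (y := x + c h) (k := e (T.nxt (T.opp h))) (z := q) (by rw [h3])
      (by rw [h1, h2]) (by rw [h3, a3]) a1 a2 rfl
  | right h x a1 a2 a3 a4 ih =>
    exact Sees.mkRight (y := x + c h) (k := e (T.nxt (T.opp h))) (z := x + c (T.nxt (T.opp h)))
      (k' := e (T.nxt (T.nxt (T.opp h)))) (by rw [h3]) (by rw [h1, h2]) (by rw [h3])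
      (by rw [← h1]) a1 a2 a3 ih
  | left h x a1 a2 a3 a4 ih =>
    exact Sees.mkLeft (y := x + c h) (k := e (T.nxt (T.opp h))) (z := x + c (T.nxt (T.opp h)))
      (by rw [h3]) (by rw [h1, h2]) (by rw [h3]) a1 a2 a3 ih

theorem SC_relabel_le {T T' : Comb} {c : T.H → A} {c' : T'.H → A} {π : A →+ ℝ × ℝ}
    (e : T.H ≃ T'.H) (h1 : ∀ h, e (T.nxt h) = T'.nxt (e h))
    (h2 : ∀ h, e (T.opp h) = T'.opp (e h)) (h3 : ∀ h, c' (e h) = c h) :
    SC T c π ⊆ SC T' c' π := by
  rintro q (⟨h, hq⟩ | ⟨h, s⟩)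
  · exact Or.inl ⟨e h, by rw [h3, hq]⟩
  · refine Or.inr ⟨e h, ?_⟩
    rw [← h1, h3]
    exact sees_relabel e h1 h2 h3 s

theorem SC_relabel {T T' : Comb} {c : T.H → A} {c' : T'.H → A} {π : A →+ ℝ × ℝ}
    (e : T.H ≃ T'.H) (h1 : ∀ h, e (T.nxt h) = T'.nxt (e h))
    (h2 : ∀ h, e (T.opp h) = T'.opp (e h)) (h3 : ∀ h, c' (e h) = c h) :
    SC T c π = SC T' c' π := by
  refine le_antisymm (SC_relabel_le e h1 h2 h3) (SC_relabel_le e.symm ?_ ?_ ?_)
  · intro h
    rw [Equiv.symm_apply_eq, h1, Equiv.apply_symm_apply]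
  · intro h
    rw [Equiv.symm_apply_eq, h2, Equiv.apply_symm_apply]
  · intro h
    rw [← h3, Equiv.apply_symm_apply]

section double

variable {T : Comb} {F : Set T.H}

theorem adm_flip (hF : Adm T F) : Adm (flip T F hF) F := by
  refine ⟨hF.opp_mem, fun h h0 => ?_, fun h h0 => ?_⟩
  · change flipNxt T F h ∉ F
    rw [(flip_facts hF h0).1]; exact hF.nxt2_not _ h0
  · change flipNxt T F (flipNxt T F h) ∉ F
    rw [(flip_facts hF h0).1, (flip_facts hF h0).2.1]; exact hF.nxt_not _ (hF.opp_mem _ h0)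

open Classical in
/-- exchange the two half-edges of each edge in `F` -/
noncomputable def swapF (hF : Adm T F) : T.H ≃ T.H where
  toFun h := if h ∈ F then T.opp h else h
  invFun h := if h ∈ F then T.opp h else h
  left_inv h := by
    by_cases h0 : h ∈ F
    · have := hF.opp_mem _ h0
      simp [h0, this]
    · simp [h0]
  right_inv h := by
    by_cases h0 : h ∈ F
    · have := hF.opp_mem _ h0
      simp [h0, this]
    · simp [h0]

theorem swapF_mem (hF : Adm T F) {h : T.H} (h0 : h ∈ F) : swapF hF h = T.opp h := by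
  simp [swapF, h0]

theorem swapF_not (hF : Adm T F) {h : T.H} (h0 : h ∉ F) : swapF hF h = h := by
  simp [swapF, h0]

theorem swap_nxt (hF : Adm T F) (h : T.H) :
    swapF hF (flipNxt (flip T F hF) F h) = T.nxt (swapF hF h) := by
  have G := adm_flip hF
  refine four_cases (T := flip T F hF) (F := F)
    (fun h => swapF hF (flipNxt (flip T F hF) F h) = T.nxt (swapF hF h)) ?_ ?_ ?_ ?_ h
  · intro h h0
    rw [flipNxt_mem (T := flip T F hF) h0, swapF_mem hF h0]
    change swapF hF (flipNxt T F (flipNxt T F h)) = _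
    rw [(flip_facts hF h0).1, (flip_facts hF h0).2.1,
      swapF_not hF (hF.nxt_not _ (hF.opp_mem _ h0))]
  · intro h h0
    obtain ⟨e, he⟩ : ∃ e, e = (flip T F hF).nxt h := ⟨_, rfl⟩
    have h0' : e ∈ F := by rw [he]; exact h0
    rw [flipNxt_pre (T := flip T F hF) G h0, ← he]
    have : h = T.nxt (T.opp e) := by
      have h3 := flipNxt3 hF h
      change (flip T F hF).nxt ((flip T F hF).nxt ((flip T F hF).nxt h)) = h at h3
      rw [← he] at h3
      change flipNxt T F (flipNxt T F e) = h at h3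
      rw [← h3, (flip_facts hF h0').1, (flip_facts hF h0').2.1]
    rw [this, swapF_not hF (hF.nxt_not _ (hF.opp_mem _ h0'))]
    change swapF hF (flipNxt T F (T.opp e)) = _
    rw [(flip_facts hF (hF.opp_mem _ h0')).1, swapF_not hF (hF.nxt2_not _ (hF.opp_mem _ h0'))]
  · intro h h0
    obtain ⟨e, he⟩ : ∃ e, e = (flip T F hF).nxt ((flip T F hF).nxt h) := ⟨_, rfl⟩
    have h0' : e ∈ F := by rw [he]; exact h0
    rw [flipNxt_pre2 (T := flip T F hF) G h0, ← he]
    have : h = T.nxt (T.nxt e) := by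
      have h3 := flipNxt3 hF h
      change (flip T F hF).nxt ((flip T F hF).nxt ((flip T F hF).nxt h)) = h at h3
      rw [← he] at h3
      change flipNxt T F e = h at h3
      rw [← h3, (flip_facts hF h0').1]
    rw [this, swapF_not hF (hF.nxt2_not _ h0')]
    change swapF hF (T.opp e) = _
    rw [swapF_mem hF (hF.opp_mem _ h0')]
    simp
  · intro h a b d
    rw [flipNxt_none (T := flip T F hF) a b d, swapF_not hF a]
    change swapF hF (flipNxt T F h) = _
    have b' : flipNxt T F h ∉ F := b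
    rw [swapF_not hF b']
    -- `h` is not a side of a quadrilateral in `T` either
    have d' : flipNxt T F (flipNxt T F h) ∉ F := d
    refine flipNxt_none a ?_ ?_
    · intro h1
      apply d'
      rw [flipNxt_pre hF h1, (flip_facts hF h1).2.2]; exact h1
    · intro h1
      apply b'
      rw [flipNxt_pre2 hF h1]; exact hF.opp_mem _ h1

theorem swap_c (hF : Adm T F) {c : T.H → A} (hc : IsCoc T c) (h : T.H) :
    c (swapF hF h) = flipC (flip T F hF) F (flipC T F c) h := by
  by_cases h0 : h ∈ F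
  · rw [flipC_mem (T := flip T F hF) h0, swapF_mem hF h0]
    change _ = flipC T F c (flipNxt T F (flipNxt T F (T.opp h))) + flipC T F c (flipNxt T F h)
    rw [(flip_facts hF (hF.opp_mem _ h0)).1, (flip_facts hF (hF.opp_mem _ h0)).2.1,
      (flip_facts hF h0).1, T.opp2, flipC_not (hF.nxt_not _ h0), flipC_not (hF.nxt2_not _ h0)]
    have t := hc.tri h
    rw [hc.opp, neg_eq_iff_add_eq_zero, ← t]; abel
  · rw [flipC_not (T := flip T F hF) h0, flipC_not h0, swapF_not hF h0]

theorem SC_flip_eq (hF : Adm T F) {c : T.H → A} {π : A →+ ℝ × ℝ} (hc : IsCoc T c)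
    (p1 : Pos T (fun h => π (c h))) (p2 : Pos (flip T F hF) (fun h => π (flipC T F c h))) :
    SC T c π = SC (flip T F hF) (flipC T F c) π := by
  refine le_antisymm (SC_flip hF hc p1 p2) ?_
  have p3 : Pos (flip (flip T F hF) F (adm_flip hF))
      (fun h => π (flipC (flip T F hF) F (flipC T F c) h)) := by
    intro h
    have := p1 (swapF hF h)
    change 0 < det (π (flipC (flip T F hF) F (flipC T F c) h))
      (π (flipC (flip T F hF) F (flipC T F c) (flipNxt (flip T F hF) F h)))
    rw [← swap_c hF hc, ← swap_c hF hc, swap_nxt]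
    exact this
  refine (SC_flip (adm_flip hF) (flipC_isCoc hF hc) p2 p3).trans ?_
  exact SC_relabel_le (T := flip (flip T F hF) F (adm_flip hF)) (T' := T)
    (c := flipC (flip T F hF) F (flipC T F c)) (c' := c) (π := π)
    (swapF (T := T) (F := F) hF : T.H ≃ T.H) (swap_nxt hF)
    (fun h => by
      change swapF hF (T.opp h) = T.opp (swapF hF h)
      by_cases h0 : h ∈ F
      · rw [swapF_mem hF h0, swapF_mem hF (hF.opp_mem _ h0)]
      · have h1 : T.opp h ∉ F := fun h1 => h0 (by simpa using hF.opp_mem _ h1)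
        rw [swapF_not hF h0, swapF_not hF h1])
    (swap_c hF hc)

end double

theorem SC_step {π : A →+ ℝ × ℝ} {X Y : DSurf π} (s : DStep π X Y) :
    SC X.T X.c π = SC Y.T Y.c π := by
  cases s with
  | relabel _ e h1 h2 h3 => exact SC_relabel e h1 h2 h3
  | flip F hF hpos => exact SC_flip_eq hF X.coc X.pos hpos

theorem SC_eqv {π : A →+ ℝ × ℝ} {X Y : DSurf π} (s : Relation.EqvGen (DStep π) X Y) :
    SC X.T X.c π = SC Y.T Y.c π := by
  induction s with
  | rel _ _ s => exact SC_step s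
  | refl _ => rfl
  | symm _ _ _ ih => exact ih.symm
  | trans _ _ _ _ _ ih1 ih2 => exact ih1.trans ih2

theorem IsCoc.comp {T : Comb} {π : A →+ ℝ × ℝ} {c : T.H → A} (hc : IsCoc T c) :
    IsCoc T (fun h => π (c h)) :=
  ⟨fun h => by rw [hc.opp, map_neg], fun h => by
    rw [← map_add, ← map_add, hc.tri, map_zero]⟩

/-- forget the data -/
@[reducible] def DSurf.toTri {π : A →+ ℝ × ℝ} (X : DSurf π) : TriSurf :=
  ⟨X.T, ⟨fun h => π (X.c h), ⟨X.coc.comp, X.pos⟩⟩⟩

theorem comp_flipC {T : Comb} {F : Set T.H} {π : A →+ ℝ × ℝ} {c : T.H → A} :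
    (fun h => π (flipC T F c h)) = flipC T F (fun h => π (c h)) := by
  funext h
  by_cases h0 : h ∈ F
  · rw [flipC_mem h0, flipC_mem h0, map_add]
  · rw [flipC_not h0, flipC_not h0]

theorem triSurf_ext {T : Comb} {w w' : T.H → ℝ × ℝ} (h : w = w')
    (p : IsCoc T w ∧ Pos T w) (p' : IsCoc T w' ∧ Pos T w') :
    (⟨T, ⟨w, p⟩⟩ : TriSurf) = ⟨T, ⟨w', p'⟩⟩ := by
  subst h; rfl

theorem DStep.toTri {π : A →+ ℝ × ℝ} {X Y : DSurf π} (s : DStep π X Y) :
    Step X.toTri Y.toTri := by
  cases s with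
  | relabel _ e h1 h2 h3 =>
    exact Step.relabel _ _ e h1 h2 (fun h => by simp only [DSurf.toTri, h3])
  | flip F hF hpos =>
    have h0 : Pos (H241.flip X.T F hF) (flipC X.T F (fun h => π (X.c h))) := by
      rw [← comp_flipC (T := X.T) (F := F)]; exact hpos
    have := Step.flip X.toTri F hF h0
    have e : (⟨H241.flip X.T F hF, ⟨fun h => π (flipC X.T F X.c h),
        (flipC_isCoc hF X.coc).comp, hpos⟩⟩ : TriSurf) =
        ⟨H241.flip X.T F hF, ⟨flipC X.T F (fun h => π (X.c h)),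
          flipC_isCoc hF X.coc.comp, h0⟩⟩ :=
      triSurf_ext (T := H241.flip X.T F hF) (comp_flipC (T := X.T) (F := F)) _ _
    change Step X.toTri (⟨H241.flip X.T F hF, ⟨fun h => π (flipC X.T F X.c h),
        (flipC_isCoc hF X.coc).comp, hpos⟩⟩ : TriSurf)
    rw [e]
    exact this

theorem eqv_toTri {π : A →+ ℝ × ℝ} {X Y : DSurf π} (s : Relation.EqvGen (DStep π) X Y) :
    Relation.EqvGen Step X.toTri Y.toTri := by
  induction s with
  | rel _ _ s => exact Relation.EqvGen.rel _ _ s.toTri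
  | refl _ => exact Relation.EqvGen.refl _
  | symm _ _ _ ih => exact ih.symm
  | trans _ _ _ _ _ ih1 ih2 => exact ih1.trans _ _ _ ih2

section inverse

open Classical in
/-- the inverse of `flipC` on cocycles -/
noncomputable def unflipC (T : Comb) (F : Set T.H) (c : T.H → A) (h : T.H) : A :=
  if h ∈ F then - (c (T.nxt h) + c (T.nxt (T.nxt h))) else c h

theorem unflipC_mem {T : Comb} {F : Set T.H} {c : T.H → A} {h : T.H} (h0 : h ∈ F) :
    unflipC T F c h = - (c (T.nxt h) + c (T.nxt (T.nxt h))) := by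
  simp [unflipC, h0]

theorem unflipC_not {T : Comb} {F : Set T.H} {c : T.H → A} {h : T.H} (h0 : h ∉ F) :
    unflipC T F c h = c h := by
  simp [unflipC, h0]

variable {T : Comb} {F : Set T.H}

/-- the relations among the four sides in the flipped triangulation -/
theorem flip_rel (hF : Adm T F) {c : T.H → A} (hc : IsCoc (flip T F hF) c) {e : T.H}
    (he : e ∈ F) :
    c e + c (T.nxt (T.nxt e)) + c (T.nxt (T.opp e)) = 0 ∧
    - c e + c (T.nxt (T.nxt (T.opp e))) + c (T.nxt e) = 0 := by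
  obtain ⟨f1, f2, f3⟩ := flip_facts hF he
  obtain ⟨g1, g2, g3⟩ := flip_facts hF (hF.opp_mem _ he)
  have t1 := hc.tri e
  have t2 := hc.tri (T.opp e)
  have t3 := hc.opp e
  change c (T.opp e) = - c e at t3
  change c e + c (flipNxt T F e) + c (flipNxt T F (flipNxt T F e)) = 0 at t1
  change c (T.opp e) + c (flipNxt T F (T.opp e)) +
    c (flipNxt T F (flipNxt T F (T.opp e))) = 0 at t2
  rw [f1, f2] at t1
  rw [g1, g2, T.opp2, t3] at t2
  exact ⟨t1, t2⟩

theorem unflipC_isCoc (hF : Adm T F) {c : T.H → A} (hc : IsCoc (flip T F hF) c) :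
    IsCoc T (unflipC T F c) := by
  constructor
  · intro h
    by_cases h0 : h ∈ F
    · have h0' := hF.opp_mem _ h0
      rw [unflipC_mem h0, unflipC_mem h0']
      obtain ⟨r1, r2⟩ := flip_rel hF hc h0
      have : c (T.nxt (T.nxt h)) + c (T.nxt (T.opp h)) +
          (c (T.nxt (T.nxt (T.opp h))) + c (T.nxt h)) = 0 := by
        have := congrArg₂ (· + ·) r1 r2
        simp only [add_zero] at this
        rw [← this]; abel
      rw [← sub_eq_zero, ← neg_eq_zero, ← this]; abel
    · have h0' : T.opp h ∉ F := fun h1 => h0 (by simpa using hF.opp_mem _ h1)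
      rw [unflipC_not h0, unflipC_not h0']; exact hc.opp h
  · intro h
    have key : ∀ e, e ∈ F → unflipC T F c e + unflipC T F c (T.nxt e) +
        unflipC T F c (T.nxt (T.nxt e)) = 0 := by
      intro e he
      rw [unflipC_mem he, unflipC_not (hF.nxt_not _ he), unflipC_not (hF.nxt2_not _ he)]
      abel
    refine four_cases (F := F) (fun h => unflipC T F c h + unflipC T F c (T.nxt h) +
        unflipC T F c (T.nxt (T.nxt h)) = 0) key ?_ ?_ ?_ h
    · intro h h0
      have := key _ h0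
      simp only [Comb.nxt3] at this
      rw [← this]; abel
    · intro h h0
      have := key _ h0
      simp only [Comb.nxt3] at this
      rw [← this]; abel
    · intro h a b d
      rw [unflipC_not a, unflipC_not b, unflipC_not d]
      have := hc.tri h
      change c h + c (flipNxt T F h) + c (flipNxt T F (flipNxt T F h)) = 0 at this
      rwa [flipNxt_none a b d, flipNxt_none b d (by simpa using a)] at this

theorem flipC_unflipC (hF : Adm T F) {c : T.H → A} (hc : IsCoc (flip T F hF) c) :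
    flipC T F (unflipC T F c) = c := by
  funext h
  by_cases h0 : h ∈ F
  · rw [flipC_mem h0, unflipC_not (hF.nxt2_not _ (hF.opp_mem _ h0)),
      unflipC_not (hF.nxt_not _ h0)]
    obtain ⟨r1, r2⟩ := flip_rel hF hc h0
    rw [← sub_eq_zero, ← r2]; abel
  · rw [flipC_not h0, unflipC_not h0]

theorem unflipC_flipC (hF : Adm T F) {c : T.H → A} (hc : IsCoc T c) :
    unflipC T F (flipC T F c) = c := by
  funext h
  by_cases h0 : h ∈ F
  · rw [unflipC_mem h0, flipC_not (hF.nxt2_not _ h0), flipC_not (hF.nxt_not _ h0)]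
    have := hc.tri h
    rw [neg_eq_iff_add_eq_zero, ← this]; abel
  · rw [unflipC_not h0, flipC_not h0]

theorem comp_unflipC {π : A →+ ℝ × ℝ} {c : T.H → A} :
    (fun h => π (unflipC T F c h)) = unflipC T F (fun h => π (c h)) := by
  funext h
  by_cases h0 : h ∈ F
  · rw [unflipC_mem h0, unflipC_mem h0, map_neg, map_add]
  · rw [unflipC_not h0, unflipC_not h0]

end inverse

/-- data can be carried along a step, in both directions -/
theorem lift_step {π : A →+ ℝ × ℝ} {X' Y' : TriSurf} (s : Step X' Y') :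
    (∀ X : DSurf π, X.toTri = X' → ∃ Y : DSurf π, Y.toTri = Y' ∧ DStep π X Y) ∧
    (∀ Y : DSurf π, Y.toTri = Y' → ∃ X : DSurf π, X.toTri = X' ∧ DStep π X Y) := by
  cases s with
  | relabel _ e h1 h2 h3 =>
    constructor
    · rintro ⟨T, c, hc, hp⟩ rfl
      obtain ⟨T', w', hw'⟩ := Y'
      simp only [DSurf.toTri] at e h1 h2 h3
      have hw : w' = fun h => π (c (e.symm h)) := by
        funext h
        rw [← h3, Equiv.apply_symm_apply]
      have n1 : ∀ h, e.symm (T'.nxt h) = T.nxt (e.symm h) := fun h => by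
        rw [Equiv.symm_apply_eq, h1, Equiv.apply_symm_apply]
      have n2 : ∀ h, e.symm (T'.opp h) = T.opp (e.symm h) := fun h => by
        rw [Equiv.symm_apply_eq, h2, Equiv.apply_symm_apply]
      refine ⟨⟨T', fun h => c (e.symm h), ⟨fun h => ?_, fun h => ?_⟩, fun h => ?_⟩, ?_, ?_⟩
      · rw [n2, hc.opp]
      · simp only [n1]; exact hc.tri _
      · simp only [n1]; exact hp _
      · exact triSurf_ext hw.symm _ _
      · exact DStep.relabel _ _ e h1 h2 (fun h => by simp)
    · rintro ⟨T, c, hc, hp⟩ rfl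
      obtain ⟨T', w', hw'⟩ := X'
      simp only [DSurf.toTri] at e h1 h2 h3
      refine ⟨⟨T', fun h => c (e h), ⟨fun h => ?_, fun h => ?_⟩, fun h => ?_⟩, ?_, ?_⟩
      · rw [h2, hc.opp]
      · simp only [h1]; exact hc.tri _
      · simp only [h1]; exact hp _
      · exact triSurf_ext (funext h3) _ _
      · exact DStep.relabel _ _ e h1 h2 (fun h => rfl)
  | flip F hF hpos =>
    constructor
    · rintro ⟨T, c, hc, hp⟩ rfl
      simp only [DSurf.toTri] at F hF hpos
      have h0 : Pos (H241.flip T F hF) (fun h => π (flipC T F c h)) := by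
        have := hpos
        rw [← comp_flipC (T := T) (F := F)] at this
        exact this
      refine ⟨⟨H241.flip T F hF, flipC T F c, flipC_isCoc hF hc, h0⟩, ?_, ?_⟩
      · exact triSurf_ext (T := H241.flip T F hF) (comp_flipC (T := T) (F := F)) _ _
      · exact DStep.flip ⟨T, c, hc, hp⟩ F hF h0
    · rintro ⟨T', c', hc', hp'⟩ hY
      obtain ⟨T, w, hw⟩ := X'
      simp only at F hF hpos hY
      simp only [DSurf.toTri, Sigma.mk.injEq] at hY
      obtain ⟨rfl, hY⟩ := hY
      have hY' : (fun h => π (c' h)) = flipC T F w := congrArg Subtype.val (eq_of_heq hY)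
      have hw' : w = fun h => π (unflipC T F c' h) := by
        rw [comp_unflipC, hY', unflipC_flipC hF hw.1]
      refine ⟨⟨T, unflipC T F c', unflipC_isCoc hF hc', ?_⟩, ?_, ?_⟩
      · rw [← hw']; exact hw.2
      · exact triSurf_ext hw'.symm _ _
      · have e := flipC_unflipC hF hc'
        have h0 : Pos (H241.flip T F hF) (fun h => π (flipC T F (unflipC T F c') h)) := by
          rw [e]; exact hp'
        have := DStep.flip (π := π) ⟨T, unflipC T F c', unflipC_isCoc hF hc', by
          rw [← hw']; exact hw.2⟩ F hF h0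
        convert this using 2
        exact e.symm

theorem lift_eqv {π : A →+ ℝ × ℝ} {X' Y' : TriSurf} (s : Relation.EqvGen Step X' Y') :
    (∀ X : DSurf π, X.toTri = X' → ∃ Y : DSurf π, Y.toTri = Y' ∧
      Relation.EqvGen (DStep π) X Y) ∧
    (∀ Y : DSurf π, Y.toTri = Y' → ∃ X : DSurf π, X.toTri = X' ∧
      Relation.EqvGen (DStep π) X Y) := by
  induction s with
  | rel _ _ s =>
    obtain ⟨a, b⟩ := lift_step (π := π) s
    refine ⟨fun X hX => ?_, fun Y hY => ?_⟩
    · obtain ⟨Y, h1, h2⟩ := a X hX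
      exact ⟨Y, h1, Relation.EqvGen.rel _ _ h2⟩
    · obtain ⟨X, h1, h2⟩ := b Y hY
      exact ⟨X, h1, Relation.EqvGen.rel _ _ h2⟩
  | refl _ => exact ⟨fun X hX => ⟨X, hX, Relation.EqvGen.refl _⟩,
      fun X hX => ⟨X, hX, Relation.EqvGen.refl _⟩⟩
  | symm _ _ _ ih =>
    refine ⟨fun X hX => ?_, fun Y hY => ?_⟩
    · obtain ⟨Y, h1, h2⟩ := ih.2 X hX
      exact ⟨Y, h1, h2.symm⟩
    · obtain ⟨X, h1, h2⟩ := ih.1 Y hY
      exact ⟨X, h1, h2.symm⟩
  | trans _ _ _ _ _ ih1 ih2 =>
    refine ⟨fun X hX => ?_, fun Y hY => ?_⟩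
    · obtain ⟨Y, h1, h2⟩ := ih1.1 X hX
      obtain ⟨Z, h3, h4⟩ := ih2.1 Y h1
      exact ⟨Z, h3, h2.trans _ _ _ h4⟩
    · obtain ⟨Z, h3, h4⟩ := ih2.2 Y hY
      obtain ⟨W, h5, h6⟩ := ih1.2 Z h3
      exact ⟨W, h5, h6.trans _ _ _ h4⟩

end Pool.Agent.H241
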