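import Pool.Agent.H241.Model
import Pool.Agent.H241.Arith

/-!
# Model surfaces and the growth inequality
-/

namespace Pool.Agent.H241

/-- height of a lattice vector -/
noncomputable def ha (v : ℤ × ℤ) : ℝ := Real.goldenRatio * v.1 + v.2

/-- conjugate height -/
noncomputable def hc (v : ℤ × ℤ) : ℝ := (1 - Real.goldenRatio) * v.1 + v.2

/-- integer determinant -/
def dz (v w : ℤ × ℤ) : ℤ := v.1 * w.2 - v.2 * w.1

theorem ha_add (v w : ℤ × ℤ) : ha (v + w) = ha v + ha w := by
  simp only [ha, Prod.fst_add, Prod.snd_add]; push_cast; ring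

theorem ha_sub (v w : ℤ × ℤ) : ha (v - w) = ha v - ha w := by
  simp only [ha, Prod.fst_sub, Prod.snd_sub]; push_cast; ring

theorem hc_sub (v w : ℤ × ℤ) : hc (v - w) = hc v - hc w := by
  simp only [hc, Prod.fst_sub, Prod.snd_sub]; push_cast; ring

theorem ha_smul (k : ℤ) (v : ℤ × ℤ) : ha (k • v) = k * ha v := by
  simp only [ha, Prod.smul_fst, Prod.smul_snd, smul_eq_mul]; push_cast; ring

theorem hc_smul (k : ℤ) (v : ℤ × ℤ) : hc (k • v) = k * hc v := by
  simp only [hc, Prod.smul_fst, Prod.smul_snd, smul_eq_mul]; push_cast; ring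

theorem ha_neg (v : ℤ × ℤ) : ha (-v) = - ha v := by
  simp only [ha, Prod.fst_neg, Prod.snd_neg]; push_cast; ring

/-- a model state -/
structure MS where
  /-- first lattice vector -/
  v1 : ℤ × ℤ
  /-- second lattice vector -/
  v2 : ℤ × ℤ
  /-- first parameter -/
  y1 : ℂ
  /-- second parameter -/
  y2 : ℂ

/-- the move `A` -/
noncomputable def opA (σ : MS) : MS := ⟨σ.v1 + σ.v2, σ.v2, s8 * (σ.y1 + σ.y2), σ.y2⟩

/-- the move `B` -/
noncomputable def opB (σ : MS) : MS := ⟨σ.v1, σ.v1 + σ.v2, σ.y1, t8 * (σ.y1 + σ.y2)⟩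

/-- the numerical state; the flag is `true` if the first vector is the higher one -/
noncomputable def num (b : Bool) (σ : MS) : St :=
  match b with
  | true => ⟨ha σ.v1, ha σ.v2, Complex.normSq σ.y1, Complex.normSq σ.y2,
      Complex.normSq (σ.y1 + σ.y2)⟩
  | false => ⟨ha σ.v2, ha σ.v1, Complex.normSq σ.y2, Complex.normSq σ.y1,
      Complex.normSq (σ.y1 + σ.y2)⟩

/-- the isotropy condition -/
def Iso (y1 y2 : ℂ) : Prop :=
  Complex.normSq y1 + Complex.normSq y2 + (y1.re * y2.re + y1.im * y2.im) =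
    (1 + √2) * (y1.im * y2.re - y1.re * y2.im)

theorem Iso.cone {y1 y2 : ℂ} (h : Iso y1 y2) :
    Complex.normSq y1 ^ 2 + Complex.normSq y2 ^ 2 + Complex.normSq (y1 + y2) ^ 2 =
      √2 * (Complex.normSq y1 * Complex.normSq y2 +
        Complex.normSq y2 * Complex.normSq (y1 + y2) +
        Complex.normSq (y1 + y2) * Complex.normSq y1) := by
  obtain ⟨a, b⟩ := y1
  obtain ⟨c, d⟩ := y2
  simp only [Iso, Complex.add_re, Complex.add_im, Complex.normSq_apply] at h ⊢
  have hr := r2_sq
  set r := √2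
  -- `|w|^2 = P Q`
  set P := a * a + b * b with hP
  set Q := c * c + d * d with hQ
  set X := a * c + b * d with hX
  set Y := b * c - a * d with hY
  have hXY : X ^ 2 + Y ^ 2 = P * Q := by rw [hX, hY, hP, hQ]; ring
  have hR : (a + c) * (a + c) + (b + d) * (b + d) = P + Q + 2 * X := by
    rw [hX, hP, hQ]; ring
  rw [hR]
  have hY' : Y = (r - 1) * (P + Q + X) := by
    linear_combination (1 - r) * h - Y * hr
  rw [hY'] at hXY
  have h1 : (r - 1) ^ 2 = 3 - 2 * r := by linear_combination hr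
  have h2 : X ^ 2 + (3 - 2 * r) * (P + Q + X) ^ 2 = P * Q := by
    rw [← h1, ← hXY]; ring
  linear_combination (2 + r) * h2 + (2 * (P + Q + X) ^ 2) * hr

theorem Iso.A {y1 y2 : ℂ} (h : Iso y1 y2) : Iso (s8 * (y1 + y2)) y2 ∧
    Complex.normSq (s8 * (y1 + y2)) = Complex.normSq (y1 + y2) ∧
    Complex.normSq (s8 * (y1 + y2) + y2) =
      √2 * (Complex.normSq (y1 + y2) + Complex.normSq y2) - Complex.normSq y1 := by
  obtain ⟨a, b⟩ := y1
  obtain ⟨c, d⟩ := y2
  simp only [Iso, s8, Complex.add_re, Complex.add_im, Complex.normSq_apply,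
    Complex.mul_re, Complex.mul_im] at h ⊢
  have hr := r2_sq
  set r := √2
  refine ⟨?_, ?_, ?_⟩
  · linear_combination h + (((a + c) ^ 2 + (b + d) ^ 2) - (a * c + b * d) - (c ^ 2 + d ^ 2) -
      (b * c - a * d)) / 2 * hr
  · linear_combination ((a + c) ^ 2 + (b + d) ^ 2) / 2 * hr
  · linear_combination (2 - r) * h + (((a + c) ^ 2 + (b + d) ^ 2) / 2 - (b * c - a * d)) * hr

theorem Iso.B {y1 y2 : ℂ} (h : Iso y1 y2) : Iso y1 (t8 * (y1 + y2)) ∧
    Complex.normSq (t8 * (y1 + y2)) = Complex.normSq (y1 + y2) ∧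
    Complex.normSq (y1 + t8 * (y1 + y2)) =
      √2 * (Complex.normSq (y1 + y2) + Complex.normSq y1) - Complex.normSq y2 := by
  obtain ⟨a, b⟩ := y1
  obtain ⟨c, d⟩ := y2
  simp only [Iso, t8, Complex.add_re, Complex.add_im, Complex.normSq_apply,
    Complex.mul_re, Complex.mul_im] at h ⊢
  have hr := r2_sq
  set r := √2
  refine ⟨?_, ?_, ?_⟩
  · linear_combination h + (((a + c) ^ 2 + (b + d) ^ 2) - (a * c + b * d) - (a ^ 2 + b ^ 2) -
      (b * c - a * d)) / 2 * hr
  · linear_combination ((a + c) ^ 2 + (b + d) ^ 2) / 2 * hr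
  · linear_combination (2 - r) * h + (((a + c) ^ 2 + (b + d) ^ 2) / 2 - (b * c - a * d)) * hr

theorem num_AA {σ : MS} (h : Iso σ.y1 σ.y2) : num true (opA σ) = stC (num true σ) := by
  obtain ⟨-, h2, h3⟩ := h.A
  simp only [num, opA, stC, ha_add, h2, h3]

theorem num_AB {σ : MS} (h : Iso σ.y1 σ.y2) : num false (opB σ) = stS (num true σ) := by
  obtain ⟨-, h2, h3⟩ := h.B
  simp only [num, opB, stS, ha_add, h2, h3]

theorem num_BB {σ : MS} (h : Iso σ.y1 σ.y2) : num false (opB σ) = stC (num false σ) := by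
  obtain ⟨-, h2, h3⟩ := h.B
  simp only [num, opB, stC, ha_add, h2, h3]
  rw [add_comm (ha σ.v1)]

theorem num_BA {σ : MS} (h : Iso σ.y1 σ.y2) : num true (opA σ) = stS (num false σ) := by
  obtain ⟨-, h2, h3⟩ := h.A
  simp only [num, opA, stS, ha_add, h2, h3]
  rw [add_comm (ha σ.v1)]

theorem run_append (l : List ℕ) (n : ℕ) (t : St) : run (l ++ [n]) t = blk n (run l t) := by
  induction l generalizing t with
  | nil => rfl
  | cons m l ih => exact ih _

/-- states reached from `σ0` by a sequence of moves recorded in blocks -/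
inductive Reach (σ0 : MS) : List ℕ → Bool → MS → Prop
  | start : Reach σ0 [] true σ0
  | AA (l : List ℕ) (n : ℕ) (σ : MS) (h : Reach σ0 (l ++ [n]) true σ) :
      Reach σ0 (l ++ [n + 1]) true (opA σ)
  | AB (l : List ℕ) (σ : MS) (h : Reach σ0 l true σ) : Reach σ0 (l ++ [0]) false (opB σ)
  | BB (l : List ℕ) (n : ℕ) (σ : MS) (h : Reach σ0 (l ++ [n]) false σ) :
      Reach σ0 (l ++ [n + 1]) false (opB σ)
  | BA (l : List ℕ) (σ : MS) (h : Reach σ0 l false σ) : Reach σ0 (l ++ [0]) true (opA σ)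

theorem Reach.num_eq {σ0 : MS} (h0 : Iso σ0.y1 σ0.y2) {l : List ℕ} {b : Bool} {σ : MS}
    (h : Reach σ0 l b σ) : Iso σ.y1 σ.y2 ∧ num b σ = run l (num true σ0) := by
  induction h with
  | start => exact ⟨h0, rfl⟩
  | AA l n σ h ih =>
    refine ⟨ih.1.A.1, ?_⟩
    rw [num_AA ih.1, ih.2, run_append, run_append]; rfl
  | AB l σ h ih =>
    refine ⟨ih.1.B.1, ?_⟩
    rw [num_AB ih.1, ih.2, run_append]; rfl
  | BB l n σ h ih =>
    refine ⟨ih.1.B.1, ?_⟩
    rw [num_BB ih.1, ih.2, run_append, run_append]; rfl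
  | BA l σ h ih =>
    refine ⟨ih.1.A.1, ?_⟩
    rw [num_BA ih.1, ih.2, run_append]; rfl

theorem Reach.next {σ0 : MS} {l : List ℕ} {b : Bool} {σ : MS} (h : Reach σ0 l b σ)
    (hl : l ≠ []) : (∃ l' b', l' ≠ [] ∧ Reach σ0 l' b' (opA σ)) ∧
      (∃ l' b', l' ≠ [] ∧ Reach σ0 l' b' (opB σ)) := by
  obtain ⟨l', n, rfl⟩ : ∃ l' n, l = l' ++ [n] :=
    ⟨_, _, (List.dropLast_append_getLast hl).symm⟩
  cases b with
  | true =>
    exact ⟨⟨_, _, by simp, Reach.AA _ _ _ h⟩, ⟨_, _, by simp, Reach.AB _ _ h⟩⟩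
  | false =>
    exact ⟨⟨_, _, by simp, Reach.BA _ _ h⟩, ⟨_, _, by simp, Reach.BB _ _ _ h⟩⟩

theorem Reach.det_eq {σ0 : MS} {l : List ℕ} {b : Bool} {σ : MS} (h : Reach σ0 l b σ) :
    dz σ.v1 σ.v2 = dz σ0.v1 σ0.v2 := by
  induction h with
  | start => rfl
  | AA l n σ h ih =>
    rw [← ih]; simp only [opA, dz, Prod.fst_add, Prod.snd_add]; ring
  | AB l σ h ih =>
    rw [← ih]; simp only [opB, dz, Prod.fst_add, Prod.snd_add]; ring
  | BB l n σ h ih =>
    rw [← ih]; simp only [opB, dz, Prod.fst_add, Prod.snd_add]; ring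
  | BA l σ h ih =>
    rw [← ih]; simp only [opA, dz, Prod.fst_add, Prod.snd_add]; ring

/-- the golden states -/
noncomputable def GS (u : ℂ) : ℕ → MS
  | 0 => ⟨(1, 0), (0, 1), u, ((mm : ℂ) - 1 - s8) * u⟩
  | n + 1 => ⟨(GS u n).v1 - (GS u n).v2, (2 : ℤ) • (GS u n).v2 - (GS u n).v1,
      (mm : ℂ)⁻¹ * (GS u n).y1, (mm : ℂ)⁻¹ * (GS u n).y2⟩

theorem mm_ne : (mm : ℂ) ≠ 0 := by
  have := mm_lo
  exact_mod_cast (by linarith : mm ≠ 0)

theorem mm_sqC : (mm : ℂ) ^ 2 = (1 + (√2 : ℝ)) * mm - 1 := by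
  have := mm_sq
  exact_mod_cast this

theorem s8_add_t8 : s8 + t8 = ((√2 : ℝ) : ℂ) := by
  apply Complex.ext <;> simp [s8, t8]

theorem GS_y (u : ℂ) (n : ℕ) : (GS u n).y2 = ((mm : ℂ) - 1 - s8) * (GS u n).y1 ∧
    (GS u n).y1 = ((mm : ℂ)⁻¹) ^ n * u := by
  induction n with
  | zero => simp [GS]
  | succ n ih =>
    simp only [GS]
    constructor
    · rw [ih.1]; ring
    · rw [ih.2, pow_succ]; ring

theorem GS_det (u : ℂ) (n : ℕ) : dz (GS u n).v1 (GS u n).v2 = 1 := by
  induction n with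
  | zero => rfl
  | succ n ih =>
    simp only [GS, dz, Prod.fst_sub, Prod.snd_sub, Prod.smul_fst, Prod.smul_snd, smul_eq_mul]
    unfold dz at ih
    linarith

theorem GS_step (u : ℂ) (n : ℕ) : opA (opB (GS u (n + 1))) = GS u n := by
  have h1 := (GS_y u n).1
  have hs := s8_mul_t8
  have hr := s8_add_t8
  have hm := mm_sqC
  have h0 := mm_ne
  rw [← hr] at hm
  have e : GS u n = ⟨(GS u n).v1, (GS u n).v2, (GS u n).y1, (GS u n).y2⟩ := rfl
  rw [e]
  simp only [opA, opB, GS, MS.mk.injEq]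
  refine ⟨?_, ?_, ?_, ?_⟩
  · module
  · module
  · rw [h1]
    field_simp
    linear_combination ((GS u n).y1 * (mm - s8)) * hs
  · rw [h1]
    field_simp
    linear_combination (-(GS u n).y1) * hm - (GS u n).y1 * hs

theorem ha_GS (u : ℂ) (n : ℕ) :
    ha (GS u n).v1 * (Real.goldenRatio ^ 2) ^ n = Real.goldenRatio ∧
    ha (GS u n).v2 * (Real.goldenRatio ^ 2) ^ n = 1 ∧
    hc (GS u n).v1 = (1 - Real.goldenRatio) * (Real.goldenRatio ^ 2) ^ n ∧
    hc (GS u n).v2 = (Real.goldenRatio ^ 2) ^ n := by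
  have h2 := gold_sq
  induction n with
  | zero => simp [GS, ha, hc]
  | succ n ih =>
    obtain ⟨i1, i2, i3, i4⟩ := ih
    set φ := Real.goldenRatio with hφ
    simp only [GS, ha_sub, hc_sub, ha_smul, hc_smul]
    rw [pow_succ (φ ^ 2) n]
    set X := (φ ^ 2) ^ n
    push_cast
    refine ⟨?_, ?_, ?_, ?_⟩
    · linear_combination φ ^ 2 * i1 - φ ^ 2 * i2 + φ * h2
    · linear_combination 2 * φ ^ 2 * i2 - φ ^ 2 * i1 + (1 - φ) * h2
    · linear_combination i3 - i4 + X * φ * h2
    · linear_combination 2 * i4 - i3 - X * h2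

theorem dz_gold (v w : ℤ × ℤ) :
    ha v * hc w - hc v * ha w = (2 * Real.goldenRatio - 1) * (dz v w : ℤ) := by
  simp only [ha, hc, dz]; push_cast; ring

/-- every pair of positive vectors has nonnegative coordinates in some golden basis -/
theorem exhaust {v : ℤ × ℤ} (hv : 0 < ha v) : ∃ N : ℕ, ∀ n, N ≤ n → ∀ u : ℂ,
    0 ≤ dz v (GS u n).v2 ∧ 0 ≤ dz (GS u n).v1 v := by
  have h2 := gold_sq
  have hlo := gold_lo
  have hg := gold2_gt
  obtain ⟨N, hN⟩ := pow_unbounded_of_one_lt ((Real.goldenRatio ^ 2 * |hc v|) / ha v) hg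
  refine ⟨N, fun n hn u => ?_⟩
  obtain ⟨i1, i2, i3, i4⟩ := ha_GS u n
  set φ := Real.goldenRatio with hφ
  set X := (φ ^ 2) ^ n with hX
  have hX1 : (φ ^ 2) ^ N ≤ X := pow_le_pow_right₀ hg.le hn
  have hX2 : φ ^ 2 * |hc v| < X * ha v := by
    rw [← div_lt_iff₀ hv]; exact lt_of_lt_of_le hN hX1
  have hX0 : 1 ≤ X := one_le_pow₀ hg.le
  have hab1 := le_abs_self (hc v)
  have hab2 := neg_abs_le (hc v)
  have habs := abs_nonneg (hc v)
  constructor
  · -- `dz v g2`
    have e := dz_gold v (GS u n).v2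
    rw [i4, ← hφ] at e
    have e1 : ha v * X - hc v * ha (GS u n).v2 > 0 := by
      have : 0 < (ha v * X - hc v * ha (GS u n).v2) * X := by
        have e2 : (ha v * X - hc v * ha (GS u n).v2) * X = ha v * X * X - hc v := by
          linear_combination (-hc v) * i2
        rw [e2]
        have h5 : |hc v| ≤ φ ^ 2 * |hc v| := le_mul_of_one_le_left habs hg.le
        have h6 : 0 < X * ha v := by positivity
        have h7 : X * ha v ≤ ha v * X * X := by nlinarith
        linarith
      exact (pos_iff_pos_of_mul_pos this).2 (by linarith)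
    have e3 : (0 : ℝ) < (dz v (GS u n).v2 : ℤ) := by
      have : 0 < (2 * φ - 1) * (dz v (GS u n).v2 : ℤ) := by rw [← e]; exact e1
      exact (pos_iff_pos_of_mul_pos this).1 (by linarith)
    exact_mod_cast e3.le
  · have e := dz_gold (GS u n).v1 v
    rw [i3, ← hφ] at e
    have e1 : ha (GS u n).v1 * hc v - (1 - φ) * X * ha v > 0 := by
      have : 0 < (ha (GS u n).v1 * hc v - (1 - φ) * X * ha v) * X := by
        have e2 : (ha (GS u n).v1 * hc v - (1 - φ) * X * ha v) * X =
            (φ - 1) * (X * ha v) * X + φ * hc v := by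
          linear_combination (hc v) * i1
        rw [e2]
        have h5 : φ * |hc v| ≤ (φ - 1) * (φ ^ 2 * |hc v|) := by
          have : (φ - 1) * (φ ^ 2 * |hc v|) - φ * |hc v| = 0 := by
            linear_combination (φ * |hc v|) * h2
          linarith
        have h6 : (φ - 1) * (φ ^ 2 * |hc v|) < (φ - 1) * (X * ha v) :=
          mul_lt_mul_of_pos_left hX2 (by linarith)
        have h7 : 0 < (φ - 1) * (X * ha v) := lt_of_le_of_lt (by positivity) (lt_of_le_of_lt h5 h6)
        nlinarith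
      exact (pos_iff_pos_of_mul_pos this).2 (by linarith)
    have e3 : (0 : ℝ) < (dz (GS u n).v1 v : ℤ) := by
      have : 0 < (2 * φ - 1) * (dz (GS u n).v1 v : ℤ) := by rw [← e]; exact e1
      exact (pos_iff_pos_of_mul_pos this).1 (by linarith)
    exact_mod_cast e3.le

theorem reach_BA (u : ℂ) (n : ℕ) : Reach (GS u (n + 1)) [0, 0] true (GS u n) := by
  have := Reach.BA _ _ (Reach.AB _ _ (Reach.start (σ0 := GS u (n + 1))))
  rw [GS_step] at this
  exact this

theorem descent (u : ℂ) (n : ℕ) (N : ℕ) : ∀ a1 b1 a2 b2 : ℤ, 0 ≤ a1 → 0 ≤ b1 → 0 ≤ a2 →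
    0 ≤ b2 → a1 * b2 - b1 * a2 = 1 → a1 + b1 + a2 + b2 ≤ N →
    ∃ l b y1 y2, l ≠ [] ∧ Reach (GS u (n + 1)) l b
      ⟨a1 • (GS u n).v1 + b1 • (GS u n).v2, a2 • (GS u n).v1 + b2 • (GS u n).v2, y1, y2⟩ := by
  induction N with
  | zero =>
    intro a1 b1 a2 b2 h1 h2 h3 h4 h5 h6
    exfalso
    have : a1 = 0 := by push_cast at h6; omega
    have : b1 = 0 := by push_cast at h6; omega
    subst a1 b1
    simp at h5
  | succ N ih =>
    intro a1 b1 a2 b2 h1 h2 h3 h4 h5 h6
    push_cast at h6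
    by_cases c1 : a2 ≤ a1 ∧ b2 ≤ b1
    · -- the last move is `A`
      have pos : 1 ≤ a2 + b2 := by
        by_contra hneg
        have e1 : a2 = 0 := by omega
        have e2 : b2 = 0 := by omega
        subst a2 b2
        simp at h5
      obtain ⟨l, b, y1, y2, hl, hr⟩ := ih (a1 - a2) (b1 - b2) a2 b2 (by omega) (by omega) h3 h4
        (by linarith) (by omega)
      obtain ⟨⟨l', b', hl', hr'⟩, -⟩ := hr.next hl
      refine ⟨l', b', s8 * (y1 + y2), y2, hl', ?_⟩
      convert hr' using 1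
      simp only [opA, MS.mk.injEq, and_true]
      module
    · by_cases c2 : a1 ≤ a2 ∧ b1 ≤ b2
      · have pos : 1 ≤ a1 + b1 := by
          by_contra hneg
          have e1 : a1 = 0 := by omega
          have e2 : b1 = 0 := by omega
          subst a1 b1
          simp at h5
        obtain ⟨l, b, y1, y2, hl, hr⟩ := ih a1 b1 (a2 - a1) (b2 - b1) h1 h2 (by omega) (by omega)
          (by linarith) (by omega)
        obtain ⟨-, ⟨l', b', hl', hr'⟩⟩ := hr.next hl
        refine ⟨l', b', y1, t8 * (y1 + y2), hl', ?_⟩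
        convert hr' using 1
        simp only [opB, MS.mk.injEq, and_true, true_and]
        module
      · by_cases c3 : a2 < a1
        · have c4 : b1 < b2 := by
            by_contra h; exact c1 ⟨by omega, by omega⟩
          have e0 : a2 = 0 ∧ b1 = 0 := by
            have : (a2 + 1) * (b1 + 1) ≤ a1 * b2 :=
              mul_le_mul (by omega) (by omega) (by omega) (by omega)
            constructor <;> nlinarith
          obtain ⟨e1, e2⟩ := e0
          subst a2 b1
          have h7 : a1 * b2 = 1 := by linarith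
          have h8 : a1 = 1 := by
            rcases Int.eq_one_or_neg_one_of_mul_eq_one h7 with h | h
            · exact h
            · omega
          subst a1
          have h9 : b2 = 1 := by linarith
          subst b2
          refine ⟨[0, 0], true, (GS u n).y1, (GS u n).y2, by simp, ?_⟩
          convert reach_BA u n using 1
          simp
        · exfalso
          have c4 : a1 < a2 := by
            rcases lt_or_eq_of_le (not_lt.1 c3) with h | h
            · exact h
            · exfalso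
              subst h
              rcases le_total b1 b2 with h | h
              · exact c2 ⟨le_refl _, h⟩
              · exact c1 ⟨le_refl _, h⟩
          have c5 : b2 < b1 := by
            by_contra h; exact c2 ⟨by omega, by omega⟩
          nlinarith

theorem gold_coords (u : ℂ) (n : ℕ) (v : ℤ × ℤ) :
    v = dz v (GS u n).v2 • (GS u n).v1 + dz (GS u n).v1 v • (GS u n).v2 := by
  have h := GS_det u n
  set g1 := (GS u n).v1
  set g2 := (GS u n).v2
  unfold dz at h ⊢
  refine Prod.ext ?_ ?_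
  · simp only [Prod.fst_add, Prod.smul_fst, smul_eq_mul]
    linear_combination (-v.1) * h
  · simp only [Prod.snd_add, Prod.smul_snd, smul_eq_mul]
    linear_combination (-v.2) * h

/-- every positive integer basis is reached from some golden state -/
theorem reach_all (u : ℂ) {v1 v2 : ℤ × ℤ} (h1 : 0 < ha v1) (h2 : 0 < ha v2)
    (hd : dz v1 v2 = 1) : ∃ n l b y1 y2, Reach (GS u n) l b ⟨v1, v2, y1, y2⟩ := by
  obtain ⟨N1, hN1⟩ := exhaust h1
  obtain ⟨N2, hN2⟩ := exhaust h2
  set n := max N1 N2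
  obtain ⟨p1, p2⟩ := hN1 n (le_max_left _ _) u
  obtain ⟨p3, p4⟩ := hN2 n (le_max_right _ _) u
  have hg := GS_det u n
  have e : dz v1 (GS u n).v2 * dz (GS u n).v1 v2 - dz (GS u n).v1 v1 * dz v2 (GS u n).v2 = 1 := by
    have : dz v1 (GS u n).v2 * dz (GS u n).v1 v2 - dz (GS u n).v1 v1 * dz v2 (GS u n).v2 =
        dz v1 v2 * dz (GS u n).v1 (GS u n).v2 := by
      unfold dz; ring
    rw [this, hg, hd]; rfl
  obtain ⟨l, b, y1, y2, -, hr⟩ := descent u n
    (dz v1 (GS u n).v2 + dz (GS u n).v1 v1 + dz v2 (GS u n).v2 + dz (GS u n).v1 v2).toNat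
    _ _ _ _ p1 p2 p3 p4 e (by rw [Int.toNat_of_nonneg (by omega)])
  refine ⟨n + 1, l, b, y1, y2, ?_⟩
  rw [← gold_coords, ← gold_coords] at hr
  exact hr

theorem iso_gold (y : ℂ) : Iso y (((mm : ℂ) - 1 - s8) * y) := by
  obtain ⟨a, b⟩ := y
  have h := mm_sq
  simp only [Iso, s8, Complex.normSq_apply, Complex.mul_re, Complex.mul_im, Complex.sub_re,
    Complex.sub_im, Complex.ofReal_re, Complex.ofReal_im, Complex.one_re, Complex.one_im]
  linear_combination (a ^ 2 + b ^ 2) * h

theorem GS_iso (u : ℂ) (n : ℕ) : Iso (GS u n).y1 (GS u n).y2 := by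
  rw [(GS_y u n).1]; exact iso_gold _

theorem mm_s8_re : ((mm : ℂ) - 1 - s8).im ≠ 0 := by
  have := r2_lo
  simp only [s8, Complex.sub_im, Complex.ofReal_im, Complex.one_im]
  intro h
  linarith

theorem GS_num (u : ℂ) (n : ℕ) : num true (GS u n) =
    ⟨Real.goldenRatio / (Real.goldenRatio ^ 2) ^ n, 1 / (Real.goldenRatio ^ 2) ^ n,
      Complex.normSq u / (mm ^ n) ^ 2,
      Complex.normSq ((mm : ℂ) - 1 - s8) * (Complex.normSq u / (mm ^ n) ^ 2),
      Complex.normSq ((mm : ℂ) - s8) * (Complex.normSq u / (mm ^ n) ^ 2)⟩ := by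
  obtain ⟨i1, i2, -, -⟩ := ha_GS u n
  have hX : 0 < (Real.goldenRatio ^ 2) ^ n := by
    have := gold2_gt
    positivity
  have e1 : Complex.normSq (GS u n).y1 = Complex.normSq u / (mm ^ n) ^ 2 := by
    rw [(GS_y u n).2, map_mul, map_pow, map_inv₀, Complex.normSq_ofReal]
    have e5 : (mm * mm)⁻¹ ^ n = ((mm ^ n) ^ 2)⁻¹ := by rw [inv_pow]; congr 1; ring
    rw [e5]; ring
  have e2 : (GS u n).y1 + (GS u n).y2 = ((mm : ℂ) - s8) * (GS u n).y1 := by
    rw [(GS_y u n).1]; ring
  simp only [num, e2]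
  rw [(GS_y u n).1, map_mul, map_mul, e1, eq_div_of_mul_eq hX.ne' i1, eq_div_of_mul_eq hX.ne' i2]

theorem GS_SInv {u : ℂ} (hu : u ≠ 0) (n : ℕ) : SInv (num true (GS u n)) := by
  have hg := gold_lo
  have hX : 0 < (Real.goldenRatio ^ 2) ^ n := by
    have := gold2_gt
    positivity
  have hm : 0 < mm := by linarith [mm_lo]
  have hu' : 0 < Complex.normSq u := Complex.normSq_pos.2 hu
  have k1 : 0 < Complex.normSq ((mm : ℂ) - 1 - s8) :=
    Complex.normSq_pos.2 fun h => mm_s8_re (by rw [h]; rfl)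
  have k2 : 0 < Complex.normSq ((mm : ℂ) - s8) := by
    refine Complex.normSq_pos.2 fun h => mm_s8_re ?_
    have : (mm : ℂ) - 1 - s8 = -1 := by linear_combination h
    rw [this]; simp
  have hc := (GS_iso u n).cone
  rw [GS_num]
  refine ⟨by positivity, ?_, by positivity, by positivity, by positivity, ?_⟩
  · simp only
    gcongr
    linarith
  · have e := GS_num u n
    simp only [num, St.mk.injEq] at e
    obtain ⟨-, -, e1, e2, e3⟩ := e
    rw [e1, e2, e3] at hc
    simp only
    linarith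

theorem GS_FF (u : ℂ) (n : ℕ) : FF (num true (GS u n)) = FF (num true (GS u 0)) := by
  have hg := gold_lo
  have hX : 0 < (Real.goldenRatio ^ 2) ^ n := by
    have := gold2_gt
    positivity
  have hm : 0 < mm := by linarith [mm_lo]
  rw [GS_num, GS_num]
  unfold FF szM
  simp only [pow_zero, div_one, one_pow]
  set φ := Real.goldenRatio with hφ
  set X := (φ ^ 2) ^ n with hXd
  have e1 : szN (φ / X) (1 / X) = szN φ 1 / X ^ 2 := by
    unfold szN; field_simp
  have e0 : 0 < szN φ 1 := N_pos one_pos (by linarith)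
  have e2 : (X ^ 2) ^ KK = (mm ^ n) ^ 2 := by
    have a1 : (X ^ 2) ^ KK = (X ^ KK) ^ 2 := by
      rw [← Real.rpow_natCast (X ^ KK) 2, ← Real.rpow_natCast X 2, ← Real.rpow_mul hX.le,
        ← Real.rpow_mul hX.le, mul_comm]
    have a2 : X ^ KK = mm ^ n := by
      rw [hXd, ← Real.rpow_natCast (φ ^ 2) n, ← Real.rpow_mul (by positivity), mul_comm,
        Real.rpow_mul (by positivity), KK_spec, Real.rpow_natCast]
    rw [a1, a2]
  rw [e1, Real.div_rpow e0.le (by positivity), e2]
  field_simp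

/-- a bound for the sizes -/
noncomputable def YM (u : ℂ) : ℝ := 25 * FF (num true (GS u 0)) * 500 ^ KK

theorem reach_facts {u : ℂ} (hu : u ≠ 0) {n : ℕ} {l : List ℕ} {b : Bool} {σ : MS}
    (h : Reach (GS u n) l b σ) : SInv (num b σ) ∧ Iso σ.y1 σ.y2 ∧ dz σ.v1 σ.v2 = 1 ∧
    0 < ha σ.v1 ∧ 0 < ha σ.v2 ∧ Good l (num true (GS u n)) ∧
    num b σ = run l (num true (GS u n)) := by
  have h1 := h.num_eq (GS_iso u n)
  have h2 : SInv (num b σ) := by rw [h1.2]; exact (GS_SInv hu n).run l
  refine ⟨h2, h1.1, by rw [h.det_eq, GS_det], ?_, ?_, run_good _ _ (GS_SInv hu n), h1.2⟩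
  · cases b with
    | true => exact lt_of_lt_of_le h2.q0 h2.qp
    | false => exact h2.q0
  · cases b with
    | true => exact h2.q0
    | false => exact lt_of_lt_of_le h2.q0 h2.qp

theorem reach_bound {u : ℂ} (hu : u ≠ 0) {n : ℕ} {l : List ℕ} {b : Bool} {σ : MS}
    (h : Reach (GS u n) l b σ) (h1 : ha σ.v1 ≤ 7) (h2 : ha σ.v2 ≤ 7) :
    Complex.normSq σ.y1 + Complex.normSq σ.y2 ≤ YM u := by
  obtain ⟨a1, a2, a3, a4, a5, a6, a7⟩ := reach_facts hu h
  have hp : (num b σ).p ≤ 7 := by cases b <;> assumption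
  have e : szM (num b σ) = Complex.normSq σ.y1 + Complex.normSq σ.y2 := by
    cases b
    · simp only [num, szM]; ring
    · rfl
  rw [← e]
  have b1 := a6.1
  rw [← a7, GS_FF] at b1
  have N0 := N_pos a1.q0 a1.qp
  have b2 : szM (num b σ) = FF (num b σ) * (szN (num b σ).p (num b σ).q) ^ KK := by
    unfold FF
    rw [div_mul_cancel₀]
    exact (Real.rpow_pos_of_pos N0 _).ne'
  have hN : szN (num b σ).p (num b σ).q ≤ 500 := by
    have q0 := a1.q0
    have qp := a1.qp
    have hhi := gold_hi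
    have hlo := gold_lo
    set p := (num b σ).p
    set q := (num b σ).q
    unfold szN
    have c1 : p ^ 2 ≤ 49 := by nlinarith
    have c2 : p * q ≤ 49 := by nlinarith
    have c3 : 0 ≤ q ^ 2 := sq_nonneg _
    nlinarith
  rw [b2, YM]
  have c1 : (szN (num b σ).p (num b σ).q) ^ KK ≤ 500 ^ KK :=
    Real.rpow_le_rpow N0.le hN KK_pos.le
  have c2 := FF_pos a1
  have c3 : 0 < (szN (num b σ).p (num b σ).q) ^ KK := Real.rpow_pos_of_pos N0 _
  exact mul_le_mul b1 c1 c3.le (by linarith)

theorem ha_inj {v w : ℤ × ℤ} (h : ha v = ha w) : v = w := by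
  have hirr := Real.goldenRatio_irrational
  unfold ha at h
  by_cases h0 : v.1 = w.1
  · have : (v.2 : ℝ) = w.2 := by rw [h0] at h; linarith
    exact Prod.ext h0 (by exact_mod_cast this)
  · exfalso
    refine hirr ⟨((w.2 - v.2 : ℤ) : ℚ) / ((v.1 - w.1 : ℤ) : ℚ), ?_⟩
    have h1 : ((v.1 : ℝ) - w.1) ≠ 0 := by
      rw [sub_ne_zero]; exact_mod_cast h0
    push_cast
    rw [div_eq_iff h1]
    linarith

theorem KK_hi : KK ≤ 1 := by
  have h1 := gold2_gt
  have h2 : 0 < Real.log (Real.goldenRatio ^ 2) := Real.log_pos h1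
  rw [KK, div_le_one h2]
  refine Real.log_le_log (by linarith [mm_lo]) ?_
  rw [gold_sq]
  linarith [mm_hi, gold_lo]

theorem run_zero (l : List ℕ) (hl : ∀ n ∈ l, n = 0) : ∀ t : St, t.p = Real.goldenRatio * t.q →
    (run l t).p = Real.goldenRatio * (run l t).q ∧
    (run l t).q = Real.goldenRatio ^ l.length * t.q := by
  induction l with
  | nil => intro t h; simp [run, h]
  | cons n l ih =>
    intro t h
    have h0 : n = 0 := hl n (by simp)
    subst h0
    have h2 := gold_sq
    have := ih (fun m hm => hl m (by simp [hm])) (blk 0 t) (by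
      simp only [blk, stS]; rw [h]
      linear_combination (-t.q) * h2)
    refine ⟨this.1, ?_⟩
    change (run l (blk 0 t)).q = _
    rw [this.2]
    simp only [blk, stS, List.length_cons, pow_succ]
    rw [h]; ring

theorem final_ineq {u : ℂ} (hu : u ≠ 0) {n : ℕ} {l : List ℕ} {b : Bool} {σ : MS}
    (h : Reach (GS u n) l b σ) (h1 : |ha σ.v1 - Real.goldenRatio| ≤ 1 / 1000)
    (h2 : |ha σ.v2 - 1| ≤ 1 / 1000) :
    (σ.v1 = (1, 0) ∧ σ.v2 = (0, 1)) ∨
    Complex.normSq σ.y1 + Complex.normSq σ.y2 ≤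
      0.998 * (Complex.normSq (GS u 0).y1 + Complex.normSq (GS u 0).y2) := by
  obtain ⟨a1, a2, a3, a4, a5, a6, a7⟩ := reach_facts hu h
  have hlo := gold_lo
  have hhi := gold_hi
  have hsq := gold_sq
  rw [abs_le] at h1 h2
  cases b with
  | false =>
    exfalso
    have := a1.qp
    simp only [num] at this
    linarith
  | true =>
    have c1 : 3 * (run l (num true (GS u n))).q ≤ 2 * (run l (num true (GS u n))).p := by
      rw [← a7]; simp only [num]; linarith
    have c2 : (run l (num true (GS u n))).p < 2 * (run l (num true (GS u n))).q := by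
      rw [← a7]; simp only [num]; linarith
    obtain ⟨g1, g2⟩ := a6.2 c1 c2
    by_cases hl : ∃ n ∈ l, n ≠ 0
    · right
      have g3 := g2 hl
      rw [← a7, GS_FF] at g3
      have N0 := N_pos a1.q0 a1.qp
      have s0 := GS_SInv hu 0
      have N1 := N_pos s0.q0 s0.qp
      have F0 := FF_pos s0
      have e0 : num true (GS u 0) = ⟨Real.goldenRatio, 1, Complex.normSq (GS u 0).y1,
          Complex.normSq (GS u 0).y2, Complex.normSq ((GS u 0).y1 + (GS u 0).y2)⟩ := by
        simp [num, GS, ha]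
      have M0 : szM (num true (GS u 0)) =
        Complex.normSq (GS u 0).y1 + Complex.normSq (GS u 0).y2 := rfl
      have M1 : szM (num true σ) = Complex.normSq σ.y1 + Complex.normSq σ.y2 := rfl
      rw [← M0, ← M1]
      have K0 := KK_pos
      have K1 := KK_hi
      set N := szN (num true σ).p (num true σ).q with hN
      set N' := szN (num true (GS u 0)).p (num true (GS u 0)).q with hN'
      have NN : N ≤ 1.002 * N' := by
        rw [hN, hN', e0]
        simp only [num]
        set p := ha σ.v1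
        set q := ha σ.v2
        unfold szN
        have d1 : p ^ 2 ≤ (Real.goldenRatio + 1 / 1000) ^ 2 := by
          have : 0 ≤ p := a4.le
          exact pow_le_pow_left₀ this (by linarith) 2
        have d2 : p * q ≤ (Real.goldenRatio + 1 / 1000) * (1 + 1 / 1000) :=
          mul_le_mul (by linarith) (by linarith) a5.le (by linarith)
        have d3 : (1 - 1 / 1000) ^ 2 ≤ q ^ 2 :=
          pow_le_pow_left₀ (by norm_num) (by linarith) 2
        set φ := Real.goldenRatio
        have d4 : (φ - 1 / 2) * p ^ 2 ≤ (φ - 1 / 2) * (φ + 1 / 1000) ^ 2 :=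
          mul_le_mul_of_nonneg_left d1 (by linarith)
        have d5 : 5 * φ * p * q ≤ 5 * φ * ((φ + 1 / 1000) * (1 + 1 / 1000)) := by
          rw [mul_assoc]
          exact mul_le_mul_of_nonneg_left d2 (by linarith)
        have d6 : (1 / 2 + 3 / 2 * φ) * (1 - 1 / 1000) ^ 2 ≤ (1 / 2 + 3 / 2 * φ) * q ^ 2 :=
          mul_le_mul_of_nonneg_left d3 (by linarith)
        have d7 : φ ^ 3 = 2 * φ + 1 := by rw [pow_succ, hsq]; linarith [hsq]
        nlinarith
      have P0 : 0 < N ^ KK := Real.rpow_pos_of_pos N0 _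
      have P1 : 0 < N' ^ KK := Real.rpow_pos_of_pos N1 _
      have NK : N ^ KK ≤ 1.002 * N' ^ KK := by
        calc N ^ KK ≤ (1.002 * N') ^ KK := Real.rpow_le_rpow N0.le NN K0.le
          _ = 1.002 ^ KK * N' ^ KK := Real.mul_rpow (by norm_num) N1.le
          _ ≤ 1.002 * N' ^ KK := by
            refine mul_le_mul_of_nonneg_right ?_ P1.le
            calc (1.002 : ℝ) ^ KK ≤ 1.002 ^ (1 : ℝ) :=
                  Real.rpow_le_rpow_of_exponent_le (by norm_num) K1
              _ = 1.002 := Real.rpow_one _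
      have e1 : szM (num true σ) = FF (num true σ) * N ^ KK := by
        unfold FF; rw [div_mul_cancel₀]; exact P0.ne'
      have e2 : szM (num true (GS u 0)) = FF (num true (GS u 0)) * N' ^ KK := by
        unfold FF; rw [div_mul_cancel₀]; exact P1.ne'
      have q1 : FF (num true σ) * N ^ KK ≤
          (0.995 * FF (num true (GS u 0))) * (1.002 * N' ^ KK) :=
        mul_le_mul g3 NK P0.le (by linarith)
      have q2 : 0 < FF (num true (GS u 0)) * N' ^ KK := by positivity
      rw [e1, e2]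
      nlinarith
    · left
      push Not at hl
      have hX : 0 < (Real.goldenRatio ^ 2) ^ n := by
        have := gold2_gt
        positivity
      have t0 : (num true (GS u n)).p = Real.goldenRatio * (num true (GS u n)).q := by
        rw [GS_num]; simp only; ring
      obtain ⟨r1, r2⟩ := run_zero l hl _ t0
      rw [← a7] at r1 r2
      rw [GS_num] at r2
      simp only [num] at r1 r2
      have r3 : ha σ.v2 * (Real.goldenRatio ^ 2) ^ n = Real.goldenRatio ^ l.length := by
        rw [r2]; field_simp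
      rw [← pow_mul] at r3 hX
      have r4 : l.length = 2 * n := by
        rcases lt_trichotomy l.length (2 * n) with hlt | heq | hgt
        · exfalso
          have : Real.goldenRatio ^ (l.length + 1) ≤ Real.goldenRatio ^ (2 * n) :=
            pow_le_pow_right₀ (by linarith) hlt
          rw [pow_succ, ← r3] at this
          nlinarith
        · exact heq
        · exfalso
          have : Real.goldenRatio ^ (2 * n + 1) ≤ Real.goldenRatio ^ l.length :=
            pow_le_pow_right₀ (by linarith) hgt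
          rw [pow_succ, ← r3] at this
          nlinarith
      have r5 : ha σ.v2 = 1 := by
        rw [r4] at r3
        have := mul_right_cancel₀ hX.ne' (r3.trans (one_mul _).symm)
        exact this
      rw [r5, mul_one] at r1
      constructor
      · apply ha_inj; rw [r1]; simp [ha]
      · apply ha_inj; rw [r5]; simp [ha]

end Pool.Agent.H241
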