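import Pool.Agent.H241.Final
import Pool.Agent.H241.Horo

/-!
# The base surface does not return
-/

namespace Pool.Agent.H241

open Filter Topology

theorem exists_params : ∃ u ε η, Params u ε η := by
  obtain ⟨u, hu⟩ := exists_generic
  have hY := YM_nonneg hu.1
  set ε : ℝ := 1 / (100000 * (2 + YM u)) with hε
  have e0 : 0 < ε := by positivity
  have e1 : ε * (100000 * (2 + YM u)) ≤ 1 := by
    rw [hε, div_mul_cancel₀]; positivity
  have small : ∀ a b : ℝ, 0 < a → 0 < b → ∀ᶠ η in 𝓝[>] (0 : ℝ), a * η < b := by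
    intro a b ha hb
    have h1 : Tendsto (fun η : ℝ => a * η) (𝓝[>] 0) (𝓝 (a * 0)) :=
      (tendsto_const_nhds.mul tendsto_id).mono_left nhdsWithin_le_nhds
    rw [mul_zero] at h1
    exact h1.eventually (gt_mem_nhds hb)
  have g1 : ∀ᶠ η in 𝓝[>] (0 : ℝ), ∀ h ∈ S1, ∀ k ∈ S1, h ≠ k →
      2 * η < ε * |(c0 u h).2.re - (c0 u k).2.re| := by
    rw [Filter.eventually_all_finset]
    intro h hh
    rw [Filter.eventually_all_finset]
    intro k hk
    by_cases hne : h = k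
    · exact Eventually.of_forall fun η hne' => absurd hne hne'
    · have : 0 < ε * |(c0 u h).2.re - (c0 u k).2.re| :=
        mul_pos e0 (abs_pos.2 (sub_ne_zero.2 (hu.2.1 h hh k hk hne)))
      filter_upwards [small 2 _ two_pos this] with η hη _
      exact hη
  have g2 : ∀ᶠ η in 𝓝[>] (0 : ℝ), ∀ h ∈ S2, ∀ k ∈ S2, h ≠ k →
      2 * η < ε * |(c0 u h).2.re - (c0 u k).2.re| := by
    rw [Filter.eventually_all_finset]
    intro h hh
    rw [Filter.eventually_all_finset]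
    intro k hk
    by_cases hne : h = k
    · exact Eventually.of_forall fun η hne' => absurd hne hne'
    · have : 0 < ε * |(c0 u h).2.re - (c0 u k).2.re| :=
        mul_pos e0 (abs_pos.2 (sub_ne_zero.2 (hu.2.2 h hh k hk hne)))
      filter_upwards [small 2 _ two_pos this] with η hη _
      exact hη
  have hP : 0 < Complex.normSq (GS u 0).y1 := Complex.normSq_pos.2 hu.1
  have hQ : 0 ≤ Complex.normSq (GS u 0).y2 := Complex.normSq_nonneg _
  have g3 := small 1 (1 / 1000) one_pos (by norm_num)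
  have g4 := small (32 * (2 + YM u))
    (ε * (0.002 * (Complex.normSq (GS u 0).y1 + Complex.normSq (GS u 0).y2))) (by positivity)
    (by positivity)
  have g5 : ∀ᶠ η in 𝓝[>] (0 : ℝ), 0 < η := self_mem_nhdsWithin
  obtain ⟨η, ⟨⟨⟨h1, h2⟩, h3⟩, h4⟩, h5⟩ := ((((g1.and g2).and g3).and g4).and g5).exists
  exact ⟨u, ε, η, hu, ⟨e0, e1⟩, h5, by linarith, h1, h2, by linarith⟩

theorem base_pos {u : ℂ} (hu : u ≠ 0) {ε : ℝ} (hε : Tiny u ε) (s : ℝ) :
    Pos MT (fun h => piS ε s (mc (1, 0) (0, 1) (GS u 0).y1 (GS u 0).y2 h)) := by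
  have h1 : (GS u 0).v1 = (1, 0) := rfl
  have h2 : (GS u 0).v2 = (0, 1) := rfl
  have := reach_pos hu (hε.small hu) s (Reach.start (σ0 := GS u 0))
    (by rw [h1, ha_10]; linarith [gold_hi]) (by rw [h2, ha_01]; norm_num)
  rw [h1, h2] at this
  exact this

/-- the base surface -/
noncomputable def X0 (u : ℂ) (ε : ℝ)
    (p : Pos MT (fun h => piS ε 0 (mc (1, 0) (0, 1) (GS u 0).y1 (GS u 0).y2 h))) : TriSurf :=
  (MD (1, 0) (0, 1) (GS u 0).y1 (GS u 0).y2 p).toTri

/-- every return close to the base surface happens in bounded time -/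
theorem no_return {u : ℂ} {ε η : ℝ} (P : Params u ε η)
    (p : Pos MT (fun h => piS ε 0 (mc (1, 0) (0, 1) (GS u 0).y1 (GS u 0).y2 h))) :
    ∃ V ∈ 𝓝 (toModuli (X0 u ε p)), ∀ s : ℝ, horo s (toModuli (X0 u ε p)) ∈ V → |s| ≤ 1 := by
  refine ⟨_, ball_mem_nhds (X0 u ε p) P.eta0, ?_⟩
  rintro s ⟨Y, ⟨w, hw, hclose, rfl⟩, hY⟩
  have hu := P.gen.1
  have p' := base_pos hu P.tiny s
  have e1 : horo s (toModuli (X0 u ε p)) =
      toModuli (MD (1, 0) (0, 1) (GS u 0).y1 (GS u 0).y2 p').toTri := by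
    change toModuli (actTri (uni s) (X0 u ε p)) = _
    congr 1
    refine triSurf_ext (T := MT) ?_ _ _
    funext h
    change lin (uni s) (piS ε 0 (mc (1, 0) (0, 1) (GS u 0).y1 (GS u 0).y2 h)) =
      piS ε s (mc (1, 0) (0, 1) (GS u 0).y1 (GS u 0).y2 h)
    rw [lin_uni, piS_apply, piS_apply]
    refine Prod.ext ?_ rfl
    simp only
    ring
  rw [e1] at hY
  have heq := toModuli_eq_iff.1 hY
  obtain ⟨⟨T, c, hc, hp⟩, hD1, hD2⟩ := (lift_eqv (π := piS ε s) heq).2
    (MD (1, 0) (0, 1) (GS u 0).y1 (GS u 0).y2 p') rfl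
  simp only [DSurf.toTri, X0, Sigma.mk.injEq] at hD1
  obtain ⟨rfl, hD1⟩ := hD1
  have hw' : (fun h => piS ε s (c h)) = w := congrArg Subtype.val (eq_of_heq hD1)
  refine core P (c := c) hc hp ?_ p' (Relation.EqvGen.symm _ _ hD2)
  intro h
  have := hclose h
  rw [← hw'] at this
  exact this.le

end Pool.Agent.H241
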