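import Pool.Agent.H241.Lift

/-!
# The model surfaces

A family of surfaces made of 32 triangles (genus 7, four zeros of order 3): the square-tiled
cyclic cover of the pillowcase of degree 8, with a deformation in the direction of one
eigenspace of the deck group.
-/

namespace Pool.Agent.H241

/-- half-edges of the model: a face, a side, a sheet -/
abbrev MH := Fin 4 × Fin 3 × ZMod 8

/-- next side -/
def mnxt : MH → MH
  | (f, 0, j) => (f, 1, j)
  | (f, 1, j) => (f, 2, j)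
  | (f, 2, j) => (f, 0, j)

/-- opposite side -/
def mopp : MH → MH
  | (0, 0, j) => (1, 0, j)
  | (0, 1, j) => (2, 1, j)
  | (0, 2, j) => (3, 2, j)
  | (1, 0, j) => (0, 0, j)
  | (1, 1, j) => (3, 1, j - 1)
  | (1, 2, j) => (2, 2, j + 1)
  | (2, 0, j) => (3, 0, j + 1)
  | (2, 1, j) => (0, 1, j)
  | (2, 2, j) => (1, 2, j - 1)
  | (3, 0, j) => (2, 0, j - 1)
  | (3, 1, j) => (1, 1, j + 1)
  | (3, 2, j) => (0, 2, j)

/-- case distinction on half-edges -/
theorem mh_cases (P : MH → Prop) (h00 : ∀ j, P (0, 0, j)) (h01 : ∀ j, P (0, 1, j))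
    (h02 : ∀ j, P (0, 2, j)) (h10 : ∀ j, P (1, 0, j)) (h11 : ∀ j, P (1, 1, j))
    (h12 : ∀ j, P (1, 2, j)) (h20 : ∀ j, P (2, 0, j)) (h21 : ∀ j, P (2, 1, j))
    (h22 : ∀ j, P (2, 2, j)) (h30 : ∀ j, P (3, 0, j)) (h31 : ∀ j, P (3, 1, j))
    (h32 : ∀ j, P (3, 2, j)) (h : MH) : P h := by
  obtain ⟨f, i, j⟩ := h
  fin_cases f <;> fin_cases i
  · exact h00 j
  · exact h01 j
  · exact h02 j
  · exact h10 j
  · exact h11 j
  · exact h12 j
  · exact h20 j
  · exact h21 j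
  · exact h22 j
  · exact h30 j
  · exact h31 j
  · exact h32 j

theorem mopp_mopp (h : MH) : mopp (mopp h) = h := by
  revert h
  apply mh_cases <;> intro j <;> simp [mopp]

theorem mnxt3 (h : MH) : mnxt (mnxt (mnxt h)) = h := by
  revert h
  apply mh_cases <;> intro j <;> rfl

theorem mconn (S : Set MH) (hS : S.Nonempty) (h1 : ∀ h ∈ S, mnxt h ∈ S)
    (h2 : ∀ h ∈ S, mopp h ∈ S) (h : MH) : h ∈ S := by
  -- all sides of a face
  have sides : ∀ f j, (∃ i, (f, i, j) ∈ S) → ∀ i, (f, i, j) ∈ S := by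
    rintro f j ⟨i, hi⟩ i'
    have a0 : ∀ i, (f, i, j) ∈ S → (f, i + 1, j) ∈ S := by
      intro i hi
      have := h1 _ hi
      fin_cases i <;> exact this
    have a1 : (f, i + 1, j) ∈ S := a0 _ hi
    have a2 : (f, i + 1 + 1, j) ∈ S := a0 _ a1
    have : ∀ i i' : Fin 3, i' = i ∨ i' = i + 1 ∨ i' = i + 1 + 1 := by decide
    rcases this i i' with h | h | h <;> rw [h]
    · exact hi
    · exact a1
    · exact a2
  have toZero : ∀ f j, (∃ i, (f, i, j) ∈ S) → (0, 0, j) ∈ S := by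
    intro f j hf
    have a := sides f j hf
    refine sides 0 j ?_ 0
    fin_cases f
    · exact ⟨0, a 0⟩
    · exact ⟨0, h2 _ (a 0)⟩
    · exact ⟨1, h2 _ (a 1)⟩
    · exact ⟨2, h2 _ (a 2)⟩
  have fromZero : ∀ f j, (0, 0, j) ∈ S → ∀ i, (f, i, j) ∈ S := by
    intro f j h0
    have a := sides 0 j ⟨0, h0⟩
    apply sides f j
    fin_cases f
    · exact ⟨0, a 0⟩
    · exact ⟨0, h2 _ (a 0)⟩
    · exact ⟨1, h2 _ (a 1)⟩
    · exact ⟨2, h2 _ (a 2)⟩
  have succ : ∀ j, (0, 0, j) ∈ S → (0, 0, j + 1) ∈ S := by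
    intro j hj
    exact toZero 2 (j + 1) ⟨2, h2 _ (fromZero 1 j hj 2)⟩
  have all : ∀ j j', (0, 0, j) ∈ S → (0, 0, j') ∈ S := by
    intro j j' hj
    have : ∀ k : ℕ, (0, 0, j + k) ∈ S := by
      intro k
      induction k with
      | zero => simpa using hj
      | succ k ih =>
        have := succ _ ih
        rwa [add_assoc, ← Nat.cast_succ] at this
    have h3 := this (j' - j).val
    rw [ZMod.natCast_val, ZMod.cast_id', id] at h3
    simpa using h3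
  obtain ⟨⟨f0, i0, j0⟩, h0⟩ := hS
  obtain ⟨f, i, j⟩ := h
  exact fromZero f j (all j0 j (toZero f0 j0 ⟨i0, h0⟩)) i

/-- the combinatorial type of the model surfaces -/
@[reducible] def MT : Comb where
  H := MH
  fin := inferInstance
  ne := ⟨(0, 0, 0)⟩
  nxt := mnxt
  opp := mopp
  nxt3 := mnxt3
  opp2 := mopp_mopp
  conn := mconn

/-- the primitive eighth root of unity `exp (π i / 4)` -/
noncomputable def s8 : ℂ := ⟨√2 / 2, √2 / 2⟩

/-- its inverse -/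
noncomputable def t8 : ℂ := ⟨√2 / 2, -(√2 / 2)⟩

theorem sqrt2_sq : √2 * √2 = (2 : ℝ) := Real.mul_self_sqrt (by norm_num)

theorem s8_mul_t8 : s8 * t8 = 1 := by
  have := sqrt2_sq
  apply Complex.ext <;> simp [s8, t8] <;> nlinarith

theorem s8_sq : s8 * s8 = Complex.I := by
  have := sqrt2_sq
  apply Complex.ext <;> simp [s8] <;> nlinarith

theorem s8_pow4 : s8 ^ 4 = -1 := by
  have : s8 ^ 4 = (s8 * s8) * (s8 * s8) := by ring
  rw [this, s8_sq, Complex.I_mul_I]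

theorem t8_pow4 : t8 ^ 4 = -1 := by
  have : (s8 * t8) ^ 4 = 1 := by rw [s8_mul_t8, one_pow]
  rw [mul_pow, s8_pow4] at this
  linear_combination -this

/-- powers of `- t8 = exp (3 π i / 4)`, indexed by the sheets -/
noncomputable def xp (j : ZMod 8) : ℂ := (- t8) ^ j.val

theorem xp_succ (j : ZMod 8) : xp (j + 1) = - t8 * xp j := by
  have h8 : (- t8) ^ 8 = 1 := by
    have : (- t8) ^ 8 = (t8 ^ 4) ^ 2 := by ring
    rw [this, t8_pow4]; norm_num
  fin_cases j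
  · change (- t8) ^ 1 = - t8 * (- t8) ^ 0; ring
  · change (- t8) ^ 2 = - t8 * (- t8) ^ 1; ring
  · change (- t8) ^ 3 = - t8 * (- t8) ^ 2; ring
  · change (- t8) ^ 4 = - t8 * (- t8) ^ 3; ring
  · change (- t8) ^ 5 = - t8 * (- t8) ^ 4; ring
  · change (- t8) ^ 6 = - t8 * (- t8) ^ 5; ring
  · change (- t8) ^ 7 = - t8 * (- t8) ^ 6; ring
  · change (- t8) ^ 0 = - t8 * (- t8) ^ 7
    rw [← pow_succ', h8, pow_zero]

theorem xp_pred (j : ZMod 8) : xp (j - 1) = - s8 * xp j := by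
  have := xp_succ (j - 1)
  rw [sub_add_cancel] at this
  rw [this]
  have h := s8_mul_t8
  linear_combination - xp (j - 1) * h

/-- the parity sign of a sheet -/
def sgj (j : ZMod 8) : ℤ := if j.val % 2 = 0 then 1 else -1

theorem sgj_succ (j : ZMod 8) : sgj (j + 1) = - sgj j := by
  revert j; decide

theorem sgj_pred (j : ZMod 8) : sgj (j - 1) = - sgj j := by
  revert j; decide

/-- lattice vector and deformation parameter of every half-edge -/
noncomputable def mc (v1 v2 : ℤ × ℤ) (y1 y2 : ℂ) : MH → (ℤ × ℤ) × ℂ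
  | (0, 0, j) => (sgj j • (-(v1 + v2)), xp j * (y2 + s8 * y1))
  | (0, 1, j) => (sgj j • v1, xp j * (-(y1 + y2) + s8 * y2))
  | (0, 2, j) => (sgj j • v2, xp j * (y1 - s8 * (y1 + y2)))
  | (1, 0, j) => ((-sgj j) • (-(v1 + v2)), xp j * (-(y2 + s8 * y1)))
  | (1, 1, j) => ((-sgj j) • v1, xp j * (s8 * y1))
  | (1, 2, j) => ((-sgj j) • v2, xp j * y2)
  | (2, 0, j) => ((-sgj j) • (-(v1 + v2)), xp j * (-(y1 + y2)))
  | (2, 1, j) => ((-sgj j) • v1, xp j * (-(-(y1 + y2) + s8 * y2)))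
  | (2, 2, j) => ((-sgj j) • v2, xp j * (s8 * y2))
  | (3, 0, j) => ((-sgj j) • (-(v1 + v2)), xp j * (- s8 * (y1 + y2)))
  | (3, 1, j) => ((-sgj j) • v1, xp j * y1)
  | (3, 2, j) => ((-sgj j) • v2, xp j * (-(y1 - s8 * (y1 + y2))))

theorem mc_coc (v1 v2 : ℤ × ℤ) (y1 y2 : ℂ) : IsCoc MT (mc v1 v2 y1 y2) := by
  have hs := s8_mul_t8
  refine ⟨(?_ : ∀ h : MH, mc v1 v2 y1 y2 (mopp h) = - mc v1 v2 y1 y2 h),
    (?_ : ∀ h : MH, mc v1 v2 y1 y2 h + mc v1 v2 y1 y2 (mnxt h) +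
      mc v1 v2 y1 y2 (mnxt (mnxt h)) = 0)⟩
  · apply mh_cases <;> intro j <;> refine Prod.ext ?_ ?_ <;>
      simp only [mc, mopp, xp_succ, xp_pred, sgj_succ, sgj_pred, Prod.fst_neg,
        Prod.snd_neg]
    all_goals first
      | module
      | ring1
      | linear_combination (-(xp j * y2)) * hs
      | linear_combination (xp j * (y1 + y2)) * hs
      | linear_combination (-(xp j * y1)) * hs
  · apply mh_cases <;> intro j <;> refine Prod.ext ?_ ?_ <;>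
      simp only [mc, mnxt, Prod.fst_add, Prod.snd_add, Prod.fst_zero, Prod.snd_zero]
    all_goals first
      | module
      | ring1

/-- the half-edges of type `i` -/
def Fi (i : Fin 3) : Set MH := {h | h.2.1 = i}

theorem Fi_adm (i : Fin 3) : Adm MT (Fi i) := by
  refine ⟨(?_ : ∀ h : MH, h.2.1 = i → (mopp h).2.1 = i),
    (?_ : ∀ h : MH, h.2.1 = i → ¬ (mnxt h).2.1 = i),
    (?_ : ∀ h : MH, h.2.1 = i → ¬ (mnxt (mnxt h)).2.1 = i)⟩
  · apply mh_cases <;> intro j h <;> exact h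
  · apply mh_cases <;> rintro j rfl <;> simp [mnxt]
  · apply mh_cases <;> rintro j rfl <;> simp [mnxt]

/-- relabelling after flipping the edges of type 1 -/
def eA : MH → MH
  | (0, 0, j) => (2, 1, j)
  | (0, 1, j) => (2, 0, j)
  | (0, 2, j) => (3, 2, j + 1)
  | (1, 0, j) => (0, 1, j)
  | (1, 1, j) => (0, 0, j)
  | (1, 2, j) => (1, 2, j)
  | (2, 0, j) => (3, 1, j + 1)
  | (2, 1, j) => (3, 0, j + 1)
  | (2, 2, j) => (2, 2, j)
  | (3, 0, j) => (1, 1, j + 1)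
  | (3, 1, j) => (1, 0, j + 1)
  | (3, 2, j) => (0, 2, j + 1)

/-- the inverse of `eA` -/
def eA' : MH → MH
  | (2, 1, j) => (0, 0, j)
  | (2, 0, j) => (0, 1, j)
  | (3, 2, j) => (0, 2, j - 1)
  | (0, 1, j) => (1, 0, j)
  | (0, 0, j) => (1, 1, j)
  | (1, 2, j) => (1, 2, j)
  | (3, 1, j) => (2, 0, j - 1)
  | (3, 0, j) => (2, 1, j - 1)
  | (2, 2, j) => (2, 2, j)
  | (1, 1, j) => (3, 0, j - 1)
  | (1, 0, j) => (3, 1, j - 1)
  | (0, 2, j) => (3, 2, j - 1)

/-- `eA` as an equivalence -/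
def eqA : MH ≃ MH where
  toFun := eA
  invFun := eA'
  left_inv h := by
    revert h
    apply mh_cases <;> intro j <;> simp [eA, eA']
  right_inv h := by
    revert h
    apply mh_cases <;> intro j <;> simp [eA, eA']

/-- relabelling after flipping the edges of type 2 -/
def eB : MH → MH
  | (0, 0, j) => (3, 2, j)
  | (0, 1, j) => (2, 1, j - 1)
  | (0, 2, j) => (2, 0, j - 1)
  | (1, 0, j) => (0, 2, j)
  | (1, 1, j) => (1, 1, j)
  | (1, 2, j) => (1, 0, j)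
  | (2, 0, j) => (1, 2, j - 1)
  | (2, 1, j) => (0, 1, j - 1)
  | (2, 2, j) => (0, 0, j - 1)
  | (3, 0, j) => (2, 2, j - 1)
  | (3, 1, j) => (3, 1, j)
  | (3, 2, j) => (3, 0, j)

/-- the inverse of `eB` -/
def eB' : MH → MH
  | (3, 2, j) => (0, 0, j)
  | (2, 1, j) => (0, 1, j + 1)
  | (2, 0, j) => (0, 2, j + 1)
  | (0, 2, j) => (1, 0, j)
  | (1, 1, j) => (1, 1, j)
  | (1, 0, j) => (1, 2, j)
  | (1, 2, j) => (2, 0, j + 1)
  | (0, 1, j) => (2, 1, j + 1)
  | (0, 0, j) => (2, 2, j + 1)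
  | (2, 2, j) => (3, 0, j + 1)
  | (3, 1, j) => (3, 1, j)
  | (3, 0, j) => (3, 2, j)

/-- `eB` as an equivalence -/
def eqB : MH ≃ MH where
  toFun := eB
  invFun := eB'
  left_inv h := by
    revert h
    apply mh_cases <;> intro j <;> simp [eB, eB']
  right_inv h := by
    revert h
    apply mh_cases <;> intro j <;> simp [eB, eB']

theorem flipNxt_Fi (k : Fin 3) (h : MH) : flipNxt MT (Fi k) h =
    if h.2.1 = k then mnxt (mnxt h)
    else if (mnxt h).2.1 = k then mnxt (mopp (mnxt h))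
    else if (mnxt (mnxt h)).2.1 = k then mopp (mnxt (mnxt h))
    else mnxt h := by
  classical
  unfold flipNxt
  exact if_congr Iff.rfl rfl (if_congr Iff.rfl rfl (if_congr Iff.rfl rfl rfl))

theorem flipC_Fi {A : Type*} [AddCommGroup A] (k : Fin 3) (c : MH → A) (h : MH) :
    flipC MT (Fi k) c h =
    if h.2.1 = k then c (mnxt (mnxt (mopp h))) + c (mnxt h) else c h := by
  classical
  unfold flipC
  exact if_congr Iff.rfl rfl rfl

theorem eA_nxt (h : MH) : eA (flipNxt MT (Fi 1) h) = mnxt (eA h) := by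
  rw [flipNxt_Fi]
  revert h
  apply mh_cases <;> intro j <;> simp [mnxt, mopp, eA]

theorem eA_opp (h : MH) : eA (mopp h) = mopp (eA h) := by
  revert h
  apply mh_cases <;> intro j <;> simp [mopp, eA]

theorem eB_nxt (h : MH) : eB (flipNxt MT (Fi 2) h) = mnxt (eB h) := by
  rw [flipNxt_Fi]
  revert h
  apply mh_cases <;> intro j <;> simp [mnxt, mopp, eB]

theorem eB_opp (h : MH) : eB (mopp h) = mopp (eB h) := by
  revert h
  apply mh_cases <;> intro j <;> simp [mopp, eB]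

theorem s8_ne : s8 ≠ 0 := left_ne_zero_of_mul_eq_one s8_mul_t8

theorem t8_eq : t8 = s8⁻¹ := eq_inv_of_mul_eq_one_right s8_mul_t8

theorem eA_c (v1 v2 : ℤ × ℤ) (y1 y2 : ℂ) (h : MH) :
    mc (v1 + v2) v2 (s8 * (y1 + y2)) y2 (eA h) = flipC MT (Fi 1) (mc v1 v2 y1 y2) h := by
  rw [flipC_Fi]
  have hs := s8_ne
  have d1 : ¬ ((0 : Fin 3) = 1) := by decide
  have d2 : ¬ ((2 : Fin 3) = 1) := by decide
  revert h
  apply mh_cases <;> intro j <;> refine Prod.ext ?_ ?_ <;>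
    simp only [mnxt, mopp, eA, mc, xp_succ, xp_pred, sgj_succ, sgj_pred, d1, d2, if_true,
      if_false, Prod.fst_add, Prod.snd_add]
  all_goals first
    | module
    | ring1
    | (rw [t8_eq]; field_simp; done)
    | (rw [t8_eq]; field_simp; ring1)

theorem eB_c (v1 v2 : ℤ × ℤ) (y1 y2 : ℂ) (h : MH) :
    mc v1 (v1 + v2) y1 (t8 * (y1 + y2)) (eB h) = flipC MT (Fi 2) (mc v1 v2 y1 y2) h := by
  rw [flipC_Fi]
  have hs := s8_ne
  have d1 : ¬ ((0 : Fin 3) = 2) := by decide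
  have d2 : ¬ ((1 : Fin 3) = 2) := by decide
  revert h
  apply mh_cases <;> intro j <;> refine Prod.ext ?_ ?_ <;>
    simp only [mnxt, mopp, eB, mc, xp_succ, xp_pred, sgj_succ, sgj_pred, d1, d2, if_true,
      if_false, Prod.fst_add, Prod.snd_add]
  all_goals first
    | module
    | ring1
    | (rw [t8_eq]; field_simp; done)
    | (rw [t8_eq]; field_simp; ring1)

variable {π : (ℤ × ℤ) × ℂ →+ ℝ × ℝ}

/-- the model surface with its data -/
noncomputable def MD (v1 v2 : ℤ × ℤ) (y1 y2 : ℂ) (p : Pos MT (fun h => π (mc v1 v2 y1 y2 h))) :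
    DSurf π :=
  ⟨MT, mc v1 v2 y1 y2, mc_coc v1 v2 y1 y2, p⟩

theorem moveA (v1 v2 : ℤ × ℤ) (y1 y2 : ℂ) (p : Pos MT (fun h => π (mc v1 v2 y1 y2 h)))
    (p' : Pos MT (fun h => π (mc (v1 + v2) v2 (s8 * (y1 + y2)) y2 h))) :
    Relation.EqvGen (DStep π) (MD v1 v2 y1 y2 p) (MD (v1 + v2) v2 (s8 * (y1 + y2)) y2 p') := by
  have hpos : Pos (flip MT (Fi 1) (Fi_adm 1))
      (fun h => π (flipC MT (Fi 1) (mc v1 v2 y1 y2) h)) := by
    intro h
    change 0 < det (π (flipC MT (Fi 1) (mc v1 v2 y1 y2) h))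
      (π (flipC MT (Fi 1) (mc v1 v2 y1 y2) (flipNxt MT (Fi 1) h)))
    rw [← eA_c, ← eA_c, eA_nxt]
    exact p' (eA h)
  refine (Relation.EqvGen.rel _ _ (DStep.flip (MD v1 v2 y1 y2 p) (Fi 1) (Fi_adm 1)
    hpos)).trans _ _ _ (Relation.EqvGen.rel _ _ ?_)
  exact DStep.relabel _ _ eqA eA_nxt eA_opp (eA_c v1 v2 y1 y2)

theorem moveB (v1 v2 : ℤ × ℤ) (y1 y2 : ℂ) (p : Pos MT (fun h => π (mc v1 v2 y1 y2 h)))
    (p' : Pos MT (fun h => π (mc v1 (v1 + v2) y1 (t8 * (y1 + y2)) h))) :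
    Relation.EqvGen (DStep π) (MD v1 v2 y1 y2 p) (MD v1 (v1 + v2) y1 (t8 * (y1 + y2)) p') := by
  have hpos : Pos (flip MT (Fi 2) (Fi_adm 2))
      (fun h => π (flipC MT (Fi 2) (mc v1 v2 y1 y2) h)) := by
    intro h
    change 0 < det (π (flipC MT (Fi 2) (mc v1 v2 y1 y2) h))
      (π (flipC MT (Fi 2) (mc v1 v2 y1 y2) (flipNxt MT (Fi 2) h)))
    rw [← eB_c, ← eB_c, eB_nxt]
    exact p' (eB h)
  refine (Relation.EqvGen.rel _ _ (DStep.flip (MD v1 v2 y1 y2 p) (Fi 2) (Fi_adm 2)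
    hpos)).trans _ _ _ (Relation.EqvGen.rel _ _ ?_)
  exact DStep.relabel _ _ eqB eB_nxt eB_opp (eB_c v1 v2 y1 y2)

end Pool.Agent.H241
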