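import Pool.Agent.H241.Strata
import Pool.Agent.H241.Main

/-!
# The base surface lies in the stratum with four zeros of order 3
-/

namespace Pool.Agent.H241

open Topology

/-- the vertex of a half-edge of the model -/
def vt : MH → Fin 4
  | (0, 0, _) => 0
  | (3, 2, _) => 0
  | (1, 1, _) => 0
  | (0, 1, _) => 1
  | (1, 0, _) => 1
  | (2, 2, _) => 1
  | (0, 2, _) => 2
  | (2, 1, _) => 2
  | (3, 0, _) => 2
  | (1, 2, _) => 3
  | (3, 1, _) => 3
  | (2, 0, _) => 3

/-- rotation in the model -/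
def mrot (h : MH) : MH := mopp (mnxt (mnxt h))

theorem vt_rot (h : MH) : vt (mrot h) = vt h := by
  revert h
  apply mh_cases <;> intro j <;> rfl

/-- representatives -/
def rep : Fin 4 → MH
  | 0 => (0, 0, 0)
  | 1 => (0, 1, 0)
  | 2 => (0, 2, 0)
  | 3 => (1, 2, 0)

theorem src_rot (h : MH) : src MT (mrot h) = src MT h :=
  (Quot.sound (r := fun h k : MT.H => k = rot MT h) rfl).symm

theorem src_iter (n : ℕ) (h : MH) : src MT (mrot^[n] h) = src MT h := by
  induction n with
  | zero => rfl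
  | succ n ih => rw [Function.iterate_succ_apply', src_rot, ih]

/-- going around a vertex -/
theorem src_shift (f : Fin 4) (i : Fin 3) (j d : ZMod 8) (h : ∀ j, mrot^[3] (f, i, j) = (f, i, j + d))
    (hd : d = 1 ∨ d = 5) : src MT (f, i, j) = src MT (f, i, 0) := by
  have h1 : ∀ (n : ℕ) (j : ZMod 8), src MT (f, i, j + n * d) = src MT (f, i, j) := by
    intro n j
    induction n with
    | zero => simp
    | succ n ih =>
      rw [← ih, ← src_iter 3 (f, i, j + n * d), h]
      congr 3
      push_cast; ring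
  have h2 : ∃ n : ℕ, (0 : ZMod 8) + n * d = j := by
    rcases hd with rfl | rfl
    · refine ⟨j.val, ?_⟩
      rw [ZMod.natCast_val, ZMod.cast_id', id]; ring
    · refine ⟨(5 * j).val, ?_⟩
      rw [ZMod.natCast_val, ZMod.cast_id', id]
      have : (25 : ZMod 8) = 1 := by decide
      linear_combination j * this
  obtain ⟨n, hn⟩ := h2
  rw [← hn, h1]

theorem src_eq (h : MH) : src MT h = src MT (rep (vt h)) := by
  have A0 : ∀ j, src MT (0, 0, j) = src MT (0, 0, 0) := fun j =>
    src_shift 0 0 j 1 (fun j => by simp [mrot, mopp, mnxt]) (Or.inl rfl)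
  have A1 : ∀ j, src MT (0, 1, j) = src MT (0, 1, 0) := fun j =>
    src_shift 0 1 j 1 (fun j => by simp [mrot, mopp, mnxt]) (Or.inl rfl)
  have A2 : ∀ j, src MT (0, 2, j) = src MT (0, 2, 0) := fun j =>
    src_shift 0 2 j 1 (fun j => by simp [mrot, mopp, mnxt]) (Or.inl rfl)
  have A3 : ∀ j, src MT (1, 2, j) = src MT (1, 2, 0) := fun j =>
    src_shift 1 2 j 5 (fun j => by
      simp only [mrot, mopp, mnxt, Function.iterate_succ, Function.iterate_zero,
        Function.comp, id]
      have : (5 : ZMod 8) = -3 := by decide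
      rw [this]; ring_nf) (Or.inr rfl)
  revert h
  apply mh_cases <;> intro j
  · exact A0 j
  · exact A1 j
  · exact A2 j
  · rw [← src_iter 2 (1, 0, j)]; exact A1 (j + 1)
  · rw [← src_iter 1 (1, 1, j)]; exact A0 j
  · exact A3 j
  · rw [← src_iter 1 (2, 0, j)]; exact A3 (j - 1)
  · rw [← src_iter 2 (2, 1, j)]; exact A2 (j + 1)
  · rw [← src_iter 1 (2, 2, j)]; exact A1 j
  · rw [← src_iter 1 (3, 0, j)]; exact A2 j
  · rw [← src_iter 2 (3, 1, j)]; exact A3 _
  · rw [← src_iter 2 (3, 2, j)]; exact A0 (j + 1)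

theorem vt_rep (i : Fin 4) : vt (rep i) = i := by
  revert i; decide

theorem src_iff (h k : MH) : src MT h = src MT k ↔ vt h = vt k := by
  constructor
  · intro e
    exact congrArg (Quot.lift vt (fun a b hab => by rw [hab]; exact (vt_rot a).symm)) e
  · intro e
    rw [src_eq h, src_eq k, e]

/-- the vertices of the model -/
noncomputable def vertEquiv : Vert MT ≃ Fin 4 where
  toFun := Quot.lift vt (fun a b hab => by rw [hab]; exact (vt_rot a).symm)
  invFun i := src MT (rep i)
  left_inv v := by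
    induction v using Quot.ind with
    | mk h => exact (src_eq h).symm
  right_inv i := vt_rep i

/-- positivity of the height -/
def ps (h : MH) : Bool := decide (0 < (z0 h).1 + (z0 h).2)

theorem ps_iff (h : MH) : (0 < ha (z0 h) ↔ ps h = true) ∧ (ha (z0 h) ≤ 0 ↔ ps h = false) := by
  have := gold_lo
  rcases z0_cases h with ⟨a, -⟩ | ⟨a, -⟩ | ⟨a, -⟩ | ⟨a, -⟩ | ⟨a, -⟩ | ⟨a, -⟩ <;>
    simp only [ps, a, ha] <;> push_cast <;> constructor <;> constructor <;> intro h <;>
    first
      | rfl
      | linarith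
      | exact absurd h (by decide)

theorem card_ps : ∀ i : Fin 4,
    Fintype.card {h : MH // vt h = i ∧ ps h = false ∧ ps (mrot h) = true} = 4 := by
  decide

theorem X0_index {u : ℂ} {ε : ℝ}
    (p : Pos MT (fun h => piS ε 0 (mc (1, 0) (0, 1) (GS u 0).y1 (GS u 0).y2 h)))
    (v : Vert (X0 u ε p).1) : coneIndex (X0 u ε p) v = 4 := by
  have hs : ∀ h : MH, ((X0 u ε p).2.1 h).2 = ha (z0 h) := by
    intro h
    change (piS ε 0 (mc (1, 0) (0, 1) (GS u 0).y1 (GS u 0).y2 h)).2 = _
    rw [piS_apply]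
    have := c0_fst u h
    unfold c0 at this
    rw [this]
  have e : ∀ h : MH, ((src MT h = v ∧ ((X0 u ε p).2.1 h).2 ≤ 0 ∧
      0 < ((X0 u ε p).2.1 (rot (X0 u ε p).1 h)).2) ↔
      (vt h = vertEquiv v ∧ ps h = false ∧ ps (mrot h) = true)) := by
    intro h
    rw [hs h, (ps_iff h).2]
    have h2 : ((X0 u ε p).2.1 (rot (X0 u ε p).1 h)).2 = ha (z0 (mrot h)) := hs (mrot h)
    rw [h2, (ps_iff (mrot h)).1]
    have h3 : src MT h = v ↔ vt h = vertEquiv v := by
      constructor
      · rintro rfl; rfl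
      · intro h4
        have : vertEquiv (src MT h) = vertEquiv v := h4
        exact vertEquiv.injective this
    rw [h3]
  unfold coneIndex
  have e2 : Nat.card {h : MH // src MT h = v ∧ ((X0 u ε p).2.1 h).2 ≤ 0 ∧
      0 < ((X0 u ε p).2.1 (rot (X0 u ε p).1 h)).2} =
      Nat.card {h : MH // vt h = vertEquiv v ∧ ps h = false ∧ ps (mrot h) = true} :=
    Nat.card_congr (Equiv.subtypeEquivRight e)
  refine Eq.trans e2 ?_
  rw [Nat.card_eq_fintype_card]
  exact card_ps _

theorem X0_orders {u : ℂ} {ε : ℝ}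
    (p : Pos MT (fun h => piS ε 0 (mc (1, 0) (0, 1) (GS u 0).y1 (GS u 0).y2 h))) :
    orders (X0 u ε p) = {3, 3, 3, 3} := by
  have h4 : ∀ i : Fintype (Vert (X0 u ε p).1), (@Finset.univ (Vert (X0 u ε p).1) i).val.card = 4 := by
    intro i
    rw [Finset.card_val, Finset.card_univ, ← Nat.card_eq_fintype_card]
    have : Nat.card (Vert MT) = 4 := by
      rw [Nat.card_congr vertEquiv]; simp
    exact this
  unfold orders
  simp only [X0_index]
  rw [Multiset.map_const', h4]
  rfl

/-- There is a translation surface with four zeros of order 3 which does not return close to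
itself along its horocycle. -/
theorem main : ∃ x ∈ stratum {3, 3, 3, 3}, ∃ V ∈ 𝓝 x, ∀ s : ℝ, horo s x ∈ V → |s| ≤ 1 := by
  obtain ⟨u, ε, η, P⟩ := exists_params
  have p := base_pos P.gen.1 P.tiny 0
  exact ⟨toModuli (X0 u ε p), X0_orders p, no_return P p⟩

end Pool.Agent.H241
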