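import Pool.Agent.H683.SC.Stm

/-!
# Validity of the program (statement `S_VALP` of helper683)
-/

set_option autoImplicit false

namespace Pool.Agent.H241.SCVALP

open Pool.Agent.H683.SC

/-- Validity of high-level programs. -/
def HV (k : ℕ) : List ℕ → List Hc → Prop
  | _, [] => True
  | crt, (true, a, b) :: hs => a < k ∧ b ∈ crt ∧ a ≠ b ∧ HV k (a :: crt) hs
  | crt, (false, a, b) :: hs => a ∈ crt ∧ b ∈ crt ∧ a ≠ b ∧ HV k crt hs

theorem hv_low (k : ℕ) (hs : List Hc) : ∀ crt : List ℕ, HV k crt hs → ValL k crt (low hs) := by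
  induction hs with
  | nil => intro crt _; trivial
  | cons h hs ih =>
    obtain ⟨x, a, b⟩ := h
    intro crt hh
    cases x with
    | true =>
      obtain ⟨h1, h2, h3, h4⟩ := hh
      show a < k ∧ (a ∈ a :: crt ∧ b ∈ a :: crt ∧ a ≠ b ∧ ValL k (a :: crt) (low hs))
      exact ⟨h1, List.mem_cons_self, List.mem_cons_of_mem _ h2, h3, ih _ h4⟩
    | false =>
      obtain ⟨h1, h2, h3, h4⟩ := hh
      show a ∈ crt ∧ b ∈ crt ∧ a ≠ b ∧ ValL k crt (low hs)
      exact ⟨h1, h2, h3, ih _ h4⟩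

theorem hv_ne (k : ℕ) (hs : List Hc) : ∀ crt : List ℕ, HV k crt hs → ∀ h ∈ hs, h.2.1 ≠ h.2.2 := by
  induction hs with
  | nil => intro crt _ h hh; cases hh
  | cons h hs ih =>
    obtain ⟨x, a, b⟩ := h
    intro crt hh h' hm
    rcases List.mem_cons.1 hm with rfl | hm'
    · cases x with
      | true => exact hh.2.2.1
      | false => exact hh.2.2.1
    · cases x with
      | true => exact ih _ hh.2.2.2 h' hm'
      | false => exact ih _ hh.2.2.2 h' hm'

theorem hv_append (k : ℕ) (hs' : List Hc) (hs : List Hc) : ∀ crt : List ℕ, HV k crt hs →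
    (∀ crt' : List ℕ, (∀ x ∈ crt, x ∈ crt') → (∀ h ∈ hs, h.1 = true → h.2.1 ∈ crt') →
      HV k crt' hs') → HV k crt (hs ++ hs') := by
  induction hs with
  | nil =>
    intro crt _ h
    exact h crt (fun _ hx => hx) (fun h hh => by cases hh)
  | cons h hs ih =>
    obtain ⟨x, a, b⟩ := h
    intro crt hh h'
    cases x with
    | true =>
      obtain ⟨h1, h2, h3, h4⟩ := hh
      refine ⟨h1, h2, h3, ih _ h4 fun crt' k1 k2 => h' crt'
        (fun x hx => k1 x (List.mem_cons_of_mem _ hx)) fun h hm ht => ?_⟩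
      rcases List.mem_cons.1 hm with rfl | hm
      · exact k1 a List.mem_cons_self
      · exact k2 h hm ht
    | false =>
      obtain ⟨h1, h2, h3, h4⟩ := hh
      refine ⟨h1, h2, h3, ih _ h4 fun crt' k1 k2 => h' crt' k1 fun h hm ht => ?_⟩
      rcases List.mem_cons.1 hm with rfl | hm
      · cases ht
      · exact k2 h hm ht

theorem hv_simple (k : ℕ) (hs : List Hc) : ∀ crt : List ℕ,
    (∀ h ∈ hs, (h.1 = true → h.2.1 < k) ∧ (h.1 = false → h.2.1 ∈ crt) ∧ h.2.2 ∈ crt ∧
      h.2.1 ≠ h.2.2) → HV k crt hs := by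
  induction hs with
  | nil => intro crt _; trivial
  | cons h hs ih =>
    obtain ⟨x, a, b⟩ := h
    intro crt hh
    obtain ⟨k1, k2, k3, k4⟩ := hh _ List.mem_cons_self
    cases x with
    | true =>
      refine ⟨k1 rfl, k3, k4, ih _ fun h hm => ?_⟩
      obtain ⟨l1, l2, l3, l4⟩ := hh h (List.mem_cons_of_mem _ hm)
      exact ⟨l1, fun ht => List.mem_cons_of_mem _ (l2 ht), List.mem_cons_of_mem _ l3, l4⟩
    | false =>
      exact ⟨k2 rfl, k3, k4, ih _ fun h hm => hh h (List.mem_cons_of_mem _ hm)⟩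

theorem pal_succ (K : ℕ) : pal (K + 1) = pal K ++ ((true, K + 1, 0) :: (List.range K).map
    fun d => (false, K + 1, d + 1)) := by
  simp [pal, List.range_succ, List.flatMap_append]

theorem pal_mem {K c : ℕ} (h : c < K) : ((true, c + 1, 0) : Hc) ∈ pal K := by
  unfold pal
  rw [List.mem_flatMap]
  exact ⟨c, List.mem_range.2 h, List.mem_cons_self⟩

theorem hv_pal (k K : ℕ) : ∀ crt : List ℕ, 0 ∈ crt → K < k → HV k crt (pal K) := by
  induction K with
  | zero => intro crt _ _; trivial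
  | succ K ih =>
    intro crt h0 hK
    rw [pal_succ]
    refine hv_append k _ _ crt (ih crt h0 (by omega)) fun crt' k1 k2 => ?_
    refine ⟨hK, k1 0 h0, by omega, hv_simple k _ _ fun h hm => ?_⟩
    rw [List.mem_map] at hm
    obtain ⟨d, hd, rfl⟩ := hm
    have hd' : d < K := List.mem_range.1 hd
    refine ⟨(fun h => by cases h), fun _ => List.mem_cons_self, List.mem_cons_of_mem _ ?_, ?_⟩
    · exact k2 _ (pal_mem hd') rfl
    · show K + 1 ≠ d + 1
      omega

theorem hv_rws (k K g : ℕ) (crt : List ℕ) (h0 : 0 ∈ crt) (hk : K + g < k) :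
    HV k crt (rws K g) := by
  refine hv_simple k _ _ fun h hm => ?_
  unfold rws at hm
  rw [List.mem_map] at hm
  obtain ⟨i, hi, rfl⟩ := hm
  have hi' : i < g := List.mem_range.1 hi
  refine ⟨fun _ => ?_, (fun h => by cases h), h0, ?_⟩
  · show K + 1 + i < k
    omega
  · show K + 1 + i ≠ 0
    omega

theorem hv_oth (k K X a : ℕ) (crt : List ℕ) (hX : X ∈ crt) (hKX : K < X)
    (hc : ∀ c < K, c + 1 ∈ crt) : HV k crt (oth K X a) := by
  refine hv_simple k _ _ fun h hm => ?_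
  unfold oth at hm
  rw [List.mem_map] at hm
  obtain ⟨c, hc', rfl⟩ := hm
  have hcK : c < K := List.mem_range.1 (List.mem_filter.1 hc').1
  refine ⟨(fun h => by cases h), fun _ => hX, hc c hcK, ?_⟩
  show X ≠ c + 1
  omega

theorem hv_gad (k K g : ℕ) (f : (ℕ × ℕ) × (ℕ × ℕ)) (h1 : f.1.1 < g) (h2 : f.2.1 < g)
    (hk : K + g + 2 < k) (crt : List ℕ) (hc : ∀ c < K, c + 1 ∈ crt)
    (hr : ∀ i < g, K + 1 + i ∈ crt) : HV k crt (gad K g f) := by
  unfold gad
  refine ⟨by omega, hr _ h1, by omega, ?_⟩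
  refine hv_append k _ _ _ (hv_oth k K _ _ _ List.mem_cons_self (by omega)
    fun c hcK => List.mem_cons_of_mem _ (hc c hcK)) fun crt' k1 _ => ?_
  refine ⟨by omega, k1 _ (List.mem_cons_of_mem _ (hr _ h2)), by omega, ?_⟩
  refine hv_append k _ _ _ (hv_oth k K _ _ _ List.mem_cons_self (by omega)
    fun c hcK => List.mem_cons_of_mem _ (k1 _ (List.mem_cons_of_mem _ (hc c hcK))))
    fun crt'' k3 _ => ?_
  refine ⟨k3 _ (List.mem_cons_of_mem _ (k1 _ List.mem_cons_self)), k3 _ List.mem_cons_self,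
    by omega, trivial⟩

theorem hv_cf (k K g : ℕ) (hk : K + g + 2 < k) (cf : List ((ℕ × ℕ) × (ℕ × ℕ))) :
    (∀ f ∈ cf, f.1.1 < g ∧ f.2.1 < g) → ∀ crt : List ℕ, (∀ c < K, c + 1 ∈ crt) →
    (∀ i < g, K + 1 + i ∈ crt) → HV k crt (cf.flatMap (gad K g)) := by
  induction cf with
  | nil => intro _ crt _ _; trivial
  | cons f cf ih =>
    intro hf crt hc hr
    rw [List.flatMap_cons]
    obtain ⟨h1, h2⟩ := hf f List.mem_cons_self
    exact hv_append k _ _ _ (hv_gad k K g f h1 h2 hk crt hc hr) fun crt' k1 _ =>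
      ih (fun f hm => hf f (List.mem_cons_of_mem _ hm)) crt' (fun c h => k1 _ (hc c h))
        fun i h => k1 _ (hr i h)

theorem VALP : S_VALP := by
  intro K g cf hcf
  have key : HV (K + g + 3) [0] (prog K g cf) := by
    unfold prog
    refine hv_append _ _ _ _ (hv_pal _ K [0] List.mem_cons_self (by omega)) fun crt k1 k2 => ?_
    have hc : ∀ c < K, c + 1 ∈ crt := fun c h => k2 _ (pal_mem h) rfl
    refine hv_append _ _ _ _ (hv_rws _ K g crt (k1 0 List.mem_cons_self) (by omega))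
      fun crt' k3 k4 => ?_
    refine hv_cf _ K g (by omega) cf (fun f hf => ⟨(hcf f hf).1, (hcf f hf).2.1⟩) crt'
      (fun c h => k3 _ (hc c h)) fun i h => ?_
    have hm : ((true, K + 1 + i, 0) : Hc) ∈ rws K g := by
      unfold rws
      rw [List.mem_map]
      exact ⟨i, List.mem_range.2 h, rfl⟩
    exact k4 _ hm rfl
  exact ⟨hv_ne _ _ _ key, hv_low _ _ _ key⟩

end Pool.Agent.H241.SCVALP
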